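import Mathlib

set_option autoImplicit false

open scoped ContDiff Manifold
open MeasureTheory Set

namespace Pool.Agent.Helper339.CW

/-- Orientation preserving smooth diffeomorphism of the line. -/
def SM (e : Equiv.Perm ℝ) : Prop :=
  ContDiff ℝ ∞ (fun x => e x) ∧ ContDiff ℝ ∞ (fun x => e⁻¹ x) ∧ StrictMono (fun x => e x)

/-- Smooth diffeomorphism of the line commuting with the translation by `L`. -/
def IsD (L : ℝ) (e : Equiv.Perm ℝ) : Prop := SM e ∧ ∀ x, e (x + L) = e x + L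

/-- The translation by `c`. -/
def tr (c : ℝ) : Equiv.Perm ℝ := Equiv.addRight c

/-- `e` is the identity outside `(s, t)`. -/
def SuppIn (e : Equiv.Perm ℝ) (s t : ℝ) : Prop := ∀ x, (x ≤ s ∨ t ≤ x) → e x = x

/-- The subgroup generated by commutators of circle diffeomorphisms (lifts). -/
def Comm1 : Subgroup (Equiv.Perm ℝ) :=
  Subgroup.closure {x | ∃ a b : Equiv.Perm ℝ, IsD 1 a ∧ IsD 1 b ∧ x = a * b * a⁻¹ * b⁻¹}

/-- Diffeomorphism in `G_1` which is the identity near some point. -/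
def ISup (a : Equiv.Perm ℝ) : Prop :=
  IsD 1 a ∧ ∃ c δ : ℝ, 0 < δ ∧ ∀ x, |x - c| < δ → a x = x

/-- Schwarzian derivative. -/
noncomputable def schw (f : ℝ → ℝ) (x : ℝ) : ℝ :=
  deriv (fun y => deriv (deriv f) y / deriv f y) x - (deriv (deriv f) x / deriv f x) ^ 2 / 2

/-- Continuous 1-periodic functions which are Lipschitz in the `L^2` sense. -/
def HC (u : ℝ → ℝ) : Prop :=
  Continuous u ∧ (∀ x, u (x + 1) = u x) ∧
    ∃ K : ℝ, ∀ t : ℝ, (∫ x in (0:ℝ)..1, (u (x + t) - u x) ^ 2) ≤ K * t ^ 2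

/-- `u` is `j` times differentiable, 1-periodic and its `j`-th derivative is in the class `HC`. -/
def Reg : ℕ → (ℝ → ℝ) → Prop
  | 0, u => HC u
  | (j + 1), u => (∀ x, u (x + 1) = u x) ∧ Differentiable ℝ u ∧ Reg j (deriv u)

/-- Fixed point data of the Schwarzian conjugation equation. -/
structure FP (S w v ψ σ P : ℝ → ℝ) (m c : ℝ) : Prop where
  w_cont : Continuous w
  w_per : ∀ x, w (x + 1) = w x
  v_der : ∀ x, HasDerivAt v (w x) x
  v_per : ∀ x, v (x + 1) = v x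
  psi_der : ∀ x, HasDerivAt ψ (Real.exp (v x)) x
  psi_per : ∀ x, ψ (x + 1) = ψ x + 1
  P_der : ∀ x, HasDerivAt P (S (ψ x) * Real.exp (2 * v x) - m) x
  P_per : ∀ x, P (x + 1) = P x
  P_mean : (∫ x in (0:ℝ)..1, P x) = 0
  s_cont : Continuous σ
  s_per : ∀ x, σ (x + 1) = σ x
  s_mean : (∫ x in (0:ℝ)..1, σ x) = 0
  s_eq : ∀ x, σ (x + √2) - σ x = P x
  w_eq : ∀ x, HasDerivAt (fun y => w y - σ y) ((w x) ^ 2 / 2 - c) x

/-- Two-sided flat flow: in the coordinate `exp (1/|x|)` it is the translation by `b` on the right of `0`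
and by `a` on the left of `0`. -/
noncomputable def Fl (a b : ℝ) (x : ℝ) : ℝ :=
  if 0 < x then 1 / Real.log (Real.exp (1 / x) + b)
  else if x < 0 then -(1 / Real.log (Real.exp (1 / (-x)) + a)) else 0

/-- The standard flat sink. -/
noncomputable def Th (x : ℝ) : ℝ := Fl 1 1 x

/-- Trigonometric series. -/
noncomputable def ser (c : ℤ → ℂ) (x : ℝ) : ℂ :=
  ∑' k : ℤ, c k * Complex.exp (2 * Real.pi * Complex.I * k * x)

/-- The ball in which the fixed point is looked for. -/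
def InX (w : ℝ → ℝ) : Prop :=
  Continuous w ∧ (∀ x, w (x + 1) = w x) ∧ (∫ x in (0:ℝ)..1, w x) = 0 ∧ ∀ x, |w x| ≤ 1 / 4

/-- `S` is smooth, periodic and `C^2`-small. -/
def SmallS (ε : ℝ) (S : ℝ → ℝ) : Prop :=
  ContDiff ℝ ∞ S ∧ (∀ x, S (x + 1) = S x) ∧ (∀ x, |S x| ≤ ε) ∧ (∀ x, |deriv S x| ≤ ε) ∧
    (∀ x, |deriv (deriv S) x| ≤ ε)

/-- One step of the iteration: `w'` is the image of `w`. -/
structure Stp (S w w' v ψ σ P : ℝ → ℝ) (m c : ℝ) : Prop where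
  v_der : ∀ x, HasDerivAt v (w x) x
  v_per : ∀ x, v (x + 1) = v x
  v_norm : (∫ x in (0:ℝ)..1, Real.exp (v x)) = 1
  psi_der : ∀ x, HasDerivAt ψ (Real.exp (v x)) x
  psi_zero : ψ 0 = 0
  P_der : ∀ x, HasDerivAt P (S (ψ x) * Real.exp (2 * v x) - m) x
  P_per : ∀ x, P (x + 1) = P x
  P_mean : (∫ x in (0:ℝ)..1, P x) = 0
  s_cont : Continuous σ
  s_per : ∀ x, σ (x + 1) = σ x
  s_mean : (∫ x in (0:ℝ)..1, σ x) = 0
  s_eq : ∀ x, σ (x + √2) - σ x = P x
  w_cont : Continuous w'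
  w_per : ∀ x, w' (x + 1) = w' x
  w_mean : (∫ x in (0:ℝ)..1, w' x) = 0
  w_eq : ∀ x, HasDerivAt (fun y => w' y - σ y) ((w x) ^ 2 / 2 - c) x

end Pool.Agent.Helper339.CW
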