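import Mathlib
import Pool.Agent.Helper339.CW.Defs

set_option autoImplicit false

open scoped ContDiff Manifold
open MeasureTheory Set

namespace Pool.Agent.Helper339.CW


/-! ### TARGET: prove this. Prefix the names of all your auxiliary lemmas with basics_ -/

theorem basics_ai (a : Equiv.Perm ℝ) (x : ℝ) : a (a⁻¹ x) = x := a.apply_symm_apply x

theorem basics_sm_of_deriv (f : ℝ → ℝ) (hf : ContDiff ℝ ∞ f) (hd : ∀ x, 0 < deriv f x)
    (ht : Filter.Tendsto f Filter.atTop Filter.atTop)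
    (hb : Filter.Tendsto f Filter.atBot Filter.atBot) :
    ∃ e : Equiv.Perm ℝ, SM e ∧ ∀ x, e x = f x := by
  have hm : StrictMono f := strictMono_of_deriv_pos hd
  have hs : Function.Surjective f := hf.continuous.surjective ht hb
  let o : ℝ ≃o ℝ := StrictMono.orderIsoOfSurjective f hm hs
  let h : ℝ ≃ₜ ℝ := o.toHomeomorph
  have ho : (h : ℝ → ℝ) = f := rfl
  have h1 : ContDiff ℝ ∞ (h.symm : ℝ → ℝ) :=
    Homeomorph.contDiff_symm_deriv h (f' := deriv f) (fun x => (hd x).ne')
      (fun x => by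
        rw [ho]
        exact (hf.differentiable (by simp) x).hasDerivAt) (by rw [ho]; exact hf)
  refine ⟨o.toEquiv, ⟨?_, ?_, ?_⟩, fun x => rfl⟩
  · exact hf
  · exact h1
  · exact hm

/-- Basic closure properties. -/
theorem sm_one : SM 1 := by
  refine ⟨contDiff_id, ?_, strictMono_id⟩
  exact (contDiff_id : ContDiff ℝ ∞ (id : ℝ → ℝ))
theorem sm_mul {a b : Equiv.Perm ℝ} (ha : SM a) (hb : SM b) : SM (a * b) := by
  obtain ⟨a1, a2, a3⟩ := ha
  obtain ⟨b1, b2, b3⟩ := hb
  refine ⟨?_, ?_, ?_⟩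
  · have h : (fun x => (a * b) x) = (fun x => a x) ∘ (fun x => b x) := rfl
    rw [h]
    exact a1.comp b1
  · have h : (fun x => (a * b)⁻¹ x) = (fun x => b⁻¹ x) ∘ (fun x => a⁻¹ x) := by
      funext x
      rw [mul_inv_rev]
      rfl
    rw [h]
    exact b2.comp a2
  · exact fun x y h => a3 (b3 h)
theorem sm_inv {a : Equiv.Perm ℝ} (ha : SM a) : SM a⁻¹ := by
  obtain ⟨a1, a2, a3⟩ := ha
  refine ⟨a2, ?_, ?_⟩
  · simpa using a1
  · intro x y h
    by_contra hc
    rw [not_lt] at hc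
    have h1 : a (a⁻¹ y) ≤ a (a⁻¹ x) := a3.monotone hc
    rw [basics_ai, basics_ai] at h1
    linarith
theorem sm_tr (c : ℝ) : SM (tr c) := by
  refine ⟨?_, ?_, ?_⟩
  · have h : (fun x => tr c x) = fun x => x + c := rfl
    rw [h]
    exact contDiff_id.add contDiff_const
  · have h : (fun x => (tr c)⁻¹ x) = fun x => x + -c := rfl
    rw [h]
    exact contDiff_id.add contDiff_const
  · intro x y h
    show x + c < y + c
    linarith
theorem tr_apply (c x : ℝ) : tr c x = x + c := rfl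
theorem tr_inv_apply (c x : ℝ) : (tr c)⁻¹ x = x - c := by
  have h : (tr c)⁻¹ x = x + -c := rfl
  rw [h]
  ring
theorem isd_one (L : ℝ) : IsD L 1 := ⟨sm_one, fun x => rfl⟩
theorem isd_mul {L : ℝ} {a b : Equiv.Perm ℝ} (ha : IsD L a) (hb : IsD L b) : IsD L (a * b) := by
  refine ⟨sm_mul ha.1 hb.1, fun x => ?_⟩
  rw [Equiv.Perm.mul_apply, Equiv.Perm.mul_apply, hb.2, ha.2]
theorem isd_inv {L : ℝ} {a : Equiv.Perm ℝ} (ha : IsD L a) : IsD L a⁻¹ := by
  refine ⟨sm_inv ha.1, fun x => ?_⟩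
  apply a.injective
  rw [basics_ai, ha.2, basics_ai]
theorem isd_tr (L c : ℝ) : IsD L (tr c) := by
  refine ⟨sm_tr c, fun x => ?_⟩
  rw [tr_apply, tr_apply]
  ring
theorem isd_add_int {L : ℝ} {a : Equiv.Perm ℝ} (ha : IsD L a) (x : ℝ) (n : ℤ) :
    a (x + n * L) = a x + n * L := by
  induction n using Int.induction_on with
  | zero => simp
  | succ k ih =>
    have h := ha.2 (x + (k : ℤ) * L)
    have h1 : x + ((k : ℤ) + 1 : ℤ) * L = x + (k : ℤ) * L + L := by push_cast; ring
    rw [h1, h, ih]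
    push_cast
    ring
  | pred k ih =>
    have h := ha.2 (x + ((-(k : ℤ) - 1 : ℤ) : ℝ) * L)
    have h1 : x + ((-(k : ℤ) - 1 : ℤ) : ℝ) * L + L = x + ((-(k : ℤ) : ℤ) : ℝ) * L := by
      push_cast
      ring
    rw [h1, ih] at h
    push_cast at h ⊢
    linarith
theorem sm_deriv_pos {a : Equiv.Perm ℝ} (ha : SM a) (x : ℝ) : 0 < deriv (fun y => a y) x := by
  obtain ⟨a1, a2, a3⟩ := ha
  have h0 : 0 ≤ deriv (fun y => a y) x := a3.monotone.deriv_nonneg
  have h1 : HasDerivAt (fun y => a y) (deriv (fun y => a y) x) x :=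
    (a1.differentiable (by simp) x).hasDerivAt
  have h2 : HasDerivAt (fun y => a⁻¹ y) (deriv (fun y => a⁻¹ y) (a x)) (a x) :=
    (a2.differentiable (by simp) (a x)).hasDerivAt
  have h3 := h2.comp x h1
  have h4 : ((fun y => a⁻¹ y) ∘ fun y => a y) = id := by
    funext y
    simp
  rw [h4] at h3
  have h5 := h3.unique (hasDerivAt_id x)
  rcases h0.lt_or_eq with h | h
  · exact h
  · rw [← h, mul_zero] at h5
    norm_num at h5
/-- A smooth function with positive derivative and a period is a diffeomorphism. -/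
theorem isd_of_deriv (L : ℝ) (hL : 0 < L) (f : ℝ → ℝ) (hf : ContDiff ℝ ∞ f)
    (hd : ∀ x, 0 < deriv f x)
    (hp : ∀ x, f (x + L) = f x + L) : ∃ e : Equiv.Perm ℝ, IsD L e ∧ ∀ x, e x = f x := by
  have hm : StrictMono f := strictMono_of_deriv_pos hd
  have h1 : ∀ n : ℕ, f (0 + n * L) = f 0 + n * L := by
    intro n
    induction n with
    | zero => simp
    | succ k ih =>
      have h := hp (0 + k * L)
      have h1 : (0 : ℝ) + ((k + 1 : ℕ) : ℝ) * L = 0 + k * L + L := by push_cast; ring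
      rw [h1, h, ih]
      push_cast
      ring
  have h2 : ∀ n : ℕ, f (0 - n * L) = f 0 - n * L := by
    intro n
    induction n with
    | zero => simp
    | succ k ih =>
      have h := hp (0 - ((k + 1 : ℕ) : ℝ) * L)
      have h1 : (0 : ℝ) - ((k + 1 : ℕ) : ℝ) * L + L = 0 - k * L := by push_cast; ring
      rw [h1, ih] at h
      push_cast at h ⊢
      linarith
  have ht : Filter.Tendsto f Filter.atTop Filter.atTop := by
    apply Filter.tendsto_atTop_atTop_of_monotone hm.monotone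
    intro b
    obtain ⟨n, hn⟩ := exists_nat_gt ((b - f 0) / L)
    refine ⟨0 + n * L, ?_⟩
    rw [h1]
    rw [div_lt_iff₀ hL] at hn
    linarith
  have hb : Filter.Tendsto f Filter.atBot Filter.atBot := by
    apply Filter.tendsto_atBot_atBot_of_monotone hm.monotone
    intro b
    obtain ⟨n, hn⟩ := exists_nat_gt ((f 0 - b) / L)
    refine ⟨0 - n * L, ?_⟩
    rw [h2]
    rw [div_lt_iff₀ hL] at hn
    linarith
  obtain ⟨e, he, hef⟩ := basics_sm_of_deriv f hf hd ht hb
  exact ⟨e, ⟨he, fun x => by rw [hef, hef, hp]⟩, hef⟩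
/-- A smooth function with positive derivative which tends to plus/minus infinity is a diffeomorphism. -/
theorem sm_of_deriv (f : ℝ → ℝ) (hf : ContDiff ℝ ∞ f) (hd : ∀ x, 0 < deriv f x)
    (ht : Filter.Tendsto f Filter.atTop Filter.atTop) (hb : Filter.Tendsto f Filter.atBot Filter.atBot) :
    ∃ e : Equiv.Perm ℝ, SM e ∧ ∀ x, e x = f x :=
  basics_sm_of_deriv f hf hd ht hb

end Pool.Agent.Helper339.CW
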