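import Mathlib
import Pool.Agent.Helper339.CW.Defs

set_option autoImplicit false

open scoped ContDiff Manifold
open MeasureTheory Set

namespace Pool.Agent.Helper339.CW


/-! ### TARGET: prove this. Prefix the names of all your auxiliary lemmas with fl_smooth_ -/

/-- auxiliary map -/
noncomputable def fl_smooth_R (b x : ℝ) : ℝ := x * (1 + x * Real.log (1 + b * expNegInvGlue x))⁻¹

theorem fl_smooth_E_nonpos {x : ℝ} (hx : x ≤ 0) : expNegInvGlue x = 0 := expNegInvGlue.zero_of_nonpos hx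

theorem fl_smooth_E_pos {x : ℝ} (hx : 0 < x) : expNegInvGlue x = Real.exp (-x⁻¹) := by
  simp [expNegInvGlue, not_le.2 hx]

theorem fl_smooth_R_nonpos (b : ℝ) {x : ℝ} (hx : x ≤ 0) : fl_smooth_R b x = x := by
  unfold fl_smooth_R
  rw [fl_smooth_E_nonpos hx]
  simp

theorem fl_smooth_R_pos (b : ℝ) {x : ℝ} (hx : 0 < x) (h1 : 0 < 1 + b * expNegInvGlue x) :
    fl_smooth_R b x = 1 / Real.log (Real.exp (1 / x) + b) := by
  unfold fl_smooth_R
  have h2 : Real.exp (1 / x) + b = Real.exp (1 / x) * (1 + b * expNegInvGlue x) := by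
    rw [fl_smooth_E_pos hx, mul_add, mul_one, mul_left_comm, ← Real.exp_add]
    have : 1 / x + -x⁻¹ = 0 := by rw [one_div]; ring
    rw [this, Real.exp_zero, mul_one]
  rw [h2, Real.log_mul (Real.exp_pos _).ne' h1.ne', Real.log_exp]
  have hx' : x ≠ 0 := hx.ne'
  generalize Real.log (1 + b * expNegInvGlue x) = L
  have h3 : 1 + x * L = x * (1 / x + L) := by field_simp
  rw [h3, mul_inv, ← mul_assoc, mul_inv_cancel₀ hx', one_mul, one_div (1 / x + L)]

theorem fl_smooth_R_smooth (b : ℝ) {x : ℝ} (h1 : 1 + b * expNegInvGlue x ≠ 0)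
    (h2 : 1 + x * Real.log (1 + b * expNegInvGlue x) ≠ 0) : ContDiffAt ℝ ∞ (fl_smooth_R b) x := by
  unfold fl_smooth_R
  have hE : ContDiffAt ℝ ∞ expNegInvGlue x := expNegInvGlue.contDiff.contDiffAt
  have h3 : ContDiffAt ℝ ∞ (fun x : ℝ => 1 + b * expNegInvGlue x) x :=
    contDiffAt_const.add (contDiffAt_const.mul hE)
  have h4 : ContDiffAt ℝ ∞ (fun x : ℝ => 1 + x * Real.log (1 + b * expNegInvGlue x)) x :=
    contDiffAt_const.add (contDiffAt_id.mul (h3.log h1))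
  exact contDiffAt_id.mul (h4.inv h2)

theorem fl_smooth_R_deriv (b : ℝ) : HasDerivAt (fl_smooth_R b) 1 0 := by
  have h1 : 1 + b * expNegInvGlue 0 ≠ 0 := by simp
  have hE : ContDiffAt ℝ ∞ expNegInvGlue 0 := expNegInvGlue.contDiff.contDiffAt
  have h3 : ContDiffAt ℝ ∞ (fun x : ℝ => 1 + b * expNegInvGlue x) 0 :=
    contDiffAt_const.add (contDiffAt_const.mul hE)
  have h4 : ContDiffAt ℝ ∞ (fun x : ℝ => 1 + x * Real.log (1 + b * expNegInvGlue x)) 0 :=
    contDiffAt_const.add (contDiffAt_id.mul (h3.log h1))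
  have h5 : ContDiffAt ℝ ∞ (fun x : ℝ => (1 + x * Real.log (1 + b * expNegInvGlue x))⁻¹) 0 :=
    h4.inv (by simp)
  have h6 := (h5.differentiableAt (by simp)).hasDerivAt
  have h7 := (hasDerivAt_id (0 : ℝ)).mul h6
  have h8 : HasDerivAt (fl_smooth_R b) _ 0 := h7
  refine h8.congr_deriv ?_
  simp

theorem fl_smooth_ev (b : ℝ) : ∀ᶠ x in nhds (0 : ℝ), 0 < 1 + b * expNegInvGlue x ∧
    0 < 1 + x * Real.log (1 + b * expNegInvGlue x) := by
  have hE : ContDiffAt ℝ ∞ expNegInvGlue 0 := expNegInvGlue.contDiff.contDiffAt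
  have h3 : ContDiffAt ℝ ∞ (fun x : ℝ => 1 + b * expNegInvGlue x) 0 :=
    contDiffAt_const.add (contDiffAt_const.mul hE)
  have h4 : ContDiffAt ℝ ∞ (fun x : ℝ => 1 + x * Real.log (1 + b * expNegInvGlue x)) 0 :=
    contDiffAt_const.add (contDiffAt_id.mul (h3.log (by simp)))
  have h5 := h3.continuousAt.eventually_const_lt (u := 0) (by simp)
  have h6 := h4.continuousAt.eventually_const_lt (u := 0) (by simp)
  exact h5.and h6

/-- the smooth model -/
noncomputable def fl_smooth_F (a b x : ℝ) : ℝ := fl_smooth_R b x - fl_smooth_R a (-x) - x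

theorem fl_smooth_eq (a b : ℝ) {x : ℝ} (h1 : 0 < 1 + b * expNegInvGlue x)
    (h2 : 0 < 1 + a * expNegInvGlue (-x)) : Fl a b x = fl_smooth_F a b x := by
  unfold Fl fl_smooth_F
  rcases lt_trichotomy x 0 with hx | hx | hx
  · rw [if_neg (not_lt.2 hx.le), if_pos hx, fl_smooth_R_nonpos b hx.le,
      fl_smooth_R_pos a (neg_pos.2 hx) h2]
    ring
  · subst hx
    rw [if_neg (lt_irrefl _), if_neg (lt_irrefl _), fl_smooth_R_nonpos b le_rfl,
      fl_smooth_R_nonpos a (by simp)]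
    simp
  · rw [if_pos hx, fl_smooth_R_pos b hx h1, fl_smooth_R_nonpos a (by linarith)]
    ring

/-- Smoothness of the flat flow near `0`. -/
theorem fl_smooth (a b : ℝ) : ∃ δ : ℝ, 0 < δ ∧ ContDiffOn ℝ ∞ (Fl a b) (Ioo (-δ) δ) ∧
    (∀ x ∈ Ioo (-δ) δ, 0 < deriv (Fl a b) x) ∧ (∀ x ∈ Ioo (-δ) δ, x ≠ 0 → 1 < Real.exp (1 / |x|) + b ∧ 1 < Real.exp (1 / |x|) + a) := by
  have hev1 := fl_smooth_ev b
  have hneg : Filter.Tendsto (fun x : ℝ => -x) (nhds 0) (nhds 0) := by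
    simpa using (continuous_neg (G := ℝ)).tendsto 0
  have hev2 := hneg.eventually (fl_smooth_ev a)
  obtain ⟨δ₀, hδ₀, hball⟩ := Metric.eventually_nhds_iff.1 (hev1.and hev2)
  have hgood : ∀ x ∈ Ioo (-δ₀) δ₀, (0 < 1 + b * expNegInvGlue x ∧
      0 < 1 + x * Real.log (1 + b * expNegInvGlue x)) ∧ (0 < 1 + a * expNegInvGlue (-x) ∧
      0 < 1 + (-x) * Real.log (1 + a * expNegInvGlue (-x))) := by
    intro x hx
    apply hball
    rw [Real.dist_eq, sub_zero, abs_lt]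
    exact hx
  have heq : ∀ x ∈ Ioo (-δ₀) δ₀, Fl a b x = fl_smooth_F a b x := fun x hx =>
    fl_smooth_eq a b (hgood x hx).1.1 (hgood x hx).2.1
  have hsm : ContDiffOn ℝ ∞ (Fl a b) (Ioo (-δ₀) δ₀) := by
    refine ContDiffOn.congr (f := fl_smooth_F a b) ?_ heq
    intro x hx
    apply ContDiffAt.contDiffWithinAt
    have h1 := fl_smooth_R_smooth b (hgood x hx).1.1.ne' (hgood x hx).1.2.ne'
    have h2 := fl_smooth_R_smooth a (hgood x hx).2.1.ne' (hgood x hx).2.2.ne'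
    have h3 : ContDiffAt ℝ ∞ (fun x => fl_smooth_R a (-x)) x := h2.comp x contDiffAt_id.neg
    exact (h1.sub h3).sub contDiffAt_id
  have h0mem : (0 : ℝ) ∈ Ioo (-δ₀) δ₀ := ⟨by linarith, hδ₀⟩
  have hd0 : deriv (Fl a b) 0 = 1 := by
    have h1 : HasDerivAt (fl_smooth_F a b) 1 0 := by
      have h2 : HasDerivAt (fl_smooth_R a) 1 (-(0 : ℝ)) := by
        rw [neg_zero]
        exact fl_smooth_R_deriv a
      have h3 := HasDerivAt.comp (h₂ := fl_smooth_R a) (0 : ℝ) h2 (hasDerivAt_neg (0 : ℝ))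
      have h4 := ((fl_smooth_R_deriv b).sub h3).sub (hasDerivAt_id (0 : ℝ))
      have h5 : HasDerivAt (fl_smooth_F a b) _ 0 := h4
      refine h5.congr_deriv ?_
      norm_num
    have h2 : Fl a b =ᶠ[nhds 0] fl_smooth_F a b := by
      filter_upwards [Ioo_mem_nhds h0mem.1 h0mem.2] with x hx using heq x hx
    rw [h2.deriv_eq]
    exact h1.deriv
  have hdc : ContinuousOn (deriv (Fl a b)) (Ioo (-δ₀) δ₀) :=
    hsm.continuousOn_deriv_of_isOpen isOpen_Ioo (by simp)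
  have hdc0 : ContinuousAt (deriv (Fl a b)) 0 := hdc.continuousAt (Ioo_mem_nhds h0mem.1 h0mem.2)
  have hdpos := hdc0.eventually_const_lt (u := 0) (by rw [hd0]; exact one_pos)
  obtain ⟨δ₁, hδ₁, hpos⟩ := Metric.eventually_nhds_iff.1 hdpos
  set δ₂ : ℝ := 1 / (1 + |a| + |b|) with hδ₂
  have hδ₂' : 0 < δ₂ := by positivity
  refine ⟨min δ₀ (min δ₁ δ₂), by positivity, ?_, ?_, ?_⟩
  · refine hsm.mono (Ioo_subset_Ioo ?_ (min_le_left _ _))
    linarith [min_le_left δ₀ (min δ₁ δ₂)]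
  · intro x hx
    apply hpos
    rw [Real.dist_eq, sub_zero, abs_lt]
    have h1 : min δ₀ (min δ₁ δ₂) ≤ δ₁ := (min_le_right _ _).trans (min_le_left _ _)
    exact ⟨by linarith [hx.1], by linarith [hx.2]⟩
  · intro x hx hx0
    have h1 : min δ₀ (min δ₁ δ₂) ≤ δ₂ := (min_le_right _ _).trans (min_le_right _ _)
    have h2 : |x| < δ₂ := abs_lt.2 ⟨by linarith [hx.1], by linarith [hx.2]⟩
    have h3 : 0 < |x| := abs_pos.2 hx0
    have h4 : 1 + |a| + |b| < 1 / |x| := by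
      rw [lt_div_iff₀ h3]
      rw [hδ₂, lt_div_iff₀ (by positivity)] at h2
      linarith
    have h5 := Real.add_one_le_exp (1 / |x|)
    have h6 := neg_abs_le a
    have h7 := neg_abs_le b
    have h8 := abs_nonneg a
    have h9 := abs_nonneg b
    constructor <;> linarith

end Pool.Agent.Helper339.CW
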