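import Mathlib
import Pool.Agent.Helper339.CW.Defs
import Pool.Agent.Helper339.CW.P_basics
import Pool.Agent.Helper339.CW.P_fl_smooth

set_option autoImplicit false

open scoped ContDiff Manifold
open MeasureTheory Set

namespace Pool.Agent.Helper339.CW


/-! ### TARGET: prove this. Prefix the names of all your auxiliary lemmas with assemble_h_ -/

/-- smooth at `x` with positive derivative -/
def assemble_h_PD (f : ℝ → ℝ) (x : ℝ) : Prop := ContDiffAt ℝ ∞ f x ∧ 0 < deriv f x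

theorem assemble_h_comp {f g : ℝ → ℝ} {x : ℝ} (hg : assemble_h_PD g (f x))
    (hf : assemble_h_PD f x) : assemble_h_PD (fun y => g (f y)) x := by
  refine ⟨hg.1.comp x hf.1, ?_⟩
  have h1 : DifferentiableAt ℝ g (f x) := hg.1.differentiableAt (by simp)
  have h2 : DifferentiableAt ℝ f x := hf.1.differentiableAt (by simp)
  have h3 := deriv_comp x h1 h2
  show 0 < deriv (g ∘ f) x
  rw [h3]
  exact mul_pos hg.2 hf.2

theorem assemble_h_congr {f g : ℝ → ℝ} {x : ℝ} (hf : assemble_h_PD f x)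
    (h : g =ᶠ[nhds x] f) : assemble_h_PD g x :=
  ⟨hf.1.congr_of_eventuallyEq h, by rw [h.deriv_eq]; exact hf.2⟩

theorem assemble_h_inv1 {x : ℝ} (hx : x ≠ 0) : assemble_h_PD (fun y => 1 / (-y)) x := by
  have h1 : (fun y : ℝ => 1 / (-y)) = fun y => -(y⁻¹) := by
    funext y
    rw [one_div, inv_neg]
  rw [h1]
  refine ⟨(contDiffAt_inv ℝ hx).neg, ?_⟩
  have h2 : HasDerivAt (fun y : ℝ => -(y⁻¹)) (-(-(x ^ 2)⁻¹)) x := (hasDerivAt_inv hx).neg
  rw [h2.deriv, neg_neg]
  positivity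

theorem assemble_h_inv2 {x : ℝ} (hx : x ≠ 0) : assemble_h_PD (fun y => -(1 / y)) x := by
  have h1 : (fun y : ℝ => -(1 / y)) = fun y => 1 / (-y) := by
    funext y
    rw [div_neg]
  rw [h1]
  exact assemble_h_inv1 hx

theorem assemble_h_exp (x : ℝ) : assemble_h_PD (fun y => Real.exp y) x :=
  ⟨Real.contDiff_exp.contDiffAt, by
    have : deriv (fun y => Real.exp y) x = Real.exp x := (Real.hasDerivAt_exp x).deriv
    rw [this]
    exact Real.exp_pos x⟩

theorem assemble_h_log {x : ℝ} (hx : 0 < x) : assemble_h_PD (fun y => Real.log y) x :=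
  ⟨Real.contDiffAt_log.2 hx.ne', by
    have : deriv (fun y => Real.log y) x = x⁻¹ := (Real.hasDerivAt_log hx.ne').deriv
    rw [this]
    exact inv_pos.2 hx⟩

theorem assemble_h_neg {f : ℝ → ℝ} {x : ℝ} (hf : assemble_h_PD f (-x)) :
    assemble_h_PD (fun y => -f (-y)) x := by
  refine ⟨(hf.1.comp x contDiffAt_id.neg).neg, ?_⟩
  have h1 : HasDerivAt f (deriv f (-x)) (-x) := (hf.1.differentiableAt (by simp)).hasDerivAt
  have h2 : HasDerivAt (fun y : ℝ => -y) (-1) x := (hasDerivAt_id x).neg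
  have h3 := (h1.comp x h2).neg
  have h4 : deriv (fun y => -f (-y)) x = -(deriv f (-x) * (-1)) := h3.deriv
  rw [h4]
  have := hf.2
  linarith

theorem assemble_h_tr {f : ℝ → ℝ} {x : ℝ} (c : ℝ) (hf : assemble_h_PD f (x - c)) :
    assemble_h_PD (fun y => f (y - c) + c) x := by
  refine ⟨(hf.1.comp x (contDiffAt_id.sub contDiffAt_const)).add contDiffAt_const, ?_⟩
  have h1 : HasDerivAt f (deriv f (x - c)) (x - c) :=
    (hf.1.differentiableAt (by simp)).hasDerivAt
  have h2 : HasDerivAt (fun y : ℝ => y - c) 1 x := (hasDerivAt_id x).sub_const c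
  have h3 := (h1.comp x h2).add_const c
  have h4 : deriv (fun y => f (y - c) + c) x = deriv f (x - c) * 1 := h3.deriv
  rw [h4, mul_one]
  exact hf.2

/-- the left piece -/
noncomputable def assemble_h_phi (k : Equiv.Perm ℝ) (x : ℝ) : ℝ :=
  -(1 / Real.log (k (Real.exp (1 / (-x)))))

theorem assemble_h_phi_PD (k : Equiv.Perm ℝ) (hk : SM k) {x : ℝ} (hx : x ≠ 0)
    (h1 : 1 < k (Real.exp (1 / (-x)))) : assemble_h_PD (assemble_h_phi k) x := by
  have e1 := assemble_h_inv1 hx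
  have e2 := assemble_h_comp (g := fun y => Real.exp y) (assemble_h_exp _) e1
  have e3 : assemble_h_PD (fun y => k y) (Real.exp (1 / (-x))) :=
    ⟨hk.1.contDiffAt, sm_deriv_pos hk _⟩
  have e4 := assemble_h_comp (g := fun y => k y) (f := fun y => Real.exp (1 / (-y))) e3 e2
  have e5 := assemble_h_comp (g := fun y => Real.log y)
    (f := fun y => k (Real.exp (1 / (-y)))) (assemble_h_log (by linarith)) e4
  have hlog : Real.log (k (Real.exp (1 / (-x)))) ≠ 0 := (Real.log_pos h1).ne'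
  exact assemble_h_comp (g := fun y => -(1 / y))
    (f := fun y => Real.log (k (Real.exp (1 / (-y))))) (assemble_h_inv2 hlog) e5

theorem assemble_h_phi_neg (k : Equiv.Perm ℝ) {x : ℝ}
    (h1 : 1 < k (Real.exp (1 / (-x)))) : assemble_h_phi k x < 0 ∧
      Real.exp (1 / (- assemble_h_phi k x)) = k (Real.exp (1 / (-x))) := by
  have h2 := Real.log_pos h1
  unfold assemble_h_phi
  constructor
  · have : 0 < 1 / Real.log (k (Real.exp (1 / (-x)))) := by positivity
    linarith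
  · rw [neg_neg, one_div_one_div]
    exact Real.exp_log (by linarith)

/-- the two pieces around `0` -/
noncomputable def assemble_h_G (k₁ k₂ : Equiv.Perm ℝ) (x : ℝ) : ℝ :=
  if x < 0 then assemble_h_phi k₁ x else if 0 < x then - assemble_h_phi k₂ (-x) else 0

/-- the global function -/
noncomputable def assemble_h_base (L η : ℝ) (G h0 : ℝ → ℝ) (y : ℝ) : ℝ :=
  if -η < y then G y else if y < -L + η then G (y + L) - L else h0 y

/-- the global function -/
noncomputable def assemble_h_f (L η : ℝ) (G h0 : ℝ → ℝ) (x : ℝ) : ℝ :=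
  assemble_h_base L η G h0 (x - ((⌊x / L⌋ : ℝ) + 1) * L) + ((⌊x / L⌋ : ℝ) + 1) * L

theorem assemble_h_per (L η : ℝ) (hL : 0 < L) (G h0 : ℝ → ℝ) (x : ℝ) (n : ℤ) :
    assemble_h_f L η G h0 (x + n * L) = assemble_h_f L η G h0 x + n * L := by
  have h1 : (x + n * L) / L = x / L + n := by
    field_simp
  unfold assemble_h_f
  rw [h1, Int.floor_add_intCast]
  push_cast
  have h2 : x + n * L - ((⌊x / L⌋ : ℝ) + n + 1) * L = x - ((⌊x / L⌋ : ℝ) + 1) * L := by ring
  rw [h2]
  ring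

theorem assemble_h_I1 (L η : ℝ) (hη : 0 < η) (hηL : 2 * η < L) (G h0 : ℝ → ℝ) (x : ℝ)
    (h1 : -η < x) (h2 : x < η) : assemble_h_f L η G h0 x = G x := by
  have hL : 0 < L := by linarith
  unfold assemble_h_f
  rcases lt_or_ge x 0 with hx | hx
  · have hfl : ⌊x / L⌋ = -1 := by
      rw [Int.floor_eq_iff]
      push_cast
      constructor
      · rw [le_div_iff₀ hL]
        linarith
      · rw [div_lt_iff₀ hL]
        linarith
    rw [hfl]
    have e1 : x - (((-1 : ℤ) : ℝ) + 1) * L = x := by push_cast; ring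
    have e2 : (((-1 : ℤ) : ℝ) + 1) * L = 0 := by push_cast; ring
    rw [e1, e2, add_zero]
    unfold assemble_h_base
    rw [if_pos h1]
  · have hfl : ⌊x / L⌋ = 0 := by
      rw [Int.floor_eq_iff]
      push_cast
      constructor
      · positivity
      · rw [div_lt_iff₀ hL]
        linarith
    rw [hfl]
    have e1 : x - (((0 : ℤ) : ℝ) + 1) * L = x - L := by push_cast; ring
    have e2 : (((0 : ℤ) : ℝ) + 1) * L = L := by push_cast; ring
    rw [e1, e2]
    unfold assemble_h_base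
    rw [if_neg (by linarith), if_pos (by linarith), sub_add_cancel, sub_add_cancel]

theorem assemble_h_I2 (L η ζ : ℝ) (hζ : 0 < ζ) (hζη : ζ < η) (hηL : 2 * η < L) (G h0 : ℝ → ℝ)
    (hG1 : ∀ x, -η < x → x ≤ -ζ → G x = h0 x)
    (hG2 : ∀ x, ζ ≤ x → x < η → G x = h0 (x - L) + L) (x : ℝ)
    (h1 : -L + ζ ≤ x) (h2 : x ≤ -ζ) : assemble_h_f L η G h0 x = h0 x := by
  have hL : 0 < L := by linarith
  unfold assemble_h_f
  have hfl : ⌊x / L⌋ = -1 := by
    rw [Int.floor_eq_iff]
    push_cast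
    constructor
    · rw [le_div_iff₀ hL]
      linarith
    · rw [div_lt_iff₀ hL]
      linarith
  rw [hfl]
  have e1 : x - (((-1 : ℤ) : ℝ) + 1) * L = x := by push_cast; ring
  have e2 : (((-1 : ℤ) : ℝ) + 1) * L = 0 := by push_cast; ring
  rw [e1, e2, add_zero]
  unfold assemble_h_base
  split_ifs with h3 h4
  · exact hG1 x h3 h2
  · rw [hG2 (x + L) (by linarith) (by linarith), add_sub_cancel_right, add_sub_cancel_right]
  · rfl

theorem assemble_h_gt (L : ℝ) (h0 : ℝ → ℝ) (hi : h0 '' (Ioo (-L) 0) = Ioo (-L) 0)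
    (D k : Equiv.Perm ℝ) (η N0 : ℝ) (hη : 0 < η) (hηL : 2 * η < L)
    (hD : ∀ x, -η < x → x < 0 → Real.exp (1 / (- h0 x)) = D (Real.exp (1 / (-x))))
    (hk : SM k) (hN : Real.exp (1 / η) < N0) (a1 : ∀ x ≤ N0, k x = D x)
    (x : ℝ) (h1 : -η < x) (h2 : x < 0) : 1 < k (Real.exp (1 / (-x))) := by
  have key : ∀ s, Real.exp (1 / η) < s → s ≤ N0 → 1 < k s := by
    intro s hs1 hs2
    have hs0 : 0 < s := (Real.exp_pos _).trans hs1
    have hls : 1 / η < Real.log s := (Real.lt_log_iff_exp_lt hs0).2 hs1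
    have hls0 : 0 < Real.log s := lt_trans (by positivity) hls
    have hy1 : 1 / Real.log s < η := by
      rw [div_lt_iff₀ hls0]
      rw [div_lt_iff₀ hη] at hls
      linarith
    have hy2 : 0 < 1 / Real.log s := by positivity
    have hD' := hD (-(1 / Real.log s)) (by linarith) (by linarith)
    rw [neg_neg, one_div_one_div, Real.exp_log hs0] at hD'
    rw [a1 s hs2, ← hD']
    have hmem : h0 (-(1 / Real.log s)) ∈ Ioo (-L) 0 := by
      rw [← hi]
      exact ⟨_, ⟨by linarith, by linarith⟩, rfl⟩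
    have h3 : 0 < - h0 (-(1 / Real.log s)) := by linarith [hmem.2]
    rw [Real.one_lt_exp_iff]
    positivity
  have hs1 : Real.exp (1 / η) < Real.exp (1 / (-x)) := by
    rw [Real.exp_lt_exp]
    apply one_div_lt_one_div_of_lt <;> linarith
  rcases le_or_gt (Real.exp (1 / (-x))) N0 with h | h
  · exact key _ hs1 h
  · exact (key N0 hN le_rfl).trans (hk.2.2 h)

theorem assemble_h_near (L : ℝ) (h0 : ℝ → ℝ)
    (D k : Equiv.Perm ℝ) (η N0 : ℝ) (hη : 0 < η)
    (hD : ∀ x, -η < x → x < 0 → Real.exp (1 / (- h0 x)) = D (Real.exp (1 / (-x))))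
    (hN : Real.exp (1 / η) < N0) (a1 : ∀ x ≤ N0, k x = D x)
    (x : ℝ) (h1 : -η < x) (h2 : x ≤ -(1 / Real.log N0)) : assemble_h_phi k x = h0 x := by
  have hN0 : 0 < N0 := (Real.exp_pos _).trans hN
  have hls : 1 / η < Real.log N0 := (Real.lt_log_iff_exp_lt hN0).2 hN
  have hls0 : 0 < Real.log N0 := lt_trans (by positivity) hls
  have hy2 : 0 < 1 / Real.log N0 := by positivity
  have hx : x < 0 := by linarith
  have h3 : Real.exp (1 / (-x)) ≤ N0 := by
    rw [← Real.le_log_iff_exp_le hN0]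
    rw [div_le_iff₀ (by linarith)]
    have h4 : 1 / Real.log N0 ≤ -x := by linarith
    rw [div_le_iff₀ hls0] at h4
    linarith
  unfold assemble_h_phi
  rw [a1 _ h3, ← hD x h1 hx, Real.log_exp, one_div_one_div, neg_neg]

/-- Assembling the global conjugacy. -/
theorem assemble_h (L : ℝ) (h0 : ℝ → ℝ) (hs : ContDiffOn ℝ ∞ h0 (Ioo (-L) 0))
    (hd : ∀ x ∈ Ioo (-L) 0, 0 < deriv h0 x)
    (hm : StrictMonoOn h0 (Ioo (-L) 0)) (hi : h0 '' (Ioo (-L) 0) = Ioo (-L) 0)
    (D₁ D₂ k₁ k₂ : Equiv.Perm ℝ) (η N0 N1 c₁ c₂ : ℝ) (hη : 0 < η) (hηL : 2 * η < L)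
    (hD1 : ∀ x, -η < x → x < 0 → Real.exp (-1 / h0 x) = D₁ (Real.exp (-1 / x)))
    (hD2 : ∀ x, 0 < x → x < η → Real.exp (1 / (h0 (x - L) + L)) = D₂ (Real.exp (1 / x)))
    (hk1 : SM k₁) (hk2 : SM k₂) (hN : Real.exp (1 / η) < N0) (hN1 : N0 < N1)
    (a1 : ∀ x ≤ N0, k₁ x = D₁ x) (a2 : ∀ x ≤ N0, k₂ x = D₂ x)
    (b1 : ∀ x, N1 ≤ x → k₁ x = x + c₁) (b2 : ∀ x, N1 ≤ x → k₂ x = x + c₂) :
    ∃ h : Equiv.Perm ℝ, IsD L h ∧ h 0 = 0 ∧
      (∀ x, -L < x → x < 0 → (x ≤ -(1 / Real.log N0)) → (-L + 1 / Real.log N0 ≤ x) → h x = h0 x) ∧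
      (∀ x, -η < x → x < 0 → h x < 0 ∧ Real.exp (-1 / h x) = k₁ (Real.exp (-1 / x))) ∧
      (∀ x, 0 < x → x < η → 0 < h x ∧ Real.exp (1 / h x) = k₂ (Real.exp (1 / x))) := by
  have hL : 0 < L := by linarith
  have hneg : ∀ y : ℝ, -1 / y = 1 / (-y) := fun y => by rw [neg_div, div_neg]
  have hN0 : 0 < N0 := (Real.exp_pos _).trans hN
  have hls : 1 / η < Real.log N0 := (Real.lt_log_iff_exp_lt hN0).2 hN
  have hls0 : 0 < Real.log N0 := lt_trans (by positivity) hls
  have hζ : 0 < 1 / Real.log N0 := by positivity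
  have hζη : 1 / Real.log N0 < η := by
    rw [div_lt_iff₀ hls0]
    rw [div_lt_iff₀ hη] at hls
    linarith
  obtain ⟨ζ, hζdef⟩ : ∃ ζ, ζ = 1 / Real.log N0 := ⟨_, rfl⟩
  have hD1' : ∀ x, -η < x → x < 0 → Real.exp (1 / (- h0 x)) = D₁ (Real.exp (1 / (-x))) := by
    intro x h1 h2
    rw [← hneg, ← hneg]
    exact hD1 x h1 h2
  -- the reflected function
  obtain ⟨h0r, hh0r⟩ : ∃ h0r : ℝ → ℝ, h0r = fun x => -(h0 (-x - L) + L) := ⟨_, rfl⟩
  have hir : h0r '' (Ioo (-L) 0) = Ioo (-L) 0 := by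
    rw [hh0r]
    ext y
    constructor
    · rintro ⟨x, ⟨hx1, hx2⟩, rfl⟩
      have : h0 (-x - L) ∈ Ioo (-L) 0 := by
        rw [← hi]
        exact ⟨_, ⟨by linarith, by linarith⟩, rfl⟩
      constructor
      · show -L < -(h0 (-x - L) + L)
        linarith [this.2]
      · show -(h0 (-x - L) + L) < 0
        linarith [this.1]
    · rintro ⟨hy1, hy2⟩
      have : -y - L ∈ h0 '' (Ioo (-L) 0) := by
        rw [hi]
        constructor <;> linarith
      obtain ⟨x, ⟨hx1, hx2⟩, hx⟩ := this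
      refine ⟨-x - L, ⟨by linarith, by linarith⟩, ?_⟩
      show -(h0 (-(-x - L) - L) + L) = y
      have : -(-x - L) - L = x := by ring
      rw [this, hx]
      ring
  have hD2' : ∀ x, -η < x → x < 0 → Real.exp (1 / (- h0r x)) = D₂ (Real.exp (1 / (-x))) := by
    intro x h1 h2
    rw [hh0r]
    show Real.exp (1 / (- (-(h0 (-x - L) + L)))) = _
    rw [neg_neg]
    exact hD2 (-x) (by linarith) (by linarith)
  have hgt1 := assemble_h_gt L h0 hi D₁ k₁ η N0 hη hηL hD1' hk1 hN a1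
  have hgt2 := assemble_h_gt L h0r hir D₂ k₂ η N0 hη hηL hD2' hk2 hN a2
  have hnear1 := assemble_h_near L h0 D₁ k₁ η N0 hη hD1' hN a1
  have hnear2 := assemble_h_near L h0r D₂ k₂ η N0 hη hD2' hN a2
  obtain ⟨G, hG⟩ : ∃ G, G = assemble_h_G k₁ k₂ := ⟨_, rfl⟩
  have hGneg : ∀ x, x < 0 → G x = assemble_h_phi k₁ x := by
    intro x hx
    rw [hG, assemble_h_G, if_pos hx]
  have hGpos : ∀ x, 0 < x → G x = - assemble_h_phi k₂ (-x) := by
    intro x hx
    rw [hG, assemble_h_G, if_neg (by linarith), if_pos hx]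
  have hG0 : G 0 = 0 := by
    rw [hG, assemble_h_G, if_neg (lt_irrefl _), if_neg (lt_irrefl _)]
  have hG1 : ∀ x, -η < x → x ≤ -ζ → G x = h0 x := by
    intro x h1 h2
    rw [hζdef] at h2
    rw [hGneg x (by linarith)]
    exact hnear1 x h1 h2
  have hG2 : ∀ x, ζ ≤ x → x < η → G x = h0 (x - L) + L := by
    intro x h1 h2
    rw [hζdef] at h1
    rw [hGpos x (by linarith), hnear2 (-x) (by linarith) (by linarith), hh0r]
    show - -(h0 (- -x - L) + L) = _
    rw [neg_neg, neg_neg]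
  -- the function near zero
  have hPD : ∀ x, -η < x → x < η → assemble_h_PD G x := by
    intro x h1 h2
    rcases lt_trichotomy x 0 with hx | hx | hx
    · refine assemble_h_congr (assemble_h_phi_PD k₁ hk1 hx.ne (hgt1 x h1 hx)) ?_
      filter_upwards [Iio_mem_nhds hx] with y hy
      exact hGneg y hy
    · subst hx
      obtain ⟨δ, hδ, hFs, hFd, -⟩ := fl_smooth c₁ c₂
      have hF : assemble_h_PD (Fl c₁ c₂) 0 :=
        ⟨hFs.contDiffAt (Ioo_mem_nhds (by linarith) hδ), hFd 0 ⟨by linarith, hδ⟩⟩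
      refine assemble_h_congr hF ?_
      have hN1' : 0 < N1 := hN0.trans hN1
      have hl1 : 0 < Real.log N1 := by
        have : Real.log N0 < Real.log N1 := Real.log_lt_log hN0 hN1
        linarith
      have hz1 : 0 < 1 / Real.log N1 := by positivity
      have hbig : ∀ y, 0 < y → y < 1 / Real.log N1 → N1 ≤ Real.exp (1 / y) := by
        intro y hy1 hy2
        rw [← Real.log_le_iff_le_exp hN1', le_div_iff₀ hy1]
        rw [lt_div_iff₀ hl1] at hy2
        linarith
      filter_upwards [Ioo_mem_nhds (show -(1 / Real.log N1) < (0 : ℝ) by linarith) hz1] with y hy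
      rcases lt_trichotomy y 0 with hy0 | hy0 | hy0
      · rw [hGneg y hy0, assemble_h_phi, b1 _ (hbig (-y) (by linarith) (by linarith [hy.1])),
          Fl, if_neg (by linarith), if_pos hy0]
      · rw [hy0, hG0, Fl, if_neg (lt_irrefl _), if_neg (lt_irrefl _)]
      · rw [hGpos y hy0, assemble_h_phi, neg_neg, neg_neg, b2 _ (hbig y hy0 hy.2), Fl,
          if_pos hy0]
    · have h3 := assemble_h_phi_PD k₂ hk2 (x := -x) (by linarith) (hgt2 (-x) (by linarith)
        (by linarith))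
      refine assemble_h_congr (assemble_h_neg h3) ?_
      filter_upwards [Ioi_mem_nhds hx] with y hy
      exact hGpos y hy
  obtain ⟨f, hf⟩ : ∃ f, f = assemble_h_f L η G h0 := ⟨_, rfl⟩
  have hper : ∀ x (n : ℤ), f (x + n * L) = f x + n * L := by
    intro x n
    rw [hf]
    exact assemble_h_per L η hL G h0 x n
  have hI1 : ∀ x, -η < x → x < η → f x = G x := by
    intro x h1 h2
    rw [hf]
    exact assemble_h_I1 L η hη hηL G h0 x h1 h2
  have hI2 : ∀ x, -L + ζ ≤ x → x ≤ -ζ → f x = h0 x := by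
    intro x h1 h2
    rw [hf]
    exact assemble_h_I2 L η ζ (by rw [hζdef]; exact hζ) (by rw [hζdef]; exact hζη) hηL G h0
      hG1 hG2 x h1 h2
  have hfPD0 : ∀ x, -η < x → x < η → assemble_h_PD f x := by
    intro x h1 h2
    refine assemble_h_congr (hPD x h1 h2) ?_
    filter_upwards [Ioo_mem_nhds h1 h2] with y hy
    exact hI1 y hy.1 hy.2
  have hfPD1 : ∀ x, -L + ζ < x → x < -ζ → assemble_h_PD f x := by
    intro x h1 h2
    have hζ0 : 0 < ζ := by rw [hζdef]; exact hζ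
    have hx : x ∈ Ioo (-L) 0 := ⟨by linarith, by linarith⟩
    have h3 : assemble_h_PD h0 x := ⟨hs.contDiffAt (Ioo_mem_nhds hx.1 hx.2), hd x hx⟩
    refine assemble_h_congr h3 ?_
    filter_upwards [Ioo_mem_nhds h1 h2] with y hy
    exact hI2 y hy.1.le hy.2.le
  have hfPD2 : ∀ x, -L ≤ x → x < 0 → ∃ m : ℤ, assemble_h_PD f (x - m * L) := by
    intro x h1 h2
    rcases lt_or_ge (-η) x with h3 | h3
    · refine ⟨0, ?_⟩
      push_cast
      rw [zero_mul, sub_zero]
      exact hfPD0 x h3 (by linarith)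
    · rcases lt_or_ge x (-L + η) with h4 | h4
      · refine ⟨-1, ?_⟩
        push_cast
        apply hfPD0 <;> linarith
      · refine ⟨0, ?_⟩
        push_cast
        rw [zero_mul, sub_zero]
        rw [← hζdef] at hζη
        exact hfPD1 x (by linarith) (by linarith)
  have hfPD : ∀ x, assemble_h_PD f x := by
    intro x
    have hfl1 := Int.floor_le (x / L)
    have hfl2 := Int.lt_floor_add_one (x / L)
    rw [le_div_iff₀ hL] at hfl1
    rw [div_lt_iff₀ hL] at hfl2
    obtain ⟨m, hm'⟩ := hfPD2 (x - ((⌊x / L⌋ : ℝ) + 1) * L) (by linarith) (by linarith)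
    have h3 : x - ((⌊x / L⌋ : ℝ) + 1) * L - m * L =
        x - ((⌊x / L⌋ + 1 + m : ℤ) : ℝ) * L := by
      push_cast
      ring
    rw [h3] at hm'
    have h4 := assemble_h_tr (((⌊x / L⌋ + 1 + m : ℤ) : ℝ) * L) hm'
    refine assemble_h_congr h4 (Filter.Eventually.of_forall (fun y => ?_))
    beta_reduce
    rw [← hper, sub_add_cancel]
  have hfper : ∀ x, f (x + L) = f x + L := by
    intro x
    have := hper x 1
    push_cast at this
    rw [one_mul] at this
    exact this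
  obtain ⟨e, he, hef⟩ := isd_of_deriv L hL f
    (contDiff_iff_contDiffAt.2 (fun x => (hfPD x).1)) (fun x => (hfPD x).2) hfper
  refine ⟨e, he, ?_, ?_, ?_, ?_⟩
  · rw [hef, hI1 0 (by linarith) hη, hG0]
  · intro x h1 h2 h3 h4
    rw [hef]
    exact hI2 x (by rw [hζdef]; exact h4) (by rw [hζdef]; exact h3)
  · intro x h1 h2
    rw [hef, hI1 x h1 (by linarith), hGneg x h2, hneg, hneg]
    exact assemble_h_phi_neg k₁ (hgt1 x h1 h2)
  · intro x h1 h2
    have h3 := assemble_h_phi_neg k₂ (hgt2 (-x) (by linarith) (by linarith))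
    rw [neg_neg] at h3
    rw [hef, hI1 x (by linarith) h2, hGpos x h1]
    exact ⟨by linarith [h3.1], h3.2⟩

end Pool.Agent.Helper339.CW
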