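import Mathlib
import Pool.Agent.Helper339.CW.Defs
import Pool.Agent.Helper339.CW.P_basics

set_option autoImplicit false

open scoped ContDiff Manifold
open MeasureTheory Set

namespace Pool.Agent.Helper339.CW


/-! ### TARGET: prove this. Prefix the names of all your auxiliary lemmas with letter_ -/

theorem letter_inv_apply (e : Equiv.Perm ℝ) (x : ℝ) : e⁻¹ (e x) = x := e.symm_apply_apply x
theorem letter_apply_inv (e : Equiv.Perm ℝ) (x : ℝ) : e (e⁻¹ x) = x := e.apply_symm_apply x

theorem letter_mono_inv {a : Equiv.Perm ℝ} (ha : SM a) : StrictMono (fun x => a⁻¹ x) := (sm_inv ha).2.2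

/-- one-sided cut, smoothness of the function. -/
theorem letter_smooth (f : ℝ → ℝ) (hf : ContDiff ℝ ∞ f) (c δ : ℝ) (hδ : 0 < δ)
    (h : ∀ x, |x - c| < δ → f x = x) : ContDiff ℝ ∞ (fun x => if x ≤ c then x else f x) := by
  rw [contDiff_iff_contDiffAt]
  intro x
  by_cases hx : x < c + δ
  · by_cases hx2 : x < c
    · have : (fun x => if x ≤ c then x else f x) =ᶠ[nhds x] (fun x => x) := by
        filter_upwards [Iio_mem_nhds hx2] with y hy
        have : y ≤ c := le_of_lt hy
        simp [this]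
      exact (contDiffAt_id).congr_of_eventuallyEq this
    · have h1 : c - δ < x := by push Not at hx2; linarith
      have : (fun x => if x ≤ c then x else f x) =ᶠ[nhds x] (fun x => x) := by
        filter_upwards [Ioo_mem_nhds h1 hx] with y hy
        by_cases hyc : y ≤ c
        · simp [hyc]
        · simp only [hyc, if_false]
          apply h
          rw [abs_lt]
          constructor <;> linarith [hy.1, hy.2]
      exact (contDiffAt_id).congr_of_eventuallyEq this
  · have h1 : c < x := by push Not at hx; linarith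
    have : (fun x => if x ≤ c then x else f x) =ᶠ[nhds x] f := by
      filter_upwards [Ioi_mem_nhds h1] with y hy
      have : ¬ (y ≤ c) := not_le.mpr hy
      simp [this]
    exact (hf.contDiffAt).congr_of_eventuallyEq this

theorem letter_cut (a : Equiv.Perm ℝ) (ha : SM a) (c δ : ℝ) (hδ : 0 < δ)
    (h : ∀ x, |x - c| < δ → a x = x) : ∃ k : Equiv.Perm ℝ, SM k ∧ (∀ x, x ≤ c → k x = x) ∧
      (∀ x, c ≤ x → k x = a x) ∧ (∀ x, x ≤ c → k⁻¹ x = x) ∧ (∀ x, c ≤ x → k⁻¹ x = a⁻¹ x) := by
  have hac : a c = c := h c (by simpa using hδ)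
  have hac' : a⁻¹ c = c := by rw [Equiv.Perm.inv_eq_iff_eq, hac]
  have hgt : ∀ x, c < x → c < a x := by
    intro x hx
    have := ha.2.2 hx
    simp only at this
    rwa [hac] at this
  have hgt' : ∀ x, c < x → c < a⁻¹ x := by
    intro x hx
    have := letter_mono_inv ha hx
    simp only at this
    rwa [hac'] at this
  have h' : ∀ x, |x - c| < δ → a⁻¹ x = x := by
    intro x hx
    rw [Equiv.Perm.inv_eq_iff_eq, h x hx]
  let k : Equiv.Perm ℝ :=
    { toFun := fun x => if x ≤ c then x else a x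
      invFun := fun x => if x ≤ c then x else a⁻¹ x
      left_inv := by
        intro x
        by_cases hx : x ≤ c
        · simp [hx]
        · have h1 : ¬ (a x ≤ c) := not_le.mpr (hgt x (not_le.mp hx))
          simp only [hx, if_false, h1]
          exact letter_inv_apply a x
      right_inv := by
        intro x
        by_cases hx : x ≤ c
        · simp [hx]
        · have h1 : ¬ (a⁻¹ x ≤ c) := not_le.mpr (hgt' x (not_le.mp hx))
          simp only [hx, if_false, h1]
          exact letter_apply_inv a x }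
  have hk : ∀ x, k x = if x ≤ c then x else a x := fun x => rfl
  have hk' : ∀ x, k⁻¹ x = if x ≤ c then x else a⁻¹ x := fun x => rfl
  refine ⟨k, ⟨?_, ?_, ?_⟩, ?_, ?_, ?_, ?_⟩
  · have := letter_smooth (fun x => a x) ha.1 c δ hδ h
    exact this
  · have := letter_smooth (fun x => a⁻¹ x) ha.2.1 c δ hδ h'
    exact this
  · intro x y hxy
    simp only [hk]
    by_cases hx : x ≤ c
    · by_cases hy : y ≤ c
      · simp only [hx, hy, if_true]; exact hxy
      · simp only [hx, hy, if_true, if_false]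
        exact lt_of_le_of_lt hx (hgt y (not_le.mp hy))
    · have hy : ¬ (y ≤ c) := by
        intro hy; exact hx (le_trans hxy.le hy)
      simp only [hx, hy, if_false]
      exact ha.2.2 hxy
  · intro x hx
    rw [hk]; simp [hx]
  · intro x hx
    rw [hk]
    by_cases hx2 : x ≤ c
    · have : x = c := le_antisymm hx2 hx
      subst this
      simp [hac]
    · simp [hx2]
  · intro x hx
    rw [hk']; simp [hx]
  · intro x hx
    rw [hk']
    by_cases hx2 : x ≤ c
    · have : x = c := le_antisymm hx2 hx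
      subst this
      simp [hac']
    · simp only [hx2, if_false]

/-- Cutting an interval supported element to one unit interval. -/
theorem letter (a : Equiv.Perm ℝ) (ha : ISup a) : ∃ e k k' : Equiv.Perm ℝ, SM e ∧ SM k ∧ SM k' ∧ SuppIn e 0 2 ∧
    (∀ x, k (e (x + 1)) = k x + 1) ∧ (∀ x ≤ 0, k x = x) ∧ (∀ x, 2 ≤ x → k x = a⁻¹ x) ∧
    (∀ x, k' (e⁻¹ (x + 1)) = k' x + 1) ∧ (∀ x ≤ 0, k' x = x) ∧ (∀ x, 2 ≤ x → k' x = a x) := by
  obtain ⟨hD, c0, δ, hδ, hc0⟩ := ha
  obtain ⟨hS, hper⟩ := hD
  have hD : IsD 1 a := ⟨hS, hper⟩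
  have hDi : IsD 1 a⁻¹ := isd_inv hD
  set c : ℝ := Int.fract c0 with hcdef
  have hc0' : 0 ≤ c := Int.fract_nonneg c0
  have hc1' : c < 1 := Int.fract_lt_one c0
  have hfix : ∀ x, |x - c| < δ → a x = x := by
    intro x hx
    have h1 := isd_add_int hD x ⌊c0⌋
    have h2 : a (x + ⌊c0⌋ * 1) = x + ⌊c0⌋ * 1 := by
      apply hc0
      have : x + (⌊c0⌋ : ℝ) * 1 - c0 = x - c := by
        rw [hcdef, Int.fract]; ring
      rw [this]; exact hx
    linarith [h1, h2]
  have hfix1 : ∀ x, |x - (c + 1)| < δ → a x = x := by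
    intro x hx
    have h1 := hper (x - 1)
    have h2 : a (x - 1) = x - 1 := by
      apply hfix
      have : x - 1 - c = x - (c + 1) := by ring
      rw [this]; exact hx
    have h3 : x - 1 + 1 = x := by ring
    rw [h3, h2] at h1
    linarith
  have hfixi : ∀ x, |x - c| < δ → a⁻¹ x = x := by
    intro x hx
    rw [Equiv.Perm.inv_eq_iff_eq, hfix x hx]
  have hac : a c = c := hfix c (by simpa using hδ)
  have hac1 : a (c + 1) = c + 1 := hfix1 (c + 1) (by simpa using hδ)
  have haci : a⁻¹ c = c := by rw [Equiv.Perm.inv_eq_iff_eq, hac]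
  have hac1i : a⁻¹ (c + 1) = c + 1 := by rw [Equiv.Perm.inv_eq_iff_eq, hac1]
  have hmono : ∀ x y, x ≤ y → a x ≤ a y := fun x y hxy => hS.2.2.monotone hxy
  have hmonoi : ∀ x y, x ≤ y → a⁻¹ x ≤ a⁻¹ y := fun x y hxy => (letter_mono_inv hS).monotone hxy
  obtain ⟨p, hpS, hp1, hp2, hp3, hp4⟩ := letter_cut a hS c δ hδ hfix
  obtain ⟨q, hqS, hq1, hq2, hq3, hq4⟩ := letter_cut a hS (c + 1) δ hδ hfix1
  have he1 : ∀ x, x ≤ c → (p * q⁻¹) x = x := by
    intro x hx
    rw [Equiv.Perm.mul_apply, hq3 x (by linarith), hp1 x hx]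
  have he2 : ∀ x, c ≤ x → x ≤ c + 1 → (p * q⁻¹) x = a x := by
    intro x hx hx'
    rw [Equiv.Perm.mul_apply, hq3 x hx', hp2 x hx]
  have he3 : ∀ x, c + 1 ≤ x → (p * q⁻¹) x = x := by
    intro x hx
    have h1 : c + 1 ≤ a⁻¹ x := by
      have := hmonoi _ _ hx
      rwa [hac1i] at this
    rw [Equiv.Perm.mul_apply, hq4 x hx, hp2 _ (by linarith), letter_apply_inv]
  have hei : (p * q⁻¹)⁻¹ = q * p⁻¹ := by group
  have hf1 : ∀ x, x ≤ c → (p * q⁻¹)⁻¹ x = x := by
    intro x hx
    rw [Equiv.Perm.inv_eq_iff_eq, he1 x hx]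
  have hf2 : ∀ x, c ≤ x → x ≤ c + 1 → (p * q⁻¹)⁻¹ x = a⁻¹ x := by
    intro x hx hx'
    have h1 : c ≤ a⁻¹ x := by
      have := hmonoi _ _ hx
      rwa [haci] at this
    have h2 : a⁻¹ x ≤ c + 1 := by
      have := hmonoi _ _ hx'
      rwa [hac1i] at this
    rw [Equiv.Perm.inv_eq_iff_eq, he2 _ h1 h2, letter_apply_inv]
  have hf3 : ∀ x, c + 1 ≤ x → (p * q⁻¹)⁻¹ x = x := by
    intro x hx
    rw [Equiv.Perm.inv_eq_iff_eq, he3 x hx]
  refine ⟨p * q⁻¹, p⁻¹, p, sm_mul hpS (sm_inv hqS), sm_inv hpS, hpS, ?_, ?_, ?_, ?_, ?_, ?_, ?_⟩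
  · intro x hx
    rcases hx with hx | hx
    · exact he1 x (by linarith)
    · exact he3 x (by linarith)
  · intro x
    rcases le_total (x + 1) c with h1 | h1
    · rw [he1 _ h1, hp3 _ h1, hp3 x (by linarith)]
    · rcases le_total x c with h2 | h2
      · have h3 : c ≤ a (x + 1) := by
          have := hmono _ _ h1
          rwa [hac] at this
        rw [he2 _ h1 (by linarith), hp4 _ h3, letter_inv_apply, hp3 x h2]
      · rw [he3 _ (by linarith), hp4 _ (by linarith), hp4 _ h2]
        exact hDi.2 x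
  · intro x hx
    exact hp3 x (by linarith)
  · intro x hx
    exact hp4 x (by linarith)
  · intro x
    rcases le_total (x + 1) c with h1 | h1
    · rw [hf1 _ h1, hp1 _ h1, hp1 x (by linarith)]
    · rcases le_total x c with h2 | h2
      · have h3 : c ≤ a⁻¹ (x + 1) := by
          have := hmonoi _ _ h1
          rwa [haci] at this
        rw [hf2 _ h1 (by linarith), hp2 _ h3, letter_apply_inv, hp1 x h2]
      · rw [hf3 _ (by linarith), hp2 _ (by linarith), hp2 _ h2]
        exact hper x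
  · intro x hx
    exact hp1 x (by linarith)
  · intro x hx
    exact hp2 x (by linarith)

end Pool.Agent.Helper339.CW
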