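import Mathlib
import Pool.Agent.Helper339.CW.Defs
import Pool.Agent.Helper339.CW.P_basics
import Pool.Agent.Helper339.CW.P_letter

set_option autoImplicit false

open scoped ContDiff Manifold
open MeasureTheory Set

namespace Pool.Agent.Helper339.CW


/-! ### TARGET: prove this. Prefix the names of all your auxiliary lemmas with block_ -/

/-- auxiliary data of a block -/
structure block_Blk (χ k g : Equiv.Perm ℝ) (s t : ℝ) : Prop where
  le : s ≤ t
  supp : SuppIn χ s t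
  cm : StrictMono (fun x => χ x)
  km : StrictMono (fun x => k x)
  eq : ∀ x, k (χ (x + 1)) = k x + 1
  left : ∀ x ≤ s, k x = x
  right : ∀ x, t ≤ x → k x = g x
  gcomm : ∀ x, g (x + 1) = g x + 1

theorem block_comp {χ1 k1 g1 χ2 k2 g2 : Equiv.Perm ℝ} {s1 t1 s2 t2 : ℝ}
    (h1 : block_Blk χ1 k1 g1 s1 t1) (h2 : block_Blk χ2 k2 g2 s2 t2) (h : t1 + 1 ≤ s2) :
    block_Blk (χ1 * χ2) (k1 * k2) (g1 * g2) s1 t2 := by
  have hle1 := h1.le
  have hle2 := h2.le
  refine ⟨by linarith, ?_, ?_, ?_, ?_, ?_, ?_, ?_⟩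
  · intro x hx
    rw [Equiv.Perm.mul_apply]
    rcases hx with hx | hx
    · rw [h2.supp x (Or.inl (by linarith)), h1.supp x (Or.inl hx)]
    · rw [h2.supp x (Or.inr hx), h1.supp x (Or.inr (by linarith))]
  · exact h1.cm.comp h2.cm
  · exact h1.km.comp h2.km
  · intro x
    simp only [Equiv.Perm.mul_apply]
    rcases le_total (x + 1) s2 with hx | hx
    · rw [h2.supp (x + 1) (Or.inl hx)]
      have h3 : χ1 (x + 1) ≤ s2 := by
        have e1 : χ1 s2 = s2 := h1.supp s2 (Or.inr (by linarith))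
        have e2 : χ1 (x + 1) ≤ χ1 s2 := h1.cm.monotone hx
        linarith
      rw [h2.left _ h3, h1.eq, h2.left x (by linarith)]
    · have h3 : s2 ≤ χ2 (x + 1) := by
        have e1 : χ2 s2 = s2 := h2.supp s2 (Or.inl le_rfl)
        have e2 : χ2 s2 ≤ χ2 (x + 1) := h2.cm.monotone hx
        linarith
      rw [h1.supp _ (Or.inr (by linarith : t1 ≤ χ2 (x + 1))), h2.eq]
      have h4 : t1 ≤ k2 x := by
        have e1 : k2 t1 = t1 := h2.left t1 (by linarith)
        have e2 : k2 t1 ≤ k2 x := h2.km.monotone (by linarith)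
        linarith
      rw [h1.right _ (by linarith), h1.gcomm, h1.right _ h4]
  · intro x hx
    rw [Equiv.Perm.mul_apply, h2.left x (by linarith), h1.left x hx]
  · intro x hx
    have h4 : t1 ≤ k2 x := by
      have e1 : k2 t1 = t1 := h2.left t1 (by linarith)
      have e2 : k2 t1 ≤ k2 x := h2.km.monotone (by linarith)
      linarith
    rw [Equiv.Perm.mul_apply, Equiv.Perm.mul_apply, h1.right _ h4, h2.right x hx]
  · intro x
    rw [Equiv.Perm.mul_apply, Equiv.Perm.mul_apply, h2.gcomm, h1.gcomm]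

theorem block_sh_apply (e : Equiv.Perm ℝ) (c x : ℝ) : (tr c * e * tr (-c)) x = e (x - c) + c := by
  simp only [Equiv.Perm.mul_apply, tr_apply]
  rfl

theorem block_shift {χ k g : Equiv.Perm ℝ} {s t : ℝ} (h : block_Blk χ k g s t) (c : ℝ)
    (hg : ∀ x, g (x + c) = g x + c) :
    block_Blk (tr c * χ * tr (-c)) (tr c * k * tr (-c)) g (s + c) (t + c) := by
  have hle := h.le
  refine ⟨by linarith, ?_, ?_, ?_, ?_, ?_, ?_, h.gcomm⟩
  · intro x hx
    rw [block_sh_apply, h.supp (x - c) (by rcases hx with hx | hx <;> [left; right] <;> linarith)]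
    ring
  · intro x y hxy
    simp only [block_sh_apply]
    have := h.cm (show x - c < y - c by linarith)
    simp only at this
    linarith
  · intro x y hxy
    simp only [block_sh_apply]
    have := h.km (show x - c < y - c by linarith)
    simp only at this
    linarith
  · intro x
    rw [block_sh_apply, block_sh_apply, block_sh_apply]
    have := h.eq (x - c)
    rw [show x + 1 - c = x - c + 1 by ring, add_sub_cancel_right, this]
    ring
  · intro x hx
    rw [block_sh_apply, h.left (x - c) (by linarith)]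
    ring
  · intro x hx
    rw [block_sh_apply, h.right (x - c) (by linarith)]
    have := hg (x - c)
    rw [sub_add_cancel] at this
    exact this.symm

theorem block_commute {χ1 χ2 : Equiv.Perm ℝ} {s1 t1 s2 t2 : ℝ} (h1 : SuppIn χ1 s1 t1)
    (h2 : SuppIn χ2 s2 t2) (m1 : StrictMono (fun x => χ1 x)) (m2 : StrictMono (fun x => χ2 x))
    (h : t1 ≤ s2) : χ1 * χ2 = χ2 * χ1 := by
  ext x
  rw [Equiv.Perm.mul_apply, Equiv.Perm.mul_apply]
  rcases le_total x s2 with hx | hx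
  · have e1 : χ1 s2 = s2 := h1 s2 (Or.inr h)
    have e2 : χ1 x ≤ χ1 s2 := m1.monotone hx
    rw [h2 x (Or.inl hx), h2 (χ1 x) (Or.inl (by linarith))]
  · have e1 : χ2 s2 = s2 := h2 s2 (Or.inl le_rfl)
    have e2 : χ2 s2 ≤ χ2 x := m2.monotone hx
    rw [h1 x (Or.inr (by linarith)), h1 (χ2 x) (Or.inr (by linarith))]

theorem block_inv_supp {e : Equiv.Perm ℝ} {s t : ℝ} (h : SuppIn e s t) : SuppIn e⁻¹ s t := by
  intro x hx
  rw [Equiv.Perm.inv_eq_iff_eq]
  exact (h x hx).symm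

/-- One commutator of interval supported elements. -/
theorem block (a b : Equiv.Perm ℝ) (ha : ISup a) (hb : ISup b) :
    ∃ Z k : Equiv.Perm ℝ, SM Z ∧ SM k ∧ SuppIn Z 0 5 ∧
      (∀ x, k ((Z * tr 6 * Z⁻¹ * tr (-6)) (x + 1)) = k x + 1) ∧ (∀ x ≤ 0, k x = x) ∧
      (∀ x, 12 ≤ x → k x = (a * b * a⁻¹ * b⁻¹) x) := by
  obtain ⟨ea, ka, ka', hea, hka, hka', hsa, ha1, ha2, ha3, ha4, ha5, ha6⟩ := letter a ha
  obtain ⟨eb, kb, kb', heb, hkb, hkb', hsb, hb1, hb2, hb3, hb4, hb5, hb6⟩ := letter b hb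
  have hsh : ∀ {g : Equiv.Perm ℝ}, IsD 1 g → ∀ (n : ℤ) (x : ℝ), g (x + n) = g x + n := by
    intro g hg n x
    have := isd_add_int hg x n
    simpa using this
  have Aa' : block_Blk ea⁻¹ ka' a 0 2 :=
    ⟨by norm_num, block_inv_supp hsa, (sm_inv hea).2.2, hka'.2.2, ha4, ha5, ha6, ha.1.2⟩
  have Aa : block_Blk ea ka a⁻¹ 0 2 :=
    ⟨by norm_num, hsa, hea.2.2, hka.2.2, ha1, ha2, ha3, (isd_inv ha.1).2⟩
  have Ab' : block_Blk eb⁻¹ kb' b 0 2 :=
    ⟨by norm_num, block_inv_supp hsb, (sm_inv heb).2.2, hkb'.2.2, hb4, hb5, hb6, hb.1.2⟩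
  have Ab : block_Blk eb kb b⁻¹ 0 2 :=
    ⟨by norm_num, hsb, heb.2.2, hkb.2.2, hb1, hb2, hb3, (isd_inv hb.1).2⟩
  have B2 := block_shift Ab' 3 (fun x => by simpa using hsh hb.1 3 x)
  have B3 := block_shift Aa 6 (fun x => by simpa using hsh (isd_inv ha.1) 6 x)
  have B4 := block_shift Ab 9 (fun x => by simpa using hsh (isd_inv hb.1) 9 x)
  have C2 := block_comp Aa' B2 (by norm_num)
  have C3 := block_comp C2 B3 (by norm_num)
  have C4 := block_comp C3 B4 (by norm_num)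
  refine ⟨ea⁻¹ * (tr 3 * eb⁻¹ * tr (-3)), ka' * (tr 3 * kb' * tr (-3)) * (tr 6 * ka * tr (-6)) *
    (tr 9 * kb * tr (-9)), ?_, ?_, ?_, ?_, C4.left, ?_⟩
  · exact sm_mul (sm_inv hea) (sm_mul (sm_mul (sm_tr 3) (sm_inv heb)) (sm_tr _))
  · exact sm_mul (sm_mul (sm_mul hka' (sm_mul (sm_mul (sm_tr 3) hkb') (sm_tr _)))
      (sm_mul (sm_mul (sm_tr 6) hka) (sm_tr _))) (sm_mul (sm_mul (sm_tr 9) hkb) (sm_tr _))
  · have := C2.supp
    norm_num at this
    exact this
  · have hZ : ea⁻¹ * (tr 3 * eb⁻¹ * tr (-3)) * tr 6 * (ea⁻¹ * (tr 3 * eb⁻¹ * tr (-3)))⁻¹ * tr (-6) =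
        ea⁻¹ * (tr 3 * eb⁻¹ * tr (-3)) * (tr 6 * ea * tr (-6)) * (tr 9 * eb * tr (-9)) := by
      have hcomm := block_commute B3.supp B4.supp B3.cm B4.cm (by norm_num)
      rw [mul_assoc (ea⁻¹ * (tr 3 * eb⁻¹ * tr (-3))) (tr 6 * ea * tr (-6)), hcomm]
      have h5 : tr 6 * (ea⁻¹ * (tr 3 * eb⁻¹ * tr (-3)))⁻¹ * tr (-6) =
          tr 9 * eb * tr (-9) * (tr 6 * ea * tr (-6)) := by
        rw [mul_inv_rev, inv_inv, mul_inv_rev, mul_inv_rev, inv_inv]
        ext x
        simp only [Equiv.Perm.mul_apply, tr_apply, tr_inv_apply]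
        rw [show ea (x + -6) + 6 + -9 = ea (x + -6) - 3 by ring]
        ring
      rw [← h5]
      simp only [mul_assoc]
    rw [hZ]
    exact C4.eq
  · intro x hx
    exact C4.right x (by linarith)

end Pool.Agent.Helper339.CW
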