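import Mathlib
import Pool.Agent.Helper339.CW.Defs
import Pool.Agent.Helper339.CW.P_basics
import Pool.Agent.Helper339.CW.P_block

set_option autoImplicit false

open scoped ContDiff Manifold
open MeasureTheory Set

namespace Pool.Agent.Helper339.CW


/-! ### TARGET: prove this. Prefix the names of all your auxiliary lemmas with blocks_ -/

theorem blocks_conj_apply (M : ℝ) (e : Equiv.Perm ℝ) (x : ℝ) :
    (tr M * e * tr (-M)) x = e (x - M) + M := by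
  rw [Equiv.Perm.mul_apply, Equiv.Perm.mul_apply, tr_apply, tr_apply, sub_eq_add_neg]

theorem blocks_chi_apply (Z : Equiv.Perm ℝ) (x : ℝ) :
    (Z * tr 6 * Z⁻¹ * tr (-6)) x = Z (Z⁻¹ (x - 6) + 6) := by
  rw [Equiv.Perm.mul_apply, Equiv.Perm.mul_apply, Equiv.Perm.mul_apply, tr_apply, tr_apply,
    sub_eq_add_neg]

theorem blocks_supp_inv {e : Equiv.Perm ℝ} {s t : ℝ} (h : SuppIn e s t) : SuppIn e⁻¹ s t := by
  intro x hx
  rw [Equiv.Perm.inv_eq_iff_eq]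
  exact (h x hx).symm

theorem blocks_mono {e : Equiv.Perm ℝ} (h : SM e) {x y : ℝ} (hxy : x ≤ y) : e x ≤ e y :=
  h.2.2.monotone hxy

theorem blocks_isd_comm {a b : Equiv.Perm ℝ} (ha : ISup a) (hb : ISup b) :
    IsD 1 (a * b * a⁻¹ * b⁻¹) :=
  isd_mul (isd_mul (isd_mul ha.1 hb.1) (isd_inv ha.1)) (isd_inv hb.1)

/-- The inductive step. -/
theorem blocks_step (N a b : Equiv.Perm ℝ) (hN : IsD 1 N) (ha : ISup a) (hb : ISup b)
    (h : ∃ (n : ℕ) (Z k : Equiv.Perm ℝ), SM Z ∧ SM k ∧ SuppIn Z 0 (12 * n) ∧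
      (∀ x, k ((Z * tr 6 * Z⁻¹ * tr (-6)) (x + 1)) = k x + 1) ∧ (∀ x ≤ 0, k x = x) ∧
      (∀ x, 12 * (n : ℝ) + 12 ≤ x → k x = N x)) :
    ∃ (n : ℕ) (Z k : Equiv.Perm ℝ), SM Z ∧ SM k ∧ SuppIn Z 0 (12 * n) ∧
      (∀ x, k ((Z * tr 6 * Z⁻¹ * tr (-6)) (x + 1)) = k x + 1) ∧ (∀ x ≤ 0, k x = x) ∧
      (∀ x, 12 * (n : ℝ) + 12 ≤ x → k x = (N * (a * b * a⁻¹ * b⁻¹)) x) := by
  obtain ⟨n, Z, k, hZ, hk, hsZ, heq, hk0, hkN⟩ := h
  obtain ⟨Y, l, hY, hl, hsY, hleq, hl0, hlC⟩ := block a b ha hb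
  have hC : IsD 1 (a * b * a⁻¹ * b⁻¹) := blocks_isd_comm ha hb
  set C := a * b * a⁻¹ * b⁻¹ with hCdef
  obtain ⟨M, hM⟩ : ∃ M : ℝ, M = 12 * (n : ℝ) + 24 := ⟨_, rfl⟩
  have hn0 : (0 : ℝ) ≤ (n : ℝ) := Nat.cast_nonneg n
  -- the translated block
  have hYM : SM (tr M * Y * tr (-M)) := sm_mul (sm_mul (sm_tr _) hY) (sm_tr _)
  have hlM : SM (tr M * l * tr (-M)) := sm_mul (sm_mul (sm_tr _) hl) (sm_tr _)
  have hYMa : ∀ x, (tr M * Y * tr (-M)) x = Y (x - M) + M := blocks_conj_apply M Y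
  have hlMa : ∀ x, (tr M * l * tr (-M)) x = l (x - M) + M := blocks_conj_apply M l
  have hYMi : ∀ x, (tr M * Y * tr (-M))⁻¹ x = Y⁻¹ (x - M) + M := by
    intro x
    rw [Equiv.Perm.inv_eq_iff_eq, hYMa, add_sub_cancel_right]
    have h1 : Y (Y⁻¹ (x - M)) = x - M := by
      rw [← Equiv.Perm.mul_apply, mul_inv_cancel, Equiv.Perm.one_apply]
    rw [h1, sub_add_cancel]
  generalize hYY : tr M * Y * tr (-M) = YM at hYM hYMa hYMi
  generalize hll : tr M * l * tr (-M) = lM at hlM hlMa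
  have hsYi : SuppIn Y⁻¹ 0 5 := blocks_supp_inv hsY
  have hsZi : SuppIn Z⁻¹ 0 (12 * n) := blocks_supp_inv hsZ
  have hZi : SM Z⁻¹ := sm_inv hZ
  have hYMinv : SM YM⁻¹ := sm_inv hYM
  -- fixed points
  have fYM : ∀ x, x ≤ M → YM x = x := by
    intro x hx
    rw [hYMa, hsY _ (Or.inl (by linarith))]
    ring
  have fYMi : ∀ x, x ≤ M → YM⁻¹ x = x := by
    intro x hx
    rw [hYMi, hsYi _ (Or.inl (by linarith))]
    ring
  have flM : ∀ x, x ≤ M → lM x = x := by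
    intro x hx
    rw [hlMa, hl0 _ (by linarith)]
    ring
  have fZ : ∀ x, 12 * (n : ℝ) ≤ x → Z x = x := fun x hx => hsZ x (Or.inr hx)
  have fZi : ∀ x, 12 * (n : ℝ) ≤ x → Z⁻¹ x = x := fun x hx => hsZi x (Or.inr hx)
  -- the equation
  have chi_apply : ∀ y, ((Z * YM) * tr 6 * (Z * YM)⁻¹ * tr (-6)) y =
      Z (YM (YM⁻¹ (Z⁻¹ (y - 6)) + 6)) := by
    intro y
    rw [blocks_chi_apply, mul_inv_rev, Equiv.Perm.mul_apply, Equiv.Perm.mul_apply]
  have chi_low : ∀ y, y ≤ M → ((Z * YM) * tr 6 * (Z * YM)⁻¹ * tr (-6)) y =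
      (Z * tr 6 * Z⁻¹ * tr (-6)) y := by
    intro y hy
    rw [chi_apply, blocks_chi_apply]
    have h1 : Z⁻¹ (y - 6) ≤ M - 6 := by
      have h2 := blocks_mono hZi (show y - 6 ≤ M - 6 by linarith)
      rwa [fZi (M - 6) (by linarith)] at h2
    rw [fYMi _ (by linarith), fYM _ (by linarith)]
  have chi_high : ∀ y, M ≤ y → ((Z * YM) * tr 6 * (Z * YM)⁻¹ * tr (-6)) y =
      (Y * tr 6 * Y⁻¹ * tr (-6)) (y - M) + M := by
    intro y hy
    rw [chi_apply, blocks_chi_apply, fZi _ (by linarith)]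
    have h1 : M - 6 ≤ YM⁻¹ (y - 6) := by
      have h2 := blocks_mono hYMinv (show M - 6 ≤ y - 6 by linarith)
      rwa [fYMi (M - 6) (by linarith)] at h2
    have h3 : M ≤ YM (YM⁻¹ (y - 6) + 6) := by
      have h4 := blocks_mono hYM (show M ≤ YM⁻¹ (y - 6) + 6 by linarith)
      rwa [fYM M le_rfl] at h4
    rw [fZ _ (by linarith), hYMa, hYMi]
    rw [show y - 6 - M = y - M - 6 by ring,
      show Y⁻¹ (y - M - 6) + M + 6 - M = Y⁻¹ (y - M - 6) + 6 by ring]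
  have chi_mono : SM (Z * tr 6 * Z⁻¹ * tr (-6)) :=
    sm_mul (sm_mul (sm_mul hZ (sm_tr _)) hZi) (sm_tr _)
  have chi_fix : (Z * tr 6 * Z⁻¹ * tr (-6)) M = M := by
    rw [blocks_chi_apply, fZi _ (by linarith), fZ _ (by linarith)]
    ring
  have chib_mono : SM (Y * tr 6 * Y⁻¹ * tr (-6)) :=
    sm_mul (sm_mul (sm_mul hY (sm_tr _)) (sm_inv hY)) (sm_tr _)
  have chib_fix : (Y * tr 6 * Y⁻¹ * tr (-6)) 0 = 0 := by
    rw [blocks_chi_apply, hsYi _ (Or.inl (by norm_num)), hsY _ (Or.inl (by norm_num))]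
    norm_num
  have hMint : ∃ m : ℤ, (m : ℝ) = M := ⟨12 * n + 24, by rw [hM]; push_cast; ring⟩
  have klow : ∀ x, x ≤ M → (k * lM) x = k x := by
    intro x hx
    rw [Equiv.Perm.mul_apply, flM x hx]
  have khigh : ∀ x, 12 * (n : ℝ) + 12 ≤ x → (k * lM) x = N (lM x) := by
    intro x hx
    rw [Equiv.Perm.mul_apply]
    apply hkN
    have h2 := blocks_mono hlM hx
    rwa [flM _ (by linarith)] at h2
  refine ⟨n + 3, Z * YM, k * lM, sm_mul hZ hYM, sm_mul hk hlM, ?_, ?_, ?_, ?_⟩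
  · rintro x (hx | hx)
    · rw [Equiv.Perm.mul_apply, fYM x (by linarith), hsZ x (Or.inl hx)]
    · push_cast at hx
      have h1 : YM x = x := by
        rw [hYMa, hsY _ (Or.inr (by linarith))]
        ring
      rw [Equiv.Perm.mul_apply, h1, fZ x (by linarith)]
  · intro x
    rcases le_total (x + 1) M with hx | hx
    · rw [chi_low _ hx]
      have h1 := blocks_mono chi_mono hx
      rw [chi_fix] at h1
      rw [klow _ h1, klow x (by linarith), heq]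
    · rw [chi_high _ hx]
      have h1 := blocks_mono chib_mono (show 0 ≤ x + 1 - M by linarith)
      rw [chib_fix] at h1
      rw [khigh _ (by linarith), khigh x (by linarith), hlMa, hlMa, add_sub_cancel_right,
        show x + 1 - M = x - M + 1 by ring, hleq]
      have h2 := hN.2 (l (x - M) + M)
      rw [← h2]
      congr 1
      ring
  · intro x hx
    rw [klow x (by linarith), hk0 x hx]
  · intro x hx
    push_cast at hx
    obtain ⟨m, hm⟩ := hMint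
    have h2 := isd_add_int hC (x - M) m
    rw [hm] at h2
    rw [mul_one, sub_add_cancel] at h2
    rw [khigh x (by linarith), hlMa, hlC _ (by linarith), Equiv.Perm.mul_apply N C x, h2]

/-- Products of commutators of interval supported elements. -/
theorem blocks (N : Equiv.Perm ℝ) (hN : N ∈ Subgroup.closure
      {x | ∃ a b : Equiv.Perm ℝ, ISup a ∧ ISup b ∧ x = a * b * a⁻¹ * b⁻¹}) :
    ∃ (n : ℕ) (Z k : Equiv.Perm ℝ), SM Z ∧ SM k ∧ SuppIn Z 0 (12 * n) ∧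
      (∀ x, k ((Z * tr 6 * Z⁻¹ * tr (-6)) (x + 1)) = k x + 1) ∧ (∀ x ≤ 0, k x = x) ∧
      (∀ x, 12 * (n : ℝ) + 12 ≤ x → k x = N x) := by
  suffices h : IsD 1 N ∧ ∃ (n : ℕ) (Z k : Equiv.Perm ℝ), SM Z ∧ SM k ∧ SuppIn Z 0 (12 * n) ∧
      (∀ x, k ((Z * tr 6 * Z⁻¹ * tr (-6)) (x + 1)) = k x + 1) ∧ (∀ x ≤ 0, k x = x) ∧
      (∀ x, 12 * (n : ℝ) + 12 ≤ x → k x = N x) from h.2
  induction hN using Subgroup.closure_induction_right with
  | one =>
    refine ⟨isd_one 1, 0, 1, 1, sm_one, sm_one, ?_, ?_, ?_, ?_⟩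
    · intro x _
      rfl
    · intro x
      rw [blocks_chi_apply]
      simp
    · intro x _
      rfl
    · intro x _
      rfl
  | mul_right x hx y hy ih =>
    obtain ⟨a, b, ha, hb, rfl⟩ := hy
    exact ⟨isd_mul ih.1 (blocks_isd_comm ha hb), blocks_step _ a b ih.1 ha hb ih.2⟩
  | mul_inv_cancel x hx y hy ih =>
    obtain ⟨a, b, ha, hb, rfl⟩ := hy
    have e : (a * b * a⁻¹ * b⁻¹)⁻¹ = b * a * b⁻¹ * a⁻¹ := by group
    rw [e]
    exact ⟨isd_mul ih.1 (blocks_isd_comm hb ha), blocks_step _ b a ih.1 hb ha ih.2⟩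

end Pool.Agent.Helper339.CW
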