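import Mathlib
import Pool.Agent.Helper339.CW.Defs
import Pool.Agent.Helper339.CW.P_basics

set_option autoImplicit false

open scoped ContDiff Manifold
open MeasureTheory Set

namespace Pool.Agent.Helper339.CW


/-! ### TARGET: prove this. Prefix the names of all your auxiliary lemmas with case_split_ -/

/-- Case distinction. -/
theorem case_split (F : Equiv.Perm ℝ) (hF : IsD 1 F) :
    (∃ m : ℤ, ∀ x, F x = x + m) ∨
    (∃ (m : ℤ) (x0 : ℝ), x0 < F x0 + m ∧ F (F x0 + m) + m < x0 + 1) ∨
    (∃ (m : ℤ) (x0 : ℝ), x0 < F⁻¹ x0 + m ∧ F⁻¹ (F⁻¹ x0 + m) + m < x0 + 1) ∨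
    (∃ m : ℤ, ∀ x, F (F x + m) + m = x + 1) := by
  have hcont : Continuous (fun x => F x) := hF.1.1.continuous
  have hmono : StrictMono (fun x => F x) := hF.1.2.2
  have hadd : ∀ (x : ℝ) (n : ℤ), F (x + n) = F x + n := by
    intro x n
    have := isd_add_int hF x n
    simpa using this
  have hinv : IsD 1 F⁻¹ := isd_inv hF
  have himono : StrictMono (fun x => F⁻¹ x) := hinv.1.2.2
  have hiadd : ∀ (x : ℝ) (n : ℤ), F⁻¹ (x + n) = F⁻¹ x + n := by
    intro x n
    have := isd_add_int hinv x n
    simpa using this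
  have hFi : ∀ x, F (F⁻¹ x) = x := fun x => F.apply_symm_apply x
  have hiF : ∀ x, F⁻¹ (F x) = x := fun x => F.symm_apply_apply x
  by_cases hA : ∃ (x0 : ℝ) (m' : ℤ), F x0 = x0 + m'
  · obtain ⟨x0, m', h0⟩ := hA
    by_cases hid : ∀ x, F x = x + m'
    · exact Or.inl ⟨m', hid⟩
    push Not at hid
    obtain ⟨x1, h1⟩ := hid
    -- the integer part
    obtain ⟨n, hn1, hn2⟩ : ∃ n : ℤ, x0 + n ≤ x1 ∧ x1 < x0 + n + 1 :=
      ⟨⌊x1 - x0⌋, by linarith [Int.floor_le (x1 - x0)], by linarith [Int.lt_floor_add_one (x1 - x0)]⟩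
    have hfix : ∀ k : ℤ, F (x0 + k) = x0 + k + m' := by
      intro k
      rw [hadd, h0]; ring
    have hfix' : F (x0 + n + 1) = x0 + n + 1 + m' := by
      have := hfix (n + 1)
      push_cast at this
      rw [← add_assoc] at this
      exact this
    have hne : x0 + n < x1 := by
      rcases lt_or_eq_of_le hn1 with h | h
      · exact h
      · exfalso
        apply h1
        rw [← h, hfix n]
    rcases lt_or_gt_of_ne h1 with hlt | hgt
    · -- F x1 < x1 + m'
      right; right; left
      refine ⟨m', x1, ?_, ?_⟩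
      · by_contra hc
        push Not at hc
        have h2 : F⁻¹ x1 ≤ x1 - m' := by linarith
        have h3 := hmono.monotone h2
        simp only [hFi] at h3
        have h4 : F (x1 - m') = F x1 - m' := by
          have := hadd x1 (-m')
          push_cast at this
          rw [← sub_eq_add_neg, ← sub_eq_add_neg] at this
          exact this
        rw [h4] at h3
        linarith
      · have hif : F⁻¹ (x0 + n + 1) + m' = x0 + n + 1 := by
          have : F⁻¹ (F (x0 + n + 1)) = F⁻¹ (x0 + n + 1) + m' := by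
            rw [hfix', hiadd]
          rw [← this, hiF]
        have h2 : F⁻¹ x1 + m' < x0 + n + 1 := by
          have := himono hn2
          simp only at this
          linarith
        have h3 : F⁻¹ (F⁻¹ x1 + m') + m' < x0 + n + 1 := by
          have := himono h2
          simp only at this
          linarith
        linarith
    · right; left
      refine ⟨-m', x1, ?_, ?_⟩
      · push_cast; linarith
      · push_cast
        have h2 : F x1 + -(m' : ℝ) < x0 + n + 1 := by
          have := hmono hn2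
          simp only at this
          linarith
        have h3 : F (F x1 + -(m' : ℝ)) + -(m' : ℝ) < x0 + n + 1 := by
          have := hmono h2
          simp only at this
          linarith
        linarith
  · push Not at hA
    obtain ⟨k, hk⟩ : ∃ k : ℤ, ∀ x, x + k < F x ∧ F x < x + k + 1 := by
      refine ⟨⌊F 0⌋, ?_⟩
      have hd : Continuous (fun x => F x - x) := hcont.sub continuous_id
      have hl0 : (⌊F 0⌋ : ℝ) ≤ F 0 - 0 := by linarith [Int.floor_le (F 0)]
      have hu0 : F 0 - 0 ≤ (⌊F 0⌋ : ℝ) + 1 := by linarith [Int.lt_floor_add_one (F 0)]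
      intro x
      constructor
      · by_contra hc
        push Not at hc
        have hx : F x - x ≤ (⌊F 0⌋ : ℝ) := by linarith
        obtain ⟨y, hy⟩ := mem_range_of_exists_le_of_exists_ge hd ⟨x, hx⟩ ⟨0, hl0⟩
        apply hA y ⌊F 0⌋
        simp only at hy
        linarith
      · by_contra hc
        push Not at hc
        have hx : (⌊F 0⌋ : ℝ) + 1 ≤ F x - x := by linarith
        obtain ⟨y, hy⟩ := mem_range_of_exists_le_of_exists_ge hd ⟨0, hu0⟩ ⟨x, hx⟩
        apply hA y (⌊F 0⌋ + 1)
        simp only at hy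
        push_cast
        linarith
    by_cases h1 : ∃ x0, F (F x0 + ((-k : ℤ) : ℝ)) + ((-k : ℤ) : ℝ) < x0 + 1
    · obtain ⟨x0, h1⟩ := h1
      right; left
      refine ⟨-k, x0, ?_, h1⟩
      push_cast
      linarith [(hk x0).1]
    · by_cases h2 : ∃ x0, x0 + 1 < F (F x0 + ((-k : ℤ) : ℝ)) + ((-k : ℤ) : ℝ)
      · obtain ⟨x0, h2⟩ := h2
        right; right; left
        -- y = G (G x0)
        have e1 : F⁻¹ (F (F x0 + ((-k : ℤ) : ℝ)) + ((-k : ℤ) : ℝ)) = F x0 + ((-k : ℤ) : ℝ) + ((-k : ℤ) : ℝ) := by
          rw [hiadd, hiF]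
        have e2 : F⁻¹ (F x0 + ((-k : ℤ) : ℝ) + ((-k : ℤ) : ℝ) + ((1 + k : ℤ) : ℝ))
            = x0 + ((-k : ℤ) : ℝ) + ((-k : ℤ) : ℝ) + ((1 + k : ℤ) : ℝ) := by
          rw [hiadd, hiadd, hiadd, hiF]
        refine ⟨1 + k, F (F x0 + ((-k : ℤ) : ℝ)) + ((-k : ℤ) : ℝ), ?_, ?_⟩
        · rw [e1]
          have := (hk (F x0 + ((-k : ℤ) : ℝ))).2
          push_cast at this ⊢
          linarith
        · rw [e1, e2]
          push_cast at h2 ⊢
          linarith
      · push Not at h1 h2
        right; right; right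
        exact ⟨-k, fun x => le_antisymm (h2 x) (h1 x)⟩

end Pool.Agent.Helper339.CW
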