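import Mathlib
import Pool.Agent.Helper339.CW.Defs
import Pool.Agent.Helper339.CW.P_basics

set_option autoImplicit false

open scoped ContDiff Manifold
open MeasureTheory Set

namespace Pool.Agent.Helper339.CW


/-! ### TARGET: prove this. Prefix the names of all your auxiliary lemmas with circle_lift_ -/

lemma circle_lift_coe
    (g : Diffeomorph (𝓡 1) (𝓡 1) Circle Circle ((⊤ : ℕ∞) : WithTop ℕ∞)) :
    ContDiff ℝ ∞ (fun x : ℝ => ((g (Circle.exp x) : Circle) : ℂ)) := by
  have : Fact (Module.finrank ℝ ℂ = 1 + 1) := finrank_real_complex_fact'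
  have h1 : ContMDiff 𝓘(ℝ, ℝ) (𝓡 1) ∞ (fun x : ℝ => g (Circle.exp x)) :=
    g.contMDiff.comp contMDiff_circleExp
  have h2 : ContMDiff (𝓡 1) 𝓘(ℝ, ℂ) ∞ (fun z : Circle => (z : ℂ)) := contMDiff_coe_sphere
  exact (h2.comp h1).contDiff

lemma circle_lift_smooth
    (g : Diffeomorph (𝓡 1) (𝓡 1) Circle Circle ((⊤ : ℕ∞) : WithTop ℕ∞)) (F : ℝ → ℝ)
    (hF : Continuous F) (h : ∀ x : ℝ, g (Circle.exp x) = Circle.exp (F x)) :
    ContDiff ℝ ∞ F := by
  rw [contDiff_iff_contDiffAt]
  intro x0
  have h1 : ContDiff ℝ ∞ (fun x : ℝ => ((g (Circle.exp x) : Circle) : ℂ) *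
      ((Circle.exp (-(F x0)) : Circle) : ℂ)) :=
    (circle_lift_coe g).mul contDiff_const
  have h2 : ∀ x : ℝ, ((g (Circle.exp x) : Circle) : ℂ) * ((Circle.exp (-(F x0)) : Circle) : ℂ)
      = ((Circle.exp (F x - F x0) : Circle) : ℂ) := by
    intro x
    rw [h x, ← Circle.coe_mul, ← Circle.exp_add, sub_eq_add_neg]
  have h3 : ContDiffAt ℝ ∞ (fun x : ℝ => F x0 + (Complex.log (((g (Circle.exp x) : Circle) : ℂ) *
      ((Circle.exp (-(F x0)) : Circle) : ℂ))).im) x0 := by
    refine contDiffAt_const.add ?_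
    have h4 : ContDiffAt ℝ ∞ Complex.log (((g (Circle.exp x0) : Circle) : ℂ) *
      ((Circle.exp (-(F x0)) : Circle) : ℂ)) := by
      refine (Complex.contDiffAt_log ?_).restrict_scalars ℝ
      rw [h2 x0]
      simp
    have h5 : ContDiffAt ℝ ∞ (fun x : ℝ => Complex.log (((g (Circle.exp x) : Circle) : ℂ) *
      ((Circle.exp (-(F x0)) : Circle) : ℂ))) x0 :=
      ContDiffAt.comp (g := Complex.log) (f := fun x : ℝ => (((g (Circle.exp x) : Circle) : ℂ) *
        ((Circle.exp (-(F x0)) : Circle) : ℂ))) x0 h4 h1.contDiffAt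
    exact Complex.imCLM.contDiff.contDiffAt.comp x0 h5
  refine h3.congr_of_eventuallyEq ?_
  have h6 : ∀ᶠ x in nhds x0, |F x - F x0| < Real.pi := by
    have h7 : Continuous fun x => |F x - F x0| := (hF.sub continuous_const).abs
    have h8 : |F x0 - F x0| < Real.pi := by simpa using Real.pi_pos
    exact h7.continuousAt.eventually_lt continuousAt_const h8
  filter_upwards [h6] with x hx
  rw [abs_lt] at hx
  rw [h2 x, Complex.log_im, Circle.arg_exp hx.1 hx.2.le]
  ring

lemma circle_lift_period (g : Circle → Circle) (hg : Function.Injective g) (F : ℝ → ℝ)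
    (hF : Continuous F) (hm : StrictMono F) (h : ∀ x : ℝ, g (Circle.exp x) = Circle.exp (F x))
    (x : ℝ) : F (x + 2 * Real.pi) = F x + 2 * Real.pi := by
  have hpi := Real.pi_pos
  have h1 : Circle.exp (F (x + 2 * Real.pi)) = Circle.exp (F x) := by
    rw [← h, ← h, Circle.periodic_exp x]
  obtain ⟨m, hm1⟩ := Circle.exp_eq_exp.1 h1
  have h2 : F x < F (x + 2 * Real.pi) := hm (by linarith)
  have hm2 : 0 < m := by
    by_contra hcon
    push Not at hcon
    have : (m : ℝ) ≤ 0 := by exact_mod_cast hcon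
    nlinarith
  have hm3 : ¬ 2 ≤ m := by
    intro hcon
    have h3 : (2 : ℝ) ≤ m := by exact_mod_cast hcon
    have h4 : F x + 2 * Real.pi ∈ Set.Icc (F x) (F (x + 2 * Real.pi)) := by
      constructor
      · linarith
      · rw [hm1]; nlinarith
    obtain ⟨y, hy, hy2⟩ := intermediate_value_Icc (by linarith) hF.continuousOn h4
    have h5 : Circle.exp y = Circle.exp x := by
      apply hg
      rw [h, h, hy2, Circle.periodic_exp]
    obtain ⟨k, hk⟩ := Circle.exp_eq_exp.1 h5
    have h6 : F x < F y := by rw [hy2]; linarith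
    have h7 : x < y := hm.lt_iff_lt.1 h6
    have h8 : F y < F (x + 2 * Real.pi) := by rw [hy2, hm1]; nlinarith
    have h9 : y < x + 2 * Real.pi := hm.lt_iff_lt.1 h8
    have h10 : 0 < (k : ℝ) := by
      by_contra hcon
      push Not at hcon
      nlinarith
    have h11 : (k : ℝ) < 1 := by
      by_contra hcon
      push Not at hcon
      nlinarith
    have h12 : 0 < k := by exact_mod_cast h10
    have h13 : k < 1 := by exact_mod_cast h11
    omega
  have hm4 : m = 1 := by omega
  rw [hm1, hm4]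
  push_cast
  ring

lemma circle_lift_deriv
    (g : Diffeomorph (𝓡 1) (𝓡 1) Circle Circle ((⊤ : ℕ∞) : WithTop ℕ∞)) (F : ℝ → ℝ)
    (hF : Continuous F) (hm : StrictMono F) (h : ∀ x : ℝ, g (Circle.exp x) = Circle.exp (F x))
    (x : ℝ) : 0 < deriv F x := by
  have hs := circle_lift_smooth g F hF h
  have hd : DifferentiableAt ℝ F x := (hs.differentiable (by simp)) x
  have h0 : 0 ≤ deriv F x := hm.monotone.deriv_nonneg
  refine lt_of_le_of_ne h0 ?_
  intro hcon
  have h1 : ∀ y : ℝ, ((g.symm (Circle.exp (F y)) : Circle) : ℂ) = Complex.exp (y * Complex.I) := by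
    intro y
    rw [← h, Diffeomorph.symm_apply_apply, Circle.coe_exp]
  have h2 : HasDerivAt (fun y : ℝ => ((g.symm (Circle.exp (F y)) : Circle) : ℂ))
      (deriv F x • deriv (fun t : ℝ => ((g.symm (Circle.exp t) : Circle) : ℂ)) (F x)) x := by
    have h3 : HasDerivAt (fun t : ℝ => ((g.symm (Circle.exp t) : Circle) : ℂ))
        (deriv (fun t : ℝ => ((g.symm (Circle.exp t) : Circle) : ℂ)) (F x)) (F x) :=
      ((circle_lift_coe g.symm).differentiable (by simp) (F x)).hasDerivAt
    exact h3.scomp x hd.hasDerivAt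
  rw [← hcon, zero_smul] at h2
  have h4 : HasDerivAt (fun y : ℝ => Complex.exp (y * Complex.I))
      (Complex.exp (x * Complex.I) * Complex.I) x := by
    have h5 : HasDerivAt (fun y : ℝ => (y : ℂ) * Complex.I) Complex.I x := by
      have := (Complex.ofRealCLM.hasDerivAt (x := x)).mul_const Complex.I
      simpa using this
    exact h5.cexp
  have h6 : (fun y : ℝ => ((g.symm (Circle.exp (F y)) : Circle) : ℂ)) =
      fun y : ℝ => Complex.exp (y * Complex.I) := funext h1
  rw [h6] at h2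
  have h7 := h4.unique h2
  rcases mul_eq_zero.1 h7 with h8 | h8
  · exact Complex.exp_ne_zero _ h8
  · exact Complex.I_ne_zero h8

/-- From circle diffeomorphisms to lifts. -/
theorem circle_lift (f : Diffeomorph (𝓡 1) (𝓡 1) Circle Circle ((⊤ : ℕ∞) : WithTop ℕ∞))
    (hf : ∃ F : ℝ → ℝ, Continuous F ∧ StrictMono F ∧ ∀ x : ℝ, f (Circle.exp x) = Circle.exp (F x)) :
    ∃ e : Equiv.Perm ℝ, IsD 1 e ∧ ∀ x : ℝ, f (Circle.exp (2 * Real.pi * x)) = Circle.exp (2 * Real.pi * e x) := by
  obtain ⟨F, hF, hm, h⟩ := hf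
  have hpi := Real.pi_pos
  have hs := circle_lift_smooth f F hF h
  have hE : ContDiff ℝ ∞ (fun x : ℝ => F (2 * Real.pi * x) / (2 * Real.pi)) :=
    (hs.comp (contDiff_const.mul contDiff_id)).div_const _
  have hder : ∀ x : ℝ, HasDerivAt (fun x : ℝ => F (2 * Real.pi * x) / (2 * Real.pi))
      (deriv F (2 * Real.pi * x)) x := by
    intro x
    have h1 : HasDerivAt F (deriv F (2 * Real.pi * x)) (2 * Real.pi * x) :=
      (hs.differentiable (by simp) _).hasDerivAt
    have h2 : HasDerivAt (fun x : ℝ => 2 * Real.pi * x) (2 * Real.pi) x := by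
      simpa using (hasDerivAt_id x).const_mul (2 * Real.pi)
    have h3 := (h1.comp x h2).div_const (2 * Real.pi)
    have h4 : deriv F (2 * Real.pi * x) * (2 * Real.pi) / (2 * Real.pi) =
      deriv F (2 * Real.pi * x) := by field_simp
    rw [h4] at h3
    exact h3
  obtain ⟨e, he, he2⟩ := isd_of_deriv 1 one_pos _ hE (fun x => by
    rw [(hder x).deriv]
    exact circle_lift_deriv f F hF hm h _) (fun x => by
    have h5 := circle_lift_period f f.injective F hF hm h (2 * Real.pi * x)
    have h6 : 2 * Real.pi * (x + 1) = 2 * Real.pi * x + 2 * Real.pi := by ring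
    show F (2 * Real.pi * (x + 1)) / (2 * Real.pi) = F (2 * Real.pi * x) / (2 * Real.pi) + 1
    rw [h6, h5]
    field_simp)
  refine ⟨e, he, fun x => ?_⟩
  rw [h, he2]
  congr 1
  field_simp

end Pool.Agent.Helper339.CW
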