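import Mathlib
import Pool.Agent.Helper339.CW.Defs
import Pool.Agent.Helper339.CW.P_basics

set_option autoImplicit false

open scoped ContDiff Manifold
open MeasureTheory Set

namespace Pool.Agent.Helper339.CW


/-! ### TARGET: prove this. Prefix the names of all your auxiliary lemmas with circle_unlift_ -/

noncomputable def circle_unlift_G (e : Equiv.Perm ℝ) (z : Circle) : Circle :=
  Circle.exp (2 * Real.pi * e (Complex.arg (z : ℂ) / (2 * Real.pi)))

theorem circle_unlift_add (e : Equiv.Perm ℝ) (he : IsD 1 e) (x : ℝ) (n : ℤ) :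
    e (x + n) = e x + n := by
  have := isd_add_int he x n
  simpa using this

theorem circle_unlift_G_exp (e : Equiv.Perm ℝ) (he : IsD 1 e) (x : ℝ) :
    circle_unlift_G e (Circle.exp (2 * Real.pi * x)) = Circle.exp (2 * Real.pi * e x) := by
  have hpi : (2 * Real.pi) ≠ 0 := by positivity
  obtain ⟨m, hm⟩ := Circle.exp_eq_exp.1 (Circle.exp_arg (Circle.exp (2 * Real.pi * x)))
  unfold circle_unlift_G
  rw [hm]
  have h1 : (2 * Real.pi * x + m * (2 * Real.pi)) / (2 * Real.pi) = x + m := by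
    field_simp
  rw [h1, circle_unlift_add e he, Circle.exp_eq_exp]
  exact ⟨m, by ring⟩

theorem circle_unlift_G_exp' (e : Equiv.Perm ℝ) (he : IsD 1 e) (x : ℝ) :
    circle_unlift_G e (Circle.exp x) = Circle.exp (2 * Real.pi * e (x / (2 * Real.pi))) := by
  have hpi : (2 * Real.pi) ≠ 0 := by positivity
  have := circle_unlift_G_exp e he (x / (2 * Real.pi))
  rw [← this]
  congr 2
  field_simp

theorem circle_unlift_G_eq (e : Equiv.Perm ℝ) (he : IsD 1 e) (z₀ z : Circle) :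
    circle_unlift_G e z = Circle.exp (2 * Real.pi *
      e ((Complex.arg (z₀ : ℂ) + Complex.arg ((z * z₀⁻¹ : Circle) : ℂ)) / (2 * Real.pi))) := by
  rw [← circle_unlift_G_exp' e he, Circle.exp_add, Circle.exp_arg, Circle.exp_arg]
  congr 1
  rw [mul_comm z, mul_inv_cancel_left]

theorem circle_unlift_smooth (e : Equiv.Perm ℝ) (he : IsD 1 e) :
    ContMDiff (𝓡 1) (𝓡 1) ((⊤ : ℕ∞) : WithTop ℕ∞) (circle_unlift_G e) := by
  intro z₀
  have h0 : circle_unlift_G e = fun z => Circle.exp (2 * Real.pi *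
      e ((Complex.arg (z₀ : ℂ) + Complex.arg ((z * z₀⁻¹ : Circle) : ℂ)) / (2 * Real.pi))) := by
    funext z
    exact circle_unlift_G_eq e he z₀ z
  rw [h0]
  have h1 : ContMDiff (𝓡 1) 𝓘(ℝ, ℂ) ((⊤ : ℕ∞) : WithTop ℕ∞)
      (fun z : Circle => ((z * z₀⁻¹ : Circle) : ℂ)) := by
    have hc : ContMDiff (𝓡 1) 𝓘(ℝ, ℂ) ((⊤ : ℕ∞) : WithTop ℕ∞) (fun z : Circle => (z : ℂ)) :=
      haveI : Fact (Module.finrank ℝ ℂ = 1 + 1) := Complex.finrank_real_complex_fact
      contMDiff_coe_sphere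
    have hm : ContMDiff (𝓡 1) (𝓡 1) ((⊤ : ℕ∞) : WithTop ℕ∞) (fun z : Circle => z * z₀⁻¹) :=
      contMDiff_id.mul contMDiff_const
    exact hc.comp hm
  have h2 : ContDiffAt ℝ ((⊤ : ℕ∞) : WithTop ℕ∞) Complex.arg
      ((z₀ * z₀⁻¹ : Circle) : ℂ) := by
    rw [mul_inv_cancel]
    have h3 : ContDiffAt ℝ ((⊤ : ℕ∞) : WithTop ℕ∞) Complex.log (1 : ℂ) :=
      (Complex.contDiffAt_log (by simp [Complex.slitPlane])).restrict_scalars ℝ
    have h4 : ContDiffAt ℝ ((⊤ : ℕ∞) : WithTop ℕ∞) (fun z : ℂ => (Complex.log z).im) (1 : ℂ) :=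
      Complex.imCLM.contDiff.contDiffAt.comp _ h3
    simpa [Complex.log_im] using h4
  have h5 : ContMDiffAt (𝓡 1) 𝓘(ℝ, ℝ) ((⊤ : ℕ∞) : WithTop ℕ∞)
      (fun z : Circle => Complex.arg ((z * z₀⁻¹ : Circle) : ℂ)) z₀ :=
    ContMDiffAt.comp z₀ h2.contMDiffAt (h1 z₀)
  have h6 : ContDiff ℝ ((⊤ : ℕ∞) : WithTop ℕ∞)
      (fun t : ℝ => 2 * Real.pi * e ((Complex.arg (z₀ : ℂ) + t) / (2 * Real.pi))) := by
    have := he.1.1
    refine contDiff_const.mul ?_
    exact this.comp ((contDiff_const.add contDiff_id).div_const _)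
  have h7 := ContMDiffAt.comp z₀ (h6.contMDiff _) h5
  exact ContMDiffAt.comp z₀ (contMDiff_circleExp _) h7

/-- From lifts to circle diffeomorphisms. -/
theorem circle_unlift (e : Equiv.Perm ℝ) (he : IsD 1 e) :
    ∃ f : Diffeomorph (𝓡 1) (𝓡 1) Circle Circle ((⊤ : ℕ∞) : WithTop ℕ∞),
      (∀ x : ℝ, f (Circle.exp (2 * Real.pi * x)) = Circle.exp (2 * Real.pi * e x)) ∧
      (∀ x : ℝ, f.symm (Circle.exp (2 * Real.pi * x)) = Circle.exp (2 * Real.pi * e⁻¹ x)) ∧
      (∃ F : ℝ → ℝ, Continuous F ∧ StrictMono F ∧ ∀ x : ℝ, f (Circle.exp x) = Circle.exp (F x)) := by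
  have he' : IsD 1 e⁻¹ := isd_inv he
  have hpi : (2 * Real.pi) ≠ 0 := by positivity
  have hx : ∀ z : Circle, z = Circle.exp (2 * Real.pi * (Complex.arg (z : ℂ) / (2 * Real.pi))) := by
    intro z
    rw [mul_div_cancel₀ _ hpi, Circle.exp_arg]
  refine ⟨⟨⟨circle_unlift_G e, circle_unlift_G e⁻¹, ?_, ?_⟩, circle_unlift_smooth e he,
    circle_unlift_smooth e⁻¹ he'⟩, ?_, ?_, ?_⟩
  · intro z
    rw [hx z, circle_unlift_G_exp e he, circle_unlift_G_exp e⁻¹ he']
    simp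
  · intro z
    rw [hx z, circle_unlift_G_exp e⁻¹ he', circle_unlift_G_exp e he]
    simp
  · intro x
    exact circle_unlift_G_exp e he x
  · intro x
    exact circle_unlift_G_exp e⁻¹ he' x
  · refine ⟨fun x => 2 * Real.pi * e (x / (2 * Real.pi)), ?_, ?_, ?_⟩
    · have := he.1.1.continuous
      fun_prop
    · intro a b hab
      have h1 : a / (2 * Real.pi) < b / (2 * Real.pi) := by
        apply div_lt_div_of_pos_right hab; positivity
      have h2 : e (a / (2 * Real.pi)) < e (b / (2 * Real.pi)) := he.1.2.2 h1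
      have : 0 < 2 * Real.pi := by positivity
      exact mul_lt_mul_of_pos_left h2 this
    · intro x
      exact circle_unlift_G_exp' e he x

end Pool.Agent.Helper339.CW
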