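import Mathlib
import Pool.Agent.Helper339.CW.Defs

set_option autoImplicit false

open scoped ContDiff Manifold
open MeasureTheory Set

namespace Pool.Agent.Helper339.CW


/-! ### TARGET: prove this. Prefix the names of all your auxiliary lemmas with coef_props_ -/

noncomputable def coef_props_cf (u : ℝ → ℝ) (k : ℤ) : ℂ :=
  ∫ x in (0:ℝ)..1, Complex.exp (-(2 * Real.pi * Complex.I * k * x)) * (u x : ℂ)

theorem coef_props_eq (u : ℝ → ℝ) (k : ℤ) :
    fourierCoeffOn (zero_lt_one : (0:ℝ) < 1) (fun x => (u x : ℂ)) k = coef_props_cf u k := by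
  rw [fourierCoeffOn_eq_integral, coef_props_cf]
  simp only [fourier_coe_apply, smul_eq_mul]
  simp only [sub_zero, div_one, one_smul, Int.cast_neg, Complex.ofReal_one]
  congr 1
  ext x
  congr 2
  ring

theorem coef_props_parseval (u : ℝ → ℝ) (hu : Continuous u) :
    HasSum (fun k : ℤ => ‖coef_props_cf u k‖ ^ 2) (∫ x in (0:ℝ)..1, (u x) ^ 2) := by
  have hL : MemLp (fun x => (u x : ℂ)) 2 (volume.restrict (Ioc (0:ℝ) 1)) := by
    have hc : Continuous (fun x => (u x : ℂ)) := Complex.continuous_ofReal.comp hu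
    obtain ⟨C, hC⟩ := isCompact_Icc.exists_bound_of_continuousOn (s := Icc (0:ℝ) 1)
      hc.continuousOn
    refine MemLp.of_bound hc.aestronglyMeasurable C ?_
    rw [ae_restrict_iff' measurableSet_Ioc]
    exact Filter.Eventually.of_forall fun x hx => hC x (Ioc_subset_Icc_self hx)
  have h := hasSum_sq_fourierCoeffOn (zero_lt_one : (0:ℝ) < 1) hL
  simp only [coef_props_eq, sub_zero, inv_one, one_smul] at h
  convert h using 2
  ext x
  simp

theorem coef_props_deriv (u u' : ℝ → ℝ) (hd : ∀ x, HasDerivAt u (u' x) x) (hc : Continuous u')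
    (hp : u 1 = u 0) (k : ℤ) :
    coef_props_cf u' k = 2 * Real.pi * Complex.I * k * coef_props_cf u k := by
  have huc : Continuous u := continuous_iff_continuousAt.2 fun x => (hd x).continuousAt
  have hF : ∀ x : ℝ, HasDerivAt (fun x : ℝ => Complex.exp (-(2 * Real.pi * Complex.I * k * x)) *
      (u x : ℂ)) (Complex.exp (-(2 * Real.pi * Complex.I * k * x)) * (u' x : ℂ) -
        2 * Real.pi * Complex.I * k * (Complex.exp (-(2 * Real.pi * Complex.I * k * x)) *
          (u x : ℂ))) x := by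
    intro x
    have h0 : HasDerivAt (fun x : ℝ => -(2 * Real.pi * Complex.I * k * (x : ℂ)))
        (-(2 * Real.pi * Complex.I * k)) x := by
      have h := (Complex.ofRealCLM.hasDerivAt (x := x)).const_mul
        (-(2 * Real.pi * Complex.I * k))
      have e : (fun x : ℝ => -(2 * Real.pi * Complex.I * k * (x : ℂ))) =
          fun y : ℝ => -(2 * Real.pi * Complex.I * k) * Complex.ofRealCLM y := by
        ext y
        simp
      rw [e]
      simpa using h
    have h1 : HasDerivAt (fun x : ℝ => Complex.exp (-(2 * Real.pi * Complex.I * k * x)))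
        (Complex.exp (-(2 * Real.pi * Complex.I * k * x)) * (-(2 * Real.pi * Complex.I * k))) x :=
      h0.cexp
    have h2 : HasDerivAt (fun x : ℝ => (u x : ℂ)) (u' x : ℂ) x := (hd x).ofReal_comp
    have h3 := h1.mul h2
    have e2 : (Complex.exp (-(2 * Real.pi * Complex.I * k * x)) * (u' x : ℂ) -
        2 * Real.pi * Complex.I * k * (Complex.exp (-(2 * Real.pi * Complex.I * k * x)) *
          (u x : ℂ))) = Complex.exp (-(2 * Real.pi * Complex.I * k * x)) *
          (-(2 * Real.pi * Complex.I * k)) * (u x : ℂ) +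
          Complex.exp (-(2 * Real.pi * Complex.I * k * x)) * (u' x : ℂ) := by ring
    rw [e2]
    exact h3
  have hce : Continuous (fun x : ℝ => Complex.exp (-(2 * Real.pi * Complex.I * k * x))) := by
    fun_prop
  have hc1 : Continuous (fun x : ℝ => Complex.exp (-(2 * Real.pi * Complex.I * k * x)) *
      (u' x : ℂ)) := hce.mul (Complex.continuous_ofReal.comp hc)
  have hc2 : Continuous (fun x : ℝ => Complex.exp (-(2 * Real.pi * Complex.I * k * x)) *
      (u x : ℂ)) := hce.mul (Complex.continuous_ofReal.comp huc)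
  have hc3 : Continuous (fun x : ℝ => 2 * Real.pi * Complex.I * k *
      (Complex.exp (-(2 * Real.pi * Complex.I * k * x)) * (u x : ℂ))) := continuous_const.mul hc2
  have hint := intervalIntegral.integral_eq_sub_of_hasDerivAt (a := 0) (b := 1)
    (fun x _ => hF x) ((hc1.sub hc3).intervalIntegrable _ _)
  rw [intervalIntegral.integral_sub (hc1.intervalIntegrable _ _)
    (hc3.intervalIntegrable _ _), intervalIntegral.integral_const_mul] at hint
  have e1 : Complex.exp (-(2 * Real.pi * Complex.I * k * ((1:ℝ) : ℂ))) = 1 := by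
    have := Complex.exp_int_mul_two_pi_mul_I (-k)
    rw [← this]
    congr 1
    push_cast
    ring
  rw [e1, hp] at hint
  simp only [Complex.ofReal_zero, mul_zero, neg_zero, Complex.exp_zero, sub_self] at hint
  unfold coef_props_cf
  linear_combination hint

theorem coef_props_trans (u : ℝ → ℝ) (hp : ∀ x, u (x + 1) = u x) (t : ℝ) (k : ℤ) :
    coef_props_cf (fun x => u (x + t)) k =
      Complex.exp (2 * Real.pi * Complex.I * k * t) * coef_props_cf u k := by
  have hper : Function.Periodic (fun x : ℝ => Complex.exp (-(2 * Real.pi * Complex.I * k * x)) *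
      (u x : ℂ)) 1 := by
    intro x
    simp only
    rw [hp]
    congr 1
    have := Complex.exp_int_mul_two_pi_mul_I (-k)
    have e : (-(2 * Real.pi * Complex.I * k * ((x + 1 : ℝ) : ℂ))) =
        (-(2 * Real.pi * Complex.I * k * x)) + ((-k : ℤ) : ℂ) * (2 * Real.pi * Complex.I) := by
      push_cast
      ring
    rw [e, Complex.exp_add, this, mul_one]
  unfold coef_props_cf
  have h1 := intervalIntegral.integral_comp_add_right (a := 0) (b := 1)
    (fun x : ℝ => Complex.exp (-(2 * Real.pi * Complex.I * k * x)) * (u x : ℂ)) t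
  have h2 := hper.intervalIntegral_add_eq t 0
  simp only [zero_add] at h1 h2
  rw [add_comm 1 t, h2] at h1
  rw [← h1, ← intervalIntegral.integral_const_mul]
  congr 1
  ext x
  rw [← mul_assoc, ← Complex.exp_add]
  congr 2
  push_cast
  ring

theorem coef_props_sum (u : ℝ → ℝ) (hu : Continuous u) (hp : ∀ x, u (x + 1) = u x)
    (hs : Summable (fun k : ℤ => ‖coef_props_cf u k‖)) (x : ℝ) :
    (u x : ℂ) = ∑' k : ℤ, coef_props_cf u k * Complex.exp (2 * Real.pi * Complex.I * k * x) := by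
  have : Fact ((0:ℝ) < 1) := ⟨one_pos⟩
  have hper : Function.Periodic (fun x : ℝ => (u x : ℂ)) 1 := fun x => by simp only [hp]
  have hc : Continuous (fun x => (u x : ℂ)) := Complex.continuous_ofReal.comp hu
  let g : C(AddCircle (1:ℝ), ℂ) := ⟨hper.lift, continuous_coinduced_dom.2 (by
    exact hc)⟩
  have hg : ∀ y : ℝ, g (y : AddCircle (1:ℝ)) = (u y : ℂ) := fun y => hper.lift_coe y
  have hco : ∀ k, fourierCoeff g k = coef_props_cf u k := by
    intro k
    rw [fourierCoeff_eq_intervalIntegral _ _ 0, coef_props_cf]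
    simp only [hg, fourier_coe_apply, smul_eq_mul]
    simp only [zero_add, div_one, one_smul, Int.cast_neg, Complex.ofReal_one]
    congr 1
    ext x
    congr 2
    ring
  have hs' : Summable (fourierCoeff g) := by
    have : fourierCoeff g = fun k => coef_props_cf u k := funext hco
    rw [this]
    exact hs.of_norm
  have h := has_pointwise_sum_fourier_series_of_summable hs' (x : AddCircle (1:ℝ))
  rw [hg] at h
  rw [← h.tsum_eq]
  congr 1
  ext k
  rw [hco, fourier_coe_apply, smul_eq_mul]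
  simp

theorem coef_props_norm (u u' u'' : ℝ → ℝ) (h1 : ∀ x, HasDerivAt u (u' x) x)
    (h2 : ∀ x, HasDerivAt u' (u'' x) x) (hc : Continuous u'') (hp : u 1 = u 0)
    (hp' : u' 1 = u' 0) (k : ℤ) :
    ‖coef_props_cf u'' k‖ ^ 2 = (2 * Real.pi) ^ 4 * ((k:ℝ) ^ 4 * ‖coef_props_cf u k‖ ^ 2) := by
  have hc' : Continuous u' := continuous_iff_continuousAt.2 fun x => (h2 x).continuousAt
  rw [coef_props_deriv u' u'' h2 hc hp' k, coef_props_deriv u u' h1 hc' hp k]
  simp only [norm_mul, Complex.norm_I, Complex.norm_real, Complex.norm_intCast,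
    Complex.norm_ofNat]
  have h3 : ‖Real.pi‖ = Real.pi := Real.norm_of_nonneg Real.pi_pos.le
  rw [h3]
  have h4 : |(k:ℝ)| ^ 4 = (k:ℝ) ^ 4 := by
    have : |(k:ℝ)| ^ 2 = (k:ℝ) ^ 2 := sq_abs _
    calc |(k:ℝ)| ^ 4 = (|(k:ℝ)| ^ 2) ^ 2 := by ring
      _ = (k:ℝ) ^ 4 := by rw [this]; ring
  rw [← h4]
  ring

theorem coef_props_expbd (k : ℤ) (N : ℕ) (hN : 0 < N) (hk : |(k:ℝ)| ≤ N) :
    4 * |(k:ℝ)| * (1 / (2 * N)) ≤
      ‖Complex.exp (2 * Real.pi * Complex.I * k * ((1 / (2 * N) : ℝ) : ℂ)) - 1‖ := by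
  have hN' : (0:ℝ) < N := by exact_mod_cast hN
  have e : (2 * Real.pi * Complex.I * k * ((1 / (2 * N) : ℝ) : ℂ)) =
      Complex.I * ((Real.pi * k / N : ℝ) : ℂ) := by
    push_cast
    field_simp
  rw [e, Complex.norm_exp_I_mul_ofReal_sub_one]
  have h1 : ‖2 * Real.sin (Real.pi * k / N / 2)‖ = 2 * Real.sin (|Real.pi * k / N / 2|) := by
    rw [norm_mul, Real.norm_ofNat, Real.norm_eq_abs]
    congr 1
    have hb : |Real.pi * k / N / 2| ≤ Real.pi := by
      rw [abs_div, abs_div, abs_mul, abs_of_pos Real.pi_pos, abs_of_pos hN',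
        abs_of_pos (by norm_num : (0:ℝ) < 2)]
      rw [div_div, div_le_iff₀ (by positivity)]
      nlinarith [Real.pi_pos, abs_nonneg (k:ℝ)]
    have hs : 0 ≤ Real.sin (|Real.pi * k / N / 2|) :=
      Real.sin_nonneg_of_nonneg_of_le_pi (abs_nonneg _) hb
    rcases abs_cases (Real.pi * k / N / 2) with ⟨h, _⟩ | ⟨h, _⟩
    · rw [h] at hs ⊢
      exact abs_of_nonneg hs
    · rw [h] at hs ⊢
      rw [Real.sin_neg] at hs ⊢
      exact abs_of_nonpos (by linarith)
  rw [h1]
  have h2 : |Real.pi * k / N / 2| = Real.pi * |(k:ℝ)| / (2 * N) := by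
    rw [abs_div, abs_div, abs_mul, abs_of_pos Real.pi_pos, abs_of_pos hN',
      abs_of_pos (by norm_num : (0:ℝ) < 2)]
    field_simp
  rw [h2]
  have h3 : Real.pi * |(k:ℝ)| / (2 * N) ≤ Real.pi / 2 := by
    rw [div_le_div_iff₀ (by positivity) (by norm_num)]
    nlinarith [Real.pi_pos, abs_nonneg (k:ℝ)]
  have h4 := Real.mul_le_sin (show 0 ≤ Real.pi * |(k:ℝ)| / (2 * N) by positivity) h3
  have h5 : 2 / Real.pi * (Real.pi * |(k:ℝ)| / (2 * N)) = 2 * |(k:ℝ)| * (1 / (2 * N)) := by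
    field_simp
  rw [h5] at h4
  linarith

theorem coef_props_HC (u : ℝ → ℝ) (hu : HC u) :
    Summable (fun k : ℤ => (k:ℝ) ^ 2 * ‖coef_props_cf u k‖ ^ 2) := by
  obtain ⟨hc, hper, K, hK⟩ := hu
  apply summable_of_sum_le (c := K / 4) (fun k => by positivity)
  intro s
  obtain ⟨N, hN0, hN⟩ : ∃ N : ℕ, 0 < N ∧ ∀ k ∈ s, |(k:ℝ)| ≤ N := by
    refine ⟨s.sup Int.natAbs + 1, Nat.succ_pos _, fun k hk => ?_⟩
    have h1 : k.natAbs ≤ s.sup Int.natAbs := Finset.le_sup (f := Int.natAbs) hk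
    have h2 : |(k:ℝ)| = (k.natAbs : ℝ) := by
      rw [Nat.cast_natAbs]
      push_cast
      rfl
    rw [h2]
    exact_mod_cast h1.trans (Nat.le_succ _)
  have hN' : (0:ℝ) < N := by exact_mod_cast hN0
  set t : ℝ := 1 / (2 * N) with ht
  have htc : Continuous (fun x => u (x + t) - u x) :=
    (hc.comp (continuous_id.add continuous_const)).sub hc
  have hP := coef_props_parseval _ htc
  have hcf : ∀ k, coef_props_cf (fun x => u (x + t) - u x) k =
      (Complex.exp (2 * Real.pi * Complex.I * k * t) - 1) * coef_props_cf u k := by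
    intro k
    rw [sub_mul, one_mul, ← coef_props_trans u hper t k]
    unfold coef_props_cf
    rw [← intervalIntegral.integral_sub]
    · congr 1
      ext x
      push_cast
      ring
    · apply Continuous.intervalIntegrable
      have h1 : Continuous (fun x : ℝ => Complex.exp (-(2 * Real.pi * Complex.I * k * x))) := by
        fun_prop
      exact h1.mul (Complex.continuous_ofReal.comp (hc.comp (continuous_id.add continuous_const)))
    · apply Continuous.intervalIntegrable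
      have h1 : Continuous (fun x : ℝ => Complex.exp (-(2 * Real.pi * Complex.I * k * x))) := by
        fun_prop
      exact h1.mul (Complex.continuous_ofReal.comp hc)
  have h1 : ∑ k ∈ s, ‖coef_props_cf (fun x => u (x + t) - u x) k‖ ^ 2 ≤ K * t ^ 2 :=
    (sum_le_hasSum s (fun k _ => by positivity) hP).trans (hK t)
  have h2 : ∑ k ∈ s, 16 * t ^ 2 * ((k:ℝ) ^ 2 * ‖coef_props_cf u k‖ ^ 2) ≤
      ∑ k ∈ s, ‖coef_props_cf (fun x => u (x + t) - u x) k‖ ^ 2 := by
    apply Finset.sum_le_sum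
    intro k hk
    rw [hcf, norm_mul, mul_pow]
    have h3 := coef_props_expbd k N hN0 (hN k hk)
    rw [← ht] at h3
    have h4 : (4 * |(k:ℝ)| * t) ^ 2 ≤
        ‖Complex.exp (2 * Real.pi * Complex.I * k * t) - 1‖ ^ 2 :=
      pow_le_pow_left₀ (by positivity) h3 2
    have h5 : (4 * |(k:ℝ)| * t) ^ 2 = 16 * t ^ 2 * (k:ℝ) ^ 2 := by
      rw [mul_pow, mul_pow, sq_abs]
      ring
    rw [h5] at h4
    have h6 := mul_le_mul_of_nonneg_right h4 (by positivity : 0 ≤ ‖coef_props_cf u k‖ ^ 2)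
    linarith
  rw [← Finset.mul_sum] at h2
  have ht2 : 0 < t ^ 2 := by positivity
  have h7 : 16 * t ^ 2 * ∑ k ∈ s, ((k:ℝ) ^ 2 * ‖coef_props_cf u k‖ ^ 2) ≤ K * t ^ 2 := h2.trans h1
  have h8 : t ^ 2 * (16 * ∑ k ∈ s, ((k:ℝ) ^ 2 * ‖coef_props_cf u k‖ ^ 2)) ≤ t ^ 2 * K := by
    linarith
  have h9 := le_of_mul_le_mul_left h8 ht2
  have h0 : 0 ≤ ∑ k ∈ s, ((k:ℝ) ^ 2 * ‖coef_props_cf u k‖ ^ 2) :=
    Finset.sum_nonneg fun k _ => by positivity
  linarith

/-- Fourier coefficients of `C^2` functions. -/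
theorem coef_props (p : ℝ → ℝ) (hp : ContDiff ℝ 2 p) (hper : ∀ x, p (x + 1) = p x)
    (hmean : (∫ x in (0:ℝ)..1, p x) = 0) :
    ∃ d : ℤ → ℂ, d 0 = 0 ∧ Summable (fun k : ℤ => (k:ℝ) ^ 4 * ‖d k‖ ^ 2) ∧
      (∀ x, (p x : ℂ) = ser d x) ∧
      (∀ K : ℝ, (∀ x, |deriv (deriv p) x| ≤ K) → ∑' k : ℤ, (k:ℝ) ^ 4 * ‖d k‖ ^ 2 ≤ K ^ 2) ∧
      (HC (deriv (deriv p)) → Summable (fun k : ℤ => (k:ℝ) ^ 6 * ‖d k‖ ^ 2)) := by
  have hp1 : ContDiff ℝ 1 (deriv p) := by
    have h : ContDiff ℝ (1 + 1) p := by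
      norm_num
      exact hp
    exact (contDiff_succ_iff_deriv.1 h).2.2
  have hp2 : ContDiff ℝ 0 (deriv (deriv p)) := by
    have h : ContDiff ℝ (0 + 1) (deriv p) := by
      norm_num
      exact hp1
    exact (contDiff_succ_iff_deriv.1 h).2.2
  have hc2 : Continuous (deriv (deriv p)) := hp2.continuous
  have hd1 : ∀ x, HasDerivAt p (deriv p x) x := fun x =>
    (hp.differentiable (by norm_num) x).hasDerivAt
  have hd2 : ∀ x, HasDerivAt (deriv p) (deriv (deriv p) x) x := fun x =>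
    (hp1.differentiable (by norm_num) x).hasDerivAt
  have hper' : ∀ x, deriv p (x + 1) = deriv p x := by
    intro x
    have h1 : deriv (fun y => p (y + 1)) x = deriv p (x + 1) := deriv_comp_add_const p 1 x
    have h2 : (fun y => p (y + 1)) = p := funext hper
    rw [h2] at h1
    exact h1.symm
  have e0 : p 1 = p 0 := by
    have := hper 0
    rwa [zero_add] at this
  have e0' : deriv p 1 = deriv p 0 := by
    have := hper' 0
    rwa [zero_add] at this
  have hn := coef_props_norm p (deriv p) (deriv (deriv p)) hd1 hd2 hc2 e0 e0'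
  have hPar := coef_props_parseval _ hc2
  have hpi : (0:ℝ) < (2 * Real.pi) ^ 4 := by positivity
  have hpi1 : (1:ℝ) ≤ (2 * Real.pi) ^ 4 :=
    one_le_pow₀ (by linarith [Real.pi_gt_three])
  have hS4 : HasSum (fun k : ℤ => (k:ℝ) ^ 4 * ‖coef_props_cf p k‖ ^ 2)
      (((2 * Real.pi) ^ 4)⁻¹ * ∫ x in (0:ℝ)..1, (deriv (deriv p) x) ^ 2) := by
    have h := hPar.mul_left ((2 * Real.pi) ^ 4)⁻¹
    have e : (fun k : ℤ => (k:ℝ) ^ 4 * ‖coef_props_cf p k‖ ^ 2) = fun k : ℤ =>
        ((2 * Real.pi) ^ 4)⁻¹ * ‖coef_props_cf (deriv (deriv p)) k‖ ^ 2 := by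
      ext k
      rw [hn k, inv_mul_cancel_left₀ hpi.ne']
    rw [e]
    exact h
  have hd0 : coef_props_cf p 0 = 0 := by
    unfold coef_props_cf
    simp only [Int.cast_zero, mul_zero, zero_mul, neg_zero, Complex.exp_zero, one_mul]
    rw [intervalIntegral.integral_ofReal, hmean]
    simp
  have hS1 : Summable (fun k : ℤ => ‖coef_props_cf p k‖) := by
    have h4 : Summable (fun k : ℤ => 1 / (k:ℝ) ^ 4) :=
      Real.summable_one_div_int_pow.2 (by norm_num)
    apply Summable.of_nonneg_of_le (fun k => norm_nonneg _) _ (hS4.summable.add h4)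
    intro k
    by_cases hk : k = 0
    · subst hk
      rw [hd0]
      simp
    · have hk' : (0:ℝ) < (k:ℝ) ^ 2 := by
        have : (k:ℝ) ≠ 0 := by exact_mod_cast hk
        positivity
      set a := ‖coef_props_cf p k‖ with ha
      have ha0 : 0 ≤ a := norm_nonneg _
      have h1 : (k:ℝ) ^ 4 * a ^ 2 = ((k:ℝ) ^ 2 * a) ^ 2 := by ring
      have h2 : 1 / (k:ℝ) ^ 4 = (1 / (k:ℝ) ^ 2) ^ 2 := by
        rw [one_div_pow]
        ring
      have h3 : a = ((k:ℝ) ^ 2 * a) * (1 / (k:ℝ) ^ 2) := by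
        field_simp
      rw [h1, h2]
      have h5 : 0 ≤ (k:ℝ) ^ 2 * a := by positivity
      have h6 : 0 ≤ 1 / (k:ℝ) ^ 2 := by positivity
      nlinarith [sq_nonneg ((k:ℝ) ^ 2 * a - 1 / (k:ℝ) ^ 2)]
  refine ⟨coef_props_cf p, hd0, hS4.summable, ?_, ?_, ?_⟩
  · intro x
    exact coef_props_sum p hp.continuous hper hS1 x
  · intro K hK
    rw [hS4.tsum_eq]
    have hK0 : 0 ≤ K := (abs_nonneg _).trans (hK 0)
    have hle : (∫ x in (0:ℝ)..1, (deriv (deriv p) x) ^ 2) ≤ K ^ 2 := by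
      have h1 : (∫ x in (0:ℝ)..1, (deriv (deriv p) x) ^ 2) ≤ ∫ x in (0:ℝ)..1, K ^ 2 := by
        apply intervalIntegral.integral_mono_on zero_le_one
          ((hc2.pow 2).intervalIntegrable _ _) (continuous_const.intervalIntegrable _ _)
        intro x _
        exact sq_le_sq' (by linarith [(abs_le.1 (hK x)).1]) (abs_le.1 (hK x)).2
      simpa using h1
    have hnn : 0 ≤ ∫ x in (0:ℝ)..1, (deriv (deriv p) x) ^ 2 :=
      intervalIntegral.integral_nonneg zero_le_one fun x _ => sq_nonneg _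
    have hinv : ((2 * Real.pi) ^ 4)⁻¹ ≤ 1 := inv_le_one_of_one_le₀ hpi1
    calc ((2 * Real.pi) ^ 4)⁻¹ * ∫ x in (0:ℝ)..1, (deriv (deriv p) x) ^ 2
        ≤ 1 * ∫ x in (0:ℝ)..1, (deriv (deriv p) x) ^ 2 :=
          mul_le_mul_of_nonneg_right hinv hnn
      _ ≤ K ^ 2 := by rw [one_mul]; exact hle
  · intro hHC
    have h := (coef_props_HC _ hHC).mul_left ((2 * Real.pi) ^ 4)⁻¹
    have e : (fun k : ℤ => (k:ℝ) ^ 6 * ‖coef_props_cf p k‖ ^ 2) = fun k : ℤ =>
        ((2 * Real.pi) ^ 4)⁻¹ * ((k:ℝ) ^ 2 * ‖coef_props_cf (deriv (deriv p)) k‖ ^ 2) := by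
      ext k
      rw [hn k]
      field_simp
    rw [e]
    exact h

end Pool.Agent.Helper339.CW
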