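import Mathlib
import Pool.Agent.Helper339.CW.Defs

set_option autoImplicit false

open scoped ContDiff Manifold
open MeasureTheory Set

namespace Pool.Agent.Helper339.CW


/-! ### TARGET: prove this. Prefix the names of all your auxiliary lemmas with cohom_sd_ -/

theorem cohom_sd_arith (k : ℤ) (hk : k ≠ 0) :
    1 / (4 * |(k:ℝ)|) ≤ |(k : ℝ) * √2 - round ((k : ℝ) * √2)| := by
  set p : ℤ := round ((k : ℝ) * √2) with hp
  have hirr : Irrational ((k : ℝ) * √2) := irrational_sqrt_two.intCast_mul hk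
  have h1 : (k : ℝ) * √2 - p ≠ 0 := sub_ne_zero.2 (hirr.ne_int p)
  have h2 : (k : ℝ) * √2 + p ≠ 0 := by
    intro h
    apply hirr.ne_int (-p)
    push_cast
    linarith
  have hsq : √2 ^ 2 = (2 : ℝ) := Real.sq_sqrt (by norm_num)
  have hprod : ((k : ℝ) * √2 - p) * ((k : ℝ) * √2 + p) = ((2 * k ^ 2 - p ^ 2 : ℤ) : ℝ) := by
    push_cast
    have : ((k : ℝ) * √2 - p) * ((k : ℝ) * √2 + p) = (k : ℝ) ^ 2 * √2 ^ 2 - (p : ℝ) ^ 2 := by ring
    rw [this, hsq]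
    ring
  have hne : (2 * k ^ 2 - p ^ 2 : ℤ) ≠ 0 := by
    intro h
    rw [h] at hprod
    exact mul_ne_zero h1 h2 (by simpa using hprod)
  have hge : (1 : ℝ) ≤ |((k : ℝ) * √2 - p)| * |((k : ℝ) * √2 + p)| := by
    rw [← abs_mul, hprod, ← Int.cast_abs]
    exact_mod_cast Int.one_le_abs hne
  have ht : |((k : ℝ) * √2 - p)| ≤ 1 / 2 := abs_sub_round _
  have hk1 : (1 : ℝ) ≤ |(k : ℝ)| := by
    rw [← Int.cast_abs]
    exact_mod_cast Int.one_le_abs hk
  have hs : √2 ≤ 3 / 2 := by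
    rw [Real.sqrt_le_left (by norm_num)]
    norm_num
  have hub : |((k : ℝ) * √2 + p)| ≤ 4 * |(k : ℝ)| := by
    have e : (k : ℝ) * √2 + p = 2 * ((k : ℝ) * √2) - ((k : ℝ) * √2 - p) := by ring
    rw [e]
    refine (abs_sub _ _).trans ?_
    rw [abs_mul, abs_mul, abs_of_pos (show (0 : ℝ) < 2 by norm_num),
      abs_of_nonneg (Real.sqrt_nonneg 2)]
    nlinarith
  have hk0 : 0 < 4 * |(k : ℝ)| := by linarith
  rw [div_le_iff₀ hk0]
  calc (1 : ℝ) ≤ |((k : ℝ) * √2 - p)| * |((k : ℝ) * √2 + p)| := hge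
    _ ≤ |((k : ℝ) * √2 - p)| * (4 * |(k : ℝ)|) :=
        mul_le_mul_of_nonneg_left hub (abs_nonneg _)

theorem cohom_sd_sin (θ : ℝ) : 2 * |θ - round θ| ≤ |Real.sin (Real.pi * θ)| := by
  have ht : |θ - round θ| ≤ 1 / 2 := abs_sub_round _
  have e : Real.pi * θ = Real.pi * (θ - round θ) + (round θ : ℤ) * Real.pi := by ring
  rw [e, Real.sin_add_int_mul_pi, abs_mul, abs_zpow, abs_neg, abs_one, one_zpow, one_mul]
  have hpi := Real.pi_pos
  have h1 : |Real.pi * (θ - round θ)| ≤ Real.pi / 2 := by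
    rw [abs_mul, abs_of_pos hpi]
    nlinarith
  have h2 := Real.mul_abs_le_abs_sin h1
  rw [abs_mul, abs_of_pos hpi] at h2
  calc 2 * |θ - round θ| = 2 / Real.pi * (Real.pi * |θ - round θ|) := by field_simp
    _ ≤ _ := h2

/-- Small divisors of `√2`. -/
theorem cohom_sd (k : ℤ) (hk : k ≠ 0) :
    1 / |(k:ℝ)| ≤ ‖Complex.exp (2 * Real.pi * Complex.I * k * ((√2 : ℝ) : ℂ)) - 1‖ := by
  have e : (2 * Real.pi * Complex.I * k * ((√2 : ℝ) : ℂ)) =
      Complex.I * ((2 * (Real.pi * ((k : ℝ) * √2)) : ℝ) : ℂ) := by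
    push_cast
    ring
  rw [e, Complex.norm_exp_I_mul_ofReal_sub_one, norm_mul, Real.norm_eq_abs, Real.norm_eq_abs,
    abs_of_pos (show (0 : ℝ) < 2 by norm_num)]
  have e2 : 2 * (Real.pi * ((k : ℝ) * √2)) / 2 = Real.pi * ((k : ℝ) * √2) := by ring
  rw [e2]
  have h1 := cohom_sd_sin ((k : ℝ) * √2)
  have h2 := cohom_sd_arith k hk
  have h3 : 1 / |(k : ℝ)| = 4 * (1 / (4 * |(k : ℝ)|)) := by
    have : |(k : ℝ)| ≠ 0 := by
      rw [ne_eq, abs_eq_zero]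
      exact_mod_cast hk
    field_simp
  rw [h3]
  linarith

end Pool.Agent.Helper339.CW
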