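import Mathlib
import Pool.Agent.Helper339.CW.Defs

set_option autoImplicit false

open scoped ContDiff Manifold
open MeasureTheory Set

namespace Pool.Agent.Helper339.CW


/-! ### TARGET: prove this. Prefix the names of all your auxiliary lemmas with ser_props_ -/

/-- exponentials -/
noncomputable def ser_props_e (k : ℤ) (x : ℝ) : ℂ :=
  Complex.exp (2 * Real.pi * Complex.I * k * x)

lemma ser_props_e_eq (k : ℤ) (x : ℝ) :
    ser_props_e k x = Complex.exp (Complex.I * ((2 * Real.pi * k * x : ℝ) : ℂ)) := by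
  rw [ser_props_e]
  congr 1
  push_cast
  ring

lemma ser_props_e_norm (k : ℤ) (x : ℝ) : ‖ser_props_e k x‖ = 1 := by
  rw [ser_props_e_eq, mul_comm, Complex.norm_exp_ofReal_mul_I]

lemma ser_props_e_cont (k : ℤ) : Continuous (ser_props_e k) := by
  unfold ser_props_e
  fun_prop

lemma ser_props_e_add (k : ℤ) (x t : ℝ) :
    ser_props_e k (x + t) = ser_props_e k x * ser_props_e k t := by
  unfold ser_props_e
  rw [← Complex.exp_add]
  congr 1
  push_cast
  ring

lemma ser_props_e_one (k : ℤ) : ser_props_e k 1 = 1 := by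
  unfold ser_props_e
  rw [← Complex.exp_int_mul_two_pi_mul_I k]
  congr 1
  push_cast
  ring

lemma ser_props_e_mul (k l : ℤ) (x : ℝ) :
    ser_props_e k x * ser_props_e l x = ser_props_e (k + l) x := by
  unfold ser_props_e
  rw [← Complex.exp_add]
  congr 1
  push_cast
  ring

lemma ser_props_e_conj (k : ℤ) (x : ℝ) :
    (starRingEnd ℂ) (ser_props_e k x) = ser_props_e (-k) x := by
  rw [ser_props_e_eq, ser_props_e_eq, ← Complex.exp_conj]
  congr 1
  rw [map_mul, Complex.conj_I, Complex.conj_ofReal]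
  push_cast
  ring

lemma ser_props_e_int (k : ℤ) : ∫ x in (0:ℝ)..1, ser_props_e k x = if k = 0 then 1 else 0 := by
  by_cases hk : k = 0
  · subst hk
    simp [ser_props_e]
  · rw [if_neg hk]
    have hc : (2 * Real.pi * Complex.I * k : ℂ) ≠ 0 := by
      have : (k : ℂ) ≠ 0 := by exact_mod_cast hk
      have h2 : (Real.pi : ℂ) ≠ 0 := by exact_mod_cast Real.pi_ne_zero
      simp [this, h2, Complex.I_ne_zero]
    unfold ser_props_e
    rw [integral_exp_mul_complex hc]
    have h1 : Complex.exp (2 * Real.pi * Complex.I * k * ((1:ℝ) : ℂ)) = 1 := ser_props_e_one k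
    rw [h1]
    simp

lemma ser_props_ser (c : ℤ → ℂ) (x : ℝ) : ser c x = ∑' k, c k * ser_props_e k x := rfl

lemma ser_props_term (c : ℤ → ℂ) (k : ℤ) (x : ℝ) : ‖c k * ser_props_e k x‖ = ‖c k‖ := by
  rw [norm_mul, ser_props_e_norm, mul_one]

lemma ser_props_summ (c : ℤ → ℂ) (hs : Summable fun k => ‖c k‖) (x : ℝ) :
    Summable fun k => c k * ser_props_e k x := by
  apply Summable.of_norm
  simpa only [ser_props_term] using hs

lemma ser_props_cont (c : ℤ → ℂ) (hs : Summable fun k => ‖c k‖) : Continuous (ser c) := by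
  apply continuous_tsum (u := fun k => ‖c k‖) (fun k => continuous_const.mul (ser_props_e_cont k)) hs
  intro k x
  exact (ser_props_term c k x).le

lemma ser_props_termwise (d : ℤ → ℂ) (hs : Summable fun k => ‖d k‖) (g : ℝ → ℂ)
    (hg : Continuous g) :
    ∫ x in (0:ℝ)..1, ser d x * g x = ∑' k, d k * ∫ x in (0:ℝ)..1, ser_props_e k x * g x := by
  obtain ⟨B, hB⟩ := (isCompact_Icc (a := (0:ℝ)) (b := 1)).exists_bound_of_continuousOn
    hg.continuousOn
  have h1 : ∀ k, Integrable (fun x => d k * (ser_props_e k x * g x))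
      (volume.restrict (Set.Ioc (0:ℝ) 1)) := by
    intro k
    have hc : Continuous (fun x => d k * (ser_props_e k x * g x)) :=
      continuous_const.mul ((ser_props_e_cont k).mul hg)
    exact (hc.integrableOn_Icc (a := 0) (b := 1)).mono_set Set.Ioc_subset_Icc_self
  have h2 : ∀ k, ∫ x in Set.Ioc (0:ℝ) 1, ‖d k * (ser_props_e k x * g x)‖ ≤ ‖d k‖ * B := by
    intro k
    have h3 : ∀ x ∈ Set.Ioc (0:ℝ) 1, ‖d k * (ser_props_e k x * g x)‖ ≤ ‖d k‖ * B := by
      intro x hx
      rw [norm_mul, norm_mul, ser_props_e_norm, one_mul]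
      exact mul_le_mul_of_nonneg_left (hB x (Set.Ioc_subset_Icc_self hx)) (norm_nonneg _)
    calc ∫ x in Set.Ioc (0:ℝ) 1, ‖d k * (ser_props_e k x * g x)‖
        ≤ ∫ x in Set.Ioc (0:ℝ) 1, ‖d k‖ * B := by
          apply setIntegral_mono_on (h1 k).norm _ measurableSet_Ioc h3
          exact integrableOn_const (by simp)
      _ = ‖d k‖ * B := by simp
  have h4 : Summable fun k => ∫ x in Set.Ioc (0:ℝ) 1, ‖d k * (ser_props_e k x * g x)‖ := by
    apply Summable.of_nonneg_of_le (fun k => integral_nonneg fun x => norm_nonneg _) h2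
    exact hs.mul_right B
  have h5 := integral_tsum_of_summable_integral_norm h1 h4
  rw [intervalIntegral.integral_of_le zero_le_one]
  have h6 : ∀ x, ser d x * g x = ∑' k, d k * (ser_props_e k x * g x) := by
    intro x
    rw [ser_props_ser, ← tsum_mul_right]
    exact tsum_congr fun k => by ring
  simp only [h6]
  rw [← h5]
  refine tsum_congr fun k => ?_
  rw [intervalIntegral.integral_of_le zero_le_one, integral_const_mul]

lemma ser_props_coef (d : ℤ → ℂ) (hs : Summable fun k => ‖d k‖) (l : ℤ) :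
    ∫ x in (0:ℝ)..1, ser d x * ser_props_e (-l) x = d l := by
  rw [ser_props_termwise d hs _ (ser_props_e_cont (-l))]
  rw [tsum_eq_single l]
  · have : ∀ x : ℝ, ser_props_e l x * ser_props_e (-l) x = 1 := by
      intro x
      rw [ser_props_e_mul, add_neg_cancel]
      simp [ser_props_e]
    simp [this]
  · intro k hk
    have : ∀ x : ℝ, ser_props_e k x * ser_props_e (-l) x = ser_props_e (k + -l) x :=
      fun x => ser_props_e_mul k (-l) x
    simp only [this, ser_props_e_int]
    rw [if_neg (by omega), mul_zero]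

lemma ser_props_parseval (d : ℤ → ℂ) (hs : Summable fun k => ‖d k‖) :
    ∫ x in (0:ℝ)..1, ‖ser d x‖ ^ 2 = ∑' k, ‖d k‖ ^ 2 := by
  have hcont := ser_props_cont d hs
  have h1 := ser_props_termwise d hs (fun x => (starRingEnd ℂ) (ser d x))
    (Complex.continuous_conj.comp hcont)
  have h2 : ∀ k, ∫ x in (0:ℝ)..1, ser_props_e k x * (starRingEnd ℂ) (ser d x) =
      (starRingEnd ℂ) (d k) := by
    intro k
    rw [← ser_props_coef d hs k, intervalIntegral.integral_of_le zero_le_one,
      intervalIntegral.integral_of_le zero_le_one, ← integral_conj,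
      ← intervalIntegral.integral_of_le zero_le_one, ← intervalIntegral.integral_of_le zero_le_one]
    refine intervalIntegral.integral_congr fun x _ => ?_
    simp only [map_mul, ser_props_e_conj, neg_neg]
    ring
  simp only [h2] at h1
  have h3 : ∀ z : ℂ, z * (starRingEnd ℂ) z = ((‖z‖ ^ 2 : ℝ) : ℂ) := by
    intro z
    rw [Complex.mul_conj, Complex.normSq_eq_norm_sq]
  simp only [h3] at h1
  rw [intervalIntegral.integral_ofReal, ← Complex.ofReal_tsum] at h1
  exact_mod_cast h1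

lemma ser_props_zeta : Summable (fun k : ℤ => 1 / (k:ℝ) ^ 2) ∧
    ∑' k : ℤ, 1 / (k:ℝ) ^ 2 ≤ 4 := by
  have h1 : HasSum (fun n : ℕ => (1 : ℝ) / (((n : ℤ) : ℝ)) ^ 2) (Real.pi ^ 2 / 6) := by
    simpa using hasSum_zeta_two
  have h2 : HasSum (fun n : ℕ => (1 : ℝ) / (((-((n:ℤ) + 1) : ℤ) : ℝ)) ^ 2) (Real.pi ^ 2 / 6) := by
    have h3 := (hasSum_nat_add_iff' (f := fun n : ℕ => (1 : ℝ) / (n : ℝ) ^ 2) 1).2 hasSum_zeta_two
    simp only [Finset.range_one, Finset.sum_singleton, Nat.cast_zero] at h3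
    have h4 : Real.pi ^ 2 / 6 - (1:ℝ) / 0 ^ 2 = Real.pi ^ 2 / 6 := by norm_num
    rw [h4] at h3
    have h5 : (fun n : ℕ => (1 : ℝ) / (((-((n:ℤ) + 1) : ℤ) : ℝ)) ^ 2) =
        fun n : ℕ => 1 / (((n + 1 : ℕ) : ℝ)) ^ 2 := by
      funext n
      push_cast
      congr 1
      ring
    rw [h5]
    exact h3
  have h3 : HasSum (fun k : ℤ => 1 / (k:ℝ) ^ 2) (Real.pi ^ 2 / 6 + Real.pi ^ 2 / 6) :=
    HasSum.of_nat_of_neg_add_one (f := fun k : ℤ => 1 / (k:ℝ) ^ 2) h1 h2
  refine ⟨h3.summable, ?_⟩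
  rw [h3.tsum_eq]
  have := Real.pi_lt_d2
  have := Real.pi_pos
  nlinarith

/-- Trigonometric series with `Σ k² |c_k|² < ∞`. -/
theorem ser_props (c : ℤ → ℂ) (h0 : c 0 = 0) (hc : Summable (fun k : ℤ => (k:ℝ) ^ 2 * ‖c k‖ ^ 2)) :
    Summable (fun k => ‖c k‖) ∧
      (∀ x, ‖ser c x‖ ≤ 2 * √(∑' k : ℤ, (k:ℝ) ^ 2 * ‖c k‖ ^ 2)) ∧
      HC (fun x => (ser c x).re) ∧ (∫ x in (0:ℝ)..1, (ser c x).re) = 0 := by
  obtain ⟨hz1, hz2⟩ := ser_props_zeta
  set S := ∑' k : ℤ, (k:ℝ) ^ 2 * ‖c k‖ ^ 2 with hS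
  have hterm : ∀ k : ℤ, 0 ≤ (k:ℝ) ^ 2 * ‖c k‖ ^ 2 := fun k => by positivity
  have hS0 : 0 ≤ S := tsum_nonneg hterm
  have hamgm : ∀ (l : ℝ) (_ : 0 < l) (k : ℤ),
      ‖c k‖ ≤ l / 2 * (1 / (k:ℝ) ^ 2) + 1 / (2 * l) * ((k:ℝ) ^ 2 * ‖c k‖ ^ 2) := by
    intro l hl k
    by_cases hk : k = 0
    · subst hk
      simp [h0]
    · have hk' : (k:ℝ) ≠ 0 := by exact_mod_cast hk
      have hk2 : (0:ℝ) < (k:ℝ) ^ 2 := by positivity
      have h1 : l / 2 * (1 / (k:ℝ) ^ 2) + 1 / (2 * l) * ((k:ℝ) ^ 2 * ‖c k‖ ^ 2) - ‖c k‖ =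
          (l - (k:ℝ) ^ 2 * ‖c k‖) ^ 2 / (2 * l * (k:ℝ) ^ 2) := by
        field_simp
        ring
      have h2 : 0 ≤ (l - (k:ℝ) ^ 2 * ‖c k‖) ^ 2 / (2 * l * (k:ℝ) ^ 2) := by positivity
      linarith
  have hsum : Summable (fun k => ‖c k‖) := by
    apply Summable.of_nonneg_of_le (fun k => norm_nonneg _) (hamgm 1 one_pos)
    exact (hz1.mul_left _).add (hc.mul_left _)
  have hbound : ∑' k, ‖c k‖ ≤ 2 * √S := by
    by_cases hS1 : S = 0
    · have h1 : ∀ k, ‖c k‖ = 0 := by
        intro k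
        by_cases hk : k = 0
        · subst hk; simp [h0]
        · have hk' : (k:ℝ) ≠ 0 := by exact_mod_cast hk
          have h2 := hc.le_tsum k (fun j _ => hterm j)
          rw [← hS, hS1] at h2
          have h3 : (k:ℝ) ^ 2 * ‖c k‖ ^ 2 = 0 := le_antisymm h2 (hterm k)
          rcases mul_eq_zero.1 h3 with h4 | h4
          · exact absurd (pow_eq_zero_iff (by norm_num) |>.1 h4) hk'
          · exact pow_eq_zero_iff (by norm_num) |>.1 h4
      simp only [h1, tsum_zero]
      positivity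
    · have hSp : 0 < √S := Real.sqrt_pos.2 (lt_of_le_of_ne hS0 (Ne.symm hS1))
      have h1 := hsum.tsum_le_tsum (hamgm (√S / 2) (by positivity))
        ((hz1.mul_left _).add (hc.mul_left _))
      rw [(hz1.mul_left _).tsum_add (hc.mul_left _), tsum_mul_left, tsum_mul_left, ← hS] at h1
      refine h1.trans ?_
      have h2 : 1 / (2 * (√S / 2)) * S = √S := by
        have h3 : S = √S * √S := (Real.mul_self_sqrt hS0).symm
        have h4 : 1 / (2 * (√S / 2)) * (√S * √S) = √S := by field_simp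
        calc 1 / (2 * (√S / 2)) * S = 1 / (2 * (√S / 2)) * (√S * √S) := by rw [← h3]
          _ = √S := h4
      rw [h2]
      nlinarith
  have hnorm : ∀ x, ‖ser c x‖ ≤ 2 * √S := by
    intro x
    refine le_trans ?_ hbound
    refine (norm_tsum_le_tsum_norm ?_).trans ?_
    · exact (ser_props_summ c hsum x).norm
    · exact (tsum_congr fun k => ser_props_term c k x).le
  have hcont := ser_props_cont c hsum
  have hper : ∀ x, ser c (x + 1) = ser c x := by
    intro x
    rw [ser_props_ser, ser_props_ser]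
    exact tsum_congr fun k => by rw [ser_props_e_add, ser_props_e_one, mul_one]
  refine ⟨hsum, hnorm, ⟨Complex.continuous_re.comp hcont, fun x => ?_, 4 * Real.pi ^ 2 * S, ?_⟩, ?_⟩
  · simp only [hper]
  · intro t
    set d : ℤ → ℂ := fun k => c k * (ser_props_e k t - 1) with hd
    have hd1 : ∀ k, ‖d k‖ ≤ 2 * ‖c k‖ := by
      intro k
      rw [hd]
      simp only [norm_mul]
      have h1 : ‖ser_props_e k t - 1‖ ≤ 2 := by
        refine (norm_sub_le _ _).trans ?_
        rw [ser_props_e_norm, norm_one]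
        norm_num
      have := mul_le_mul_of_nonneg_left h1 (norm_nonneg (c k))
      linarith
    have hds : Summable fun k => ‖d k‖ :=
      Summable.of_nonneg_of_le (fun k => norm_nonneg _) hd1 (hsum.mul_left 2)
    have hd2 : ∀ k, ‖d k‖ ^ 2 ≤ 4 * Real.pi ^ 2 * t ^ 2 * ((k:ℝ) ^ 2 * ‖c k‖ ^ 2) := by
      intro k
      have h1 : ‖ser_props_e k t - 1‖ ≤ |2 * Real.pi * k * t| := by
        rw [ser_props_e_eq]
        exact Real.norm_exp_I_mul_ofReal_sub_one_le
      have h2 : ‖ser_props_e k t - 1‖ ^ 2 ≤ (2 * Real.pi * k * t) ^ 2 := by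
        rw [← sq_abs (2 * Real.pi * k * t)]
        exact pow_le_pow_left₀ (norm_nonneg _) h1 2
      rw [hd]
      simp only [norm_mul, mul_pow]
      have h3 := mul_le_mul_of_nonneg_left h2 (sq_nonneg ‖c k‖)
      calc ‖c k‖ ^ 2 * ‖ser_props_e k t - 1‖ ^ 2 ≤ ‖c k‖ ^ 2 * (2 * Real.pi * k * t) ^ 2 := h3
        _ = _ := by ring
    have hdiff : ∀ x, ser c (x + t) - ser c x = ser d x := by
      intro x
      rw [ser_props_ser, ser_props_ser, ser_props_ser,
        ← (ser_props_summ c hsum (x + t)).tsum_sub (ser_props_summ c hsum x)]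
      refine tsum_congr fun k => ?_
      rw [ser_props_e_add, hd]
      ring
    have hsd : Summable fun k => ‖d k‖ ^ 2 :=
      Summable.of_nonneg_of_le (fun k => by positivity) hd2 (hc.mul_left _)
    have hpar := ser_props_parseval d hds
    have hcd := ser_props_cont d hds
    have h1 : ∫ x in (0:ℝ)..1, ((ser c (x + t)).re - (ser c x).re) ^ 2 ≤
        ∫ x in (0:ℝ)..1, ‖ser d x‖ ^ 2 := by
      apply intervalIntegral.integral_mono_on zero_le_one
      · apply Continuous.intervalIntegrable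
        have h2 : Continuous fun x => (ser c (x + t)).re :=
          Complex.continuous_re.comp (hcont.comp (continuous_id.add continuous_const))
        exact (h2.sub (Complex.continuous_re.comp hcont)).pow 2
      · apply Continuous.intervalIntegrable
        exact hcd.norm.pow 2
      · intro x _
        rw [← Complex.sub_re, hdiff, ← sq_abs]
        exact pow_le_pow_left₀ (abs_nonneg _) (Complex.abs_re_le_norm _) 2
    refine h1.trans ?_
    rw [hpar]
    refine (hsd.tsum_le_tsum hd2 (hc.mul_left _)).trans ?_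
    rw [tsum_mul_left, ← hS]
    apply le_of_eq
    ring
  · have h1 := ser_props_coef c hsum 0
    have h2 : ∀ x : ℝ, ser_props_e (-0) x = 1 := by
      intro x
      simp [ser_props_e]
    simp only [h2, mul_one] at h1
    rw [h0] at h1
    have h3 : ∫ x in (0:ℝ)..1, (ser c x).re = (∫ x in (0:ℝ)..1, ser c x).re := by
      have := intervalIntegral.intervalIntegral_re
        (𝕜 := ℂ) (f := ser c) (μ := volume) (a := 0) (b := 1) (hcont.intervalIntegrable _ _)
      simpa using this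
    rw [h3, h1]
    simp

end Pool.Agent.Helper339.CW
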