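import Mathlib
import Pool.Agent.Helper339.CW.Defs
import Pool.Agent.Helper339.CW.P_ser_props

set_option autoImplicit false

open scoped ContDiff Manifold
open MeasureTheory Set

namespace Pool.Agent.Helper339.CW


/-! ### TARGET: prove this. Prefix the names of all your auxiliary lemmas with ser_reg_ -/

theorem ser_reg_exp_deriv (a : ℂ) (k : ℤ) (x : ℝ) :
    HasDerivAt (fun y : ℝ => a * Complex.exp (2 * Real.pi * Complex.I * k * y))
      ((2 * Real.pi * Complex.I * k * a) * Complex.exp (2 * Real.pi * Complex.I * k * x)) x := by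
  have h1 : HasDerivAt (fun y : ℝ => (2 * Real.pi * Complex.I * k : ℂ) * (y : ℂ))
      ((2 * Real.pi * Complex.I * k : ℂ) * 1) x :=
    (Complex.ofRealCLM.hasDerivAt (x := x)).const_mul _
  have h2 := (h1.cexp).const_mul a
  convert! h2 using 1
  ring

theorem ser_reg_exp_per (k : ℤ) (x : ℝ) :
    Complex.exp (2 * Real.pi * Complex.I * k * ((x + 1 : ℝ) : ℂ)) =
      Complex.exp (2 * Real.pi * Complex.I * k * x) := by
  have : (2 * Real.pi * Complex.I * k * ((x + 1 : ℝ) : ℂ) : ℂ) =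
      2 * Real.pi * Complex.I * k * x + k * (2 * Real.pi * Complex.I) := by
    push_cast; ring
  rw [this, Complex.exp_add, Complex.exp_int_mul_two_pi_mul_I, mul_one]

theorem ser_reg_norm_exp (k : ℤ) (x : ℝ) :
    ‖Complex.exp (2 * Real.pi * Complex.I * k * x)‖ = 1 := by
  have : (2 * Real.pi * Complex.I * k * x : ℂ) = ((2 * Real.pi * k * x : ℝ) : ℂ) * Complex.I := by
    push_cast; ring
  rw [this, Complex.norm_exp_ofReal_mul_I]

/-- Trigonometric series with `Σ k⁴ |c_k|² < ∞`. -/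
theorem ser_reg (c : ℤ → ℂ) (h0 : c 0 = 0) (hc : Summable (fun k : ℤ => (k:ℝ) ^ 4 * ‖c k‖ ^ 2)) :
    Reg 1 (fun x => (ser c x).re) := by
  obtain ⟨c', hc'⟩ : ∃ c' : ℤ → ℂ, c' = fun k => 2 * Real.pi * Complex.I * k * c k := ⟨_, rfl⟩
  have hn : ∀ k, ‖c' k‖ = 2 * Real.pi * |(k:ℝ)| * ‖c k‖ := by
    intro k
    rw [hc']
    simp only [norm_mul, Complex.norm_I, Complex.norm_real, Complex.norm_ofNat,
      Complex.norm_intCast, Real.norm_eq_abs, abs_of_pos Real.pi_pos, mul_one]
  have hs2 : Summable (fun k : ℤ => (k:ℝ) ^ 2 * ‖c k‖ ^ 2) := by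
    refine Summable.of_nonneg_of_le (fun k => by positivity) (fun k => ?_) hc
    apply mul_le_mul_of_nonneg_right _ (by positivity)
    have : (k:ℤ) ^ 2 ≤ k ^ 4 := by
      rcases eq_or_ne k 0 with rfl | hk
      · simp
      · have h1 : 1 ≤ k ^ 2 := by
          have := sq_nonneg k
          have h2 : k ^ 2 ≠ 0 := pow_ne_zero 2 hk
          omega
        nlinarith
    exact_mod_cast this
  have hs2' : Summable (fun k : ℤ => (k:ℝ) ^ 2 * ‖c' k‖ ^ 2) := by
    have e : (fun k : ℤ => (k:ℝ) ^ 2 * ‖c' k‖ ^ 2) =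
        fun k : ℤ => (4 * Real.pi ^ 2) * ((k:ℝ) ^ 4 * ‖c k‖ ^ 2) := by
      funext k
      rw [hn k, mul_pow, mul_pow, mul_pow, sq_abs]
      ring
    rw [e]
    exact hc.mul_left _
  have hc'0 : c' 0 = 0 := by rw [hc']; simp
  obtain ⟨s1, -, -, -⟩ := ser_props c h0 hs2
  obtain ⟨s2, -, hHC, -⟩ := ser_props c' hc'0 hs2'
  have hder : ∀ x : ℝ, HasDerivAt (fun y : ℝ => ser c y) (ser c' x) x := by
    intro x
    unfold ser
    apply hasDerivAt_tsum (𝕜 := ℝ) (F := ℂ) s2 (y₀ := 0)
      (g := fun (k : ℤ) (y : ℝ) => c k * Complex.exp (2 * Real.pi * Complex.I * k * y))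
      (g' := fun (k : ℤ) (y : ℝ) => c' k * Complex.exp (2 * Real.pi * Complex.I * k * y))
    · intro k y
      rw [hc']
      exact ser_reg_exp_deriv (c k) k y
    · intro k y
      rw [norm_mul, ser_reg_norm_exp, mul_one]
    · simp only [Complex.ofReal_zero, mul_zero, Complex.exp_zero, mul_one]
      exact s1.of_norm
  have hder' : ∀ x : ℝ, HasDerivAt (fun y : ℝ => (ser c y).re) ((ser c' x).re) x := by
    intro x
    exact (Complex.reCLM.hasFDerivAt.comp_hasDerivAt x (hder x))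
  refine ⟨?_, fun x => (hder' x).differentiableAt, ?_⟩
  · intro x
    show (ser c (x + 1)).re = (ser c x).re
    unfold ser
    simp only [ser_reg_exp_per]
  · have e : deriv (fun x => (ser c x).re) = fun x => (ser c' x).re := by
      funext x
      exact (hder' x).deriv
    rw [e]
    exact hHC

end Pool.Agent.Helper339.CW
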