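import Mathlib
import Pool.Agent.Helper339.CW.Defs
import Pool.Agent.Helper339.CW.P_cohom_sd
import Pool.Agent.Helper339.CW.P_ser_props
import Pool.Agent.Helper339.CW.P_ser_reg
import Pool.Agent.Helper339.CW.P_coef_props

set_option autoImplicit false

open scoped ContDiff Manifold
open MeasureTheory Set

namespace Pool.Agent.Helper339.CW


/-! ### TARGET: prove this. Prefix the names of all your auxiliary lemmas with cohom_ -/

/-- the small divisor -/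
noncomputable def cohom_E (k : ℤ) : ℂ :=
  Complex.exp (2 * Real.pi * Complex.I * k * ((√2 : ℝ) : ℂ)) - 1

theorem cohom_E_ne (k : ℤ) (hk : k ≠ 0) : cohom_E k ≠ 0 := by
  intro h
  have h1 := cohom_sd k hk
  have h2 : ‖cohom_E k‖ = 0 := by rw [h, norm_zero]
  have h3 : (0 : ℝ) < 1 / |(k : ℝ)| := by
    have : (k : ℝ) ≠ 0 := by exact_mod_cast hk
    positivity
  have h4 : 1 / |(k : ℝ)| ≤ ‖cohom_E k‖ := h1
  linarith

/-- the Fourier coefficients of the solution -/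
noncomputable def cohom_c (d : ℤ → ℂ) (k : ℤ) : ℂ := if k = 0 then 0 else d k / cohom_E k

theorem cohom_c_zero (d : ℤ → ℂ) : cohom_c d 0 = 0 := if_pos rfl

theorem cohom_c_mul (d : ℤ → ℂ) (h0 : d 0 = 0) (k : ℤ) : cohom_c d k * cohom_E k = d k := by
  unfold cohom_c
  by_cases hk : k = 0
  · rw [if_pos hk, zero_mul, hk, h0]
  · rw [if_neg hk, div_mul_cancel₀ _ (cohom_E_ne k hk)]

theorem cohom_c_norm (d : ℤ → ℂ) (k : ℤ) : ‖cohom_c d k‖ ≤ |(k : ℝ)| * ‖d k‖ := by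
  unfold cohom_c
  by_cases hk : k = 0
  · rw [if_pos hk, norm_zero]
    positivity
  · rw [if_neg hk, norm_div]
    have h1 : 1 / |(k : ℝ)| ≤ ‖cohom_E k‖ := cohom_sd k hk
    have h2 : (0 : ℝ) < |(k : ℝ)| := by
      have : (k : ℝ) ≠ 0 := by exact_mod_cast hk
      positivity
    have h3 : 0 < ‖cohom_E k‖ := norm_pos_iff.mpr (cohom_E_ne k hk)
    rw [div_le_iff₀ h3]
    rw [div_le_iff₀ h2] at h1
    have h4 : 0 ≤ ‖d k‖ := norm_nonneg _
    calc ‖d k‖ = 1 * ‖d k‖ := (one_mul _).symm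
      _ ≤ (‖cohom_E k‖ * |(k : ℝ)|) * ‖d k‖ := mul_le_mul_of_nonneg_right h1 h4
      _ = |(k : ℝ)| * ‖d k‖ * ‖cohom_E k‖ := by ring

theorem cohom_c_sq (d : ℤ → ℂ) (k : ℤ) (n : ℕ) :
    (k : ℝ) ^ (2 * n) * ‖cohom_c d k‖ ^ 2 ≤ (k : ℝ) ^ (2 * n + 2) * ‖d k‖ ^ 2 := by
  have h1 : ‖cohom_c d k‖ ^ 2 ≤ (|(k : ℝ)| * ‖d k‖) ^ 2 :=
    pow_le_pow_left₀ (norm_nonneg _) (cohom_c_norm d k) 2
  rw [mul_pow, sq_abs] at h1
  have h2 : (0 : ℝ) ≤ (k : ℝ) ^ (2 * n) := by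
    rw [pow_mul]
    positivity
  calc (k : ℝ) ^ (2 * n) * ‖cohom_c d k‖ ^ 2 ≤ (k : ℝ) ^ (2 * n) * ((k : ℝ) ^ 2 * ‖d k‖ ^ 2) :=
        mul_le_mul_of_nonneg_left h1 h2
    _ = (k : ℝ) ^ (2 * n + 2) * ‖d k‖ ^ 2 := by ring

theorem cohom_term_norm (c : ℤ → ℂ) (x : ℝ) (k : ℤ) :
    ‖c k * Complex.exp (2 * Real.pi * Complex.I * k * x)‖ = ‖c k‖ := by
  rw [norm_mul]
  have e : (2 * Real.pi * Complex.I * k * x : ℂ) = ((2 * Real.pi * k * x : ℝ) : ℂ) * Complex.I := by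
    push_cast
    ring
  rw [e, Complex.norm_exp_ofReal_mul_I, mul_one]

theorem cohom_diff (d : ℤ → ℂ) (h0 : d 0 = 0) (hs : Summable (fun k => ‖cohom_c d k‖)) (x : ℝ) :
    ser (cohom_c d) (x + √2) - ser (cohom_c d) x = ser d x := by
  have hsum : ∀ y : ℝ, Summable (fun k : ℤ => cohom_c d k *
      Complex.exp (2 * Real.pi * Complex.I * k * y)) := by
    intro y
    apply Summable.of_norm
    refine hs.congr fun k => (cohom_term_norm _ y k).symm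
  unfold ser
  rw [← (hsum (x + √2)).tsum_sub (hsum x)]
  refine tsum_congr fun k => ?_
  rw [← cohom_c_mul d h0 k]
  unfold cohom_E
  have e : (2 * Real.pi * Complex.I * k * ((x + √2 : ℝ) : ℂ) : ℂ) =
      2 * Real.pi * Complex.I * k * x + 2 * Real.pi * Complex.I * k * ((√2 : ℝ) : ℂ) := by
    rw [Complex.ofReal_add]
    ring
  rw [e, Complex.exp_add]
  ring

/-- Cohomological equation for the rotation by `√2`. -/
theorem cohom : ∃ C : ℝ, 0 < C ∧ ∀ p : ℝ → ℝ, ContDiff ℝ 2 p → (∀ x, p (x + 1) = p x) →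
    (∫ x in (0:ℝ)..1, p x) = 0 →
    ∃ s : ℝ → ℝ, (∀ x, s (x + √2) - s x = p x) ∧ (∫ x in (0:ℝ)..1, s x) = 0 ∧ HC s ∧
      (∀ K : ℝ, (∀ x, |deriv (deriv p) x| ≤ K) → ∀ x, |s x| ≤ C * K) ∧
      (HC (deriv (deriv p)) → Reg 1 s) := by
  refine ⟨2, by norm_num, fun p hp hper hmean => ?_⟩
  obtain ⟨d, hd0, hd4, hpd, hK, hd6⟩ := coef_props p hp hper hmean
  have hc2 : Summable (fun k : ℤ => (k : ℝ) ^ 2 * ‖cohom_c d k‖ ^ 2) :=
    Summable.of_nonneg_of_le (fun k => by positivity) (fun k => cohom_c_sq d k 1) hd4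
  obtain ⟨hs, hb, hHC, hm⟩ := ser_props (cohom_c d) (cohom_c_zero d) hc2
  refine ⟨fun x => (ser (cohom_c d) x).re, fun x => ?_, hm, hHC, ?_, ?_⟩
  · have h := cohom_diff d hd0 hs x
    rw [← hpd x] at h
    have h2 := congrArg Complex.re h
    rw [Complex.sub_re, Complex.ofReal_re] at h2
    exact h2
  · intro K hKp x
    have hK0 : 0 ≤ K := (abs_nonneg _).trans (hKp 0)
    have h1 : |(ser (cohom_c d) x).re| ≤ ‖ser (cohom_c d) x‖ := Complex.abs_re_le_norm _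
    have h2 : ∑' k : ℤ, (k : ℝ) ^ 2 * ‖cohom_c d k‖ ^ 2 ≤ K ^ 2 :=
      (hc2.tsum_le_tsum (fun k => cohom_c_sq d k 1) hd4).trans (hK K hKp)
    have h3 : √(∑' k : ℤ, (k : ℝ) ^ 2 * ‖cohom_c d k‖ ^ 2) ≤ K := by
      rw [Real.sqrt_le_left hK0]
      exact h2
    have h4 := hb x
    change |(ser (cohom_c d) x).re| ≤ 2 * K
    linarith
  · intro h
    have hc4 : Summable (fun k : ℤ => (k : ℝ) ^ 4 * ‖cohom_c d k‖ ^ 2) :=
      Summable.of_nonneg_of_le (fun k => by positivity) (fun k => cohom_c_sq d k 2) (hd6 h)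
    exact ser_reg (cohom_c d) (cohom_c_zero d) hc4

end Pool.Agent.Helper339.CW
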