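import Mathlib
import Pool.Agent.Helper339.CW.Defs

set_option autoImplicit false

open scoped ContDiff Manifold
open MeasureTheory Set

namespace Pool.Agent.Helper339.CW


/-! ### TARGET: prove this. Prefix the names of all your auxiliary lemmas with cohom_unique_ -/

/-- Uniqueness in the cohomological equation. -/
theorem cohom_unique (s : ℝ → ℝ) (hc : Continuous s) (hp : ∀ x, s (x + 1) = s x)
    (h : ∀ x, s (x + √2) = s x) : ∀ x, s x = s 0 := by
  have hdense : Dense ((AddSubgroup.closure {√2, (1 : ℝ)} : AddSubgroup ℝ) : Set ℝ) := by
    rw [dense_addSubgroupClosure_pair_iff, div_one]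
    exact irrational_sqrt_two
  have hper : ∀ c ∈ AddSubgroup.closure {√2, (1 : ℝ)}, ∀ x, s (x + c) = s x := by
    intro c hc
    induction hc using AddSubgroup.closure_induction with
    | mem c hc =>
      rcases hc with rfl | hc
      · exact h
      · rw [mem_singleton_iff] at hc
        subst hc
        exact hp
    | zero => intro x; rw [add_zero]
    | add a b _ _ ha hb => intro x; rw [← add_assoc, hb, ha]
    | neg a _ ha =>
      intro x
      have := ha (x + -a)
      rw [neg_add_cancel_right] at this
      exact this.symm
  have key : s = fun _ => s 0 := by
    refine Continuous.ext_on hdense hc continuous_const ?_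
    intro c hc
    have := hper c hc 0
    rw [zero_add] at this
    exact this
  intro x
  exact congrFun key x

end Pool.Agent.Helper339.CW
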