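import Mathlib
import Pool.Agent.Helper339.CW.Defs

set_option autoImplicit false

open scoped ContDiff Manifold
open MeasureTheory Set

namespace Pool.Agent.Helper339.CW


/-! ### TARGET: prove this. Prefix the names of all your auxiliary lemmas with interp_ -/

theorem interp_cut {u v s t : ℝ} (hst : s ≤ t) (hs : u < s) (ht : t < v) {f θ : ℝ → ℝ}
    (hf : ContDiffOn ℝ ∞ f (Ioo u v)) (hf' : ∀ x ∈ Ioo u v, 0 < deriv f x)
    (hθ : Continuous θ) (hθ1 : ∀ x, θ x ≤ 1) :
    ∫ x in s..t, θ x * deriv f x ≤ f t - f s := by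
  have hsub : Icc s t ⊆ Ioo u v := fun x hx => ⟨lt_of_lt_of_le hs hx.1, lt_of_le_of_lt hx.2 ht⟩
  have hdc : ContinuousOn (deriv f) (Ioo u v) :=
    hf.continuousOn_deriv_of_isOpen isOpen_Ioo (by simp)
  have hdc' : ContinuousOn (deriv f) (Icc s t) := hdc.mono hsub
  have h1 : ∫ x in s..t, deriv f x = f t - f s := by
    apply intervalIntegral.integral_deriv_eq_sub
    · intro x hx
      rw [uIcc_of_le hst] at hx
      exact (hf.contDiffAt (isOpen_Ioo.mem_nhds (hsub hx))).differentiableAt (by simp)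
    · exact (hdc'.intervalIntegrable_of_Icc hst)
  rw [← h1]
  apply intervalIntegral.integral_mono_on hst
  · exact (hθ.continuousOn.mul hdc').intervalIntegrable_of_Icc hst
  · exact hdc'.intervalIntegrable_of_Icc hst
  · intro x hx
    have := hf' x (hsub hx)
    nlinarith [hθ1 x]

theorem interp_smooth {f θ : ℝ → ℝ} {x : ℝ} (hf : ContDiffAt ℝ ∞ f x) (hθ : ContDiff ℝ ∞ θ) :
    ContDiffAt ℝ ∞ (fun y => θ y * deriv f y) x := by
  apply hθ.contDiffAt.mul
  have h1 : ContDiffAt ℝ ∞ (fderiv ℝ f) x := hf.fderiv_right (by simp)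
  have h2 : deriv f = fun y => fderiv ℝ f y 1 := by
    ext y; exact (fderiv_apply_one_eq_deriv).symm
  rw [h2]
  exact h1.clm_apply contDiffAt_const

/-- Interpolation of germs of increasing diffeomorphisms. -/
theorem interp (a b δ : ℝ) (hab : a < b) (hδ : 0 < δ) (f g : ℝ → ℝ)
    (hf : ContDiffOn ℝ ∞ f (Ioo (a - δ) (a + δ))) (hf' : ∀ x ∈ Ioo (a - δ) (a + δ), 0 < deriv f x)
    (hg : ContDiffOn ℝ ∞ g (Ioo (b - δ) (b + δ))) (hg' : ∀ x ∈ Ioo (b - δ) (b + δ), 0 < deriv g x)
    (hfg : f a < g b) :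
    ∃ (h : ℝ → ℝ) (δ' : ℝ), 0 < δ' ∧ δ' ≤ δ ∧ a + δ' < b - δ' ∧ ContDiffOn ℝ ∞ h (Ioo (a - δ) (b + δ)) ∧
      (∀ x ∈ Ioo (a - δ) (b + δ), 0 < deriv h x) ∧
      (∀ x ∈ Ioo (a - δ) (a + δ'), h x = f x) ∧ (∀ x ∈ Ioo (b - δ') (b + δ), h x = g x) := by
  -- choice of r
  have hfa : ContinuousAt f a :=
    (hf.contDiffAt (isOpen_Ioo.mem_nhds ⟨by linarith, by linarith⟩)).continuousAt
  have hgb : ContinuousAt g b :=
    (hg.contDiffAt (isOpen_Ioo.mem_nhds ⟨by linarith, by linarith⟩)).continuousAt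
  have hD : 0 < (g b - f a) / 2 := by linarith
  obtain ⟨r₁, hr₁, h₁⟩ := Metric.continuousAt_iff.1 hfa _ hD
  obtain ⟨r₂, hr₂, h₂⟩ := Metric.continuousAt_iff.1 hgb _ hD
  obtain ⟨r, hr, hrδ, hrab, hrr₁, hrr₂⟩ : ∃ r : ℝ, 0 < r ∧ r < δ ∧ 2 * r < b - a ∧ r < r₁ ∧ r < r₂ := by
    refine ⟨min (min (δ / 2) ((b - a) / 4)) (min (r₁ / 2) (r₂ / 2)), ?_, ?_, ?_, ?_, ?_⟩
    · have : 0 < b - a := by linarith
      positivity
    · have h1 := (min_le_left (min (δ / 2) ((b - a) / 4)) (min (r₁ / 2) (r₂ / 2))).trans (min_le_left _ _)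
      linarith
    · have h1 := (min_le_left (min (δ / 2) ((b - a) / 4)) (min (r₁ / 2) (r₂ / 2))).trans (min_le_right _ _)
      linarith
    · have h1 := (min_le_right (min (δ / 2) ((b - a) / 4)) (min (r₁ / 2) (r₂ / 2))).trans (min_le_left _ _)
      linarith
    · have h1 := (min_le_right (min (δ / 2) ((b - a) / 4)) (min (r₁ / 2) (r₂ / 2))).trans (min_le_right _ _)
      linarith
  have hfr : f (a + r) - f a < (g b - f a) / 2 := by
    have := h₁ (x := a + r) (by rw [Real.dist_eq]; simpa [abs_of_pos hr] using hrr₁)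
    rw [Real.dist_eq] at this
    exact lt_of_le_of_lt (le_abs_self _) this
  have hgr : g b - g (b - r) < (g b - f a) / 2 := by
    have := h₂ (x := b - r) (by rw [Real.dist_eq]; simpa [abs_of_pos hr] using hrr₂)
    rw [Real.dist_eq, abs_sub_comm] at this
    exact lt_of_le_of_lt (le_abs_self _) this
  -- cutoffs
  set θ₀ : ℝ → ℝ := fun x => Real.smoothTransition ((a + r - x) * (2 / r)) with hθ₀
  set θ₁ : ℝ → ℝ := fun x => Real.smoothTransition ((x - (b - r)) * (2 / r)) with hθ₁
  have h2r : 0 < 2 / r := by positivity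
  have s₀ : ContDiff ℝ ∞ θ₀ := by
    apply Real.smoothTransition.contDiff.comp
    exact (contDiff_const.sub contDiff_id).mul contDiff_const
  have s₁ : ContDiff ℝ ∞ θ₁ := by
    apply Real.smoothTransition.contDiff.comp
    exact (contDiff_id.sub contDiff_const).mul contDiff_const
  have n₀ : ∀ x, 0 ≤ θ₀ x := fun x => Real.smoothTransition.nonneg _
  have n₁ : ∀ x, 0 ≤ θ₁ x := fun x => Real.smoothTransition.nonneg _
  have l₀ : ∀ x, θ₀ x ≤ 1 := fun x => Real.smoothTransition.le_one _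
  have l₁ : ∀ x, θ₁ x ≤ 1 := fun x => Real.smoothTransition.le_one _
  have z₀ : ∀ x, a + r ≤ x → θ₀ x = 0 := fun x hx =>
    Real.smoothTransition.zero_of_nonpos (mul_nonpos_of_nonpos_of_nonneg (by linarith) h2r.le)
  have z₁ : ∀ x, x ≤ b - r → θ₁ x = 0 := fun x hx =>
    Real.smoothTransition.zero_of_nonpos (mul_nonpos_of_nonpos_of_nonneg (by linarith) h2r.le)
  have hrr : r / 2 * (2 / r) = 1 := by field_simp
  have o₀ : ∀ x, x ≤ a + r / 2 → θ₀ x = 1 := fun x hx =>
    Real.smoothTransition.one_of_one_le (by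
      rw [← hrr]; exact mul_le_mul_of_nonneg_right (by linarith) h2r.le)
  have o₁ : ∀ x, b - r / 2 ≤ x → θ₁ x = 1 := fun x hx =>
    Real.smoothTransition.one_of_one_le (by
      rw [← hrr]; exact mul_le_mul_of_nonneg_right (by linarith) h2r.le)
  set I : Set ℝ := Ioo (a - δ) (b + δ) with hI
  have hIo : IsOpen I := isOpen_Ioo
  have haI : a ∈ I := ⟨by linarith, by linarith⟩
  have hbI : b ∈ I := ⟨by linarith, by linarith⟩
  -- the pieces
  have c₀ : ∀ x ∈ I, ContDiffAt ℝ ∞ (fun y => θ₀ y * deriv f y) x := by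
    intro x hx
    rcases lt_or_ge x (a + δ) with h | h
    · exact interp_smooth (hf.contDiffAt (isOpen_Ioo.mem_nhds ⟨hx.1, h⟩)) s₀
    · have he : (fun y => θ₀ y * deriv f y) =ᶠ[nhds x] fun _ => 0 := by
        filter_upwards [isOpen_Ioi.mem_nhds (show a + r < x by linarith)] with y hy
        rw [z₀ y (le_of_lt hy), zero_mul]
      exact contDiffAt_const.congr_of_eventuallyEq he
  have c₁ : ∀ x ∈ I, ContDiffAt ℝ ∞ (fun y => θ₁ y * deriv g y) x := by
    intro x hx
    rcases lt_or_ge (b - δ) x with h | h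
    · exact interp_smooth (hg.contDiffAt (isOpen_Ioo.mem_nhds ⟨h, hx.2⟩)) s₁
    · have he : (fun y => θ₁ y * deriv g y) =ᶠ[nhds x] fun _ => 0 := by
        filter_upwards [isOpen_Iio.mem_nhds (show x < b - r by linarith)] with y hy
        rw [z₁ y (le_of_lt hy), zero_mul]
      exact contDiffAt_const.congr_of_eventuallyEq he
  have p₀ : ∀ x ∈ I, 0 ≤ θ₀ x * deriv f x := by
    intro x hx
    rcases lt_or_ge x (a + δ) with h | h
    · exact mul_nonneg (n₀ x) (hf' x ⟨hx.1, h⟩).le
    · rw [z₀ x (by linarith), zero_mul]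
  have p₁ : ∀ x ∈ I, 0 ≤ θ₁ x * deriv g x := by
    intro x hx
    rcases lt_or_ge (b - δ) x with h | h
    · exact mul_nonneg (n₁ x) (hg' x ⟨h, hx.2⟩).le
    · rw [z₁ x (by linarith), zero_mul]
  set η : ℝ → ℝ := fun x => (1 - θ₀ x) * (1 - θ₁ x) with hη
  have sη : ContDiff ℝ ∞ η := (contDiff_const.sub s₀).mul (contDiff_const.sub s₁)
  have nη : ∀ x, 0 ≤ η x := fun x => mul_nonneg (by linarith [l₀ x]) (by linarith [l₁ x])
  have hηpos : 0 < ∫ x in a..b, η x := by
    apply intervalIntegral.integral_pos hab sη.continuous.continuousOn (fun x _ => nη x)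
    refine ⟨(a + b) / 2, ⟨by linarith, by linarith⟩, ?_⟩
    simp only [hη]
    rw [z₀ _ (by linarith), z₁ _ (by linarith)]
    norm_num
  have hsubI : ∀ s ∈ I, ∀ t ∈ I, uIcc s t ⊆ I := fun s hs t ht =>
    (Set.ordConnected_Ioo (a := a - δ) (b := b + δ)).uIcc_subset hs ht
  have k₀ : ContinuousOn (fun y => θ₀ y * deriv f y) I := fun x hx =>
    (c₀ x hx).continuousAt.continuousWithinAt
  have k₁ : ContinuousOn (fun y => θ₁ y * deriv g y) I := fun x hx =>
    (c₁ x hx).continuousAt.continuousWithinAt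
  have i₀ : ∀ s ∈ I, ∀ t ∈ I, IntervalIntegrable (fun y => θ₀ y * deriv f y) volume s t :=
    fun s hs t ht => (k₀.mono (hsubI s hs t ht)).intervalIntegrable
  have i₁ : ∀ s ∈ I, ∀ t ∈ I, IntervalIntegrable (fun y => θ₁ y * deriv g y) volume s t :=
    fun s hs t ht => (k₁.mono (hsubI s hs t ht)).intervalIntegrable
  have harI : a + r ∈ I := ⟨by linarith, by linarith⟩
  have hbrI : b - r ∈ I := ⟨by linarith, by linarith⟩
  have b₀ : ∫ x in a..b, θ₀ x * deriv f x < (g b - f a) / 2 := by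
    rw [← intervalIntegral.integral_add_adjacent_intervals (i₀ a haI _ harI) (i₀ _ harI b hbI)]
    have e1 : ∫ x in (a + r)..b, θ₀ x * deriv f x = 0 := by
      rw [intervalIntegral.integral_congr (g := fun _ => (0 : ℝ))]
      · simp
      · intro x hx
        rw [uIcc_of_le (by linarith)] at hx
        simp only
        rw [z₀ x hx.1, zero_mul]
    have e2 := interp_cut (by linarith : a ≤ a + r) (by linarith) (by linarith) hf hf'
      s₀.continuous l₀
    rw [e1, add_zero]
    exact lt_of_le_of_lt e2 hfr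
  have b₁ : ∫ x in a..b, θ₁ x * deriv g x < (g b - f a) / 2 := by
    rw [← intervalIntegral.integral_add_adjacent_intervals (i₁ a haI _ hbrI) (i₁ _ hbrI b hbI)]
    have e1 : ∫ x in a..(b - r), θ₁ x * deriv g x = 0 := by
      rw [intervalIntegral.integral_congr (g := fun _ => (0 : ℝ))]
      · simp
      · intro x hx
        rw [uIcc_of_le (by linarith)] at hx
        simp only
        rw [z₁ x hx.2, zero_mul]
    have e2 := interp_cut (by linarith : b - r ≤ b) (by linarith) (by linarith) hg hg'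
      s₁.continuous l₁
    rw [e1, zero_add]
    exact lt_of_le_of_lt e2 hgr
  obtain ⟨c, hc, hceq⟩ : ∃ c : ℝ, 0 < c ∧ (∫ x in a..b, θ₀ x * deriv f x) +
      (∫ x in a..b, θ₁ x * deriv g x) + c * (∫ x in a..b, η x) = g b - f a := by
    refine ⟨(g b - f a - (∫ x in a..b, θ₀ x * deriv f x) - ∫ x in a..b, θ₁ x * deriv g x) /
      ∫ x in a..b, η x, div_pos (by linarith) hηpos, ?_⟩
    rw [div_mul_cancel₀ _ hηpos.ne']
    ring
  set p : ℝ → ℝ := fun x => θ₀ x * deriv f x + θ₁ x * deriv g x + c * η x with hp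
  have cp : ∀ x ∈ I, ContDiffAt ℝ ∞ p x := fun x hx =>
    ((c₀ x hx).add (c₁ x hx)).add (contDiffAt_const.mul sη.contDiffAt)
  have kp : ContinuousOn p I := fun x hx => (cp x hx).continuousAt.continuousWithinAt
  have ip : ∀ s ∈ I, ∀ t ∈ I, IntervalIntegrable p volume s t :=
    fun s hs t ht => (kp.mono (hsubI s hs t ht)).intervalIntegrable
  have pp : ∀ x ∈ I, 0 < p x := by
    intro x hx
    have h0 := p₀ x hx
    have h1 := p₁ x hx
    have hcn : 0 ≤ c * η x := mul_nonneg hc.le (nη x)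
    simp only [hp]
    rcases lt_or_ge (θ₀ x) 1 with h | h
    · rcases lt_or_ge (θ₁ x) 1 with h' | h'
      · have : 0 < c * η x := mul_pos hc (mul_pos (by linarith) (by linarith))
        linarith
      · have h3 : b - r < x := by
          by_contra hcon
          rw [z₁ x (not_lt.1 hcon)] at h'
          linarith
        have h4 : 0 < deriv g x := hg' x ⟨by linarith, hx.2⟩
        have h5 : 0 < θ₁ x * deriv g x := mul_pos (by linarith) h4
        linarith
    · have h3 : x < a + r := by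
        by_contra hcon
        rw [z₀ x (not_lt.1 hcon)] at h
        linarith
      have h4 : 0 < deriv f x := hf' x ⟨hx.1, by linarith⟩
      have h5 : 0 < θ₀ x * deriv f x := mul_pos (by linarith) h4
      linarith
  set h : ℝ → ℝ := fun x => f a + ∫ t in a..x, p t with hh
  have hder : ∀ x ∈ I, HasDerivAt h (p x) x := by
    intro x hx
    apply HasDerivAt.const_add
    exact intervalIntegral.integral_hasDerivAt_right (ip a haI x hx)
      (kp.stronglyMeasurableAtFilter hIo x hx) (kp.continuousAt (hIo.mem_nhds hx))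
  have hha : h a = f a := by simp [hh]
  have hhb : h b = g b := by
    simp only [hh, hp]
    rw [intervalIntegral.integral_add ((i₀ a haI b hbI).add (i₁ a haI b hbI))
      ((sη.continuous.intervalIntegrable a b).const_mul c),
      intervalIntegral.integral_add (i₀ a haI b hbI) (i₁ a haI b hbI),
      intervalIntegral.integral_const_mul, hceq]
    ring
  have hhd : DifferentiableOn ℝ h I := fun x hx => (hder x hx).differentiableAt.differentiableWithinAt
  refine ⟨h, r / 2, by positivity, by linarith, by linarith, ?_, ?_, ?_, ?_⟩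
  · rw [contDiffOn_infty_iff_deriv_of_isOpen hIo]
    refine ⟨hhd, ?_⟩
    have : ContDiffOn ℝ ∞ p I := fun x hx => (cp x hx).contDiffWithinAt
    exact this.congr fun x hx => (hder x hx).deriv
  · intro x hx
    rw [(hder x hx).deriv]
    exact pp x hx
  · have hE : EqOn h f (Ioo (a - δ) (a + r / 2)) := by
      apply isOpen_Ioo.eqOn_of_deriv_eq (isPreconnected_Ioo) _ _ _ (x := a) ⟨by linarith, by linarith⟩ hha
      · exact hhd.mono (Ioo_subset_Ioo le_rfl (by linarith))
      · exact (hf.differentiableOn (by simp)).mono (Ioo_subset_Ioo le_rfl (by linarith))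
      · intro x hx
        rw [(hder x ⟨hx.1, by linarith [hx.2]⟩).deriv]
        simp only [hp, hη]
        rw [o₀ x hx.2.le, z₁ x (by linarith [hx.2])]
        ring
    exact fun x hx => hE hx
  · have hE : EqOn h g (Ioo (b - r / 2) (b + δ)) := by
      apply isOpen_Ioo.eqOn_of_deriv_eq (isPreconnected_Ioo) _ _ _ (x := b) ⟨by linarith, by linarith⟩ hhb
      · exact hhd.mono (Ioo_subset_Ioo (by linarith) le_rfl)
      · exact (hg.differentiableOn (by simp)).mono (Ioo_subset_Ioo (by linarith) le_rfl)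
      · intro x hx
        rw [(hder x ⟨by linarith [hx.1], hx.2⟩).deriv]
        simp only [hp, hη]
        rw [o₁ x hx.1.le, z₀ x (by linarith [hx.1])]
        ring
    exact fun x hx => hE hx

end Pool.Agent.Helper339.CW
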