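import Mathlib
import Pool.Agent.Helper339.CW.Defs
import Pool.Agent.Helper339.CW.P_basics
import Pool.Agent.Helper339.CW.P_interp

set_option autoImplicit false

open scoped ContDiff Manifold
open MeasureTheory Set

namespace Pool.Agent.Helper339.CW


/-! ### TARGET: prove this. Prefix the names of all your auxiliary lemmas with isup_generate_ -/

theorem isup_generate_near (F : Equiv.Perm ℝ) (hF : IsD 1 F) (c c' : ℝ) (h1 : c' < c)
    (h2 : c < c' + 1) (h3 : c' < F c) (h4 : F c < c' + 1) :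
    ∃ a : Equiv.Perm ℝ, IsD 1 a ∧ (∀ᶠ x in nhds c', a x = x) ∧ (∀ᶠ x in nhds c, a x = F x) := by
  have hFs : ContDiff ℝ ∞ (fun x => F x) := hF.1.1
  have hFd : ∀ x, 0 < deriv (fun y => F y) x := sm_deriv_pos hF.1
  obtain ⟨h₁, δ₁, hδ₁, -, -, hs₁, hd₁, hl₁, hr₁⟩ := interp c' c 1 h1 one_pos (fun x => x) (fun x => F x)
    contDiffOn_id (fun x _ => by simp) hFs.contDiffOn (fun x _ => hFd x) h3
  obtain ⟨h₂, δ₂, hδ₂, -, -, hs₂, hd₂, hl₂, hr₂⟩ := interp c (c' + 1) 1 h2 one_pos (fun x => F x)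
    (fun x => x) hFs.contDiffOn (fun x _ => hFd x) contDiffOn_id (fun x _ => by simp) h4
  let h : ℝ → ℝ := fun x => if x ≤ c then h₁ x else h₂ x
  have hleft : ∀ x, x ≤ c → h x = h₁ x := fun x hx => if_pos hx
  have hright : ∀ x, c < x → h x = h₂ x := fun x hx => if_neg (not_le.2 hx)
  have hloc : ∀ y ∈ Ioo c' (c' + 1), ∃ k : ℝ → ℝ, ContDiffAt ℝ ∞ k y ∧ 0 < deriv k y ∧
      ∀ᶠ x in nhds y, h x = k x := by
    intro y hy
    rcases lt_trichotomy y c with hyc | hyc | hyc
    · refine ⟨h₁, ?_, hd₁ y ⟨by linarith [hy.1], by linarith⟩, ?_⟩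
      · exact hs₁.contDiffAt (Ioo_mem_nhds (by linarith [hy.1]) (by linarith))
      · filter_upwards [Iio_mem_nhds hyc] with x hx
        exact hleft x (le_of_lt hx)
    · subst hyc
      refine ⟨fun x => F x, hFs.contDiffAt, hFd y, ?_⟩
      have hm : Ioo (y - min δ₁ δ₂) (y + min δ₁ δ₂) ∈ nhds y := by
        have := lt_min hδ₁ hδ₂
        exact Ioo_mem_nhds (by linarith) (by linarith)
      filter_upwards [hm, Ioo_mem_nhds (show y - 1 < y by linarith) (show y < y + 1 by linarith)]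
        with x hx hx1
      have m1 := min_le_left δ₁ δ₂
      have m2 := min_le_right δ₁ δ₂
      rcases le_or_gt x y with hxy | hxy
      · rw [hleft x hxy]
        exact hr₁ x ⟨by linarith [hx.1], hx1.2⟩
      · rw [hright x hxy]
        exact hl₂ x ⟨hx1.1, by linarith [hx.2]⟩
    · refine ⟨h₂, ?_, hd₂ y ⟨by linarith, by linarith [hy.2]⟩, ?_⟩
      · exact hs₂.contDiffAt (Ioo_mem_nhds (by linarith) (by linarith [hy.2]))
      · filter_upwards [Ioi_mem_nhds hyc] with x hx
        exact hright x hx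
  -- periodic extension
  let f : ℝ → ℝ := fun x => h (x - ⌊x - c'⌋) + ⌊x - c'⌋
  have hper : ∀ x, f (x + 1) = f x + 1 := by
    intro x
    have e1 : ⌊x + 1 - c'⌋ = ⌊x - c'⌋ + 1 := by
      rw [show x + 1 - c' = (x - c') + 1 by ring, Int.floor_add_one]
    simp only [f, e1]
    push_cast
    rw [show x + 1 - ((⌊x - c'⌋ : ℝ) + 1) = x - ⌊x - c'⌋ by ring]
    ring
  have hfloor : ∀ (n : ℤ) (x : ℝ), (n : ℝ) ≤ x - c' → x - c' < n + 1 → f x = h (x - n) + n := by
    intro n x hx1 hx2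
    have e1 : ⌊x - c'⌋ = n := Int.floor_eq_iff.2 ⟨hx1, hx2⟩
    simp only [f, e1]
  have hzero : ∀ n : ℤ, ∀ᶠ x in nhds (c' + n), f x = x := by
    intro n
    have hm : Ioo ((c' + n) - min δ₁ δ₂) ((c' + n) + min δ₁ δ₂) ∈ nhds (c' + n : ℝ) := by
      have := lt_min hδ₁ hδ₂
      exact Ioo_mem_nhds (by linarith) (by linarith)
    have hm2 : Ioo ((c' + n) - (c' + 1 - c)) ((c' + n) + (c - c')) ∈ nhds (c' + n : ℝ) :=
      Ioo_mem_nhds (by linarith) (by linarith)
    have m1 := min_le_left δ₁ δ₂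
    have m2 := min_le_right δ₁ δ₂
    filter_upwards [hm, hm2] with x hx hx2
    rcases le_or_gt (c' + n) x with hcx | hcx
    · rw [hfloor n x (by linarith) (by linarith [hx2.2]), hleft _ (by linarith [hx2.2]),
        hl₁ _ ⟨by linarith, by linarith [hx.2]⟩]
      ring
    · have e2 := hfloor (n - 1) x (by push_cast; linarith [hx2.1]) (by push_cast; linarith)
      push_cast at e2
      rw [e2, hright _ (by linarith [hx2.1]), hr₂ _ ⟨by linarith [hx.1], by linarith⟩]
      ring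
  have hlocf : ∀ x0, ∃ k : ℝ → ℝ, ContDiffAt ℝ ∞ k x0 ∧ 0 < deriv k x0 ∧
      ∀ᶠ x in nhds x0, f x = k x := by
    intro x0
    set n : ℤ := ⌊x0 - c'⌋ with hn
    have hn1 : (n : ℝ) ≤ x0 - c' := Int.floor_le _
    have hn2 : x0 - c' < n + 1 := Int.lt_floor_add_one _
    rcases hn1.eq_or_lt with heq | hlt
    · have hx0 : x0 = c' + n := by linarith
      refine ⟨fun x => x, contDiffAt_id, by simp, ?_⟩
      rw [hx0]
      exact hzero n
    · obtain ⟨k, hk1, hk2, hk3⟩ := hloc (x0 - n) ⟨by linarith, by linarith⟩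
      refine ⟨fun x => k (x - n) + n, ?_, ?_, ?_⟩
      · have hk1' : ContDiffAt ℝ ∞ k ((fun x : ℝ => x - (n : ℝ)) x0) := hk1
        exact (hk1'.comp x0 (contDiffAt_id.sub contDiffAt_const)).add contDiffAt_const
      · rw [deriv_add_const, deriv_comp_sub_const]
        exact hk2
      · have hcont : Filter.Tendsto (fun x : ℝ => x - (n : ℝ)) (nhds x0) (nhds (x0 - n)) :=
          (continuous_id.sub continuous_const).tendsto x0
        filter_upwards [hcont.eventually hk3,
          Ioo_mem_nhds (show c' + n < x0 by linarith) (show x0 < c' + n + 1 by linarith)]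
          with x hx hx2
        rw [hfloor n x (by linarith [hx2.1]) (by linarith [hx2.2]), hx]
  have hsm : ContDiff ℝ ∞ f := by
    rw [contDiff_iff_contDiffAt]
    intro x0
    obtain ⟨k, hk1, hk2, hk3⟩ := hlocf x0
    exact hk1.congr_of_eventuallyEq hk3
  have hpos : ∀ x, 0 < deriv f x := by
    intro x0
    obtain ⟨k, hk1, hk2, hk3⟩ := hlocf x0
    rw [Filter.EventuallyEq.deriv_eq hk3]
    exact hk2
  obtain ⟨a, ha, haf⟩ := isd_of_deriv 1 one_pos f hsm hpos hper
  refine ⟨a, ha, ?_, ?_⟩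
  · have h0 := hzero 0
    rw [Int.cast_zero, add_zero] at h0
    filter_upwards [h0] with x hx
    rw [haf, hx]
  · have hm : Ioo (c - min δ₁ δ₂) (c + min δ₁ δ₂) ∈ nhds c := by
      have := lt_min hδ₁ hδ₂
      exact Ioo_mem_nhds (by linarith) (by linarith)
    have m1 := min_le_left δ₁ δ₂
    have m2 := min_le_right δ₁ δ₂
    filter_upwards [hm, Ioo_mem_nhds (show c - 1 < c by linarith) (show c < c + 1 by linarith),
      Ioo_mem_nhds h1 h2] with x hx hx1 hx2
    have e0 := hfloor 0 x (by push_cast; linarith [hx2.1]) (by push_cast; linarith [hx2.2])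
    push_cast at e0
    rw [sub_zero, add_zero] at e0
    rw [haf, e0]
    rcases le_or_gt x c with hxy | hxy
    · rw [hleft x hxy]
      exact hr₁ x ⟨by linarith [hx.1], hx1.2⟩
    · rw [hright x hxy]
      exact hl₂ x ⟨hx1.1, by linarith [hx.2]⟩

theorem isup_generate_inv1 (F : Equiv.Perm ℝ) (x : ℝ) : F⁻¹ (F x) = x := by simp

theorem isup_generate_inv2 (F : Equiv.Perm ℝ) (x : ℝ) : F (F⁻¹ x) = x := by simp

theorem isup_generate_small (F : Equiv.Perm ℝ) (hF : IsD 1 F) (c : ℝ) (hc : |F c - c| < 1) :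
    F ∈ Subgroup.closure {a | ISup a} := by
  obtain ⟨hc1, hc2⟩ := abs_lt.1 hc
  have key : ∃ c', c' < c ∧ c < c' + 1 ∧ c' < F c ∧ F c < c' + 1 :=
    ⟨(c + F c - 1) / 2, by linarith, by linarith, by linarith, by linarith⟩
  obtain ⟨c', h1, h2, h3, h4⟩ := key
  obtain ⟨a, ha, ha1, ha2⟩ := isup_generate_near F hF c c' h1 h2 h3 h4
  have hISa : ISup a := by
    refine ⟨ha, c', ?_⟩
    obtain ⟨δ, hδ, hδ2⟩ := Metric.eventually_nhds_iff.1 ha1
    exact ⟨δ, hδ, fun x hx => hδ2 (by rwa [Real.dist_eq])⟩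
  have hISb : ISup (F * a⁻¹) := by
    refine ⟨isd_mul hF (isd_inv ha), F c, ?_⟩
    have hcont : Continuous (fun x => F⁻¹ x) := hF.1.2.1.continuous
    have ht : Filter.Tendsto (fun x => F⁻¹ x) (nhds (F c)) (nhds c) := by
      have := hcont.tendsto (F c)
      rwa [isup_generate_inv1] at this
    obtain ⟨δ, hδ, hδ2⟩ := Metric.eventually_nhds_iff.1 (ht.eventually ha2)
    refine ⟨δ, hδ, fun y hy => ?_⟩
    have h5 := hδ2 (show dist y (F c) < δ by rwa [Real.dist_eq])
    rw [isup_generate_inv2] at h5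
    rw [Equiv.Perm.mul_apply]
    have h6 : a⁻¹ y = F⁻¹ y := by
      rw [Equiv.Perm.inv_eq_iff_eq]
      exact h5.symm
    rw [h6, isup_generate_inv2]
  have e : F = (F * a⁻¹) * a := by group
  rw [e]
  exact Subgroup.mul_mem _ (Subgroup.subset_closure hISb) (Subgroup.subset_closure hISa)

theorem isup_generate_zpow (n : ℤ) (x : ℝ) : ((tr 1) ^ n) x = x + n := by
  induction n using Int.induction_on generalizing x with
  | zero => simp
  | succ k ih =>
    rw [zpow_add_one, Equiv.Perm.mul_apply, tr_apply, ih]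
    push_cast; ring
  | pred k ih =>
    rw [zpow_sub_one, Equiv.Perm.mul_apply, tr_inv_apply, ih]
    push_cast; ring

/-- Interval supported elements generate `G_1`. -/
theorem isup_generate (F : Equiv.Perm ℝ) (hF : IsD 1 F) : F ∈ Subgroup.closure {a | ISup a} := by
  have hhalf : tr (1 / 2) ∈ Subgroup.closure {a | ISup a} :=
    isup_generate_small _ (isd_tr 1 (1 / 2)) 0 (by rw [tr_apply]; norm_num)
  have hone : tr 1 ∈ Subgroup.closure {a | ISup a} := by
    have e : tr 1 = tr (1 / 2) * tr (1 / 2) := by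
      ext x
      rw [Equiv.Perm.mul_apply, tr_apply, tr_apply, tr_apply]
      ring
    rw [e]
    exact Subgroup.mul_mem _ hhalf hhalf
  have hpowD : ∀ n : ℤ, IsD 1 ((tr 1) ^ n) := by
    intro n
    have e : (tr 1) ^ n = tr n := by
      ext x
      rw [isup_generate_zpow, tr_apply]
    rw [e]
    exact isd_tr 1 n
  set n : ℤ := ⌊F 0⌋ with hn
  have h1 : (tr 1) ^ (-n) * F ∈ Subgroup.closure {a | ISup a} := by
    apply isup_generate_small _ (isd_mul (hpowD _) hF) 0
    rw [Equiv.Perm.mul_apply, isup_generate_zpow]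
    have h2 := Int.floor_le (F 0)
    have h3 := Int.lt_floor_add_one (F 0)
    rw [abs_lt]
    push_cast
    constructor <;> linarith
  have e : F = (tr 1) ^ n * ((tr 1) ^ (-n) * F) := by
    rw [← mul_assoc, ← zpow_add, add_neg_cancel, zpow_zero, one_mul]
  rw [e]
  exact Subgroup.mul_mem _ (Subgroup.zpow_mem _ hone n) h1

end Pool.Agent.Helper339.CW
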