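import Mathlib
import Pool.Agent.Helper339.CW.Defs
import Pool.Agent.Helper339.CW.P_basics
import Pool.Agent.Helper339.CW.P_isup_generate

set_option autoImplicit false

open scoped ContDiff Manifold
open MeasureTheory Set

namespace Pool.Agent.Helper339.CW


/-! ### TARGET: prove this. Prefix the names of all your auxiliary lemmas with comm_isup_ -/

/-- The subgroup generated by commutators of interval supported elements. -/
def comm_isup_N : Subgroup (Equiv.Perm ℝ) := Subgroup.closure
    {x | ∃ a b : Equiv.Perm ℝ, ISup a ∧ ISup b ∧ x = a * b * a⁻¹ * b⁻¹}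

/-- Conjugates of interval supported elements are interval supported. -/
theorem comm_isup_conj {g a : Equiv.Perm ℝ} (hg : IsD 1 g) (ha : ISup a) :
    ISup (g * a * g⁻¹) := by
  obtain ⟨had, c, δ, hδ, hc⟩ := ha
  refine ⟨isd_mul (isd_mul hg had) (isd_inv hg), g c, ?_⟩
  have hcont : Continuous (fun x => g⁻¹ x) := hg.1.2.1.continuous
  have h1 := Metric.continuous_iff.1 hcont (g c) δ hδ
  obtain ⟨ε, hε, h2⟩ := h1
  refine ⟨ε, hε, fun x hx => ?_⟩
  have h3 := h2 x (by rw [Real.dist_eq]; exact hx)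
  rw [Real.dist_eq] at h3
  have h4 : g⁻¹ (g c) = c := by simp
  simp only [h4] at h3
  have h5 := hc _ h3
  rw [Equiv.Perm.mul_apply, Equiv.Perm.mul_apply, h5]
  simp

/-- `N` is normalised by `G_1`. -/
theorem comm_isup_norm {g n : Equiv.Perm ℝ} (hg : IsD 1 g) (hn : n ∈ comm_isup_N) :
    g * n * g⁻¹ ∈ comm_isup_N := by
  unfold comm_isup_N at hn
  induction hn using Subgroup.closure_induction with
  | mem x hx =>
    obtain ⟨a, b, ha, hb, rfl⟩ := hx
    refine Subgroup.subset_closure ⟨g * a * g⁻¹, g * b * g⁻¹, comm_isup_conj hg ha,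
      comm_isup_conj hg hb, ?_⟩
    group
  | one => 
    have : g * 1 * g⁻¹ = 1 := by group
    rw [this]; exact Subgroup.one_mem _
  | mul x y _ _ hx hy =>
    have : g * (x * y) * g⁻¹ = (g * x * g⁻¹) * (g * y * g⁻¹) := by group
    rw [this]; exact Subgroup.mul_mem _ hx hy
  | inv x _ hx =>
    have : g * x⁻¹ * g⁻¹ = (g * x * g⁻¹)⁻¹ := by group
    rw [this]; exact Subgroup.inv_mem _ hx

theorem comm_isup_left {g b : Equiv.Perm ℝ} (hg : IsD 1 g) (hb : ISup b) :
    g * b * g⁻¹ * b⁻¹ ∈ comm_isup_N := by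
  have key : IsD 1 g ∧ g * b * g⁻¹ * b⁻¹ ∈ comm_isup_N := by
    have h := isup_generate g hg
    induction h using Subgroup.closure_induction with
    | mem x hx => exact ⟨hx.1, Subgroup.subset_closure ⟨x, b, hx, hb, rfl⟩⟩
    | one => 
      refine ⟨isd_one 1, ?_⟩
      have : (1 : Equiv.Perm ℝ) * b * 1⁻¹ * b⁻¹ = 1 := by group
      rw [this]; exact Subgroup.one_mem _
    | mul x y hx0 hy0 hx hy =>
      have hxd : IsD 1 x := by
        clear hx hy hg
        induction hx0 using Subgroup.closure_induction with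
        | mem z hz => exact hz.1
        | one => exact isd_one 1
        | mul u v _ _ hu hv => exact isd_mul hu hv
        | inv u _ hu => exact isd_inv hu
      have hyd : IsD 1 y := by
        clear hx hy hg
        induction hy0 using Subgroup.closure_induction with
        | mem z hz => exact hz.1
        | one => exact isd_one 1
        | mul u v _ _ hu hv => exact isd_mul hu hv
        | inv u _ hu => exact isd_inv hu
      have hx' := hx hxd
      have hy' := hy hyd
      refine ⟨hg, ?_⟩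
      have : x * y * b * (x * y)⁻¹ * b⁻¹
          = (x * (y * b * y⁻¹ * b⁻¹) * x⁻¹) * (x * b * x⁻¹ * b⁻¹) := by group
      rw [this]
      exact Subgroup.mul_mem _ (comm_isup_norm hxd hy'.2) hx'.2
    | inv x hx0 hx =>
      have hxd : IsD 1 x := by
        have := isd_inv hg
        rwa [inv_inv] at this
      have hx' := hx hxd
      refine ⟨hg, ?_⟩
      have : x⁻¹ * b * x⁻¹⁻¹ * b⁻¹ = x⁻¹ * (x * b * x⁻¹ * b⁻¹)⁻¹ * x⁻¹⁻¹ := by group
      rw [this]
      exact comm_isup_norm hg (Subgroup.inv_mem _ hx'.2)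
  exact key.2

theorem comm_isup_right {g b : Equiv.Perm ℝ} (hg : IsD 1 g) (hb : IsD 1 b) :
    g * b * g⁻¹ * b⁻¹ ∈ comm_isup_N := by
  have h := isup_generate b hb
  have key : IsD 1 b ∧ g * b * g⁻¹ * b⁻¹ ∈ comm_isup_N := by
    clear hb
    induction h using Subgroup.closure_induction with
    | mem x hx => exact ⟨hx.1, comm_isup_left hg hx⟩
    | one => 
      refine ⟨isd_one 1, ?_⟩
      have : g * 1 * g⁻¹ * (1 : Equiv.Perm ℝ)⁻¹ = 1 := by group
      rw [this]; exact Subgroup.one_mem _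
    | mul x y _ _ hx hy =>
      refine ⟨isd_mul hx.1 hy.1, ?_⟩
      have : g * (x * y) * g⁻¹ * (x * y)⁻¹
          = (g * x * g⁻¹ * x⁻¹) * (x * (g * y * g⁻¹ * y⁻¹) * x⁻¹) := by group
      rw [this]
      exact Subgroup.mul_mem _ hx.2 (comm_isup_norm hx.1 hy.2)
    | inv x _ hx =>
      refine ⟨isd_inv hx.1, ?_⟩
      have : g * x⁻¹ * g⁻¹ * x⁻¹⁻¹ = x⁻¹ * (g * x * g⁻¹ * x⁻¹)⁻¹ * x⁻¹⁻¹ := by group
      rw [this]
      exact comm_isup_norm (isd_inv hx.1) (Subgroup.inv_mem _ hx.2)
  exact key.2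

/-- `[G_1,G_1]` is generated by commutators of interval supported elements. -/
theorem comm_isup : Comm1 ≤ Subgroup.closure
    {x | ∃ a b : Equiv.Perm ℝ, ISup a ∧ ISup b ∧ x = a * b * a⁻¹ * b⁻¹} := by
  unfold Comm1
  rw [Subgroup.closure_le]
  rintro x ⟨a, b, ha, hb, rfl⟩
  exact comm_isup_right ha hb

end Pool.Agent.Helper339.CW
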