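import Mathlib
import Pool.Agent.Helper339.CW.Defs

set_option autoImplicit false

open scoped ContDiff Manifold
open MeasureTheory Set

namespace Pool.Agent.Helper339.CW


/-! ### TARGET: prove this. Prefix the names of all your auxiliary lemmas with th_props_ -/

/-- the smooth one-sided factor -/
noncomputable def th_props_R (x : ℝ) : ℝ := x / (1 + x * Real.log (1 + expNegInvGlue x))

theorem th_props_den (x : ℝ) : 1 ≤ 1 + x * Real.log (1 + expNegInvGlue x) := by
  rcases le_or_gt x 0 with hx | hx
  · rw [expNegInvGlue.zero_of_nonpos hx, add_zero, Real.log_one, mul_zero, add_zero]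
  · have h1 : 0 ≤ Real.log (1 + expNegInvGlue x) :=
      Real.log_nonneg (by linarith [expNegInvGlue.nonneg x])
    nlinarith

theorem th_props_R_nonpos {x : ℝ} (hx : x ≤ 0) : th_props_R x = x := by
  rw [th_props_R, expNegInvGlue.zero_of_nonpos hx, add_zero, Real.log_one, mul_zero, add_zero,
    div_one]

theorem th_props_den_smooth : ContDiff ℝ ∞ (fun x => 1 + x * Real.log (1 + expNegInvGlue x)) := by
  refine contDiff_const.add (contDiff_id.mul (ContDiff.log (contDiff_const.add
    expNegInvGlue.contDiff) (fun x => ?_)))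
  have := expNegInvGlue.nonneg x
  linarith

theorem th_props_R_smooth : ContDiff ℝ ∞ th_props_R := by
  refine contDiff_id.div th_props_den_smooth (fun x => ?_)
  have := th_props_den x
  linarith

theorem th_props_R_deriv_zero : HasDerivAt th_props_R 1 0 := by
  have h1 : HasDerivAt (fun x => 1 + x * Real.log (1 + expNegInvGlue x))
      (deriv (fun x => 1 + x * Real.log (1 + expNegInvGlue x)) 0) 0 :=
    (th_props_den_smooth.differentiable (by norm_num) 0).hasDerivAt
  have h2 := (hasDerivAt_id (0 : ℝ)).div h1 (by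
    have := th_props_den 0
    linarith)
  refine h2.congr_deriv ?_
  simp

theorem th_props_pos {x : ℝ} (hx : 0 < x) : Th x = 1 / Real.log (Real.exp (1 / x) + 1) := by
  rw [Th, Fl, if_pos hx]

theorem th_props_neg {x : ℝ} (hx : x < 0) : Th x = -(1 / Real.log (Real.exp (1 / (-x)) + 1)) := by
  rw [Th, Fl, if_neg (not_lt.2 hx.le), if_pos hx]

theorem th_props_zero : Th 0 = 0 := by
  rw [Th, Fl, if_neg (lt_irrefl _), if_neg (lt_irrefl _)]

theorem th_props_odd (x : ℝ) : Th (-x) = - Th x := by
  rcases lt_trichotomy x 0 with hx | hx | hx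
  · rw [th_props_pos (neg_pos.2 hx), th_props_neg hx, neg_neg]
  · rw [hx, neg_zero, th_props_zero, neg_zero]
  · rw [th_props_neg (neg_lt_zero.2 hx), th_props_pos hx, neg_neg]

theorem th_props_R_pos {x : ℝ} (hx : 0 < x) : th_props_R x = Th x := by
  rw [th_props_pos hx, th_props_R]
  have h1 : expNegInvGlue x = Real.exp (-(1 / x)) := by
    rw [expNegInvGlue, if_neg (not_le.2 hx), one_div]
  have h2 : Real.log (Real.exp (1 / x) + 1) = 1 / x + Real.log (1 + Real.exp (-(1 / x))) := by
    have e : Real.exp (1 / x) + 1 = Real.exp (1 / x) * (1 + Real.exp (-(1 / x))) := by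
      rw [mul_add, mul_one, ← Real.exp_add, add_neg_cancel, Real.exp_zero]
    rw [e, Real.log_mul (Real.exp_pos _).ne' (by positivity), Real.log_exp]
  rw [h1, h2]
  have h3 : 0 < Real.log (1 + Real.exp (-(1 / x))) :=
    Real.log_pos (by linarith [Real.exp_pos (-(1 / x))])
  field_simp

theorem th_props_eq : Th = fun x => th_props_R (-th_props_R (-x)) := by
  funext x
  rcases lt_trichotomy x 0 with hx | hx | hx
  · have h1 : 0 < -x := neg_pos.2 hx
    rw [th_props_R_pos h1, th_props_odd, neg_neg, th_props_R_nonpos]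
    rw [th_props_neg hx]
    have h2 : 0 < Real.log (Real.exp (1 / (-x)) + 1) :=
      Real.log_pos (by linarith [Real.exp_pos (1 / (-x))])
    have := one_div_pos.2 h2
    linarith
  · rw [hx, neg_zero, th_props_R_nonpos le_rfl, neg_zero, th_props_R_nonpos le_rfl, th_props_zero]
  · rw [th_props_R_nonpos (neg_nonpos.2 hx.le), neg_neg, th_props_R_pos hx]

theorem th_props_smooth : ContDiff ℝ ∞ Th := by
  rw [th_props_eq]
  exact th_props_R_smooth.comp (th_props_R_smooth.comp contDiff_neg).neg

theorem th_props_deriv_pos {x : ℝ} (hx : 0 < x) : 0 < deriv Th x := by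
  have h1 : HasDerivAt (fun y : ℝ => 1 / y) (-(x ^ 2)⁻¹) x := by
    have := hasDerivAt_inv hx.ne'
    simpa [one_div] using this
  have h2 := (h1.exp.add_const 1)
  have hL : 0 < Real.log (Real.exp (1 / x) + 1) :=
    Real.log_pos (by linarith [Real.exp_pos (1 / x)])
  have h3 := h2.log (by positivity)
  have h4 := h3.inv hL.ne'
  have h5 : HasDerivAt Th (-(Real.exp (1 / x) * -(x ^ 2)⁻¹ / (Real.exp (1 / x) + 1)) /
      Real.log (Real.exp (1 / x) + 1) ^ 2) x := by
    refine h4.congr_of_eventuallyEq ?_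
    filter_upwards [lt_mem_nhds hx] with y hy
    rw [th_props_pos hy, one_div (Real.log _)]
    rfl
  rw [h5.deriv]
  have : 0 < (x ^ 2)⁻¹ := by positivity
  have h6 : -(Real.exp (1 / x) * -(x ^ 2)⁻¹ / (Real.exp (1 / x) + 1)) =
      Real.exp (1 / x) * (x ^ 2)⁻¹ / (Real.exp (1 / x) + 1) := by ring
  rw [h6]
  positivity

theorem th_props_deriv_zero : deriv Th 0 = 1 := by
  have h1 : HasDerivAt (fun x : ℝ => -th_props_R (-x)) 1 0 := by
    have h2 : HasDerivAt th_props_R 1 (-(0 : ℝ)) := by
      rw [neg_zero]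
      exact th_props_R_deriv_zero
    have h3 : HasDerivAt (fun x : ℝ => th_props_R (-x)) (1 * (-1)) 0 :=
      h2.comp (0 : ℝ) (hasDerivAt_neg (0 : ℝ))
    refine h3.fun_neg.congr_deriv ?_
    norm_num
  have h4 : HasDerivAt th_props_R 1 (-th_props_R (-(0 : ℝ))) := by
    rw [neg_zero, th_props_R_nonpos le_rfl, neg_zero]
    exact th_props_R_deriv_zero
  have h5 : HasDerivAt (fun x : ℝ => th_props_R (-th_props_R (-x))) (1 * 1) 0 :=
    HasDerivAt.comp (h₂ := th_props_R) (h := fun x : ℝ => -th_props_R (-x)) (0 : ℝ) h4 h1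
  rw [th_props_eq, h5.deriv, mul_one]

theorem th_props_deriv (x : ℝ) : 0 < deriv Th x := by
  rcases lt_trichotomy x 0 with hx | hx | hx
  · have h1 : Th = fun y => -Th (-y) := by
      funext y
      rw [th_props_odd, neg_neg]
    have h2 : HasDerivAt Th (deriv Th (-x)) (-x) :=
      (th_props_smooth.differentiable (by norm_num) (-x)).hasDerivAt
    have h3 : HasDerivAt (fun y => -Th (-y)) (deriv Th (-x)) x := by
      have h4 : HasDerivAt (fun y => Th (-y)) (deriv Th (-x) * (-1)) x :=
        h2.comp x (hasDerivAt_neg x)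
      refine h4.fun_neg.congr_deriv ?_
      ring
    rw [← h1] at h3
    rw [h3.deriv]
    exact th_props_deriv_pos (neg_pos.2 hx)
  · rw [hx, th_props_deriv_zero]
    exact one_pos
  · exact th_props_deriv_pos hx

theorem th_props_bound_pos {x : ℝ} (hx : 0 < x) : 0 < Th x ∧ Th x < 1.45 := by
  have h1 : Real.log 2 < Real.log (Real.exp (1 / x) + 1) := by
    apply Real.log_lt_log (by norm_num)
    have : 0 < 1 / x := one_div_pos.2 hx
    have := Real.add_one_lt_exp this.ne'
    linarith
  have h2 := Real.log_two_gt_d9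
  have h3 : 0 < Real.log (Real.exp (1 / x) + 1) := by
    norm_num at h2
    linarith
  rw [th_props_pos hx]
  refine ⟨one_div_pos.2 h3, ?_⟩
  rw [div_lt_iff₀ h3]
  norm_num at h2
  have e : (1.45 : ℝ) = 29 / 20 := by norm_num
  rw [e]
  linarith

/-- Properties of the standard sink. -/
theorem th_props : ContDiff ℝ ∞ Th ∧ (∀ x, 0 < deriv Th x) ∧ (∀ x, |Th x| < 1.45) ∧
    (∀ x, 0 < x → 0 < Th x ∧ Th x < x ∧ Real.exp (1 / Th x) = Real.exp (1 / x) + 1) ∧
    (∀ x, Th (-x) = - Th x) ∧ 0.7 < Th 1 := by
  refine ⟨th_props_smooth, th_props_deriv, ?_, ?_, th_props_odd, ?_⟩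
  · intro x
    rcases lt_trichotomy x 0 with hx | hx | hx
    · have h1 := th_props_bound_pos (neg_pos.2 hx)
      rw [th_props_odd] at h1
      rw [abs_of_neg (by linarith [h1.1])]
      exact h1.2
    · rw [hx, th_props_zero, abs_zero]
      norm_num
    · have h1 := th_props_bound_pos hx
      rw [abs_of_pos h1.1]
      exact h1.2
  · intro x hx
    have h1 := th_props_bound_pos hx
    have h2 : 1 / x < Real.log (Real.exp (1 / x) + 1) := by
      rw [Real.lt_log_iff_exp_lt (by positivity)]
      linarith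
    have h3 : 0 < 1 / x := one_div_pos.2 hx
    refine ⟨h1.1, ?_, ?_⟩
    · rw [th_props_pos hx, div_lt_iff₀ (h3.trans h2)]
      rw [div_lt_iff₀ hx] at h2
      linarith
    · rw [th_props_pos hx, one_div_one_div, Real.exp_log (by positivity)]
  · rw [th_props_pos one_pos]
    have h1 : Real.log (Real.exp (1 / 1) + 1) < 10 / 7 := by
      rw [Real.log_lt_iff_lt_exp (by positivity)]
      have h2 := Real.exp_one_lt_d9
      have h3 := Real.sum_le_exp_of_nonneg (show (0 : ℝ) ≤ 10 / 7 by norm_num) 5
      norm_num [Finset.sum_range_succ, Nat.factorial] at h2 h3 ⊢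
      linarith
    have h4 : 0 < Real.log (Real.exp (1 / 1) + 1) :=
      Real.log_pos (by linarith [Real.exp_pos (1 / 1 : ℝ)])
    rw [lt_div_iff₀ h4]
    norm_num at h1 ⊢
    linarith

end Pool.Agent.Helper339.CW
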