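import Mathlib
import Pool.Agent.Helper339.CW.Defs
import Pool.Agent.Helper339.CW.P_basics
import Pool.Agent.Helper339.CW.P_th_props

set_option autoImplicit false

open scoped ContDiff Manifold
open MeasureTheory Set

namespace Pool.Agent.Helper339.CW


/-! ### TARGET: prove this. Prefix the names of all your auxiliary lemmas with end_data_ -/

theorem end_data_ext (s0 : ℝ) (D0 : ℝ → ℝ) (hs : ContDiffOn ℝ ∞ D0 (Ioi s0))
    (hd : ∀ s, s0 < s → 0 < deriv D0 s) (hp : ∀ s, s0 < s → D0 (s + 1) = D0 s + 1) :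
    ∃ e : Equiv.Perm ℝ, IsD 1 e ∧ ∀ s, s0 < s → e s = D0 s := by
  have key : ∀ (m n : ℕ) (s : ℝ), s0 < s + n →
      D0 (s + ((n + m : ℕ) : ℝ)) - ((n + m : ℕ) : ℝ) = D0 (s + n) - n := by
    intro m
    induction m with
    | zero => intro n s _; simp
    | succ m ih =>
      intro n s h
      have h1 := ih n s h
      have h2 : s0 < s + ((n + m : ℕ) : ℝ) := by
        push_cast
        have : (0 : ℝ) ≤ m := Nat.cast_nonneg m
        linarith
      have h3 := hp _ h2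
      have h4 : s + ((n + (m + 1) : ℕ) : ℝ) = s + ((n + m : ℕ) : ℝ) + 1 := by
        push_cast
        ring
      rw [h4, h3]
      push_cast at h1 ⊢
      linarith
  let N : ℝ → ℕ := fun s => ⌈|s0 - s|⌉₊ + 1
  have hN : ∀ s, s0 < s + N s := by
    intro s
    have h1 := Nat.le_ceil |s0 - s|
    have h2 := le_abs_self (s0 - s)
    simp only [N]
    push_cast
    linarith
  let D : ℝ → ℝ := fun s => D0 (s + N s) - N s
  have hD : ∀ (s : ℝ) (n : ℕ), s0 < s + n → D s = D0 (s + n) - n := by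
    intro s n h
    have h1 := key n (N s) s (hN s)
    have h2 := key (N s) n s h
    rw [Nat.add_comm] at h2
    simp only [D]
    rw [← h1, h2]
  have hloc : ∀ s : ℝ, D =ᶠ[nhds s] fun y => D0 (y + N s) - N s := by
    intro s
    have h1 : ∀ᶠ y in nhds s, s0 - N s < y := lt_mem_nhds (by linarith [hN s])
    filter_upwards [h1] with y hy
    exact hD y (N s) (by linarith)
  have hsm : ContDiff ℝ ∞ D := by
    rw [contDiff_iff_contDiffAt]
    intro s
    refine ContDiffAt.congr_of_eventuallyEq ?_ (hloc s)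
    have h1 : ContDiffAt ℝ ∞ D0 (s + N s) := hs.contDiffAt (Ioi_mem_nhds (hN s))
    have h2 : ContDiffAt ℝ ∞ (fun y : ℝ => D0 (y + N s)) s :=
      h1.comp s (contDiffAt_id.add contDiffAt_const)
    exact h2.sub contDiffAt_const
  have hder : ∀ s, 0 < deriv D s := by
    intro s
    rw [(hloc s).deriv_eq, deriv_sub_const, deriv_comp_add_const]
    exact hd _ (hN s)
  have hper : ∀ s, D (s + 1) = D s + 1 := by
    intro s
    have h1 := hN s
    rw [hD (s + 1) (N s) (by linarith), hD s (N s) h1]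
    have h2 : s + 1 + (N s : ℝ) = s + N s + 1 := by ring
    rw [h2, hp _ h1]
    ring
  obtain ⟨e, he, he'⟩ := isd_of_deriv 1 one_pos D hsm hder hper
  refine ⟨e, he, fun s hs' => ?_⟩
  rw [he', hD s 0 (by simpa using hs')]
  simp

theorem end_data_core (L : ℝ) (hL : 0 < L) (k : ℝ → ℝ) (hs : ContDiffOn ℝ ∞ k (Ioo 0 L))
    (hd : ∀ x ∈ Ioo 0 L, 0 < deriv k x) (hm : StrictMonoOn k (Ioo 0 L))
    (hi : k '' (Ioo 0 L) = Ioo 0 L) (δ : ℝ) (hδ : 0 < δ)
    (hc : ∀ x ∈ Ioo 0 L, x < δ → k x < δ → k (Th x) = Th (k x)) :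
    ∃ (D : Equiv.Perm ℝ) (η : ℝ), IsD 1 D ∧ 0 < η ∧ η < L / 2 ∧
      ∀ x, 0 < x → x < η → Real.exp (1 / k x) = D (Real.exp (1 / x)) := by
  obtain ⟨-, -, -, hTh, -, -⟩ := th_props
  have hv : min (δ / 2) (L / 2) ∈ Ioo 0 L :=
    ⟨lt_min (by linarith) (by linarith), (min_le_right _ _).trans_lt (by linarith)⟩
  rw [← hi] at hv
  obtain ⟨x1, hx1, hx1v⟩ := hv
  set η : ℝ := min (min x1 δ) (L / 4) with hη
  have hη0 : 0 < η := lt_min (lt_min hx1.1 hδ) (by linarith)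
  have hηL : η < L / 2 := (min_le_right _ _).trans_lt (by linarith)
  have hηδ : η ≤ δ := (min_le_left _ _).trans (min_le_right _ _)
  have hηx : η ≤ x1 := (min_le_left _ _).trans (min_le_left _ _)
  have hmem : ∀ x, 0 < x → x < η → x ∈ Ioo 0 L := fun x h1 h2 => ⟨h1, by linarith⟩
  have hkpos : ∀ x, 0 < x → x < η → 0 < k x := by
    intro x h1 h2
    have h3 : k x ∈ k '' (Ioo 0 L) := ⟨x, hmem x h1 h2, rfl⟩
    rw [hi] at h3
    exact h3.1
  have hkδ : ∀ x, 0 < x → x < η → k x < δ := by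
    intro x h1 h2
    have h3 := hm (hmem x h1 h2) hx1 (h2.trans_le hηx)
    rw [hx1v] at h3
    have := min_le_left (δ / 2) (L / 2)
    linarith
  set s0 : ℝ := Real.exp (1 / η) with hs0
  have hs01 : 1 < s0 := Real.one_lt_exp_iff.2 (by positivity)
  have hlog : ∀ s, s0 < s → 1 / η < Real.log s := by
    intro s h
    rw [hs0] at h
    exact (Real.lt_log_iff_exp_lt ((Real.exp_pos _).trans h)).2 h
  have hlogp : ∀ s, s0 < s → 0 < Real.log s := fun s h =>
    lt_trans (by positivity) (hlog s h)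
  have hx0 : ∀ s, s0 < s → 0 < (Real.log s)⁻¹ := fun s h => inv_pos.2 (hlogp s h)
  have hxη : ∀ s, s0 < s → (Real.log s)⁻¹ < η := by
    intro s h
    have h1 := hlog s h
    rw [one_div] at h1
    have h2 := inv_strictAnti₀ (inv_pos.2 hη0) h1
    rwa [inv_inv] at h2
  have hspos : ∀ s, s0 < s → 0 < s := fun s h => by linarith
  have H1 : ContDiffOn ℝ ∞ (fun s : ℝ => Real.exp ((k ((Real.log s)⁻¹))⁻¹)) (Ioi s0) := by
    have h1 : ContDiffOn ℝ ∞ (fun s : ℝ => (Real.log s)⁻¹) (Ioi s0) := by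
      apply ContDiffOn.inv
      · exact Real.contDiffOn_log.mono (fun s hs => (hspos s hs).ne')
      · intro s hs
        exact (hlogp s hs).ne'
    have h2 : ContDiffOn ℝ ∞ (fun s : ℝ => k ((Real.log s)⁻¹)) (Ioi s0) :=
      hs.comp h1 (fun s hs => hmem _ (hx0 s hs) (hxη s hs))
    exact (h2.inv (fun s hs => (hkpos _ (hx0 s hs) (hxη s hs)).ne')).exp
  have H2 : ∀ s, s0 < s → 0 < deriv (fun s : ℝ => Real.exp ((k ((Real.log s)⁻¹))⁻¹)) s := by
    intro s h
    have hx := hmem _ (hx0 s h) (hxη s h)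
    have h1 : HasDerivAt (fun s : ℝ => (Real.log s)⁻¹) (-s⁻¹ / Real.log s ^ 2) s :=
      (Real.hasDerivAt_log (hspos s h).ne').fun_inv (hlogp s h).ne'
    have h2 : HasDerivAt k (deriv k ((Real.log s)⁻¹)) ((Real.log s)⁻¹) :=
      (((hs.contDiffAt (Ioo_mem_nhds hx.1 hx.2)).differentiableAt (by simp))).hasDerivAt
    have h3 : HasDerivAt (fun s : ℝ => k ((Real.log s)⁻¹))
        (deriv k ((Real.log s)⁻¹) * (-s⁻¹ / Real.log s ^ 2)) s := h2.comp s h1
    have hk0 := hkpos _ (hx0 s h) (hxη s h)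
    have h4 := (h3.fun_inv hk0.ne').exp
    rw [h4.deriv]
    apply mul_pos (Real.exp_pos _)
    apply div_pos _ (by positivity)
    have h5 := hd _ hx
    have h6 : 0 < s⁻¹ / Real.log s ^ 2 := div_pos (inv_pos.2 (hspos s h)) (pow_pos (hlogp s h) 2)
    have h7 : -(deriv k ((Real.log s)⁻¹) * (-s⁻¹ / Real.log s ^ 2)) =
        deriv k ((Real.log s)⁻¹) * (s⁻¹ / Real.log s ^ 2) := by ring
    rw [h7]
    exact mul_pos h5 h6
  have H3 : ∀ s, s0 < s → (fun s : ℝ => Real.exp ((k ((Real.log s)⁻¹))⁻¹)) (s + 1) =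
      (fun s : ℝ => Real.exp ((k ((Real.log s)⁻¹))⁻¹)) s + 1 := by
    intro s h
    have hx := hmem _ (hx0 s h) (hxη s h)
    obtain ⟨t1, t2, t3⟩ := hTh _ (hx0 s h)
    have hk0 := hkpos _ (hx0 s h) (hxη s h)
    have hkd := hkδ _ (hx0 s h) (hxη s h)
    obtain ⟨u1, u2, u3⟩ := hTh _ hk0
    have hcc := hc _ hx ((hxη s h).trans_le hηδ) hkd
    have e1 : (Real.log (s + 1))⁻¹ = Th ((Real.log s)⁻¹) := by
      rw [one_div, one_div, inv_inv, Real.exp_log (hspos s h)] at t3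
      rw [← t3, Real.log_exp, inv_inv]
    simp only
    rw [e1, hcc]
    rw [one_div, one_div] at u3
    exact u3
  obtain ⟨D, hD, hD'⟩ := end_data_ext s0 (fun s => Real.exp ((k ((Real.log s)⁻¹))⁻¹)) H1 H2 H3
  refine ⟨D, η, hD, hη0, hηL, fun x h1 h2 => ?_⟩
  have h3 : s0 < Real.exp (1 / x) := by
    rw [hs0, Real.exp_lt_exp]
    exact one_div_lt_one_div_of_lt h1 h2
  rw [hD' _ h3]
  simp only [Real.log_exp, one_div, inv_inv]

/-- The conjugacy in the coordinate at the left side of the sink `0`. -/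
theorem end_left (L : ℝ) (hL : 0 < L) (A B : Equiv.Perm ℝ) (hA : IsD L A) (hB : IsD L B)
    (δ : ℝ) (hδ : 0 < δ) (hAk : ∀ x, |x| < δ → A x = Th x) (hBk : ∀ x, |x| < δ → B x = Th x)
    (h0 : ℝ → ℝ) (hs : ContDiffOn ℝ ∞ h0 (Ioo (-L) 0)) (hd : ∀ x ∈ Ioo (-L) 0, 0 < deriv h0 x)
    (hm : StrictMonoOn h0 (Ioo (-L) 0)) (hi : h0 '' (Ioo (-L) 0) = Ioo (-L) 0)
    (hc : ∀ x ∈ Ioo (-L) 0, h0 (A x) = B (h0 x)) :
    ∃ (D : Equiv.Perm ℝ) (η : ℝ), IsD 1 D ∧ 0 < η ∧ η < L / 2 ∧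
      ∀ x, -η < x → x < 0 → Real.exp (-1 / h0 x) = D (Real.exp (-1 / x)) := by
  obtain ⟨-, -, -, -, hodd, -⟩ := th_props
  have hneg : ∀ x ∈ Ioo 0 L, -x ∈ Ioo (-L) 0 := fun x hx => ⟨by linarith [hx.2], by linarith [hx.1]⟩
  have hmaps : ∀ x ∈ Ioo (-L) 0, h0 x ∈ Ioo (-L) 0 := fun x hx => by
    rw [← hi]; exact ⟨x, hx, rfl⟩
  have H1 : ContDiffOn ℝ ∞ (fun x => - h0 (-x)) (Ioo 0 L) := by
    exact (hs.comp contDiff_neg.contDiffOn hneg).neg
  have H2 : ∀ x ∈ Ioo 0 L, 0 < deriv (fun x => - h0 (-x)) x := by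
    intro x hx
    have h1 := hd _ (hneg x hx)
    have h2 : HasDerivAt h0 (deriv h0 (-x)) (-x) :=
      ((hs.contDiffAt (Ioo_mem_nhds (hneg x hx).1 (hneg x hx).2)).differentiableAt
        (by simp)).hasDerivAt
    have h3 : HasDerivAt (fun x => - h0 (-x)) (-(deriv h0 (-x) * (-1))) x :=
      (h2.comp x (hasDerivAt_neg x)).fun_neg
    rw [h3.deriv]
    linarith
  have H3 : StrictMonoOn (fun x => - h0 (-x)) (Ioo 0 L) := by
    intro x hx y hy hxy
    have := hm (hneg y hy) (hneg x hx) (by linarith)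
    simp only
    linarith
  have H4 : (fun x => - h0 (-x)) '' (Ioo 0 L) = Ioo 0 L := by
    ext y
    constructor
    · rintro ⟨x, hx, rfl⟩
      have := hmaps _ (hneg x hx)
      exact ⟨by simp only; linarith [this.2], by simp only; linarith [this.1]⟩
    · intro hy
      have h1 : -y ∈ h0 '' (Ioo (-L) 0) := by
        rw [hi]
        exact hneg y hy
      obtain ⟨x, hx, hxy⟩ := h1
      exact ⟨-x, ⟨by linarith [hx.2], by linarith [hx.1]⟩, by simp [hxy]⟩
  have H5 : ∀ x ∈ Ioo 0 L, x < δ → (fun x => - h0 (-x)) x < δ →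
      (fun x => - h0 (-x)) (Th x) = Th ((fun x => - h0 (-x)) x) := by
    intro x hx hxδ hkx
    simp only at hkx ⊢
    have h1 := hc _ (hneg x hx)
    have h2 := hmaps _ (hneg x hx)
    rw [hAk (-x) (by rw [abs_neg, abs_of_pos hx.1]; exact hxδ),
      hBk (h0 (-x)) (by rw [abs_of_neg h2.2]; exact hkx), hodd] at h1
    rw [h1, hodd]
  obtain ⟨D, η, hD, hη0, hηL, hDη⟩ := end_data_core L hL (fun x => - h0 (-x)) H1 H2 H3 H4 δ hδ H5
  refine ⟨D, η, hD, hη0, hηL, fun x h1 h2 => ?_⟩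
  have h3 := hDη (-x) (by linarith) (by linarith)
  simp only [neg_neg] at h3
  have h4 : (-1 : ℝ) / h0 x = 1 / - h0 x := by rw [div_neg, neg_div]
  have h5 : (-1 : ℝ) / x = 1 / - x := by rw [div_neg, neg_div]
  rw [h4, h5]
  exact h3

/-- The conjugacy in the coordinate at the right side of the sink `-L`. -/
theorem end_right (L : ℝ) (hL : 0 < L) (A B : Equiv.Perm ℝ) (hA : IsD L A) (hB : IsD L B)
    (δ : ℝ) (hδ : 0 < δ) (hAk : ∀ x, |x| < δ → A x = Th x) (hBk : ∀ x, |x| < δ → B x = Th x)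
    (h0 : ℝ → ℝ) (hs : ContDiffOn ℝ ∞ h0 (Ioo (-L) 0)) (hd : ∀ x ∈ Ioo (-L) 0, 0 < deriv h0 x)
    (hm : StrictMonoOn h0 (Ioo (-L) 0)) (hi : h0 '' (Ioo (-L) 0) = Ioo (-L) 0)
    (hc : ∀ x ∈ Ioo (-L) 0, h0 (A x) = B (h0 x)) :
    ∃ (D : Equiv.Perm ℝ) (η : ℝ), IsD 1 D ∧ 0 < η ∧ η < L / 2 ∧
      ∀ x, 0 < x → x < η → Real.exp (1 / (h0 (x - L) + L)) = D (Real.exp (1 / x)) := by
  have hsh : ∀ x ∈ Ioo 0 L, x - L ∈ Ioo (-L) 0 := fun x hx => ⟨by linarith [hx.1], by linarith [hx.2]⟩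
  have hmaps : ∀ x ∈ Ioo (-L) 0, h0 x ∈ Ioo (-L) 0 := fun x hx => by
    rw [← hi]; exact ⟨x, hx, rfl⟩
  have hAs : ∀ x, A (x - L) = A x - L := by
    intro x
    have := hA.2 (x - L)
    rw [sub_add_cancel] at this
    linarith
  apply end_data_core L hL (fun x => h0 (x - L) + L) ?_ ?_ ?_ ?_ δ hδ ?_
  · exact (hs.comp (contDiff_id.sub contDiff_const).contDiffOn hsh).add contDiffOn_const
  · intro x hx
    have h1 := hd _ (hsh x hx)
    rw [deriv_add_const, deriv_comp_sub_const]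
    exact h1
  · intro x hx y hy hxy
    have := hm (hsh x hx) (hsh y hy) (by linarith)
    simp only
    linarith
  · ext y
    constructor
    · rintro ⟨x, hx, rfl⟩
      have := hmaps _ (hsh x hx)
      exact ⟨by simp only; linarith [this.1], by simp only; linarith [this.2]⟩
    · intro hy
      have h1 : y - L ∈ h0 '' (Ioo (-L) 0) := by
        rw [hi]
        exact hsh y hy
      obtain ⟨x, hx, hxy⟩ := h1
      exact ⟨x + L, ⟨by linarith [hx.1], by linarith [hx.2]⟩, by simp [hxy]⟩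
  · intro x hx hxδ hkx
    have h1 := hc _ (hsh x hx)
    have h2 := hmaps _ (hsh x hx)
    rw [hAs, hAk x (by rw [abs_of_pos hx.1]; exact hxδ)] at h1
    have h3 := hB.2 (h0 (x - L))
    rw [h1, ← h3]
    apply hBk
    rw [abs_of_pos (by linarith [h2.1])]
    exact hkx

end Pool.Agent.Helper339.CW
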