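import Mathlib
import Pool.Agent.Helper339.CW.Defs
import Pool.Agent.Helper339.CW.P_cohom

set_option autoImplicit false

open scoped ContDiff Manifold
open MeasureTheory Set

namespace Pool.Agent.Helper339.CW


/-! ### TARGET -/

/-- Mean zero primitive of a continuous periodic mean zero function. -/
theorem fp_step_exists_prim (g : ℝ → ℝ) (hg : Continuous g) (hper : ∀ x, g (x + 1) = g x)
    (hmean : (∫ x in (0:ℝ)..1, g x) = 0) :
    ∃ G : ℝ → ℝ, (∀ x, HasDerivAt G (g x) x) ∧ (∀ x, G (x + 1) = G x) ∧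
      (∫ x in (0:ℝ)..1, G x) = 0 ∧ ∀ K : ℝ, (∀ x, |g x| ≤ K) → ∀ x, |G x| ≤ K := by
  set G0 : ℝ → ℝ := fun x => ∫ y in (0:ℝ)..x, g y with hG0
  have hd0 : ∀ x, HasDerivAt G0 (g x) x := fun x =>
    intervalIntegral.integral_hasDerivAt_right (hg.intervalIntegrable _ _)
      hg.aestronglyMeasurable.stronglyMeasurableAtFilter hg.continuousAt
  have hc0 : Continuous G0 := continuous_iff_continuousAt.2 fun x => (hd0 x).continuousAt
  have hp0 : ∀ x, G0 (x + 1) = G0 x := by
    intro x
    have h1 : (∫ y in (0:ℝ)..x, g y) + ∫ y in x..(x+1), g y = ∫ y in (0:ℝ)..(x+1), g y :=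
      intervalIntegral.integral_add_adjacent_intervals (hg.intervalIntegrable _ _)
        (hg.intervalIntegrable _ _)
    have h2 : ∫ y in x..(x+1), g y = ∫ y in (0:ℝ)..(0+1), g y :=
      Function.Periodic.intervalIntegral_add_eq (f := g) (T := 1) hper x 0
    rw [zero_add, hmean] at h2
    simp only [hG0]
    rw [← h1, h2, add_zero]
  set a : ℝ := ∫ x in (0:ℝ)..1, G0 x with ha
  refine ⟨fun x => G0 x - a, fun x => (hd0 x).sub_const a, fun x => by
    show G0 (x+1) - a = G0 x - a
    rw [hp0], ?_, ?_⟩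
  · rw [intervalIntegral.integral_sub (hc0.intervalIntegrable _ _) (by simp)]
    simp [ha]
  · intro K hK x
    have hK0 : 0 ≤ K := le_trans (abs_nonneg _) (hK 0)
    have hfr : G0 (Int.fract x) = G0 x := by
      have hP : Function.Periodic G0 1 := hp0
      have := hP.sub_int_mul_eq (x := x) ⌊x⌋
      rw [mul_one] at this
      exact this
    show |G0 x - a| ≤ K
    rw [← hfr]
    set t := Int.fract x with ht
    have ht0 : 0 ≤ t := Int.fract_nonneg x
    have ht1 : t ≤ 1 := (Int.fract_lt_one x).le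
    have h3 : G0 t - a = ∫ y in (0:ℝ)..1, (G0 t - G0 y) := by
      rw [intervalIntegral.integral_sub (by simp) (hc0.intervalIntegrable _ _)]
      simp [ha]
    rw [h3]
    have h4 : ‖∫ y in (0:ℝ)..1, (G0 t - G0 y)‖ ≤ K * |(1:ℝ) - 0| := by
      apply intervalIntegral.norm_integral_le_of_norm_le_const
      intro y hy
      rw [uIoc_of_le zero_le_one] at hy
      have h5 : G0 t - G0 y = ∫ z in y..t, g z := by
        simp only [hG0]
        rw [intervalIntegral.integral_interval_sub_left (hg.intervalIntegrable _ _)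
          (hg.intervalIntegrable _ _)]
      rw [h5]
      have h6 : ‖∫ z in y..t, g z‖ ≤ K * |t - y| :=
        intervalIntegral.norm_integral_le_of_norm_le_const (fun z _ => hK z)
      have h7 : |t - y| ≤ 1 := by
        rw [abs_le]; constructor <;> linarith [hy.1, hy.2]
      calc _ ≤ K * |t - y| := h6
        _ ≤ K * 1 := mul_le_mul_of_nonneg_left h7 hK0
        _ = K := mul_one K
    simpa using h4

/-- The iteration step is defined on the ball `InX`. -/
theorem fp_step_exists : ∃ ε : ℝ, 0 < ε ∧ ∀ S : ℝ → ℝ, SmallS ε S → ∀ w, InX w →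
    ∃ (w' v ψ σ P : ℝ → ℝ) (m c : ℝ), Stp S w w' v ψ σ P m c ∧ InX w' := by
  obtain ⟨C, hC, hcoh⟩ := cohom
  refine ⟨1 / (32 * C), by positivity, ?_⟩
  set ε : ℝ := 1 / (32 * C) with hε
  have hε0 : 0 < ε := by positivity
  rintro S ⟨hS, hSper, hS0, hS1, -⟩ w ⟨hwc, hwp, hwm, hwb⟩
  -- primitive of w
  obtain ⟨V, hVd, hVp, hVm, hVb⟩ := fp_step_exists_prim w hwc hwp hwm
  have hVb' : ∀ x, |V x| ≤ 1 / 4 := hVb (1/4) hwb
  have hVc : Continuous V := continuous_iff_continuousAt.2 fun x => (hVd x).continuousAt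
  set I : ℝ := ∫ x in (0:ℝ)..1, Real.exp (V x) with hI
  have hexpc : Continuous fun x => Real.exp (V x) := Real.continuous_exp.comp hVc
  have hI1 : Real.exp (-(1/4)) ≤ I := by
    have h1 : (∫ x in (0:ℝ)..1, Real.exp (-(1/4))) ≤ ∫ x in (0:ℝ)..1, Real.exp (V x) := by
      apply intervalIntegral.integral_mono_on zero_le_one (by simp) (hexpc.intervalIntegrable _ _)
      intro x _
      exact Real.exp_le_exp.2 (by linarith [(abs_le.1 (hVb' x)).1])
    simpa using h1
  have hI2 : I ≤ Real.exp (1/4) := by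
    have h1 : (∫ x in (0:ℝ)..1, Real.exp (V x)) ≤ ∫ x in (0:ℝ)..1, Real.exp (1/4) := by
      apply intervalIntegral.integral_mono_on zero_le_one (hexpc.intervalIntegrable _ _) (by simp)
      intro x _
      exact Real.exp_le_exp.2 (by linarith [(abs_le.1 (hVb' x)).2])
    simpa using h1
  have hI0 : 0 < I := lt_of_lt_of_le (Real.exp_pos _) hI1
  set l : ℝ := Real.log I with hl
  have hl1 : -(1/4) ≤ l := by
    rw [hl, Real.le_log_iff_exp_le hI0]; exact hI1
  have hl2 : l ≤ 1/4 := by
    rw [hl, Real.log_le_iff_le_exp hI0]; exact hI2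
  set v : ℝ → ℝ := fun x => V x - l with hv
  have hvd : ∀ x, HasDerivAt v (w x) x := fun x => (hVd x).sub_const l
  have hvp : ∀ x, v (x + 1) = v x := fun x => by simp only [hv]; rw [hVp]
  have hvb : ∀ x, |v x| ≤ 1/2 := by
    intro x
    have := abs_le.1 (hVb' x)
    simp only [hv]
    rw [abs_le]; constructor <;> linarith [this.1, this.2]
  have hvc : Continuous v := continuous_iff_continuousAt.2 fun x => (hvd x).continuousAt
  have hvn : (∫ x in (0:ℝ)..1, Real.exp (v x)) = 1 := by
    have h1 : ∀ x, Real.exp (v x) = Real.exp (V x) * I⁻¹ := by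
      intro x
      simp only [hv]
      rw [Real.exp_sub, hl, Real.exp_log hI0, div_eq_mul_inv]
    simp_rw [h1]
    rw [intervalIntegral.integral_mul_const, ← hI, mul_inv_cancel₀ hI0.ne']
  -- psi
  set ψ : ℝ → ℝ := fun x => ∫ y in (0:ℝ)..x, Real.exp (v y) with hψ
  have hevc : Continuous fun x => Real.exp (v x) := Real.continuous_exp.comp hvc
  have hψd : ∀ x, HasDerivAt ψ (Real.exp (v x)) x := fun x =>
    intervalIntegral.integral_hasDerivAt_right (hevc.intervalIntegrable _ _)
      hevc.aestronglyMeasurable.stronglyMeasurableAtFilter hevc.continuousAt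
  have hψ0 : ψ 0 = 0 := by simp [hψ]
  have hψp : ∀ x, ψ (x + 1) = ψ x + 1 := by
    intro x
    have h1 : (∫ y in (0:ℝ)..x, Real.exp (v y)) + ∫ y in x..(x+1), Real.exp (v y)
        = ∫ y in (0:ℝ)..(x+1), Real.exp (v y) :=
      intervalIntegral.integral_add_adjacent_intervals (hevc.intervalIntegrable _ _)
        (hevc.intervalIntegrable _ _)
    have hper : Function.Periodic (fun y => Real.exp (v y)) 1 := fun y => by
      show Real.exp (v (y+1)) = Real.exp (v y)
      rw [hvp]
    have h2 : ∫ y in x..(x+1), Real.exp (v y) = ∫ y in (0:ℝ)..(0+1), Real.exp (v y) :=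
      hper.intervalIntegral_add_eq x 0
    rw [zero_add, hvn] at h2
    simp only [hψ]
    rw [← h1, h2]
  have hψc : Continuous ψ := continuous_iff_continuousAt.2 fun x => (hψd x).continuousAt
  -- rho
  set ρ : ℝ → ℝ := fun x => S (ψ x) * Real.exp (2 * v x) with hρ
  have hSd : ∀ x, HasDerivAt S (deriv S x) x := fun x =>
    ((hS.differentiable (by simp)) x).hasDerivAt
  have hSc : Continuous S := hS.continuous
  have hS'c : Continuous (deriv S) := hS.continuous_deriv (by simp)
  have hρd : ∀ x, HasDerivAt ρ (deriv S (ψ x) * Real.exp (v x) * Real.exp (2 * v x)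
      + S (ψ x) * (Real.exp (2 * v x) * (2 * w x))) x := by
    intro x
    have h1 : HasDerivAt (fun x => S (ψ x)) (deriv S (ψ x) * Real.exp (v x)) x :=
      (hSd (ψ x)).comp x (hψd x)
    have h2 : HasDerivAt (fun x => Real.exp (2 * v x)) (Real.exp (2 * v x) * (2 * w x)) x :=
      ((hvd x).const_mul 2).exp
    exact h1.mul h2
  have hρc : Continuous ρ := continuous_iff_continuousAt.2 fun x => (hρd x).continuousAt
  have hρp : ∀ x, ρ (x + 1) = ρ x := by
    intro x
    simp only [hρ]
    rw [hψp, hvp, hSper]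
  set m : ℝ := ∫ x in (0:ℝ)..1, ρ x with hm
  obtain ⟨P, hPd, hPp, hPm, -⟩ := fp_step_exists_prim (fun x => ρ x - m)
    (hρc.sub continuous_const) (fun x => by show ρ (x+1) - m = ρ x - m; rw [hρp]) (by
      rw [intervalIntegral.integral_sub (hρc.intervalIntegrable _ _) (by simp)]
      simp [hm])
  set D : ℝ → ℝ := fun x => deriv S (ψ x) * Real.exp (v x) * Real.exp (2 * v x)
      + S (ψ x) * (Real.exp (2 * v x) * (2 * w x)) with hD
  have hDc : Continuous D := by
    have h2v : Continuous fun x => Real.exp (2 * v x) :=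
      Real.continuous_exp.comp (continuous_const.mul hvc)
    exact (((hS'c.comp hψc).mul hevc).mul h2v).add
      ((hSc.comp hψc).mul (h2v.mul (continuous_const.mul hwc)))
  have hPderiv : deriv P = fun x => ρ x - m := funext fun x => (hPd x).deriv
  have hPderiv2 : deriv (deriv P) = D := by
    rw [hPderiv]
    exact funext fun x => ((hρd x).sub_const m).deriv
  have hPC : ContDiff ℝ 2 P := by
    rw [show (2 : WithTop ℕ∞) = 1 + 1 from by norm_num, contDiff_succ_iff_deriv]
    refine ⟨fun x => (hPd x).differentiableAt, by simp, ?_⟩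
    rw [contDiff_one_iff_deriv]
    refine ⟨?_, ?_⟩
    · rw [hPderiv]
      exact fun x => ((hρd x).sub_const m).differentiableAt
    · rw [hPderiv2]; exact hDc
  have hDb : ∀ x, |D x| ≤ 6 * ε := by
    intro x
    have hv1 : v x ≤ 1/2 := (abs_le.1 (hvb x)).2
    have he1 : Real.exp (1:ℝ) ≤ 2.7182818286 := Real.exp_one_lt_d9.le
    have he2 : Real.exp (2 * v x) ≤ 2.7182818286 :=
      le_trans (Real.exp_le_exp.2 (by linarith)) he1
    have he3 : Real.exp (v x) * Real.exp (2 * v x) ≤ 4.5 := by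
      rw [← Real.exp_add]
      have h1 : Real.exp (v x + 2 * v x) ≤ Real.exp (3/2) := Real.exp_le_exp.2 (by linarith)
      have h2 : Real.exp (3/2 : ℝ) ^ 2 = Real.exp 1 ^ 3 := by
        rw [← Real.exp_nat_mul, ← Real.exp_nat_mul]; norm_num
      have h3 : Real.exp (3/2 : ℝ) ^ 2 ≤ 4.5 ^ 2 := by
        rw [h2]
        calc Real.exp 1 ^ 3 ≤ (2.7182818286:ℝ) ^ 3 :=
              pow_le_pow_left₀ (Real.exp_pos _).le he1 3
          _ ≤ 4.5 ^ 2 := by norm_num
      exact le_trans h1 (le_of_not_gt fun h => by nlinarith [Real.exp_pos (3/2 : ℝ)])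
    have hA : |deriv S (ψ x) * Real.exp (v x) * Real.exp (2 * v x)| ≤ ε * 4.5 := by
      rw [mul_assoc, abs_mul, abs_of_pos (mul_pos (Real.exp_pos _) (Real.exp_pos _))]
      exact mul_le_mul (hS1 _) he3 (by positivity) hε0.le
    have hB : |S (ψ x) * (Real.exp (2 * v x) * (2 * w x))| ≤ ε * (2.7182818286 * (1/2)) := by
      rw [abs_mul, abs_mul, abs_of_pos (Real.exp_pos _)]
      apply mul_le_mul (hS0 _) _ (by positivity) hε0.le
      apply mul_le_mul he2 _ (abs_nonneg _) (by norm_num)
      rw [abs_mul]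
      have := hwb x
      norm_num
      linarith
    calc |D x| ≤ _ := abs_add_le _ _
      _ ≤ ε * 4.5 + ε * (2.7182818286 * (1/2)) := add_le_add hA hB
      _ ≤ 6 * ε := by nlinarith
  obtain ⟨σ, hσe, hσm, hσH, hσb, -⟩ := hcoh P hPC hPp hPm
  have hσb' : ∀ x, |σ x| ≤ 3/16 := by
    intro x
    have h1 := hσb (6 * ε) (fun y => by rw [hPderiv2]; exact hDb y) x
    have h2 : C * (6 * ε) = 3/16 := by
      rw [hε]; field_simp; norm_num
    linarith
  obtain ⟨hσc, hσp, -⟩ := hσH
  -- Q
  set c : ℝ := ∫ x in (0:ℝ)..1, (w x) ^ 2 / 2 with hc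
  have hw2c : Continuous fun x => (w x) ^ 2 / 2 := (hwc.pow 2).div_const 2
  have hw2b : ∀ x, (w x) ^ 2 / 2 ≤ 1/32 := by
    intro x
    have h1 := hwb x
    have h2 : (w x) ^ 2 ≤ (1/4) ^ 2 := sq_le_sq' (by linarith [(abs_le.1 h1).1]) (abs_le.1 h1).2
    linarith
  have hc0 : 0 ≤ c := intervalIntegral.integral_nonneg zero_le_one (fun x _ => by positivity)
  have hc1 : c ≤ 1/32 := by
    have h1 : (∫ x in (0:ℝ)..1, (w x) ^ 2 / 2) ≤ ∫ x in (0:ℝ)..1, (1/32 : ℝ) := by
      apply intervalIntegral.integral_mono_on zero_le_one (hw2c.intervalIntegrable _ _) (by simp)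
      intro x _
      exact hw2b x
    have h2 : (∫ x in (0:ℝ)..1, (1/32 : ℝ)) = 1/32 := by simp
    linarith
  obtain ⟨Q, hQd, hQp, hQm, hQb⟩ := fp_step_exists_prim (fun x => (w x) ^ 2 / 2 - c)
    (hw2c.sub continuous_const) (fun x => by
      show (w (x+1)) ^ 2 / 2 - c = (w x) ^ 2 / 2 - c
      rw [hwp]) (by
      rw [intervalIntegral.integral_sub (hw2c.intervalIntegrable _ _) (by simp)]
      simp [hc])
  have hQb' : ∀ x, |Q x| ≤ 1/16 := by
    apply hQb
    intro x
    have h1 := hw2b x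
    have h2 : 0 ≤ (w x) ^ 2 / 2 := by positivity
    rw [abs_le]; constructor <;> linarith
  have hQc : Continuous Q := continuous_iff_continuousAt.2 fun x => (hQd x).continuousAt
  have hw'm : (∫ x in (0:ℝ)..1, (σ x + Q x)) = 0 := by
    rw [intervalIntegral.integral_add (hσc.intervalIntegrable _ _) (hQc.intervalIntegrable _ _),
      hσm, hQm, add_zero]
  have hw'p : ∀ x, σ (x + 1) + Q (x + 1) = σ x + Q x := fun x => by rw [hσp, hQp]
  refine ⟨fun x => σ x + Q x, v, ψ, σ, P, m, c, ?_, ?_⟩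
  · exact
      { v_der := hvd
        v_per := hvp
        v_norm := hvn
        psi_der := hψd
        psi_zero := hψ0
        P_der := hPd
        P_per := hPp
        P_mean := hPm
        s_cont := hσc
        s_per := hσp
        s_mean := hσm
        s_eq := hσe
        w_cont := hσc.add hQc
        w_per := hw'p
        w_mean := hw'm
        w_eq := fun x => by
          have h1 : (fun y => (σ y + Q y) - σ y) = Q := by funext y; ring
          show HasDerivAt (fun y => (σ y + Q y) - σ y) ((w x) ^ 2 / 2 - c) x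
          rw [h1]
          exact hQd x }
  · refine ⟨hσc.add hQc, hw'p, hw'm, fun x => ?_⟩
    calc |σ x + Q x| ≤ |σ x| + |Q x| := abs_add_le _ _
      _ ≤ 3/16 + 1/16 := add_le_add (hσb' x) (hQb' x)
      _ = 1/4 := by norm_num

end Pool.Agent.Helper339.CW
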