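import Mathlib
import Pool.Agent.Helper339.CW.Defs
import Pool.Agent.Helper339.CW.P_cohom
import Pool.Agent.Helper339.CW.P_cohom_unique

set_option autoImplicit false

open scoped ContDiff Manifold
open MeasureTheory Set

namespace Pool.Agent.Helper339.CW


/-! ### TARGET: prove this. Prefix the names of all your auxiliary lemmas with fp_step_lip_ -/

lemma fp_step_lip_zero (f : ℝ → ℝ) (hf : Continuous f) (h : (∫ x in (0:ℝ)..1, f x) = 0) :
    ∃ x0, f x0 = 0 := by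
  by_contra hcon
  push Not at hcon
  rcases lt_or_gt_of_ne (hcon 0) with h0 | h0
  · have hneg : ∀ x, f x < 0 := by
      intro x
      by_contra hx
      push Not at hx
      obtain ⟨y, hy⟩ := mem_range_of_exists_le_of_exists_ge hf ⟨0, h0.le⟩ ⟨x, hx⟩
      exact hcon y hy
    have h1 : 0 < ∫ x in (0:ℝ)..1, -f x :=
      intervalIntegral.intervalIntegral_pos_of_pos (hf.neg.intervalIntegrable 0 1)
        (fun x => by linarith [hneg x]) zero_lt_one
    rw [intervalIntegral.integral_neg, h] at h1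
    simp at h1
  · have hpos : ∀ x, 0 < f x := by
      intro x
      by_contra hx
      push Not at hx
      obtain ⟨y, hy⟩ := mem_range_of_exists_le_of_exists_ge hf ⟨x, hx⟩ ⟨0, h0.le⟩
      exact hcon y hy
    have h1 : 0 < ∫ x in (0:ℝ)..1, f x :=
      intervalIntegral.intervalIntegral_pos_of_pos (hf.intervalIntegrable 0 1) hpos zero_lt_one
    rw [h] at h1
    exact lt_irrefl _ h1

lemma fp_step_lip_isub (f g : ℝ → ℝ) (hf : Continuous f) (hg : Continuous g) :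
    (∫ x in (0:ℝ)..1, (f x - g x)) = (∫ x in (0:ℝ)..1, f x) - ∫ x in (0:ℝ)..1, g x :=
  intervalIntegral.integral_sub (hf.intervalIntegrable 0 1) (hg.intervalIntegrable 0 1)

lemma fp_step_lip_mv (f f' : ℝ → ℝ) (K : ℝ) (hd : ∀ x, HasDerivAt f (f' x) x)
    (hK : ∀ x, |f' x| ≤ K) (x y : ℝ) : |f y - f x| ≤ K * |y - x| := by
  have := Convex.norm_image_sub_le_of_norm_hasDerivWithin_le (s := univ) (f := f) (f' := f')
    (C := K) (x := x) (y := y) (fun z _ => (hd z).hasDerivWithinAt)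
    (fun z _ => by simpa using hK z) convex_univ (mem_univ _) (mem_univ _)
  simpa [Real.norm_eq_abs] using this

lemma fp_step_lip_bd (f f' : ℝ → ℝ) (K : ℝ) (hd : ∀ x, HasDerivAt f (f' x) x)
    (hK : ∀ x, |f' x| ≤ K) (hp : ∀ x, f (x + 1) = f x) (x0 : ℝ) (h0 : f x0 = 0) (x : ℝ) :
    |f x| ≤ K := by
  have hper : Function.Periodic f 1 := hp
  have hK0 : 0 ≤ K := (abs_nonneg _).trans (hK 0)
  have h1 : f (x0 + Int.fract (x - x0)) = f x := by
    have : x0 + Int.fract (x - x0) = x - (⌊x - x0⌋ : ℤ) • (1:ℝ) := by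
      rw [zsmul_eq_mul, mul_one]
      unfold Int.fract
      ring
    rw [this]
    exact hper.sub_zsmul_eq _
  have h2 := fp_step_lip_mv f f' K hd hK x0 (x0 + Int.fract (x - x0))
  rw [h1, h0, sub_zero, add_sub_cancel_left, abs_of_nonneg (Int.fract_nonneg (x - x0))] at h2
  have := (Int.fract_lt_one (x - x0)).le
  nlinarith [Int.fract_nonneg (x - x0)]

lemma fp_step_lip_exp3 {a : ℝ} (ha : a ≤ 1) : Real.exp a ≤ 3 := by
  have h1 := Real.exp_le_exp.2 ha
  have h2 := Real.exp_one_lt_d9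
  linarith

lemma fp_step_lip_expLip {a b : ℝ} (ha : |a| ≤ 1) (hb : |b| ≤ 1) :
    |Real.exp a - Real.exp b| ≤ 3 * |a - b| := by
  have := Convex.norm_image_sub_le_of_norm_hasDerivWithin_le (s := Icc (-1:ℝ) 1) (f := Real.exp)
    (f' := Real.exp) (C := 3) (x := b) (y := a)
    (fun z _ => (Real.hasDerivAt_exp z).hasDerivWithinAt)
    (fun z hz => by
      rw [Real.norm_eq_abs, abs_of_pos (Real.exp_pos _)]
      exact fp_step_lip_exp3 hz.2) (convex_Icc _ _) (abs_le.1 hb) (abs_le.1 ha)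
  simpa [Real.norm_eq_abs] using this

lemma fp_step_lip_v (w v : ℝ → ℝ) (hw : ∀ x, |w x| ≤ 1 / 4) (hd : ∀ x, HasDerivAt v (w x) x)
    (hp : ∀ x, v (x + 1) = v x) (hn : (∫ x in (0:ℝ)..1, Real.exp (v x)) = 1) :
    ∀ x, |v x| ≤ 1 / 4 := by
  have hc : Continuous v := continuous_iff_continuousAt.2 fun x => (hd x).continuousAt
  have hce : Continuous fun x => Real.exp (v x) := Real.continuous_exp.comp hc
  obtain ⟨x0, hx0⟩ := fp_step_lip_zero (fun x => Real.exp (v x) - 1) (hce.sub continuous_const) (by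
    rw [intervalIntegral.integral_sub (hce.intervalIntegrable 0 1)
      (continuous_const.intervalIntegrable 0 1), hn]
    simp)
  have hv0 : v x0 = 0 := by
    have : Real.exp (v x0) = 1 := by simpa [sub_eq_zero] using hx0
    exact Real.exp_eq_one_iff _ |>.1 this
  exact fp_step_lip_bd v w _ hd hw hp x0 hv0

lemma fp_step_lip_psi (v ψ : ℝ → ℝ) (hc : Continuous v) (hp : ∀ x, v (x + 1) = v x)
    (hn : (∫ x in (0:ℝ)..1, Real.exp (v x)) = 1)
    (hd : ∀ x, HasDerivAt ψ (Real.exp (v x)) x) : ∀ x, ψ (x + 1) = ψ x + 1 := by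
  intro x
  have h1 : ∀ y, HasDerivAt (fun y => ψ (y + 1) - ψ y) ((fun _ => (0:ℝ)) y) y := by
    intro y
    have h2 := (hd (y + 1)).comp_add_const y 1
    have h3 := h2.sub (hd y)
    rw [hp y, sub_self] at h3
    exact h3
  have h4 := fp_step_lip_mv _ _ 0 h1 (fun y => by simp) 0 x
  have hce : Continuous fun x => Real.exp (v x) := Real.continuous_exp.comp hc
  have h5 : (∫ y in (0:ℝ)..1, Real.exp (v y)) = ψ 1 - ψ 0 :=
    intervalIntegral.integral_eq_sub_of_hasDerivAt (fun y _ => hd y) (hce.intervalIntegrable 0 1)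
  rw [hn] at h5
  simp only [zero_mul] at h4
  have h6 := abs_eq_zero.1 (le_antisymm h4 (abs_nonneg _))
  rw [zero_add] at h6
  linarith

lemma fp_step_lip_alg {ε d : ℝ} (hε : 0 ≤ ε) (hd : 0 ≤ d)
    {A1 A2 B1 B2 E1 E2 F1 F2 W1 W2 : ℝ}
    (hA : |A1 - A2| ≤ ε * (3 * d)) (hA2 : |A2| ≤ ε) (hB : |B1 - B2| ≤ ε * (3 * d)) (hB2 : |B2| ≤ ε)
    (hE : |E1 - E2| ≤ 3 * (3 * d)) (hE1 : |E1| ≤ 3) (hF : |F1 - F2| ≤ 3 * (2 * d))
    (hF1 : |F1| ≤ 3) (hF2 : |F2| ≤ 3) (hW : |W1 - W2| ≤ d) (hW1 : |W1| ≤ 1 / 4) :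
    |(A1 * E1 + 2 * B1 * F1 * W1) - (A2 * E2 + 2 * B2 * F2 * W2)| ≤ 100 * ε * d := by
  have hεd : 0 ≤ ε * d := mul_nonneg hε hd
  have e1 : (A1 * E1 + 2 * B1 * F1 * W1) - (A2 * E2 + 2 * B2 * F2 * W2) =
      (A1 - A2) * E1 + A2 * (E1 - E2) + 2 * ((B1 - B2) * F1 * W1) + 2 * (B2 * (F1 - F2) * W1) +
        2 * (B2 * F2 * (W1 - W2)) := by ring
  have t1 : |(A1 - A2) * E1| ≤ ε * (3 * d) * 3 := by
    rw [abs_mul]; exact mul_le_mul hA hE1 (abs_nonneg _) (by positivity)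
  have t2 : |A2 * (E1 - E2)| ≤ ε * (3 * (3 * d)) := by
    rw [abs_mul]; exact mul_le_mul hA2 hE (abs_nonneg _) hε
  have t3 : |(B1 - B2) * F1 * W1| ≤ ε * (3 * d) * 3 * (1 / 4) := by
    rw [abs_mul, abs_mul]
    exact mul_le_mul (mul_le_mul hB hF1 (abs_nonneg _) (by positivity)) hW1 (abs_nonneg _)
      (by positivity)
  have t4 : |B2 * (F1 - F2) * W1| ≤ ε * (3 * (2 * d)) * (1 / 4) := by
    rw [abs_mul, abs_mul]
    exact mul_le_mul (mul_le_mul hB2 hF (abs_nonneg _) hε) hW1 (abs_nonneg _) (by positivity)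
  have t5 : |B2 * F2 * (W1 - W2)| ≤ ε * 3 * d := by
    rw [abs_mul, abs_mul]
    exact mul_le_mul (mul_le_mul hB2 hF2 (abs_nonneg _) hε) hW (abs_nonneg _) (by positivity)
  rw [e1]
  rw [abs_le] at *
  constructor <;> nlinarith

/-- The iteration step is a contraction. -/
theorem fp_step_lip : ∃ ε : ℝ, 0 < ε ∧ ∀ S : ℝ → ℝ, SmallS ε S →
    ∀ (w₁ w₁' v₁ ψ₁ σ₁ P₁ : ℝ → ℝ) (m₁ c₁ : ℝ) (w₂ w₂' v₂ ψ₂ σ₂ P₂ : ℝ → ℝ) (m₂ c₂ : ℝ),
      InX w₁ → InX w₂ → Stp S w₁ w₁' v₁ ψ₁ σ₁ P₁ m₁ c₁ → Stp S w₂ w₂' v₂ ψ₂ σ₂ P₂ m₂ c₂ →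
      ∀ d : ℝ, (∀ x, |w₁ x - w₂ x| ≤ d) → ∀ x, |w₁' x - w₂' x| ≤ (3 / 4) * d := by
  obtain ⟨C, hC, hcoh⟩ := cohom
  refine ⟨1 / (400 * C), by positivity, ?_⟩
  intro S hS w₁ w₁' v₁ ψ₁ σ₁ P₁ m₁ c₁ w₂ w₂' v₂ ψ₂ σ₂ P₂ m₂ c₂ hX1 hX2 h1 h2 d hd
  set ε : ℝ := 1 / (400 * C) with hεdef
  have hε : 0 < ε := by positivity
  have hd0 : 0 ≤ d := (abs_nonneg _).trans (hd 0)
  obtain ⟨hw1c, hw1p, hw1m, hw1b⟩ := hX1
  obtain ⟨hw2c, hw2p, hw2m, hw2b⟩ := hX2
  obtain ⟨hSs, hSp, hS0, hS1, hS2⟩ := hS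
  have hv1c : Continuous v₁ := continuous_iff_continuousAt.2 fun x => (h1.v_der x).continuousAt
  have hv2c : Continuous v₂ := continuous_iff_continuousAt.2 fun x => (h2.v_der x).continuousAt
  have hψ1c : Continuous ψ₁ := continuous_iff_continuousAt.2 fun x => (h1.psi_der x).continuousAt
  have hψ2c : Continuous ψ₂ := continuous_iff_continuousAt.2 fun x => (h2.psi_der x).continuousAt
  have hP1c : Continuous P₁ := continuous_iff_continuousAt.2 fun x => (h1.P_der x).continuousAt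
  have hP2c : Continuous P₂ := continuous_iff_continuousAt.2 fun x => (h2.P_der x).continuousAt
  have hv1b := fp_step_lip_v w₁ v₁ hw1b h1.v_der h1.v_per h1.v_norm
  have hv2b := fp_step_lip_v w₂ v₂ hw2b h2.v_der h2.v_per h2.v_norm
  have hψ1p := fp_step_lip_psi v₁ ψ₁ hv1c h1.v_per h1.v_norm h1.psi_der
  have hψ2p := fp_step_lip_psi v₂ ψ₂ hv2c h2.v_per h2.v_norm h2.psi_der
  have hev1 : Continuous fun x => Real.exp (v₁ x) := Real.continuous_exp.comp hv1c
  have hev2 : Continuous fun x => Real.exp (v₂ x) := Real.continuous_exp.comp hv2c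
  -- v₁ - v₂
  have hvd : ∀ x, |v₁ x - v₂ x| ≤ d := by
    obtain ⟨x0, hx0⟩ := fp_step_lip_zero (fun x => Real.exp (v₁ x) - Real.exp (v₂ x))
      (hev1.sub hev2) (by
        rw [intervalIntegral.integral_sub (hev1.intervalIntegrable 0 1)
          (hev2.intervalIntegrable 0 1), h1.v_norm, h2.v_norm, sub_self])
    have hv0 : v₁ x0 - v₂ x0 = 0 := by
      have : Real.exp (v₁ x0) = Real.exp (v₂ x0) := by simpa [sub_eq_zero] using hx0
      rw [Real.exp_injective this, sub_self]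
    exact fp_step_lip_bd (fun x => v₁ x - v₂ x) (fun x => w₁ x - w₂ x) d
      (fun x => (h1.v_der x).sub (h2.v_der x)) hd
      (fun x => by simp only [h1.v_per x, h2.v_per x]) x0 hv0
  -- exponentials
  have habs : ∀ (k : ℝ), 0 ≤ k → k ≤ 3 → ∀ a b : ℝ, |a| ≤ 1 / 4 → |b| ≤ 1 / 4 → |a - b| ≤ d →
      |Real.exp (k * a) - Real.exp (k * b)| ≤ 3 * (k * d) := by
    intro k hk0 hk3 a b ha hb hab
    have hka : |k * a| ≤ 1 := by
      rw [abs_mul, abs_of_nonneg hk0]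
      nlinarith [abs_nonneg a]
    have hkb : |k * b| ≤ 1 := by
      rw [abs_mul, abs_of_nonneg hk0]
      nlinarith [abs_nonneg b]
    have := fp_step_lip_expLip hka hkb
    rw [← mul_sub, abs_mul, abs_of_nonneg hk0] at this
    have h3 : k * |a - b| ≤ k * d := mul_le_mul_of_nonneg_left hab hk0
    linarith
  have hexpb : ∀ (k : ℝ), 0 ≤ k → k ≤ 3 → ∀ a : ℝ, |a| ≤ 1 / 4 → |Real.exp (k * a)| ≤ 3 := by
    intro k hk0 hk3 a ha
    rw [abs_of_pos (Real.exp_pos _)]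
    refine fp_step_lip_exp3 ?_
    have := le_abs_self a
    nlinarith [abs_nonneg a]
  -- ψ₁ - ψ₂
  have hψd : ∀ x, |ψ₁ x - ψ₂ x| ≤ 3 * d := by
    refine fp_step_lip_bd (fun x => ψ₁ x - ψ₂ x) (fun x => Real.exp (v₁ x) - Real.exp (v₂ x)) (3 * d)
      (fun x => (h1.psi_der x).sub (h2.psi_der x)) ?_ ?_ 0 ?_
    · intro x
      have := habs 1 zero_le_one (by norm_num) (v₁ x) (v₂ x) (hv1b x) (hv2b x) (hvd x)
      simpa using this
    · intro x
      simp only [hψ1p x, hψ2p x]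
      ring
    · simp only [h1.psi_zero, h2.psi_zero, sub_self]
  -- S
  have hSd : Differentiable ℝ S := hSs.differentiable (by simp)
  have hS' : ContDiff ℝ ∞ (deriv S) := by
    have h3 : ContDiff ℝ (∞ + 1) S := hSs
    exact (contDiff_succ_iff_deriv.1 h3).2.2
  have hS'd : Differentiable ℝ (deriv S) := hS'.differentiable (by simp)
  have hSL : ∀ a b, |S a - S b| ≤ ε * |a - b| := fun a b =>
    fp_step_lip_mv S (deriv S) ε (fun x => (hSd x).hasDerivAt) hS1 b a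
  have hS'L : ∀ a b, |deriv S a - deriv S b| ≤ ε * |a - b| := fun a b =>
    fp_step_lip_mv (deriv S) (deriv (deriv S)) ε (fun x => (hS'd x).hasDerivAt) hS2 b a
  -- ρ
  let ρ' : (ℝ → ℝ) → (ℝ → ℝ) → (ℝ → ℝ) → ℝ → ℝ := fun w v ψ x =>
    deriv S (ψ x) * Real.exp (3 * v x) + 2 * S (ψ x) * Real.exp (2 * v x) * w x
  have hρ : ∀ w v ψ : ℝ → ℝ, (∀ x, HasDerivAt v (w x) x) →
      (∀ x, HasDerivAt ψ (Real.exp (v x)) x) → ∀ m x,
      HasDerivAt (fun x => S (ψ x) * Real.exp (2 * v x) - m) (ρ' w v ψ x) x := by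
    intro w v ψ hv hψ m x
    have e1 : HasDerivAt (fun x => S (ψ x)) (deriv S (ψ x) * Real.exp (v x)) x :=
      ((hSd (ψ x)).hasDerivAt).comp x (hψ x)
    have e2 : HasDerivAt (fun x => Real.exp (2 * v x)) (Real.exp (2 * v x) * (2 * w x)) x :=
      ((hv x).const_mul 2).exp
    have e3 := (e1.mul e2).sub_const m
    have hval : deriv S (ψ x) * Real.exp (v x) * Real.exp (2 * v x) +
        S (ψ x) * (Real.exp (2 * v x) * (2 * w x)) = ρ' w v ψ x := by
      have : Real.exp (3 * v x) = Real.exp (v x) * Real.exp (2 * v x) := by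
        rw [← Real.exp_add]; congr 1; ring
      change _ = deriv S (ψ x) * Real.exp (3 * v x) + 2 * S (ψ x) * Real.exp (2 * v x) * w x
      rw [this]
      ring
    exact e3.congr_deriv hval
  have hρc : ∀ w v ψ : ℝ → ℝ, Continuous w → Continuous v → Continuous ψ →
      Continuous (ρ' w v ψ) := by
    intro w v ψ hw hv hψ
    have c1 : Continuous fun x => deriv S (ψ x) := hS'.continuous.comp hψ
    have c2 : Continuous fun x => S (ψ x) := hSs.continuous.comp hψ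
    exact (c1.mul (Real.continuous_exp.comp (continuous_const.mul hv))).add
      (((continuous_const.mul c2).mul (Real.continuous_exp.comp (continuous_const.mul hv))).mul hw)
  have hρb : ∀ x, |ρ' w₁ v₁ ψ₁ x - ρ' w₂ v₂ ψ₂ x| ≤ 100 * ε * d := by
    intro x
    refine fp_step_lip_alg hε.le hd0 ?_ (hS1 _) ?_ (hS0 _) ?_ ?_ ?_ ?_ ?_ (hd x) (hw1b x)
    · exact (hS'L _ _).trans (mul_le_mul_of_nonneg_left (hψd x) hε.le)
    · exact (hSL _ _).trans (mul_le_mul_of_nonneg_left (hψd x) hε.le)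
    · exact habs 3 (by norm_num) le_rfl _ _ (hv1b x) (hv2b x) (hvd x)
    · exact hexpb 3 (by norm_num) le_rfl _ (hv1b x)
    · exact habs 2 (by norm_num) (by norm_num) _ _ (hv1b x) (hv2b x) (hvd x)
    · exact hexpb 2 (by norm_num) (by norm_num) _ (hv1b x)
    · exact hexpb 2 (by norm_num) (by norm_num) _ (hv2b x)
  -- p
  let p : ℝ → ℝ := fun x => P₁ x - P₂ x
  have hp1 : deriv p = fun x => (S (ψ₁ x) * Real.exp (2 * v₁ x) - m₁) -
      (S (ψ₂ x) * Real.exp (2 * v₂ x) - m₂) := by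
    funext x
    exact ((h1.P_der x).sub (h2.P_der x)).deriv
  have hp1' : ∀ x, HasDerivAt (deriv p) (ρ' w₁ v₁ ψ₁ x - ρ' w₂ v₂ ψ₂ x) x := by
    intro x
    rw [hp1]
    exact (hρ w₁ v₁ ψ₁ h1.v_der h1.psi_der m₁ x).sub (hρ w₂ v₂ ψ₂ h2.v_der h2.psi_der m₂ x)
  have hp2 : deriv (deriv p) = fun x => ρ' w₁ v₁ ψ₁ x - ρ' w₂ v₂ ψ₂ x := by
    funext x
    exact (hp1' x).deriv
  have hpC : ContDiff ℝ 2 p := by
    have h3 : ContDiff ℝ (1 + 1) p := by
      rw [contDiff_succ_iff_deriv]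
      refine ⟨fun x => ((h1.P_der x).sub (h2.P_der x)).differentiableAt, by simp, ?_⟩
      rw [contDiff_one_iff_deriv]
      refine ⟨fun x => (hp1' x).differentiableAt, ?_⟩
      rw [hp2]
      exact (hρc _ _ _ hw1c hv1c hψ1c).sub (hρc _ _ _ hw2c hv2c hψ2c)
    have h4 : ((1 : WithTop ℕ∞) + 1) = 2 := by norm_num
    rwa [h4] at h3
  obtain ⟨s, hs1, hs2, hs3, hs4, -⟩ := hcoh p hpC
    (fun x => by simp only [p, h1.P_per x, h2.P_per x]) (by
      simp only [p]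
      rw [intervalIntegral.integral_sub (hP1c.intervalIntegrable 0 1)
        (hP2c.intervalIntegrable 0 1), h1.P_mean, h2.P_mean, sub_self])
  have hsb : ∀ x, |s x| ≤ C * (100 * ε * d) := hs4 _ (by rw [hp2]; exact hρb)
  obtain ⟨hsc, hsp, -⟩ := hs3
  -- s = σ₁ - σ₂
  have hsσ : ∀ x, σ₁ x - σ₂ x = s x := by
    let τ : ℝ → ℝ := fun x => (σ₁ x - σ₂ x) - s x
    have hτc : Continuous τ := (h1.s_cont.sub h2.s_cont).sub hsc
    have hτ := cohom_unique τ hτc
      (fun x => by simp only [τ, h1.s_per x, h2.s_per x, hsp x]) (by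
        intro x
        simp only [τ]
        have a1 := h1.s_eq x
        have a2 := h2.s_eq x
        have a3 := hs1 x
        simp only [p] at a3
        linarith)
    have hint : (∫ x in (0:ℝ)..1, τ x) = 0 := by
      simp only [τ]
      rw [fp_step_lip_isub (fun x => σ₁ x - σ₂ x) s (h1.s_cont.sub h2.s_cont) hsc,
        fp_step_lip_isub σ₁ σ₂ h1.s_cont h2.s_cont, h1.s_mean, h2.s_mean, hs2]
      ring
    have hint2 : (∫ x in (0:ℝ)..1, τ x) = τ 0 := by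
      have : (∫ x in (0:ℝ)..1, τ x) = ∫ x in (0:ℝ)..1, τ 0 :=
        intervalIntegral.integral_congr fun x _ => hτ x
      rw [this]
      simp
    intro x
    have h3 := hτ x
    rw [← hint2, hint] at h3
    simp only [τ] at h3
    linarith
  -- h
  let H : ℝ → ℝ := fun x => (w₁' x - σ₁ x) - (w₂' x - σ₂ x)
  let H' : ℝ → ℝ := fun x => ((w₁ x) ^ 2 / 2 - c₁) - ((w₂ x) ^ 2 / 2 - c₂)
  have hHd : ∀ x, HasDerivAt H (H' x) x := fun x => (h1.w_eq x).sub (h2.w_eq x)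
  have hHp : ∀ x, H (x + 1) = H x := fun x => by
    simp only [H, h1.w_per x, h2.w_per x, h1.s_per x, h2.s_per x]
  have hHc : Continuous H := (h1.w_cont.sub h1.s_cont).sub (h2.w_cont.sub h2.s_cont)
  have hsqb : ∀ x, |(w₁ x) ^ 2 / 2 - (w₂ x) ^ 2 / 2| ≤ d / 4 := by
    intro x
    have e1 : (w₁ x) ^ 2 / 2 - (w₂ x) ^ 2 / 2 = (w₁ x - w₂ x) * ((w₁ x + w₂ x) / 2) := by ring
    rw [e1, abs_mul]
    have e2 : |(w₁ x + w₂ x) / 2| ≤ 1 / 4 := by
      have := abs_le.1 (hw1b x)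
      have := abs_le.1 (hw2b x)
      rw [abs_le]
      constructor <;> linarith
    calc |w₁ x - w₂ x| * |(w₁ x + w₂ x) / 2| ≤ d * (1 / 4) :=
          mul_le_mul (hd x) e2 (abs_nonneg _) hd0
      _ = d / 4 := by ring
  have hw1c2 : Continuous fun x => (w₁ x) ^ 2 / 2 := by fun_prop
  have hw2c2 : Continuous fun x => (w₂ x) ^ 2 / 2 := by fun_prop
  have hH'c : Continuous H' := (hw1c2.sub continuous_const).sub (hw2c2.sub continuous_const)
  have hc12 : |c₁ - c₂| ≤ d / 4 := by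
    have e1 : (∫ x in (0:ℝ)..1, H' x) = H 1 - H 0 :=
      intervalIntegral.integral_eq_sub_of_hasDerivAt (fun y _ => hHd y)
        (hH'c.intervalIntegrable 0 1)
    have e2 : H 1 - H 0 = 0 := by
      have := hHp 0
      rw [zero_add] at this
      rw [this, sub_self]
    have e3 : (∫ x in (0:ℝ)..1, H' x) =
        (∫ x in (0:ℝ)..1, ((w₁ x) ^ 2 / 2 - (w₂ x) ^ 2 / 2)) - (c₁ - c₂) := by
      have : (∫ x in (0:ℝ)..1, H' x) =
          ∫ x in (0:ℝ)..1, (((w₁ x) ^ 2 / 2 - (w₂ x) ^ 2 / 2) - (c₁ - c₂)) :=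
        intervalIntegral.integral_congr fun x _ => by simp only [H']; ring
      rw [this, fp_step_lip_isub (fun x => (w₁ x) ^ 2 / 2 - (w₂ x) ^ 2 / 2) (fun _ => c₁ - c₂)
        (hw1c2.sub hw2c2) continuous_const]
      simp
    have e4 : c₁ - c₂ = ∫ x in (0:ℝ)..1, ((w₁ x) ^ 2 / 2 - (w₂ x) ^ 2 / 2) := by linarith
    rw [e4]
    have e5 := intervalIntegral.norm_integral_le_of_norm_le_const (a := (0:ℝ)) (b := 1)
      (f := fun x => (w₁ x) ^ 2 / 2 - (w₂ x) ^ 2 / 2) (C := d / 4)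
      (fun x _ => by rw [Real.norm_eq_abs]; exact hsqb x)
    simpa [Real.norm_eq_abs] using e5
  have hH'b : ∀ x, |H' x| ≤ d / 2 := by
    intro x
    have e1 : H' x = ((w₁ x) ^ 2 / 2 - (w₂ x) ^ 2 / 2) - (c₁ - c₂) := by simp only [H']; ring
    rw [e1]
    have := abs_le.1 (hsqb x)
    have := abs_le.1 hc12
    rw [abs_le]
    constructor <;> linarith
  obtain ⟨x0, hx0⟩ := fp_step_lip_zero H hHc (by
    simp only [H]
    rw [fp_step_lip_isub (fun x => w₁' x - σ₁ x) (fun x => w₂' x - σ₂ x)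
      (h1.w_cont.sub h1.s_cont) (h2.w_cont.sub h2.s_cont),
      fp_step_lip_isub w₁' σ₁ h1.w_cont h1.s_cont,
      fp_step_lip_isub w₂' σ₂ h2.w_cont h2.s_cont, h1.w_mean, h2.w_mean, h1.s_mean, h2.s_mean]
    ring)
  have hHb := fp_step_lip_bd H H' (d / 2) hHd hH'b hHp x0 hx0
  intro x
  have e1 : w₁' x - w₂' x = H x + s x := by
    simp only [H]
    rw [← hsσ x]
    ring
  have e2 : C * (100 * ε * d) = d / 4 := by
    rw [hεdef]
    field_simp
    ring
  have e3 := abs_le.1 (hHb x)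
  have e4 := hsb x
  rw [e2] at e4
  have e5 := abs_le.1 e4
  rw [e1, abs_le]
  constructor <;> linarith

end Pool.Agent.Helper339.CW
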