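import Mathlib
import Pool.Agent.Helper339.CW.Defs
import Pool.Agent.Helper339.CW.P_fp_step_exists
import Pool.Agent.Helper339.CW.P_fp_step_lip

set_option autoImplicit false

open scoped ContDiff Manifold
open MeasureTheory Set

namespace Pool.Agent.Helper339.CW


/-! ### TARGET: prove this. Prefix the names of all your auxiliary lemmas with exists_fp_ -/

theorem exists_fp_SmallS_mono {ε ε' : ℝ} {S : ℝ → ℝ} (h : SmallS ε S) (hε : ε ≤ ε') :
    SmallS ε' S :=
  ⟨h.1, h.2.1, fun x => (h.2.2.1 x).trans hε, fun x => (h.2.2.2.1 x).trans hε,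
    fun x => (h.2.2.2.2 x).trans hε⟩

theorem exists_fp_psi_per {v ψ w : ℝ → ℝ} (hv : ∀ x, HasDerivAt v (w x) x)
    (hvp : ∀ x, v (x + 1) = v x) (hψ : ∀ x, HasDerivAt ψ (Real.exp (v x)) x)
    (hn : (∫ x in (0:ℝ)..1, Real.exp (v x)) = 1) (x : ℝ) : ψ (x + 1) = ψ x + 1 := by
  have hvc : Continuous v := continuous_iff_continuousAt.2 fun x => (hv x).continuousAt
  have h1 : ψ 1 - ψ 0 = 1 := by
    have h2 : (∫ x in (0:ℝ)..1, Real.exp (v x)) = ψ 1 - ψ 0 := by
      apply intervalIntegral.integral_eq_sub_of_hasDerivAt (fun x _ => hψ x)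
      exact (Real.continuous_exp.comp hvc).intervalIntegrable _ _
    rw [← h2, hn]
  have hd : ∀ y, HasDerivAt (fun y => ψ (y + 1) - ψ y) 0 y := by
    intro y
    have h2 : HasDerivAt (fun y => ψ (y + 1)) (Real.exp (v (y + 1))) y :=
      (hψ (y + 1)).comp_add_const y 1
    have h3 := h2.sub (hψ y)
    rw [hvp y, sub_self] at h3
    exact h3
  have hc := is_const_of_deriv_eq_zero (f := fun y => ψ (y + 1) - ψ y)
    (fun y => (hd y).differentiableAt) (fun y => (hd y).deriv) x 0
  simp only [zero_add] at hc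
  linarith

/-- Existence of the fixed point of the Schwarzian conjugation equation. -/
theorem exists_fp : ∃ ε : ℝ, 0 < ε ∧ ∀ S : ℝ → ℝ, ContDiff ℝ ∞ S → (∀ x, S (x + 1) = S x) →
    (∀ x, |S x| ≤ ε) → (∀ x, |deriv S x| ≤ ε) → (∀ x, |deriv (deriv S) x| ≤ ε) →
    ∃ (w v ψ σ P : ℝ → ℝ) (m c : ℝ), FP S w v ψ σ P m c := by
  obtain ⟨ε1, h1, hex⟩ := fp_step_exists
  obtain ⟨ε2, h2, hlip⟩ := fp_step_lip
  refine ⟨min ε1 ε2, lt_min h1 h2, ?_⟩
  intro S hS hSp hS0 hS1 hS2
  have hsm : SmallS (min ε1 ε2) S := ⟨hS, hSp, hS0, hS1, hS2⟩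
  have hs1 : SmallS ε1 S := exists_fp_SmallS_mono hsm (min_le_left _ _)
  have hs2 : SmallS ε2 S := exists_fp_SmallS_mono hsm (min_le_right _ _)
  have step : ∀ w : {w : ℝ → ℝ // InX w}, ∃ w' : {w : ℝ → ℝ // InX w},
      ∃ (v ψ σ P : ℝ → ℝ) (m c : ℝ), Stp S w.1 w'.1 v ψ σ P m c := by
    intro w
    obtain ⟨w', v, ψ, σ, P, m, c, h, h'⟩ := hex S hs1 w.1 w.2
    exact ⟨⟨w', h'⟩, v, ψ, σ, P, m, c, h⟩
  choose F hF using step
  have h0 : InX (fun _ => (0 : ℝ)) := ⟨continuous_const, fun _ => rfl, by simp, by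
    intro x; rw [abs_zero]; norm_num⟩
  let u : ℕ → {w : ℝ → ℝ // InX w} := fun n => F^[n] ⟨_, h0⟩
  have hu : ∀ n, u (n + 1) = F (u n) := fun n => Function.iterate_succ_apply' F n _
  -- Lipschitz estimate for F
  have hL : ∀ (a b : {w : ℝ → ℝ // InX w}) (d : ℝ), (∀ x, |a.1 x - b.1 x| ≤ d) →
      ∀ x, |(F a).1 x - (F b).1 x| ≤ (3 / 4) * d := by
    intro a b d hd x
    obtain ⟨v1, ψ1, σ1, P1, m1, c1, g1⟩ := hF a
    obtain ⟨v2, ψ2, σ2, P2, m2, c2, g2⟩ := hF b
    exact hlip S hs2 a.1 (F a).1 v1 ψ1 σ1 P1 m1 c1 b.1 (F b).1 v2 ψ2 σ2 P2 m2 c2 a.2 b.2 g1 g2 d hd x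
  have hgeo : ∀ n, ∀ x, |(u n).1 x - (u (n + 1)).1 x| ≤ (1 / 2) * (3 / 4) ^ n := by
    intro n
    induction n with
    | zero =>
      intro x
      have a1 := (u 0).2.2.2.2 x
      have a2 := (u 1).2.2.2.2 x
      have := abs_sub ((u 0).1 x) ((u 1).1 x)
      simp only [zero_add, pow_zero, mul_one]
      linarith
    | succ n ih =>
      intro x
      have := hL (u n) (u (n + 1)) _ ih x
      rw [← hu, ← hu] at this
      refine this.trans (le_of_eq ?_)
      rw [pow_succ]; ring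
  have hcau : ∀ x, CauchySeq (fun n => (u n).1 x) := by
    intro x
    refine cauchySeq_of_le_geometric (3 / 4) (1 / 2) (by norm_num) ?_
    intro n
    rw [Real.dist_eq]
    exact hgeo n x
  choose W hW using fun x => cauchySeq_tendsto_of_complete (hcau x)
  have hunif : ∀ n x, |(u n).1 x - W x| ≤ 2 * (3 / 4) ^ n := by
    intro n x
    have := dist_le_of_le_geometric_of_tendsto (3 / 4) (1 / 2) (by norm_num)
      (fun n => by rw [Real.dist_eq]; exact hgeo n x) (hW x) n
    rw [Real.dist_eq] at this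
    refine this.trans (le_of_eq ?_)
    ring
  have hpow : Filter.Tendsto (fun n : ℕ => 2 * (3 / 4 : ℝ) ^ n) Filter.atTop (nhds 0) := by
    have := (tendsto_pow_atTop_nhds_zero_of_lt_one (r := (3 / 4 : ℝ)) (by norm_num)
      (by norm_num)).const_mul 2
    simpa using this
  have hWc : Continuous W := by
    have ht : TendstoUniformly (fun n x => (u n).1 x) W Filter.atTop := by
      rw [Metric.tendstoUniformly_iff]
      intro e he
      filter_upwards [hpow.eventually (gt_mem_nhds he)] with n hn x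
      rw [dist_comm, Real.dist_eq]
      exact (hunif n x).trans_lt hn
    exact ht.continuous (Filter.Frequently.of_forall fun n => (u n).2.1)
  have hWp : ∀ x, W (x + 1) = W x := by
    intro x
    refine tendsto_nhds_unique (hW (x + 1)) ?_
    have e : (fun n => (u n).1 (x + 1)) = fun n => (u n).1 x := by
      funext n; exact (u n).2.2.1 x
    rw [e]; exact hW x
  have hWb : ∀ x, |W x| ≤ 1 / 4 := by
    intro x
    exact le_of_tendsto (hW x).abs (Filter.Eventually.of_forall fun n => (u n).2.2.2.2 x)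
  have hWi : (∫ x in (0:ℝ)..1, W x) = 0 := by
    have hb : ∀ n : ℕ, |∫ x in (0:ℝ)..1, W x| ≤ 2 * (3 / 4) ^ n := by
      intro n
      have e : (∫ x in (0:ℝ)..1, W x) = ∫ x in (0:ℝ)..1, (W x - (u n).1 x) := by
        rw [intervalIntegral.integral_sub (hWc.intervalIntegrable _ _)
          ((u n).2.1.intervalIntegrable _ _), (u n).2.2.2.1, sub_zero]
      rw [e]
      have := intervalIntegral.norm_integral_le_of_norm_le_const (a := (0:ℝ)) (b := 1)
        (f := fun x => W x - (u n).1 x) (C := 2 * (3 / 4) ^ n) (by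
          intro x _
          rw [Real.norm_eq_abs, abs_sub_comm]
          exact hunif n x)
      simpa using this
    have := ge_of_tendsto' hpow hb
    exact abs_eq_zero.1 (le_antisymm this (abs_nonneg _))
  have hWX : InX W := ⟨hWc, hWp, hWi, hWb⟩
  obtain ⟨v, ψ, σ, P, m, c, hst⟩ := hF ⟨W, hWX⟩
  have hfix : (F ⟨W, hWX⟩).1 = W := by
    funext x
    have hb : ∀ n : ℕ, |W x - (F ⟨W, hWX⟩).1 x| ≤ 2 * (2 * (3 / 4) ^ n) := by
      intro n
      have a1 := hL (u n) ⟨W, hWX⟩ _ (hunif n) x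
      rw [← hu] at a1
      have a2 := hunif (n + 1) x
      rw [abs_sub_comm] at a2
      have a3 := abs_sub_le (W x) ((u (n + 1)).1 x) ((F ⟨W, hWX⟩).1 x)
      have a4 : (0 : ℝ) < (3 / 4) ^ n := by positivity
      rw [pow_succ] at a2
      linarith
    have hp2 : Filter.Tendsto (fun n : ℕ => 2 * (2 * (3 / 4 : ℝ) ^ n)) Filter.atTop (nhds 0) := by
      have := hpow.const_mul 2
      simpa using this
    have := ge_of_tendsto' hp2 hb
    have := abs_eq_zero.1 (le_antisymm this (abs_nonneg _))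
    linarith
  refine ⟨W, v, ψ, σ, P, m, c, ?_⟩
  exact
    { w_cont := hWc
      w_per := hWp
      v_der := hst.v_der
      v_per := hst.v_per
      psi_der := hst.psi_der
      psi_per := exists_fp_psi_per hst.v_der hst.v_per hst.psi_der hst.v_norm
      P_der := hst.P_der
      P_per := hst.P_per
      P_mean := hst.P_mean
      s_cont := hst.s_cont
      s_per := hst.s_per
      s_mean := hst.s_mean
      s_eq := hst.s_eq
      w_eq := by
        intro x
        have := hst.w_eq x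
        rw [hfix] at this
        exact this }

end Pool.Agent.Helper339.CW
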