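import Mathlib
import Pool.Agent.Helper339.CW.Defs
import Pool.Agent.Helper339.CW.P_basics

set_option autoImplicit false

open scoped ContDiff Manifold
open MeasureTheory Set

namespace Pool.Agent.Helper339.CW


/-! ### TARGET: prove this. Prefix the names of all your auxiliary lemmas with fp_conj_ -/

theorem fp_conj_const_of_mono {A : ℝ → ℝ} (hm : Monotone A) (hp : ∀ x, A (x + 1) = A x) :
    ∀ x y, A x = A y := by
  have hn : ∀ (n : ℕ) x, A (x + n) = A x := by
    intro n
    induction n with
    | zero => intro x; simp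
    | succ n ih =>
      intro x
      push_cast
      rw [← add_assoc, hp, ih]
  have key : ∀ x y, x ≤ y → A x = A y := by
    intro x y hxy
    obtain ⟨n, hn'⟩ := exists_nat_ge (y - x)
    have h1 := hm hxy
    have h2 : A y ≤ A (x + n) := hm (by linarith)
    rw [hn] at h2
    linarith
  intro x y
  rcases le_total x y with h | h
  · exact key x y h
  · exact (key y x h).symm

/-- The fixed point conjugates `f` to the rotation up to a translation. -/
theorem fp_conj (f : Equiv.Perm ℝ) (hf : IsD 1 f) (w v ψ σ P : ℝ → ℝ) (m c : ℝ)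
    (h : FP (schw (fun x => f x)) w v ψ σ P m c) (hw : ContDiff ℝ ∞ w) :
    ∃ r : ℝ, ∀ x, f (ψ x) = ψ (x + √2) + r := by
  obtain ⟨⟨hsm, hsm', hmono⟩, hper⟩ := hf
  set F : ℝ → ℝ := fun x => f x with hF
  have hFd : Differentiable ℝ F := hsm.differentiable (by simp)
  have hF1 : ContDiff ℝ ∞ (deriv F) := by
    have : ContDiff ℝ (∞ + 1) F := hsm
    exact (contDiff_succ_iff_deriv.1 this).2.2
  have hF2 : ContDiff ℝ ∞ (deriv (deriv F)) := by
    have : ContDiff ℝ (∞ + 1) (deriv F) := hF1
    exact (contDiff_succ_iff_deriv.1 this).2.2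
  have hpos : ∀ x, 0 < deriv F x := fun x => sm_deriv_pos ⟨hsm, hsm', hmono⟩ x
  set W : ℝ → ℝ := fun y => deriv (deriv F) y / deriv F y with hW
  have hWd : ∀ y, HasDerivAt W (deriv W y) y := by
    intro y
    have h1 : DifferentiableAt ℝ W y :=
      ((hF2.differentiable (by simp)) y).div ((hF1.differentiable (by simp)) y) (hpos y).ne'
    exact h1.hasDerivAt
  have hS : ∀ y, schw F y = deriv W y - W y ^ 2 / 2 := fun y => rfl
  have hp1 : ∀ x, deriv F (x + 1) = deriv F x := by
    intro x
    have e : (fun y => F (y + 1)) = fun y => F y + 1 := by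
      funext y
      exact hper y
    rw [← deriv_comp_add_const, e, deriv_add_const]
  have hp2 : ∀ x, deriv (deriv F) (x + 1) = deriv (deriv F) x := by
    intro x
    have e : (fun y => deriv F (y + 1)) = fun y => deriv F y := by
      funext y
      exact hp1 y
    rw [← deriv_comp_add_const, e]
  have hWp : ∀ x, W (x + 1) = W x := by
    intro x
    simp only [hW, hp1, hp2]
  -- the function q
  set q : ℝ → ℝ := fun x => W (ψ x) * Real.exp (v x) + w x - w (x + √2) with hq
  have hqe : ∀ x, q x = W (ψ x) * Real.exp (v x) -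
      ((w (x + √2) - σ (x + √2)) - (w x - σ x) + P x) := by
    intro x
    have := h.s_eq x
    simp only [hq]
    linarith
  have hshift : ∀ (G : ℝ → ℝ) (G' : ℝ) (x : ℝ), HasDerivAt G G' (x + √2) →
      HasDerivAt (fun y => G (y + √2)) G' x := by
    intro G G' x hG
    exact hG.comp_add_const x √2
  have hqd : ∀ x, HasDerivAt q (((W (ψ x) * Real.exp (v x) + w x) ^ 2 - (w (x + √2)) ^ 2) / 2 + m) x := by
    intro x
    have h1 : HasDerivAt (fun x => W (ψ x)) (deriv W (ψ x) * Real.exp (v x)) x :=
      (hWd (ψ x)).comp x (h.psi_der x)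
    have h2 : HasDerivAt (fun x => Real.exp (v x)) (Real.exp (v x) * w x) x := (h.v_der x).exp
    have h3 := h1.mul h2
    have h4 : HasDerivAt (fun y => w (y + √2) - σ (y + √2)) ((w (x + √2)) ^ 2 / 2 - c) x :=
      hshift (fun y => w y - σ y) _ x (h.w_eq (x + √2))
    have h5 := h.w_eq x
    have h6 := h.P_der x
    have h7 := h3.sub ((h4.sub h5).add h6)
    have e : q = (fun x => W (ψ x) * Real.exp (v x) -
      ((w (x + √2) - σ (x + √2)) - (w x - σ x) + P x)) := by
      funext y
      exact hqe y
    rw [e]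
    refine h7.congr_deriv ?_
    rw [hS]
    have e2 : Real.exp (2 * v x) = Real.exp (v x) ^ 2 := by
      rw [← Real.exp_nat_mul]
      norm_num
    rw [e2]
    ring
  have hqp : ∀ x, q (x + 1) = q x := by
    intro x
    simp only [hq]
    rw [h.psi_per, hWp, h.v_per, h.w_per]
    rw [show x + 1 + √2 = (x + √2) + 1 by ring, h.w_per]
  -- A and B
  set A : ℝ → ℝ := fun x => q x * Real.exp (-(v (x + √2))) with hA
  have hAd : ∀ x, HasDerivAt A ((q x ^ 2 / 2 + m) * Real.exp (-(v (x + √2)))) x := by
    intro x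
    have h1 : HasDerivAt (fun y => v (y + √2)) (w (x + √2)) x := hshift v _ x (h.v_der _)
    have h2 := (hqd x).mul h1.neg.exp
    refine h2.congr_deriv ?_
    simp only [hq, Pi.neg_apply]
    ring
  have hAp : ∀ x, A (x + 1) = A x := by
    intro x
    simp only [hA]
    rw [hqp, show x + 1 + √2 = (x + √2) + 1 by ring, h.v_per]
  have hFW : ∀ x, HasDerivAt (fun y => deriv F (ψ y)) (deriv F (ψ x) * W (ψ x) * Real.exp (v x)) x := by
    intro x
    have h1 : HasDerivAt (deriv F) (deriv (deriv F) (ψ x)) (ψ x) :=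
      ((hF1.differentiable (by simp)) (ψ x)).hasDerivAt
    have h2 := h1.comp x (h.psi_der x)
    refine h2.congr_deriv ?_
    have := (hpos (ψ x)).ne'
    simp only [hW]
    field_simp
  set B : ℝ → ℝ := fun x => q x * (Real.exp (-(v x)) / deriv F (ψ x)) with hB
  have hBd : ∀ x, HasDerivAt B ((-(q x ^ 2) / 2 + m) * (Real.exp (-(v x)) / deriv F (ψ x))) x := by
    intro x
    have h1 := ((h.v_der x).neg.exp).div (hFW x) (hpos (ψ x)).ne'
    have h2 := (hqd x).mul h1
    refine h2.congr_deriv ?_
    have h3 := (hpos (ψ x)).ne'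
    simp only [hq, Pi.neg_apply, Pi.div_apply]
    field_simp
    ring
  have hBp : ∀ x, B (x + 1) = B x := by
    intro x
    simp only [hB]
    rw [hqp, h.v_per, h.psi_per, hp1]
  have hm1 : m ≤ 0 := by
    by_contra hcon
    push Not at hcon
    have hs : StrictMono A := by
      apply strictMono_of_deriv_pos
      intro x
      rw [(hAd x).deriv]
      have := sq_nonneg (q x)
      positivity
    have := hs (show (0:ℝ) < 0 + 1 by norm_num)
    rw [hAp] at this
    exact lt_irrefl _ this
  have hm2 : 0 ≤ m := by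
    by_contra hcon
    push Not at hcon
    have hs : StrictAnti B := by
      apply strictAnti_of_deriv_neg
      intro x
      rw [(hBd x).deriv]
      have h1 := sq_nonneg (q x)
      have h2 : 0 < Real.exp (-(v x)) / deriv F (ψ x) := div_pos (Real.exp_pos _) (hpos _)
      have h3 : -(q x ^ 2) / 2 + m < 0 := by linarith
      exact mul_neg_of_neg_of_pos h3 h2
    have := hs (show (0:ℝ) < 0 + 1 by norm_num)
    rw [hBp] at this
    exact lt_irrefl _ this
  have hm0 : m = 0 := le_antisymm hm1 hm2
  have hAmono : Monotone A := by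
    apply monotone_of_deriv_nonneg
    · intro x
      exact (hAd x).differentiableAt
    · intro x
      rw [(hAd x).deriv, hm0]
      have := sq_nonneg (q x)
      positivity
  have hAc := fp_conj_const_of_mono hAmono hAp
  have hq0 : ∀ x, q x = 0 := by
    intro x
    have h1 : HasDerivAt A 0 x := by
      have : A = fun _ => A 0 := by
        funext y
        exact hAc y 0
      rw [this]
      exact hasDerivAt_const x (A 0)
    have h2 := (hAd x).unique h1
    rw [hm0, add_zero] at h2
    have h3 : q x ^ 2 / 2 = 0 := (mul_eq_zero.1 h2).resolve_right (Real.exp_pos _).ne'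
    have h4 : q x ^ 2 = 0 := by linarith
    exact pow_eq_zero_iff (two_ne_zero) |>.1 h4
  -- D is constant
  set D : ℝ → ℝ := fun x => deriv F (ψ x) * Real.exp (v x) * Real.exp (-(v (x + √2))) with hD
  have hDd : ∀ x, HasDerivAt D 0 x := by
    intro x
    have h1 : HasDerivAt (fun y => v (y + √2)) (w (x + √2)) x := hshift v _ x (h.v_der _)
    have h2 := ((hFW x).mul (h.v_der x).exp).mul h1.neg.exp
    refine h2.congr_deriv ?_
    have h3 := hq0 x
    simp only [hq] at h3
    have h4 : w (x + √2) = W (ψ x) * Real.exp (v x) + w x := by linarith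
    rw [h4]
    simp only [Pi.mul_apply, Pi.neg_apply]
    ring
  have hDc : ∀ x, D x = D 0 := fun x =>
    is_const_of_deriv_eq_zero (fun y => (hDd y).differentiableAt) (fun y => (hDd y).deriv) x 0
  have hder : ∀ x, HasDerivAt (fun y => F (ψ y) - D 0 * ψ (y + √2)) 0 x := by
    intro x
    have h1 : HasDerivAt (fun y => F (ψ y)) (deriv F (ψ x) * Real.exp (v x)) x :=
      (hFd (ψ x)).hasDerivAt.comp x (h.psi_der x)
    have h2 : HasDerivAt (fun y => ψ (y + √2)) (Real.exp (v (x + √2))) x :=
      hshift ψ _ x (h.psi_der _)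
    have h3 := h1.sub (h2.const_mul (D 0))
    refine h3.congr_deriv ?_
    rw [← hDc x]
    simp only [hD]
    rw [mul_assoc _ (Real.exp (-(v (x + √2)))), ← Real.exp_add]
    simp
  have hconst : ∀ x, F (ψ x) - D 0 * ψ (x + √2) = F (ψ 0) - D 0 * ψ (0 + √2) := fun x =>
    is_const_of_deriv_eq_zero (f := fun y => F (ψ y) - D 0 * ψ (y + √2))
      (fun y => (hder y).differentiableAt) (fun y => (hder y).deriv) x 0
  have hD1 : D 0 = 1 := by
    have h1 := hconst (0 + 1)
    rw [h.psi_per, show (0:ℝ) + 1 + √2 = (0 + √2) + 1 by ring, h.psi_per] at h1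
    have h2 : F (ψ 0 + 1) = F (ψ 0) + 1 := hper (ψ 0)
    rw [h2] at h1
    linarith
  refine ⟨F (ψ 0) - ψ (0 + √2), ?_⟩
  intro x
  have := hconst x
  rw [hD1] at this
  have e : f (ψ x) = F (ψ x) := rfl
  rw [e]
  linarith

end Pool.Agent.Helper339.CW
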