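import Mathlib
import Pool.Agent.Helper339.CW.Defs

set_option autoImplicit false

open scoped ContDiff Manifold
open MeasureTheory Set

namespace Pool.Agent.Helper339.CW


/-! ### TARGET: prove this. Prefix the names of all your auxiliary lemmas with reg_closure_ -/

theorem reg_closure_bdd (u : ℝ → ℝ) (hc : Continuous u) (hp : ∀ x, u (x + 1) = u x) :
    ∃ M : ℝ, 0 ≤ M ∧ ∀ x, |u x| ≤ M := by
  obtain ⟨C, hC⟩ := (isCompact_Icc (a := (0:ℝ)) (b := 1)).exists_bound_of_continuousOn hc.continuousOn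
  have hper : Function.Periodic u 1 := hp
  have h0 : |u 0| ≤ C := hC 0 (by simp)
  refine ⟨C, (abs_nonneg _).trans h0, fun x => ?_⟩
  obtain ⟨y, hy, hxy⟩ := hper.exists_mem_Ico₀ one_pos x
  rw [hxy]
  exact hC y ⟨hy.1, hy.2.le⟩

theorem reg_closure_HC_le (u v g : ℝ → ℝ) (A B : ℝ) (hA : 0 ≤ A) (hB : 0 ≤ B) (hu : HC u) (hv : HC v)
    (hg : Continuous g) (hgp : ∀ x, g (x + 1) = g x)
    (h : ∀ x t, (g (x + t) - g x) ^ 2 ≤ A * (u (x + t) - u x) ^ 2 + B * (v (x + t) - v x) ^ 2) :
    HC g := by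
  obtain ⟨huc, hup, Ku, hKu⟩ := hu
  obtain ⟨hvc, hvp, Kv, hKv⟩ := hv
  refine ⟨hg, hgp, A * Ku + B * Kv, fun t => ?_⟩
  have i1 : Continuous (fun x => (u (x + t) - u x) ^ 2) := by fun_prop
  have i2 : Continuous (fun x => (v (x + t) - v x) ^ 2) := by fun_prop
  have i3 : Continuous (fun x => (g (x + t) - g x) ^ 2) := by fun_prop
  calc ∫ x in (0:ℝ)..1, (g (x + t) - g x) ^ 2
      ≤ ∫ x in (0:ℝ)..1, (A * (u (x + t) - u x) ^ 2 + B * (v (x + t) - v x) ^ 2) := by
        refine intervalIntegral.integral_mono_on zero_le_one (i3.intervalIntegrable _ _)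
          (((i1.const_mul A).add (i2.const_mul B)).intervalIntegrable _ _) (fun x _ => h x t)
    _ = A * (∫ x in (0:ℝ)..1, (u (x + t) - u x) ^ 2) + B * (∫ x in (0:ℝ)..1, (v (x + t) - v x) ^ 2) := by
        rw [intervalIntegral.integral_add ((i1.const_mul A).intervalIntegrable _ _)
          ((i2.const_mul B).intervalIntegrable _ _), intervalIntegral.integral_const_mul,
          intervalIntegral.integral_const_mul]
    _ ≤ A * (Ku * t ^ 2) + B * (Kv * t ^ 2) := by
        gcongr
        · exact hKu t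
        · exact hKv t
    _ = (A * Ku + B * Kv) * t ^ 2 := by ring

theorem reg_closure_HC_const (a : ℝ) : HC (fun _ => a) := by
  refine ⟨continuous_const, fun _ => rfl, 0, fun t => ?_⟩
  simp

theorem reg_closure_HC_lip (u : ℝ → ℝ) (hc : Continuous u) (hp : ∀ x, u (x + 1) = u x) (L : ℝ)
    (h : ∀ x t, |u (x + t) - u x| ≤ L * |t|) : HC u := by
  refine ⟨hc, hp, L ^ 2, fun t => ?_⟩
  have i3 : Continuous (fun x => (u (x + t) - u x) ^ 2) := by fun_prop
  calc ∫ x in (0:ℝ)..1, (u (x + t) - u x) ^ 2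
      ≤ ∫ x in (0:ℝ)..1, (L ^ 2 * t ^ 2) := by
        refine intervalIntegral.integral_mono_on zero_le_one (i3.intervalIntegrable _ _)
          (continuous_const.intervalIntegrable _ _) (fun x _ => ?_)
        rw [← sq_abs (u (x + t) - u x), ← sq_abs t, ← mul_pow]
        exact pow_le_pow_left₀ (abs_nonneg _) (h x t) 2
    _ = L ^ 2 * t ^ 2 := by simp

theorem reg_closure_HC_C1 (u : ℝ → ℝ) (hd : Differentiable ℝ u) (hc : Continuous (deriv u))
    (hp : ∀ x, u (x + 1) = u x) : HC u := by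
  have hdp : ∀ x, deriv u (x + 1) = deriv u x := by
    intro x
    have h1 : (fun y => u (y + 1)) = u := funext hp
    have h2 : deriv (fun y => u (y + 1)) x = deriv u (x + 1) := deriv_comp_add_const u 1 x
    rw [← h2, h1]
  obtain ⟨M, hM0, hM⟩ := reg_closure_bdd _ hc hdp
  refine reg_closure_HC_lip u hd.continuous hp M (fun x t => ?_)
  have h3 := Convex.norm_image_sub_le_of_norm_deriv_le (f := u) (C := M) (s := Set.univ) (x := x) (y := x + t)
    (fun y _ => hd y) (fun y _ => hM y) convex_univ (mem_univ _) (mem_univ _)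
  simpa [Real.norm_eq_abs] using h3

theorem reg_closure_per : ∀ (j : ℕ) (u : ℝ → ℝ), Reg j u → ∀ x, u (x + 1) = u x
  | 0, _, h => h.2.1
  | (_ + 1), _, h => h.1

theorem reg_closure_cont : ∀ (j : ℕ) (u : ℝ → ℝ), Reg j u → Continuous u
  | 0, _, h => h.1
  | (_ + 1), _, h => h.2.1.continuous

theorem reg_closure_HC_add (u v : ℝ → ℝ) (hu : HC u) (hv : HC v) : HC (fun x => u x + v x) := by
  refine reg_closure_HC_le u v _ 2 2 (by norm_num) (by norm_num) hu hv (hu.1.add hv.1)
    (fun x => by rw [hu.2.1, hv.2.1]) (fun x t => ?_)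
  nlinarith [sq_nonneg ((u (x + t) - u x) - (v (x + t) - v x))]

theorem reg_closure_HC_mul (u v : ℝ → ℝ) (hu : HC u) (hv : HC v) : HC (fun x => u x * v x) := by
  obtain ⟨Mu, hMu0, hMu⟩ := reg_closure_bdd u hu.1 hu.2.1
  obtain ⟨Mv, hMv0, hMv⟩ := reg_closure_bdd v hv.1 hv.2.1
  refine reg_closure_HC_le u v _ (2 * Mv ^ 2) (2 * Mu ^ 2) (by positivity) (by positivity) hu hv (hu.1.mul hv.1)
    (fun x => by rw [hu.2.1, hv.2.1]) (fun x t => ?_)
  have h1 : u (x + t) * v (x + t) - u x * v x = u (x + t) * (v (x + t) - v x) + v x * (u (x + t) - u x) := by ring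
  have h2 : u (x + t) ^ 2 ≤ Mu ^ 2 := by
    rw [← sq_abs (u (x + t))]; exact pow_le_pow_left₀ (abs_nonneg _) (hMu _) 2
  have h3 : v x ^ 2 ≤ Mv ^ 2 := by
    rw [← sq_abs (v x)]; exact pow_le_pow_left₀ (abs_nonneg _) (hMv _) 2
  have h4 := mul_le_mul_of_nonneg_right h2 (sq_nonneg (v (x + t) - v x))
  have h5 := mul_le_mul_of_nonneg_right h3 (sq_nonneg (u (x + t) - u x))
  show (u (x + t) * v (x + t) - u x * v x) ^ 2 ≤ _
  rw [h1]
  nlinarith [sq_nonneg (u (x + t) * (v (x + t) - v x) - v x * (u (x + t) - u x))]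

theorem reg_closure_exp_diff (M a b : ℝ) (ha : |a| ≤ M) (hb : |b| ≤ M) :
    (Real.exp a - Real.exp b) ^ 2 ≤ (Real.exp M) ^ 2 * (a - b) ^ 2 := by
  have h3 := Convex.norm_image_sub_le_of_norm_deriv_le (f := Real.exp) (C := Real.exp M) (s := Set.Icc (-M) M)
    (x := b) (y := a) (fun y _ => Real.differentiable_exp y)
    (fun y hy => by
      rw [Real.deriv_exp, Real.norm_eq_abs, abs_of_pos (Real.exp_pos _)]
      exact Real.exp_le_exp.mpr hy.2) (convex_Icc _ _) (abs_le.mp hb) (abs_le.mp ha)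
  rw [Real.norm_eq_abs, Real.norm_eq_abs] at h3
  rw [← sq_abs (Real.exp a - Real.exp b), ← sq_abs (a - b), ← mul_pow]
  exact pow_le_pow_left₀ (abs_nonneg _) h3 2

theorem reg_closure_HC_exp (v : ℝ → ℝ) (hv : HC v) : HC (fun x => Real.exp (v x)) := by
  obtain ⟨M, hM0, hM⟩ := reg_closure_bdd v hv.1 hv.2.1
  refine reg_closure_HC_le v v _ ((Real.exp M) ^ 2) 0 (by positivity) le_rfl hv hv
    (Real.continuous_exp.comp hv.1) (fun x => by rw [hv.2.1]) (fun x t => ?_)
  have := reg_closure_exp_diff M (v (x + t)) (v x) (hM _) (hM _)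
  simpa using this

/-- Closure properties of the regularity classes. -/
theorem reg_add (j : ℕ) (u v : ℝ → ℝ) (hu : Reg j u) (hv : Reg j v) : Reg j (fun x => u x + v x) := by
  induction j generalizing u v with
  | zero => exact reg_closure_HC_add u v hu hv
  | succ j ih =>
    refine ⟨fun x => ?_, hu.2.1.add hv.2.1, ?_⟩
    · show u (x + 1) + v (x + 1) = u x + v x
      rw [hu.1, hv.1]
    · have : deriv (fun x => u x + v x) = fun x => deriv u x + deriv v x := by
        funext x
        exact deriv_fun_add (hu.2.1 x) (hv.2.1 x)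
      rw [this]
      exact ih _ _ hu.2.2 hv.2.2

theorem reg_le (j : ℕ) (u : ℝ → ℝ) (hu : Reg (j + 1) u) : Reg j u := by
  induction j generalizing u with
  | zero => exact reg_closure_HC_C1 u hu.2.1 hu.2.2.1 hu.1
  | succ j ih => exact ⟨hu.1, hu.2.1, ih _ hu.2.2⟩

theorem reg_mul (j : ℕ) (u v : ℝ → ℝ) (hu : Reg j u) (hv : Reg j v) : Reg j (fun x => u x * v x) := by
  induction j generalizing u v with
  | zero => exact reg_closure_HC_mul u v hu hv
  | succ j ih =>
    refine ⟨fun x => ?_, hu.2.1.mul hv.2.1, ?_⟩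
    · show u (x + 1) * v (x + 1) = u x * v x
      rw [hu.1, hv.1]
    · have : deriv (fun x => u x * v x) = fun x => deriv u x * v x + u x * deriv v x := by
        funext x
        exact deriv_fun_mul (hu.2.1 x) (hv.2.1 x)
      rw [this]
      exact reg_add j _ _ (ih _ _ hu.2.2 (reg_le j v hv)) (ih _ _ (reg_le j u hu) hv.2.2)

theorem reg_const (j : ℕ) (a : ℝ) : Reg j (fun _ => a) := by
  induction j generalizing a with
  | zero => exact reg_closure_HC_const a
  | succ j ih =>
    refine ⟨fun x => rfl, differentiable_const a, ?_⟩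
    have : deriv (fun _ : ℝ => a) = fun _ => 0 := by
      funext x; simp
    rw [this]
    exact ih 0

theorem reg_exp (j : ℕ) (v : ℝ → ℝ) (hv : Reg j v) : Reg j (fun x => Real.exp (v x)) := by
  induction j generalizing v with
  | zero => exact reg_closure_HC_exp v hv
  | succ j ih =>
    refine ⟨fun x => ?_, hv.2.1.exp, ?_⟩
    · show Real.exp (v (x + 1)) = Real.exp (v x)
      rw [hv.1]
    · have : deriv (fun x => Real.exp (v x)) = fun x => Real.exp (v x) * deriv v x := by
        funext x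
        exact (hv.2.1 x).hasDerivAt.exp.deriv
      rw [this]
      exact reg_mul j _ _ (ih _ (reg_le j v hv)) hv.2.2

theorem reg_prim (j : ℕ) (u U : ℝ → ℝ) (hU : ∀ x, HasDerivAt U (u x) x) (hp : ∀ x, U (x + 1) = U x)
    (hu : Reg j u) : Reg (j + 1) U := by
  refine ⟨hp, fun x => (hU x).differentiableAt, ?_⟩
  have : deriv U = u := funext (fun x => (hU x).deriv)
  rw [this]; exact hu

theorem reg_comp (j : ℕ) (S v ψ : ℝ → ℝ) (hS : ContDiff ℝ ∞ S) (hSp : ∀ x, S (x + 1) = S x)
    (hψ : ∀ x, HasDerivAt ψ (Real.exp (v x)) x) (hψp : ∀ x, ψ (x + 1) = ψ x + 1) (hv : Reg j v) :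
    Reg (j + 1) (fun x => S (ψ x)) := by
  induction j generalizing S with
  | zero =>
    have hvc : Continuous v := hv.1
    have hψc : Continuous ψ := continuous_iff_continuousAt.mpr (fun x => (hψ x).continuousAt)
    have hS1 : ContDiff ℝ ∞ (deriv S) := (contDiff_infty_iff_deriv.mp hS).2
    have hS2 : ContDiff ℝ ∞ (deriv (deriv S)) := (contDiff_infty_iff_deriv.mp hS1).2
    have hd1 : ∀ x, HasDerivAt (fun x => S (ψ x)) (deriv S (ψ x) * Real.exp (v x)) x := by
      intro x
      exact ((contDiff_infty_iff_deriv.mp hS).1 (ψ x)).hasDerivAt.comp x (hψ x)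
    have hd2 : ∀ x, HasDerivAt (fun x => deriv S (ψ x)) (deriv (deriv S) (ψ x) * Real.exp (v x)) x := by
      intro x
      exact ((contDiff_infty_iff_deriv.mp hS1).1 (ψ x)).hasDerivAt.comp x (hψ x)
    refine ⟨fun x => ?_, fun x => (hd1 x).differentiableAt, ?_⟩
    · show S (ψ (x + 1)) = S (ψ x)
      rw [hψp, hSp]
    · have h1 : deriv (fun x => S (ψ x)) = fun x => deriv S (ψ x) * Real.exp (v x) :=
        funext (fun x => (hd1 x).deriv)
      rw [h1]
      refine reg_closure_HC_mul _ _ ?_ (reg_closure_HC_exp v hv)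
      refine reg_closure_HC_C1 _ (fun x => (hd2 x).differentiableAt) ?_ ?_
      · have h2 : deriv (fun x => deriv S (ψ x)) = fun x => deriv (deriv S) (ψ x) * Real.exp (v x) :=
          funext (fun x => (hd2 x).deriv)
        rw [h2]
        exact (hS2.continuous.comp hψc).mul (Real.continuous_exp.comp hvc)
      · intro x
        show deriv S (ψ (x + 1)) = deriv S (ψ x)
        rw [hψp]
        have h3 : (fun y => S (y + 1)) = S := funext hSp
        have h4 : deriv (fun y => S (y + 1)) (ψ x) = deriv S (ψ x + 1) := deriv_comp_add_const S 1 (ψ x)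
        rw [← h4, h3]
  | succ j ih =>
    have hS1 : ContDiff ℝ ∞ (deriv S) := (contDiff_infty_iff_deriv.mp hS).2
    have hS1p : ∀ x, deriv S (x + 1) = deriv S x := by
      intro x
      have h3 : (fun y => S (y + 1)) = S := funext hSp
      have h4 : deriv (fun y => S (y + 1)) x = deriv S (x + 1) := deriv_comp_add_const S 1 x
      rw [← h4, h3]
    have hd1 : ∀ x, HasDerivAt (fun x => S (ψ x)) (deriv S (ψ x) * Real.exp (v x)) x := by
      intro x
      exact ((contDiff_infty_iff_deriv.mp hS).1 (ψ x)).hasDerivAt.comp x (hψ x)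
    refine ⟨fun x => ?_, fun x => (hd1 x).differentiableAt, ?_⟩
    · show S (ψ (x + 1)) = S (ψ x)
      rw [hψp, hSp]
    · have h1 : deriv (fun x => S (ψ x)) = fun x => deriv S (ψ x) * Real.exp (v x) :=
        funext (fun x => (hd1 x).deriv)
      rw [h1]
      exact reg_mul (j + 1) _ _ (ih (deriv S) hS1 hS1p (reg_le j v hv)) (reg_exp (j + 1) v hv)

theorem reg_closure_contDiff_nat (j : ℕ) (u : ℝ → ℝ) (hu : Reg j u) : ContDiff ℝ j u := by
  induction j generalizing u with
  | zero => exact contDiff_zero.mpr hu.1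
  | succ j ih =>
    push_cast
    rw [contDiff_succ_iff_deriv]
    refine ⟨hu.2.1, ?_, ih _ hu.2.2⟩
    intro h
    exact absurd h (by simp)

theorem reg_contDiff (u : ℝ → ℝ) (hu : ∀ j, Reg j u) : ContDiff ℝ ∞ u := by
  rw [contDiff_infty]
  intro n
  exact reg_closure_contDiff_nat n u (hu n)

end Pool.Agent.Helper339.CW
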