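import Mathlib
import Pool.Agent.Helper339.CW.Defs
import Pool.Agent.Helper339.CW.P_reg_closure
import Pool.Agent.Helper339.CW.P_cohom
import Pool.Agent.Helper339.CW.P_cohom_unique

set_option autoImplicit false

open scoped ContDiff Manifold
open MeasureTheory Set

namespace Pool.Agent.Helper339.CW


/-! ### TARGET: prove this. Prefix the names of all your auxiliary lemmas with reg_sol_ -/

theorem reg_sol_cts (j : ℕ) (u : ℝ → ℝ) (h : Reg j u) : Continuous u := by
  cases j with
  | zero => exact h.1
  | succ j => exact h.2.1.continuous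

theorem reg_sol_le (j : ℕ) (u : ℝ → ℝ) (h : Reg (j + 2) u) : Reg 2 u := by
  induction j with
  | zero => exact h
  | succ j ih => exact ih (reg_le (j + 2) u h)

theorem reg_sol_c2 (P : ℝ → ℝ) (h : Reg 2 P) : ContDiff ℝ 2 P ∧ HC (deriv (deriv P)) := by
  obtain ⟨_, h2, _, h4, h5⟩ := h
  refine ⟨?_, h5⟩
  rw [show (2 : WithTop ℕ∞) = 1 + 1 from by norm_num, contDiff_succ_iff_deriv]
  refine ⟨h2, by simp, ?_⟩
  rw [contDiff_one_iff_deriv]
  exact ⟨h4, h5.1⟩

theorem reg_sol_uniq (s σ : ℝ → ℝ) (hs : Continuous s) (hσ : Continuous σ)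
    (hsp : ∀ x, s (x + 1) = s x) (hσp : ∀ x, σ (x + 1) = σ x)
    (hsm : (∫ x in (0:ℝ)..1, s x) = 0) (hσm : (∫ x in (0:ℝ)..1, σ x) = 0)
    (he : ∀ x, s (x + √2) - s x = σ (x + √2) - σ x) : s = σ := by
  have h1 : ∀ x, (fun x => s x - σ x) x = (fun x => s x - σ x) 0 := by
    apply cohom_unique
    · exact hs.sub hσ
    · intro x
      show s (x + 1) - σ (x + 1) = s x - σ x
      rw [hsp, hσp]
    · intro x
      show s (x + √2) - σ (x + √2) = s x - σ x
      linarith [he x]
  have h2 : (∫ x in (0:ℝ)..1, (s x - σ x)) = 0 := by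
    rw [intervalIntegral.integral_sub (hs.intervalIntegrable _ _) (hσ.intervalIntegrable _ _),
      hsm, hσm, sub_zero]
  have h3 : (∫ x in (0:ℝ)..1, (s x - σ x)) = s 0 - σ 0 := by
    have : (fun x => s x - σ x) = fun _ => s 0 - σ 0 := funext h1
    rw [this, intervalIntegral.integral_const]
    simp
  funext x
  have h4 : s x - σ x = s 0 - σ 0 := h1 x
  linarith

/-- Regularity of solutions of the cohomological equation. -/
theorem reg_sol (j : ℕ) (P σ : ℝ → ℝ) (hP : Reg (j + 2) P) (hPm : (∫ x in (0:ℝ)..1, P x) = 0)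
    (hc : Continuous σ) (hp : ∀ x, σ (x + 1) = σ x) (hm : (∫ x in (0:ℝ)..1, σ x) = 0)
    (he : ∀ x, σ (x + √2) - σ x = P x) : Reg (j + 1) σ := by
  obtain ⟨C, _, hC⟩ := cohom
  induction j generalizing P σ with
  | zero =>
    obtain ⟨h1, h2⟩ := reg_sol_c2 P hP
    obtain ⟨s, hs1, hs2, hs3, _, hs5⟩ := hC P h1 hP.1 hPm
    have : s = σ := reg_sol_uniq s σ hs3.1 hc hs3.2.1 hp hs2 hm (fun x => by rw [hs1, he])
    rw [← this]
    exact hs5 h2
  | succ j ih =>
    have hP2 : Reg (j + 2) (deriv P) := hP.2.2
    have hPd : Differentiable ℝ P := hP.2.1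
    have hdc : Continuous (deriv P) := reg_sol_cts _ _ hP2
    have hPp : ∀ x, P (x + 1) = P x := hP.1
    have hdm : (∫ x in (0:ℝ)..1, deriv P x) = 0 := by
      rw [intervalIntegral.integral_deriv_eq_sub (fun x _ => hPd x) (hdc.intervalIntegrable _ _)]
      have := hPp 0
      rw [zero_add] at this
      rw [this, sub_self]
    have hR2 : Reg 2 (deriv P) := reg_sol_le j _ hP2
    obtain ⟨h1, _⟩ := reg_sol_c2 _ hR2
    obtain ⟨s, hs1, hs2, hs3, _, _⟩ := hC (deriv P) h1 hR2.1 hdm
    have hsR : Reg (j + 1) s := ih (deriv P) s hP2 hdm hs3.1 hs3.2.1 hs2 hs1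
    have hsc : Continuous s := hs3.1
    obtain ⟨U, hU1, hU2⟩ : ∃ U : ℝ → ℝ, (∀ x, HasDerivAt U (s x) x) ∧
        (∫ x in (0:ℝ)..1, U x) = 0 := by
      have hd : ∀ x, HasDerivAt (fun x => ∫ t in (0:ℝ)..x, s t) (s x) x := fun x =>
        intervalIntegral.integral_hasDerivAt_right (hsc.intervalIntegrable _ _)
          (hsc.stronglyMeasurableAtFilter _ _) hsc.continuousAt
      have hcont : Continuous (fun x => ∫ t in (0:ℝ)..x, s t) :=
        continuous_iff_continuousAt.2 fun x => (hd x).continuousAt
      refine ⟨fun x => (∫ t in (0:ℝ)..x, s t) - ∫ y in (0:ℝ)..1, (∫ t in (0:ℝ)..y, s t), ?_, ?_⟩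
      · intro x
        exact (hd x).sub_const _
      · rw [intervalIntegral.integral_sub (hcont.intervalIntegrable _ _) (by simp),
          intervalIntegral.integral_const]
        simp
    have hUc : Continuous U := continuous_iff_continuousAt.2 fun x => (hU1 x).continuousAt
    have hUp : ∀ x, U (x + 1) = U x := by
      have hd : ∀ x, HasDerivAt (fun x => U (x + 1) - U x) 0 x := by
        intro x
        have h2 : HasDerivAt (fun x => U (x + 1)) (s (x + 1)) x := (hU1 (x + 1)).comp_add_const x 1
        have h3 := h2.sub (hU1 x)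
        rw [hs3.2.1 x, sub_self] at h3
        exact h3
      have hconst : ∀ x, U (x + 1) - U x = U (0 + 1) - U 0 := fun x =>
        is_const_of_deriv_eq_zero (f := fun x => U (x + 1) - U x)
          (fun y => (hd y).differentiableAt) (fun y => (hd y).deriv) x 0
      have h0 : U 1 - U 0 = 0 := by
        have h5 := intervalIntegral.integral_eq_sub_of_hasDerivAt (a := 0) (b := 1)
          (fun x _ => hU1 x) (hsc.intervalIntegrable _ _)
        rw [← h5]
        exact hs2
      intro x
      have := hconst x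
      rw [zero_add] at this
      linarith
    have hUe : ∀ x, U (x + √2) - U x = P x := by
      have hd : ∀ x, HasDerivAt (fun x => U (x + √2) - U x - P x) 0 x := by
        intro x
        have h2 : HasDerivAt (fun x => U (x + √2)) (s (x + √2)) x :=
          (hU1 (x + √2)).comp_add_const x √2
        have h3 := (h2.sub (hU1 x)).sub (hPd x).hasDerivAt
        rw [hs1 x, sub_self] at h3
        exact h3
      have hconst : ∀ x, U (x + √2) - U x - P x = U (0 + √2) - U 0 - P 0 := fun x =>
        is_const_of_deriv_eq_zero (f := fun x => U (x + √2) - U x - P x)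
          (fun y => (hd y).differentiableAt) (fun y => (hd y).deriv) x 0
      have hcU : Continuous (fun x => U (x + √2)) := hUc.comp (continuous_id.add continuous_const)
      have hi : (∫ x in (0:ℝ)..1, (U (x + √2) - U x - P x)) = 0 := by
        have hcUU : Continuous (fun x => U (x + √2) - U x) := hcU.sub hUc
        rw [intervalIntegral.integral_sub (hcUU.intervalIntegrable _ _)
          (hPd.continuous.intervalIntegrable _ _),
          intervalIntegral.integral_sub (hcU.intervalIntegrable _ _) (hUc.intervalIntegrable _ _),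
          hU2, hPm, intervalIntegral.integral_comp_add_right (fun x => U x) √2]
        have hper : Function.Periodic U 1 := hUp
        have := hper.intervalIntegral_add_eq (0 + √2) 0
        rw [zero_add (1 : ℝ), hU2] at this
        rw [show (1 : ℝ) + √2 = 0 + √2 + 1 by ring, this]
        ring
      have hi2 : (∫ x in (0:ℝ)..1, (U (x + √2) - U x - P x)) = U (0 + √2) - U 0 - P 0 := by
        have : (fun x => U (x + √2) - U x - P x) = fun _ => U (0 + √2) - U 0 - P 0 :=
          funext hconst
        rw [this, intervalIntegral.integral_const]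
        simp
      intro x
      have := hconst x
      linarith
    have hUσ : U = σ := reg_sol_uniq U σ hUc hc hUp hp hU2 hm (fun x => by rw [hUe, he])
    rw [← hUσ]
    exact reg_prim (j + 1) s U hU1 hUp hsR

end Pool.Agent.Helper339.CW
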