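import Mathlib
import Pool.Agent.Helper339.CW.Defs
import Pool.Agent.Helper339.CW.P_reg_closure
import Pool.Agent.Helper339.CW.P_reg_sol
import Pool.Agent.Helper339.CW.P_cohom
import Pool.Agent.Helper339.CW.P_cohom_unique

set_option autoImplicit false

open scoped ContDiff Manifold
open MeasureTheory Set

namespace Pool.Agent.Helper339.CW


/-! ### TARGET: prove this. Prefix the names of all your auxiliary lemmas with fp_reg_ -/

theorem fp_reg_contDiff_of_der (n : ℕ) (u U : ℝ → ℝ) (hU : ∀ x, HasDerivAt U (u x) x)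
    (hu : ContDiff ℝ n u) : ContDiff ℝ (n + 1) U := by
  rw [contDiff_succ_iff_deriv]
  refine ⟨fun x => (hU x).differentiableAt, ?_, ?_⟩
  · intro h
    exact absurd h (by simp)
  · have : deriv U = u := funext fun x => (hU x).deriv
    rw [this]
    exact hu

theorem fp_reg_HC_of_C1 (g g' : ℝ → ℝ) (hg : ∀ x, HasDerivAt g (g' x) x) (hc : Continuous g')
    (hp : ∀ x, g (x + 1) = g x) (hp' : ∀ x, g' (x + 1) = g' x) : HC g := by
  have hgc : Continuous g := continuous_iff_continuousAt.2 fun x => (hg x).continuousAt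
  refine ⟨hgc, hp, ?_⟩
  -- bound for the derivative
  obtain ⟨B, hB⟩ := (isCompact_Icc (a := (0:ℝ)) (b := 1)).exists_bound_of_continuousOn
    hc.continuousOn
  have hper : Function.Periodic g' 1 := hp'
  have hB' : ∀ x, ‖g' x‖ ≤ B := by
    intro x
    obtain ⟨y, hy, hxy⟩ := hper.exists_mem_Ico₀ (by norm_num : (0:ℝ) < 1) x
    rw [hxy]
    exact hB y (Ico_subset_Icc_self hy)
  have hB0 : 0 ≤ B := le_trans (norm_nonneg _) (hB' 0)
  refine ⟨B ^ 2, ?_⟩
  intro t
  have hlip : ∀ x, (g (x + t) - g x) ^ 2 ≤ B ^ 2 * t ^ 2 := by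
    intro x
    have h1 := Convex.norm_image_sub_le_of_norm_hasDerivWithin_le (f := g) (f' := g') (C := B)
      (s := univ) (x := x) (y := x + t) (fun y _ => (hg y).hasDerivWithinAt) (fun y _ => hB' y)
      convex_univ (mem_univ _) (mem_univ _)
    rw [Real.norm_eq_abs, Real.norm_eq_abs, add_sub_cancel_left] at h1
    rw [← sq_abs (g (x + t) - g x), ← sq_abs t, ← mul_pow]
    exact pow_le_pow_left₀ (abs_nonneg _) h1 2
  calc (∫ x in (0:ℝ)..1, (g (x + t) - g x) ^ 2) ≤ ∫ x in (0:ℝ)..1, B ^ 2 * t ^ 2 := by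
        apply intervalIntegral.integral_mono_on (by norm_num)
        · apply Continuous.intervalIntegrable
          fun_prop
        · exact intervalIntegrable_const
        · intro x _
          exact hlip x
    _ = B ^ 2 * t ^ 2 := by simp

theorem fp_reg_base (S : ℝ → ℝ) (hS : ContDiff ℝ ∞ S) (hSp : ∀ x, S (x + 1) = S x)
    (w v ψ σ P : ℝ → ℝ) (m c : ℝ) (h : FP S w v ψ σ P m c) : HC w := by
  have hv : ContDiff ℝ 1 v := by
    have := fp_reg_contDiff_of_der 0 w v h.v_der (by
      rw [Nat.cast_zero, contDiff_zero]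
      exact h.w_cont)
    simpa using this
  have hexp : ContDiff ℝ 1 (fun x => Real.exp (v x)) := Real.contDiff_exp.comp hv
  have hpsi : ContDiff ℝ 1 ψ := by
    have := fp_reg_contDiff_of_der 0 (fun x => Real.exp (v x)) ψ h.psi_der (by
      rw [Nat.cast_zero, contDiff_zero]
      exact hexp.continuous)
    simpa using this
  have hrho : ContDiff ℝ 1 (fun x => S (ψ x) * Real.exp (2 * v x) - m) := by
    have h1 : ContDiff ℝ 1 (fun x => S (ψ x)) := (hS.of_le (by exact_mod_cast le_top)).comp hpsi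
    have h2 : ContDiff ℝ 1 (fun x => Real.exp (2 * v x)) :=
      Real.contDiff_exp.comp (contDiff_const.mul hv)
    exact (h1.mul h2).sub contDiff_const
  have hP : ContDiff ℝ 2 P := by
    have := fp_reg_contDiff_of_der 1 _ P h.P_der (by exact_mod_cast hrho)
    have h2 : ((1 : ℕ) : WithTop ℕ∞) + 1 = 2 := by norm_num
    rw [h2] at this
    exact this
  obtain ⟨C, hC, hcoh⟩ := cohom
  obtain ⟨s, hs1, hs2, hs3, -, -⟩ := hcoh P hP h.P_per h.P_mean
  have hu := cohom_unique (fun x => σ x - s x) (h.s_cont.sub hs3.1) (by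
    intro x
    show σ (x + 1) - s (x + 1) = σ x - s x
    rw [h.s_per, hs3.2.1]) (by
    intro x
    show σ (x + √2) - s (x + √2) = σ x - s x
    have h1 := h.s_eq x
    have h2 := hs1 x
    linarith)
  have h0 : σ 0 - s 0 = 0 := by
    have h1 : (∫ x in (0:ℝ)..1, (σ x - s x)) = 0 := by
      rw [intervalIntegral.integral_sub (h.s_cont.intervalIntegrable _ _)
        (hs3.1.intervalIntegrable _ _), h.s_mean, hs2, sub_zero]
    have h2 : (∫ x in (0:ℝ)..1, (σ x - s x)) = ∫ x in (0:ℝ)..1, (σ 0 - s 0) := by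
      apply intervalIntegral.integral_congr
      intro x _
      exact hu x
    rw [h1] at h2
    simpa using h2.symm
  have hσ : σ = s := by
    funext x
    have := hu x
    have : σ x - s x = σ 0 - s 0 := this
    linarith
  have hHσ : HC σ := by rw [hσ]; exact hs3
  have hg : HC (fun y => w y - σ y) := by
    apply fp_reg_HC_of_C1 _ (fun x => (w x) ^ 2 / 2 - c) h.w_eq
    · have := h.w_cont
      fun_prop
    · intro x
      show w (x + 1) - σ (x + 1) = w x - σ x
      rw [h.w_per, h.s_per]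
    · intro x
      show (w (x + 1)) ^ 2 / 2 - c = (w x) ^ 2 / 2 - c
      rw [h.w_per]
  have := reg_add 0 (fun y => w y - σ y) σ hg hHσ
  have e : (fun x => w x - σ x + σ x) = w := by
    funext x
    ring
  rw [e] at this
  exact this

theorem fp_reg_all (S : ℝ → ℝ) (hS : ContDiff ℝ ∞ S) (hSp : ∀ x, S (x + 1) = S x)
    (w v ψ σ P : ℝ → ℝ) (m c : ℝ) (h : FP S w v ψ σ P m c) (j : ℕ) : Reg j w := by
  induction j with
  | zero => exact fp_reg_base S hS hSp w v ψ σ P m c h
  | succ j ih =>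
    have hv : Reg (j + 1) v := reg_prim j w v h.v_der h.v_per ih
    have he : Reg (j + 1) (fun x => Real.exp (v x)) := reg_exp _ _ hv
    have he2 : Reg (j + 1) (fun x => Real.exp (v x) * Real.exp (v x)) := reg_mul _ _ _ he he
    have hSψ : Reg (j + 1) (fun x => S (ψ x)) :=
      reg_comp j S v ψ hS hSp h.psi_der h.psi_per (reg_le _ _ hv)
    have h1 : Reg (j + 1) (fun x => S (ψ x) * (Real.exp (v x) * Real.exp (v x))) :=
      reg_mul _ _ _ hSψ he2
    have h2 : Reg (j + 1) (fun x => S (ψ x) * (Real.exp (v x) * Real.exp (v x)) + (-m)) :=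
      reg_add _ _ _ h1 (reg_const _ _)
    have e1 : (fun x => S (ψ x) * (Real.exp (v x) * Real.exp (v x)) + (-m)) =
        fun x => S (ψ x) * Real.exp (2 * v x) - m := by
      funext x
      rw [← Real.exp_add, ← two_mul, sub_eq_add_neg]
    rw [e1] at h2
    have hP : Reg (j + 2) P := reg_prim (j + 1) _ P h.P_der h.P_per h2
    have hσ : Reg (j + 1) σ := reg_sol j P σ hP h.P_mean h.s_cont h.s_per h.s_mean h.s_eq
    have h3 : Reg j (fun x => (1 / 2 : ℝ) * (w x * w x)) := reg_mul _ _ _ (reg_const _ _)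
      (reg_mul _ _ _ ih ih)
    have h4 : Reg j (fun x => (1 / 2 : ℝ) * (w x * w x) + (-c)) := reg_add _ _ _ h3 (reg_const _ _)
    have e2 : (fun x => (1 / 2 : ℝ) * (w x * w x) + (-c)) = fun x => (w x) ^ 2 / 2 - c := by
      funext x
      ring
    rw [e2] at h4
    have h5 : Reg (j + 1) (fun y => w y - σ y) := by
      apply reg_prim j _ _ h.w_eq _ h4
      intro x
      show w (x + 1) - σ (x + 1) = w x - σ x
      rw [h.w_per, h.s_per]
    have h6 := reg_add (j + 1) (fun y => w y - σ y) σ h5 hσ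
    have e : (fun x => w x - σ x + σ x) = w := by
      funext x
      ring
    rw [e] at h6
    exact h6

/-- Regularity of the fixed point. -/
theorem fp_reg (S : ℝ → ℝ) (hS : ContDiff ℝ ∞ S) (hSp : ∀ x, S (x + 1) = S x)
    (w v ψ σ P : ℝ → ℝ) (m c : ℝ) (h : FP S w v ψ σ P m c) : ContDiff ℝ ∞ w :=
  reg_contDiff w (fun j => fp_reg_all S hS hSp w v ψ σ P m c h j)

end Pool.Agent.Helper339.CW
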