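import Mathlib
import Pool.Agent.Helper339.CW.Defs

set_option autoImplicit false

open scoped ContDiff Manifold
open MeasureTheory Set

namespace Pool.Agent.Helper339.CW


/-! ### TARGET: prove this. Prefix the names of all your auxiliary lemmas with handle_ -/

theorem handle_i {G : Type} [Group G] (A χ a0 a1 b1 b2 : G)
    (hA1 : A * a1 * A⁻¹ = a0) (hA4 : A * b2 * A⁻¹ = b1)
    (c1 : Commute a0 a1) (c6 : Commute b1 b2) (d1 : Commute a0 b1) (d2 : Commute a0 b2)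
    (e1 : Commute χ a0) (e5 : Commute χ b1) :
    a0 * (a1⁻¹ * b1⁻¹) * b2 * χ * A * (a1⁻¹ * b2) = (a1⁻¹ * b2) * (χ * A) := by
  have k1 : χ * (a0⁻¹ * b1) = (a0⁻¹ * b1) * χ := (e1.inv_right.mul_right e5).eq
  have k2 : (a1⁻¹ * b1⁻¹ * b2) * a0⁻¹ = a0⁻¹ * (a1⁻¹ * b1⁻¹ * b2) :=
    ((c1.inv_right.mul_right d1.inv_right).mul_right d2).inv_left.eq.symm
  have k3 : b2 * b1 = b1 * b2 := c6.eq.symm
  calc a0 * (a1⁻¹ * b1⁻¹) * b2 * χ * A * (a1⁻¹ * b2)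
      = a0 * (a1⁻¹ * b1⁻¹ * b2) * (χ * ((A * a1 * A⁻¹)⁻¹ * (A * b2 * A⁻¹))) * A := by group
    _ = a0 * (a1⁻¹ * b1⁻¹ * b2) * (χ * (a0⁻¹ * b1)) * A := by rw [hA1, hA4]
    _ = a0 * ((a1⁻¹ * b1⁻¹ * b2) * a0⁻¹) * b1 * χ * A := by rw [k1]; group
    _ = a1⁻¹ * b1⁻¹ * (b2 * b1) * χ * A := by rw [k2]; group
    _ = _ := by rw [k3]; group

theorem handle_ii {G : Type} [Group G] (B χ a0 a1 a2 b1 b2 : G)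
    (hB1 : B * a0 * B⁻¹ = a1) (hB2 : B * a1 * B⁻¹ = a2) (hB4 : B * b1 * B⁻¹ = b2)
    (d4 : Commute a1 b2)
    (e2 : Commute χ a1) (e3 : Commute χ a2) (e6 : Commute χ b2)
    (hχ : χ * (B * (b2 * a2⁻¹ * b2⁻¹ * a2) * B⁻¹) = 1) :
    a0 * (a1⁻¹ * b1⁻¹) * b2 * χ * B * (a0 * (a1⁻¹ * b1⁻¹ * a1) * (b2 * a2⁻¹ * b2⁻¹ * a2)) =
      (a0 * (a1⁻¹ * b1⁻¹ * a1) * (b2 * a2⁻¹ * b2⁻¹ * a2)) * B := by
  have k0 : B * (b2 * a2⁻¹ * b2⁻¹ * a2) * B⁻¹ = χ⁻¹ := (inv_eq_of_mul_eq_one_right hχ).symm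
  have k1 : χ * (a1 * a2⁻¹ * b2⁻¹ * a2) = (a1 * a2⁻¹ * b2⁻¹ * a2) * χ :=
    (((e2.mul_right e3.inv_right).mul_right e6.inv_right).mul_right e3).eq
  have k2 : b2 * a1 = a1 * b2 := d4.eq.symm
  calc a0 * (a1⁻¹ * b1⁻¹) * b2 * χ * B * (a0 * (a1⁻¹ * b1⁻¹ * a1) * (b2 * a2⁻¹ * b2⁻¹ * a2))
      = a0 * (a1⁻¹ * b1⁻¹) * b2 * χ * ((B * a0 * B⁻¹) * (B * a1 * B⁻¹)⁻¹ * (B * b1 * B⁻¹)⁻¹ *
          (B * a1 * B⁻¹) * (B * (b2 * a2⁻¹ * b2⁻¹ * a2) * B⁻¹)) * B := by group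
    _ = a0 * (a1⁻¹ * b1⁻¹) * b2 * χ * (a1 * a2⁻¹ * b2⁻¹ * a2 * χ⁻¹) * B := by
        rw [k0, hB1, hB2, hB4]
    _ = a0 * (a1⁻¹ * b1⁻¹) * b2 * (χ * (a1 * a2⁻¹ * b2⁻¹ * a2)) * χ⁻¹ * B := by group
    _ = a0 * (a1⁻¹ * b1⁻¹) * (b2 * a1) * a2⁻¹ * b2⁻¹ * a2 * B := by rw [k1]; group
    _ = _ := by rw [k2]; group

/-- The handle identity. -/
theorem handle {G : Type} [Group G] (A B F χ a0 a1 a2 b0 b1 b2 h : G) (hB : B = A * F)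
    (hA1 : A * a1 * A⁻¹ = a0) (hA2 : A * a2 * A⁻¹ = a1) (hA3 : A * b1 * A⁻¹ = b0) (hA4 : A * b2 * A⁻¹ = b1)
    (hB1 : B * a0 * B⁻¹ = a1) (hB2 : B * a1 * B⁻¹ = a2) (hB3 : B * b0 * B⁻¹ = b1) (hB4 : B * b1 * B⁻¹ = b2)
    (c1 : Commute a0 a1) (c2 : Commute a0 a2) (c3 : Commute a1 a2)
    (c4 : Commute b0 b1) (c5 : Commute b0 b2) (c6 : Commute b1 b2)
    (d1 : Commute a0 b1) (d2 : Commute a0 b2) (d3 : Commute a1 b0) (d4 : Commute a1 b2)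
    (d5 : Commute a2 b0) (d6 : Commute a2 b1)
    (e1 : Commute χ a0) (e2 : Commute χ a1) (e3 : Commute χ a2)
    (e4 : Commute χ b0) (e5 : Commute χ b1) (e6 : Commute χ b2)
    (hχ : χ * (B * (b2 * a2⁻¹ * b2⁻¹ * a2) * B⁻¹) = 1) (hh : h * (χ * A) * h⁻¹ = B) :
    ∃ X H : G, X = (a0 * (a1⁻¹ * b1⁻¹) * b2 * χ * A)⁻¹ ∧
      H = (a0 * (a1⁻¹ * b1⁻¹ * a1) * (b2 * a2⁻¹ * b2⁻¹ * a2)) * h * (a1⁻¹ * b2)⁻¹ ∧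
      F = X * H * X⁻¹ * H⁻¹ := by
  refine ⟨_, _, rfl, rfl, ?_⟩
  have hi := handle_i A χ a0 a1 b1 b2 hA1 hA4 c1 c6 d1 d2 e1 e5
  have hii := handle_ii B χ a0 a1 a2 b1 b2 hB1 hB2 hB4 d4 e2 e3 e6 hχ
  generalize a0 * (a1⁻¹ * b1⁻¹) * b2 = u at *
  generalize a0 * (a1⁻¹ * b1⁻¹ * a1) * (b2 * a2⁻¹ * b2⁻¹ * a2) = k at *
  generalize a1⁻¹ * b2 = kA at *
  have hF : F = A⁻¹ * B := by rw [hB]; group
  have h1 : χ * A = kA⁻¹ * (u * χ * A) * kA := by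
    calc χ * A = kA⁻¹ * (kA * (χ * A)) := by group
      _ = kA⁻¹ * (u * χ * A * kA) := by rw [hi]
      _ = _ := by group
  have h2 : u * χ * B = k * B * k⁻¹ := by
    calc u * χ * B = (u * χ * B * k) * k⁻¹ := by group
      _ = _ := by rw [hii]
  calc F = (u * χ * A)⁻¹ * (u * χ * B) := by rw [hF]; group
    _ = (u * χ * A)⁻¹ * (k * (h * (χ * A) * h⁻¹) * k⁻¹) := by rw [h2, hh]
    _ = (u * χ * A)⁻¹ * (k * (h * (kA⁻¹ * (u * χ * A) * kA) * h⁻¹) * k⁻¹) := by rw [← h1]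
    _ = _ := by group

end Pool.Agent.Helper339.CW
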