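import Mathlib
import Pool.Agent.Helper339.CW.Defs
import Pool.Agent.Helper339.CW.P_basics

set_option autoImplicit false

open scoped ContDiff Manifold
open MeasureTheory Set

namespace Pool.Agent.Helper339.CW


/-! ### TARGET: prove this. Prefix the names of all your auxiliary lemmas with h_zero_ -/

theorem h_zero_pow_succ_inv (A : Equiv.Perm ℝ) (n : ℕ) (x : ℝ) :
    (A ^ (n + 1))⁻¹ x = A⁻¹ ((A ^ n)⁻¹ x) := by
  rw [pow_succ, mul_inv_rev, Equiv.Perm.mul_apply]

theorem h_zero_sm_pow {A : Equiv.Perm ℝ} (hA : SM A) (n : ℕ) : SM (A ^ n) := by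
  induction n with
  | zero => rw [pow_zero]; exact sm_one
  | succ n ih => rw [pow_succ]; exact sm_mul ih hA

theorem h_zero_negL {L : ℝ} {A : Equiv.Perm ℝ} (hA : IsD L A) (hA0 : A 0 = 0) : A (-L) = -L := by
  have h := hA.2 (-L)
  rw [neg_add_cancel, hA0] at h
  linarith

theorem h_zero_mem {L : ℝ} {A : Equiv.Perm ℝ} (hA : IsD L A) (hA0 : A 0 = 0) {x : ℝ}
    (hx : x ∈ Ioo (-L) 0) : A x ∈ Ioo (-L) 0 := by
  have h1 : A (-L) < A x := hA.1.2.2 hx.1
  have h2 : A x < A 0 := hA.1.2.2 hx.2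
  rw [h_zero_negL hA hA0] at h1
  rw [hA0] at h2
  exact ⟨h1, h2⟩

theorem h_zero_inv_zero {A : Equiv.Perm ℝ} (hA0 : A 0 = 0) : A⁻¹ 0 = 0 := by
  rw [Equiv.Perm.inv_eq_iff_eq, hA0]

theorem h_zero_mem_pow {L : ℝ} {A : Equiv.Perm ℝ} (hA : IsD L A) (hA0 : A 0 = 0) (n : ℕ) {x : ℝ}
    (hx : x ∈ Ioo (-L) 0) : (A ^ n) x ∈ Ioo (-L) 0 := by
  induction n with
  | zero => simpa using hx
  | succ n ih =>
    rw [pow_succ', Equiv.Perm.mul_apply]
    exact h_zero_mem hA hA0 ih

theorem h_zero_conv (L : ℝ) (A : Equiv.Perm ℝ) (hA : IsD L A) (i : ℝ)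
    (hi : -L < i ∧ i < 0) (hA0 : A 0 = 0) (hAi : A i = i)
    (hA1 : ∀ x, i < x → x < 0 → x < A x) (hA2 : ∀ x, -L < x → x < i → A x < x)
    (x : ℝ) (hx : x ∈ Ioo (-L) 0) :
    Filter.Tendsto (fun n : ℕ => (A ^ n)⁻¹ x) Filter.atTop (nhds i) := by
  have hmono := hA.1.2.2
  have hcont : Continuous (fun x => A x) := hA.1.1.continuous
  have hAiinv : A⁻¹ i = i := by rw [Equiv.Perm.inv_eq_iff_eq, hAi]
  have hinvmono : StrictMono (fun x => A⁻¹ x) := (sm_inv hA.1).2.2
  set a : ℕ → ℝ := fun n => (A ^ n)⁻¹ x with ha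
  have hsucc : ∀ n, a (n + 1) = A⁻¹ (a n) := fun n => h_zero_pow_succ_inv A n x
  have hAsucc : ∀ n, A (a (n + 1)) = a n := by
    intro n; rw [hsucc]; exact Equiv.apply_symm_apply A (a n)
  have ha0 : a 0 = x := by
    show (A ^ 0)⁻¹ x = x
    rw [pow_zero, inv_one]; rfl
  have hinvmem : ∀ n, a n ∈ Ioo (-L) 0 := by
    intro n
    induction n with
    | zero => rw [ha0]; exact hx
    | succ n ih => rw [hsucc]; exact h_zero_mem (isd_inv hA) (h_zero_inv_zero hA0) ih
  have hfix : ∀ l, Filter.Tendsto a Filter.atTop (nhds l) → A l = l := by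
    intro l hl
    have h1 : Filter.Tendsto (fun n => A (a (n + 1))) Filter.atTop (nhds (A l)) :=
      (hcont.tendsto l).comp ((Filter.tendsto_add_atTop_iff_nat 1).mpr hl)
    have h2 : (fun n => A (a (n + 1))) = a := funext hAsucc
    rw [h2] at h1
    exact tendsto_nhds_unique h1 hl
  rcases le_or_gt i x with h | h
  · have hge : ∀ n, i ≤ a n := by
      intro n
      induction n with
      | zero => rw [ha0]; exact h
      | succ n ih =>
        rw [hsucc]
        have h3 : A⁻¹ i ≤ A⁻¹ (a n) := hinvmono.monotone ih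
        rwa [hAiinv] at h3
    have hanti : Antitone a := by
      refine antitone_nat_of_succ_le (fun n => ?_)
      have h1 : a (n + 1) ≤ A (a (n + 1)) := by
        rcases eq_or_lt_of_le (hge (n + 1)) with h2 | h2
        · rw [← h2, hAi]
        · exact (hA1 _ h2 (hinvmem (n + 1)).2).le
      rw [hAsucc] at h1
      exact h1
    have hbdd : BddBelow (Set.range a) := ⟨i, by rintro _ ⟨n, rfl⟩; exact hge n⟩
    have ht := tendsto_atTop_ciInf hanti hbdd
    have hf := hfix _ ht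
    have hl1 : i ≤ ⨅ n, a n := le_ciInf hge
    have hl2 : (⨅ n, a n) < 0 := (ciInf_le hbdd 0).trans_lt (hinvmem 0).2
    have : (⨅ n, a n) = i := by
      by_contra hne
      have := hA1 _ (lt_of_le_of_ne hl1 (Ne.symm hne)) hl2
      rw [hf] at this
      exact lt_irrefl _ this
    rw [this] at ht
    exact ht
  · have hle : ∀ n, a n ≤ i := by
      intro n
      induction n with
      | zero => rw [ha0]; exact h.le
      | succ n ih =>
        rw [hsucc]
        have h3 : A⁻¹ (a n) ≤ A⁻¹ i := hinvmono.monotone ih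
        rwa [hAiinv] at h3
    have hm : Monotone a := by
      refine monotone_nat_of_le_succ (fun n => ?_)
      have h1 : A (a (n + 1)) ≤ a (n + 1) := by
        rcases eq_or_lt_of_le (hle (n + 1)) with h2 | h2
        · rw [h2, hAi]
        · exact (hA2 _ (hinvmem (n + 1)).1 h2).le
      rw [hAsucc] at h1
      exact h1
    have hbdd : BddAbove (Set.range a) := ⟨i, by rintro _ ⟨n, rfl⟩; exact hle n⟩
    have ht := tendsto_atTop_ciSup hm hbdd
    have hf := hfix _ ht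
    have hl1 : (⨆ n, a n) ≤ i := ciSup_le hle
    have hl2 : -L < ⨆ n, a n := (hinvmem 0).1.trans_le (le_ciSup hbdd 0)
    have : (⨆ n, a n) = i := by
      by_contra hne
      have := hA2 _ hl2 (lt_of_le_of_ne hl1 hne)
      rw [hf] at this
      exact lt_irrefl _ this
    rw [this] at ht
    exact ht

/-- The conjugacy on the complement of the sinks, obtained from the sources (sinks at `0`). -/
theorem h_zero (L : ℝ) (A B : Equiv.Perm ℝ) (hA : IsD L A) (hB : IsD L B) (i j : ℝ)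
    (hi : -L < i ∧ i < 0) (hj : -L < j ∧ j < 0)
    (hA0 : A 0 = 0) (hB0 : B 0 = 0)
    (hA1 : ∀ x, i < x → x < 0 → x < A x) (hA2 : ∀ x, -L < x → x < i → A x < x)
    (hB1 : ∀ x, j < x → x < 0 → x < B x) (hB2 : ∀ x, -L < x → x < j → B x < x)
    (δ : ℝ) (hδ : 0 < δ)
    (hAs : ∀ x, |x - i| < δ → A x = i + 2 * (x - i)) (hBs : ∀ x, |x - j| < δ → B x = j + 2 * (x - j)) :
    ∃ h0 : ℝ → ℝ, ContDiffOn ℝ ∞ h0 (Ioo (-L) 0) ∧ (∀ x ∈ Ioo (-L) 0, 0 < deriv h0 x) ∧
      StrictMonoOn h0 (Ioo (-L) 0) ∧ h0 '' (Ioo (-L) 0) = Ioo (-L) 0 ∧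
      ∀ x ∈ Ioo (-L) 0, h0 (A x) = B (h0 x) := by
  classical
  have hAi : A i = i := by
    have := hAs i (by simpa using hδ)
    simpa using this
  have hBj : B j = j := by
    have := hBs j (by simpa using hδ)
    simpa using this
  have hAinv : ∀ y, |y - i| < δ → A⁻¹ y = i + (y - i) / 2 := by
    intro y hy
    rw [Equiv.Perm.inv_eq_iff_eq, hAs]
    · ring
    · rw [show i + (y - i) / 2 - i = (y - i) / 2 by ring, abs_div, abs_two]
      have := abs_nonneg (y - i)
      linarith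
  have convA := h_zero_conv L A hA i hi hA0 hAi hA1 hA2
  have convB := h_zero_conv L B hB j hj hB0 hBj hB1 hB2
  have exA : ∀ x ∈ Ioo (-L) 0, ∀ e : ℝ, 0 < e → ∃ N : ℕ, ∀ n ≥ N, |(A ^ n)⁻¹ x - i| < e := by
    intro x hx e he
    have := Metric.tendsto_atTop.mp (convA x hx) e he
    simpa [Real.dist_eq] using this
  have exB : ∀ x ∈ Ioo (-L) 0, ∀ e : ℝ, 0 < e → ∃ N : ℕ, ∀ n ≥ N, |(B ^ n)⁻¹ x - j| < e := by
    intro x hx e he
    have := Metric.tendsto_atTop.mp (convB x hx) e he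
    simpa [Real.dist_eq] using this
  -- the approximations
  set P : ℕ → Equiv.Perm ℝ := fun n => B ^ n * tr (j - i) * (A ^ n)⁻¹ with hP
  have hPsm : ∀ n, SM (P n) := fun n =>
    sm_mul (sm_mul (h_zero_sm_pow hB.1 n) (sm_tr _)) (sm_inv (h_zero_sm_pow hA.1 n))
  have hPapp : ∀ n x, P n x = (B ^ n) ((A ^ n)⁻¹ x + (j - i)) := by
    intro n x
    simp only [hP, Equiv.Perm.mul_apply, tr_apply]
  have hstep : ∀ n x, |(A ^ n)⁻¹ x - i| < δ →
      |(A ^ (n + 1))⁻¹ x - i| < δ ∧ P (n + 1) x = P n x := by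
    intro n x hx
    have h1 : (A ^ (n + 1))⁻¹ x = i + ((A ^ n)⁻¹ x - i) / 2 := by
      rw [h_zero_pow_succ_inv, hAinv _ hx]
    have habs : |((A ^ n)⁻¹ x - i) / 2| < δ := by
      rw [abs_div, abs_two]
      have := abs_nonneg ((A ^ n)⁻¹ x - i)
      linarith
    refine ⟨?_, ?_⟩
    · rw [h1, show i + ((A ^ n)⁻¹ x - i) / 2 - i = ((A ^ n)⁻¹ x - i) / 2 by ring]
      exact habs
    · rw [hPapp, hPapp, h1, pow_succ, Equiv.Perm.mul_apply, hBs]
      · congr 1; ring
      · rw [show i + ((A ^ n)⁻¹ x - i) / 2 + (j - i) - j = ((A ^ n)⁻¹ x - i) / 2 by ring]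
        exact habs
  have hsteps : ∀ n x, |(A ^ n)⁻¹ x - i| < δ → ∀ k, |(A ^ (n + k))⁻¹ x - i| < δ ∧
      P (n + k) x = P n x := by
    intro n x hx k
    induction k with
    | zero => exact ⟨hx, rfl⟩
    | succ k ih =>
      have := hstep (n + k) x ih.1
      exact ⟨this.1, this.2.trans ih.2⟩
  have heq : ∀ n m x, |(A ^ n)⁻¹ x - i| < δ → |(A ^ m)⁻¹ x - i| < δ → P n x = P m x := by
    intro n m x hn hm
    rcases le_total n m with h | h
    · obtain ⟨k, rfl⟩ := Nat.exists_eq_add_of_le h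
      exact (hsteps n x hn k).2.symm
    · obtain ⟨k, rfl⟩ := Nat.exists_eq_add_of_le h
      exact (hsteps m x hm k).2
  set h0 : ℝ → ℝ := fun x => if h : ∃ n : ℕ, |(A ^ n)⁻¹ x - i| < δ then P (Nat.find h) x else 0
    with hh0
  have hval : ∀ n x, |(A ^ n)⁻¹ x - i| < δ → h0 x = P n x := by
    intro n x hx
    have hex : ∃ n : ℕ, |(A ^ n)⁻¹ x - i| < δ := ⟨n, hx⟩
    simp only [hh0, dif_pos hex]
    exact heq _ _ x (Nat.find_spec hex) hx
  have hloc : ∀ x ∈ Ioo (-L) 0, ∃ n : ℕ, |(A ^ n)⁻¹ x - i| < δ ∧ h0 =ᶠ[nhds x] fun y => P n y := by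
    intro x hx
    obtain ⟨N, hN⟩ := exA x hx δ hδ
    refine ⟨N, hN N le_rfl, ?_⟩
    have hc : Continuous fun y => |(A ^ N)⁻¹ y - i| :=
      ((h_zero_sm_pow hA.1 N).2.1.continuous.sub continuous_const).abs
    have : {y | |(A ^ N)⁻¹ y - i| < δ} ∈ nhds x :=
      (isOpen_lt hc continuous_const).mem_nhds (hN N le_rfl)
    filter_upwards [this] with y hy
    exact hval N y hy
  refine ⟨h0, ?_, ?_, ?_, ?_, ?_⟩
  · intro x hx
    obtain ⟨n, _, hn⟩ := hloc x hx
    exact ((hPsm n).1.contDiffAt.congr_of_eventuallyEq hn).contDiffWithinAt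
  · intro x hx
    obtain ⟨n, _, hn⟩ := hloc x hx
    rw [hn.deriv_eq]
    exact sm_deriv_pos (hPsm n) x
  · intro x hx y hy hxy
    obtain ⟨N, hN⟩ := exA x hx δ hδ
    obtain ⟨M, hM⟩ := exA y hy δ hδ
    rw [hval (max N M) x (hN _ (le_max_left _ _)), hval (max N M) y (hM _ (le_max_right _ _))]
    exact (hPsm _).2.2 hxy
  · ext y
    constructor
    · rintro ⟨x, hx, rfl⟩
      have he : 0 < min δ (min (j + L) (-j)) :=
        lt_min hδ (lt_min (by linarith [hj.1]) (by linarith [hj.2]))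
      obtain ⟨N, hN⟩ := exA x hx _ he
      have h1 := hN N le_rfl
      rw [hval N x (h1.trans_le (min_le_left _ _)), hPapp]
      apply h_zero_mem_pow hB hB0
      have h2 : |(A ^ N)⁻¹ x - i| < j + L :=
        h1.trans_le ((min_le_right _ _).trans (min_le_left _ _))
      have h3 : |(A ^ N)⁻¹ x - i| < -j :=
        h1.trans_le ((min_le_right _ _).trans (min_le_right _ _))
      rw [abs_lt] at h2 h3
      exact ⟨by linarith [h2.1], by linarith [h3.2]⟩
    · intro hy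
      have he : 0 < min δ (min (i + L) (-i)) :=
        lt_min hδ (lt_min (by linarith [hi.1]) (by linarith [hi.2]))
      obtain ⟨N, hN⟩ := exB y hy _ he
      have h1 := hN N le_rfl
      have h2 : |(B ^ N)⁻¹ y - j| < i + L :=
        h1.trans_le ((min_le_right _ _).trans (min_le_left _ _))
      have h3 : |(B ^ N)⁻¹ y - j| < -i :=
        h1.trans_le ((min_le_right _ _).trans (min_le_right _ _))
      rw [abs_lt] at h2 h3
      refine ⟨(A ^ N) ((B ^ N)⁻¹ y - j + i), ?_, ?_⟩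
      · apply h_zero_mem_pow hA hA0
        exact ⟨by linarith [h2.1], by linarith [h3.2]⟩
      · have hinv : (A ^ N)⁻¹ ((A ^ N) ((B ^ N)⁻¹ y - j + i)) = (B ^ N)⁻¹ y - j + i :=
          Equiv.symm_apply_apply _ _
        rw [hval N _ (by rw [hinv]; simpa using h1.trans_le (min_le_left _ _)), hPapp, hinv,
          show (B ^ N)⁻¹ y - j + i + (j - i) = (B ^ N)⁻¹ y by ring]
        exact Equiv.apply_symm_apply _ _
  · intro x hx
    obtain ⟨N, hN⟩ := exA x hx δ hδ
    have h1 := hN N le_rfl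
    have h2 : (A ^ (N + 1))⁻¹ (A x) = (A ^ N)⁻¹ x := by
      rw [pow_succ', mul_inv_rev, Equiv.Perm.mul_apply]
      exact congrArg _ (Equiv.symm_apply_apply A x)
    rw [hval N x h1, hval (N + 1) (A x) (by rw [h2]; exact h1), hPapp, hPapp, h2, pow_succ',
      Equiv.Perm.mul_apply]

end Pool.Agent.Helper339.CW
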