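import Mathlib
import Pool.Agent.Helper339.CW.Defs
import Pool.Agent.Helper339.CW.P_basics

set_option autoImplicit false

open scoped ContDiff Manifold
open MeasureTheory Set

namespace Pool.Agent.Helper339.CW


/-! ### TARGET: prove this. Prefix the names of all your auxiliary lemmas with transport_ -/

/-- auxiliary function -/
noncomputable def transport_g (e : Equiv.Perm ℝ) (x : ℝ) : ℝ :=
  if 0 < x then (Real.log (e (Real.exp x⁻¹)))⁻¹ else x

lemma transport_gt_one {e : Equiv.Perm ℝ} (he : SM e) {N0 N1 : ℝ} (s : SuppIn e N0 N1)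
    (h1 : 1 < N0) {x : ℝ} (hx : 0 < x) : 1 < e (Real.exp x⁻¹) := by
  have h : e 1 = 1 := s 1 (Or.inl h1.le)
  have h2 : (1 : ℝ) < Real.exp x⁻¹ := by
    rw [← Real.exp_zero]
    exact Real.exp_lt_exp.2 (inv_pos.2 hx)
  have := he.2.2 h2
  simp only at this
  rwa [h] at this

lemma transport_g_pos {e : Equiv.Perm ℝ} (he : SM e) {N0 N1 : ℝ} (s : SuppIn e N0 N1)
    (h1 : 1 < N0) {x : ℝ} (hx : 0 < x) : 0 < transport_g e x := by
  unfold transport_g
  rw [if_pos hx]
  exact inv_pos.2 (Real.log_pos (transport_gt_one he s h1 hx))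

lemma transport_g_of_fix {e : Equiv.Perm ℝ} {x : ℝ} (hx : 0 < x)
    (h : e (Real.exp x⁻¹) = Real.exp x⁻¹) : transport_g e x = x := by
  unfold transport_g
  rw [if_pos hx, h, Real.log_exp, inv_inv]

lemma transport_g_nonpos {e : Equiv.Perm ℝ} {x : ℝ} (hx : x ≤ 0) : transport_g e x = x := by
  unfold transport_g
  rw [if_neg (not_lt.2 hx)]

lemma transport_g_small {e : Equiv.Perm ℝ} {N0 N1 : ℝ} (s : SuppIn e N0 N1)
    (h1 : 1 < N1) {x : ℝ} (hx : x < (Real.log N1)⁻¹) : transport_g e x = x := by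
  rcases le_or_gt x 0 with h | h
  · exact transport_g_nonpos h
  · apply transport_g_of_fix h
    apply s
    right
    have hl : 0 < Real.log N1 := Real.log_pos h1
    have h2 : Real.log N1 < x⁻¹ := by
      rw [lt_inv_comm₀ hl h]
      exact hx
    calc N1 = Real.exp (Real.log N1) := (Real.exp_log (by linarith)).symm
      _ ≤ Real.exp x⁻¹ := Real.exp_le_exp.2 h2.le

lemma transport_g_large {e : Equiv.Perm ℝ} {N0 N1 η : ℝ} (hη : 0 < η) (s : SuppIn e N0 N1)
    (hN : Real.exp (1 / η) < N0) {x : ℝ} (hx : η ≤ x) : transport_g e x = x := by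
  have h : 0 < x := hη.trans_le hx
  apply transport_g_of_fix h
  apply s
  left
  have h2 : x⁻¹ ≤ 1 / η := by
    rw [one_div]
    exact inv_anti₀ hη hx
  exact (Real.exp_le_exp.2 h2).trans hN.le

lemma transport_g_lt {e : Equiv.Perm ℝ} (he : SM e) {N0 N1 η : ℝ} (hη : 0 < η)
    (s : SuppIn e N0 N1) (hN : Real.exp (1 / η) < N0) {x : ℝ} (hx : 0 < x) (hx2 : x < η) :
    transport_g e x < η := by
  unfold transport_g
  rw [if_pos hx]
  have h0 : e (Real.exp (1 / η)) = Real.exp (1 / η) := s _ (Or.inl hN.le)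
  have h1 : Real.exp (1 / η) < Real.exp x⁻¹ := by
    apply Real.exp_lt_exp.2
    rw [one_div]
    exact inv_strictAnti₀ hx hx2
  have h2 := he.2.2 h1
  simp only at h2
  rw [h0] at h2
  have h3 : 1 / η < Real.log (e (Real.exp x⁻¹)) := by
    rw [Real.lt_log_iff_exp_lt (lt_trans (Real.exp_pos _) h2)]
    exact h2
  have h4 : 0 < 1 / η := by positivity
  calc (Real.log (e (Real.exp x⁻¹)))⁻¹ < (1 / η)⁻¹ := inv_strictAnti₀ h4 h3
    _ = η := by rw [one_div, inv_inv]

lemma transport_g_exp {e : Equiv.Perm ℝ} (he : SM e) {N0 N1 : ℝ}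
    (s : SuppIn e N0 N1) (h1 : 1 < N0) {x : ℝ} (hx : 0 < x) :
    Real.exp (1 / transport_g e x) = e (Real.exp (1 / x)) := by
  unfold transport_g
  rw [if_pos hx, one_div, inv_inv, one_div]
  exact Real.exp_log (by linarith [transport_gt_one he s h1 hx])

lemma transport_g_contDiff {e : Equiv.Perm ℝ} (he : SM e) {N0 N1 : ℝ}
    (s : SuppIn e N0 N1) (h1 : 1 < N0) (h01 : N0 < N1) : ContDiff ℝ ∞ (transport_g e) := by
  rw [contDiff_iff_contDiffAt]
  intro x
  rcases lt_or_ge x (Real.log N1)⁻¹ with h | h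
  · have : transport_g e =ᶠ[nhds x] id := by
      filter_upwards [Iio_mem_nhds h] with y hy
      exact transport_g_small s (h1.trans h01) hy
    exact contDiffAt_id.congr_of_eventuallyEq this
  · have hx : 0 < x := lt_of_lt_of_le (inv_pos.2 (Real.log_pos (h1.trans h01))) h
    have heq : transport_g e =ᶠ[nhds x] fun x => (Real.log (e (Real.exp x⁻¹)))⁻¹ := by
      filter_upwards [Ioi_mem_nhds hx] with y hy
      unfold transport_g
      rw [if_pos (Set.mem_Ioi.1 hy)]
    refine ContDiffAt.congr_of_eventuallyEq ?_ heq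
    have hg := transport_gt_one he s h1 hx
    have c1 : ContDiffAt ℝ ∞ (fun x : ℝ => x⁻¹) x := contDiffAt_inv ℝ hx.ne'
    have c2 : ContDiffAt ℝ ∞ (fun x : ℝ => Real.exp x⁻¹) x := c1.exp
    have c3 : ContDiffAt ℝ ∞ (fun x : ℝ => e (Real.exp x⁻¹)) x :=
      (he.1.contDiffAt (x := Real.exp x⁻¹)).comp x c2
    have c4 : ContDiffAt ℝ ∞ (fun x : ℝ => Real.log (e (Real.exp x⁻¹))) x :=
      c3.log (by linarith)
    exact c4.inv (Real.log_pos hg).ne'

lemma transport_g_deriv {e : Equiv.Perm ℝ} (he : SM e) {N0 N1 : ℝ}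
    (s : SuppIn e N0 N1) (h1 : 1 < N0) (h01 : N0 < N1) (x : ℝ) :
    0 < deriv (transport_g e) x := by
  rcases lt_or_ge x (Real.log N1)⁻¹ with h | h
  · have : transport_g e =ᶠ[nhds x] id := by
      filter_upwards [Iio_mem_nhds h] with y hy
      exact transport_g_small s (h1.trans h01) hy
    rw [this.deriv_eq, deriv_id]
    exact one_pos
  · have hx : 0 < x := lt_of_lt_of_le (inv_pos.2 (Real.log_pos (h1.trans h01))) h
    have heq : transport_g e =ᶠ[nhds x] fun x => (Real.log (e (Real.exp x⁻¹)))⁻¹ := by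
      filter_upwards [Ioi_mem_nhds hx] with y hy
      unfold transport_g
      rw [if_pos (Set.mem_Ioi.1 hy)]
    rw [heq.deriv_eq]
    have hg := transport_gt_one he s h1 hx
    have hl := Real.log_pos hg
    have hd := sm_deriv_pos he (Real.exp x⁻¹)
    have c1 : HasDerivAt (fun x : ℝ => x⁻¹) (-(x ^ 2)⁻¹) x := hasDerivAt_inv hx.ne'
    have c2 := c1.exp
    have c3 : HasDerivAt (fun y => e y) (deriv (fun y => e y) (Real.exp x⁻¹)) (Real.exp x⁻¹) :=
      ((he.1.differentiable (by simp)) _).hasDerivAt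
    have c4 := c3.comp x c2
    have c5 := c4.log (by simp only [Function.comp]; linarith)
    have c6 := c5.inv (by simp only [Function.comp]; exact hl.ne')
    have c7 := c6.deriv
    simp only [Function.comp_def] at c7
    rw [show (fun x => (Real.log (e (Real.exp x⁻¹)))⁻¹) = (fun y => Real.log (e (Real.exp y⁻¹)))⁻¹ from rfl, c7]
    have e1 : 0 < Real.exp x⁻¹ := Real.exp_pos _
    have e2 : 0 < (x ^ 2)⁻¹ := by positivity
    have e3 : 0 < deriv (fun y => e y) (Real.exp x⁻¹) * (Real.exp x⁻¹ * (x ^ 2)⁻¹) := by positivity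
    have e4 : 0 < e (Real.exp x⁻¹) := by linarith
    have e5 : 0 < deriv (fun y => e y) (Real.exp x⁻¹) * (Real.exp x⁻¹ * (x ^ 2)⁻¹) /
      e (Real.exp x⁻¹) / Real.log (e (Real.exp x⁻¹)) ^ 2 := by positivity
    calc (0 : ℝ) < _ := e5
      _ = _ := by ring

/-- Transport of compactly supported diffeomorphisms of the zone coordinates to the circle. -/
theorem transport (L η : ℝ) (hη : 0 < η) (hL : 2 * η < L) (N0 N1 : ℝ) (hN : Real.exp (1 / η) < N0) (hN1 : N0 < N1)
    (e₁ e₂ : Equiv.Perm ℝ) (h1 : SM e₁) (h2 : SM e₂) (s1 : SuppIn e₁ N0 N1) (s2 : SuppIn e₂ N0 N1) :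
    ∃ E : Equiv.Perm ℝ, IsD L E ∧ (∀ x, η ≤ x → x ≤ L - η → E x = x) ∧ E 0 = 0 ∧
      (∀ x, -η < x → x < 0 → -η < E x ∧ E x < 0 ∧ Real.exp (-1 / E x) = e₁ (Real.exp (-1 / x))) ∧
      (∀ x, 0 < x → x < η → 0 < E x ∧ E x < η ∧ Real.exp (1 / E x) = e₂ (Real.exp (1 / x))) := by
  have hone : 1 < N0 := by
    refine lt_trans ?_ hN
    rw [← Real.exp_zero]
    exact Real.exp_lt_exp.2 (by positivity)
  have hL0 : 0 < L := by linarith
  -- the local map
  let f0 : ℝ → ℝ := fun x => - transport_g e₁ (-(transport_g e₂ x))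
  have hf0pos : ∀ x, 0 < x → f0 x = transport_g e₂ x := by
    intro x hx
    show - transport_g e₁ (-(transport_g e₂ x)) = _
    rw [transport_g_nonpos (by linarith [transport_g_pos h2 s2 hone hx]), neg_neg]
  have hf0neg : ∀ x, x ≤ 0 → f0 x = - transport_g e₁ (-x) := by
    intro x hx
    show - transport_g e₁ (-(transport_g e₂ x)) = _
    rw [transport_g_nonpos hx]
  have hf0id : ∀ x, η ≤ |x| → f0 x = x := by
    intro x hx
    rcases le_or_gt x 0 with h | h
    · rw [hf0neg x h]
      rw [abs_of_nonpos h] at hx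
      rw [transport_g_large hη s1 hN hx, neg_neg]
    · rw [hf0pos x h]
      rw [abs_of_pos h] at hx
      exact transport_g_large hη s2 hN hx
  have cg1 := transport_g_contDiff h1 s1 hone hN1
  have cg2 := transport_g_contDiff h2 s2 hone hN1
  have cf0 : ContDiff ℝ ∞ f0 := (cg1.comp cg2.neg).neg
  have df0 : ∀ x, 0 < deriv f0 x := by
    intro x
    have a1 : HasDerivAt (transport_g e₂) (deriv (transport_g e₂) x) x :=
      ((cg2.differentiable (by simp)) _).hasDerivAt
    have a2 : HasDerivAt (transport_g e₁) (deriv (transport_g e₁) (-(transport_g e₂ x)))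
      (-(transport_g e₂ x)) := ((cg1.differentiable (by simp)) _).hasDerivAt
    have a3 := (a2.comp x a1.neg).neg
    have a4 : deriv f0 x = -(deriv (transport_g e₁) (-(transport_g e₂ x)) *
      -(deriv (transport_g e₂) x)) := a3.deriv
    rw [a4]
    have b1 := transport_g_deriv h1 s1 hone hN1 (-(transport_g e₂ x))
    have b2 := transport_g_deriv h2 s2 hone hN1 x
    have b3 := mul_pos b1 b2
    linarith
  -- the periodic map
  let f : ℝ → ℝ := fun x => f0 (x - L * (round (x / L) : ℤ)) + L * (round (x / L) : ℤ)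
  have hround : ∀ x : ℝ, |x - L * (round (x / L) : ℤ)| ≤ L / 2 := by
    intro x
    have h := abs_sub_round (x / L)
    have e : x - L * (round (x / L) : ℤ) = L * (x / L - (round (x / L) : ℤ)) := by
      field_simp
    rw [e, abs_mul, abs_of_pos hL0]
    nlinarith
  have hfeq : ∀ (x : ℝ) (n : ℤ), |x - L * n| < L - η → f x = f0 (x - L * n) + L * n := by
    intro x n hx
    show f0 (x - L * (round (x / L) : ℤ)) + L * (round (x / L) : ℤ) = _
    set m : ℤ := round (x / L) with hm
    by_cases hmn : m = n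
    · rw [hmn]
    · have hr := hround x
      rw [← hm] at hr
      have hd : (1 : ℝ) ≤ |(m : ℝ) - n| := by
        have : (1 : ℤ) ≤ |m - n| := Int.one_le_abs (sub_ne_zero.2 hmn)
        exact_mod_cast this
      have htri : L * |(m : ℝ) - n| ≤ |x - L * m| + |x - L * n| := by
        have e : L * |(m : ℝ) - n| = |(x - L * n) - (x - L * m)| := by
          rw [← abs_of_pos hL0, ← abs_mul, abs_of_pos hL0]
          congr 1
          ring
        rw [e, add_comm]
        exact abs_sub _ _
      have hLm : L ≤ |x - L * m| + |x - L * n| := by nlinarith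
      rw [hf0id (x - L * m) (by linarith), hf0id (x - L * n) (by linarith)]
      ring
  have hloc : ∀ x0 : ℝ, f =ᶠ[nhds x0]
      fun x => f0 (x - L * (round (x0 / L) : ℤ)) + L * (round (x0 / L) : ℤ) := by
    intro x0
    have ho : IsOpen {x : ℝ | |x - L * (round (x0 / L) : ℤ)| < L - η} :=
      isOpen_lt (by fun_prop) continuous_const
    have hmem : x0 ∈ {x : ℝ | |x - L * (round (x0 / L) : ℤ)| < L - η} := by
      have := hround x0
      show |x0 - L * (round (x0 / L) : ℤ)| < L - η
      linarith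
    filter_upwards [ho.mem_nhds hmem] with x hx
    exact hfeq x _ hx
  have cf : ContDiff ℝ ∞ f := by
    rw [contDiff_iff_contDiffAt]
    intro x0
    refine ContDiffAt.congr_of_eventuallyEq ?_ (hloc x0)
    exact ((cf0.comp (contDiff_id.sub contDiff_const)).add contDiff_const).contDiffAt
  have df : ∀ x, 0 < deriv f x := by
    intro x0
    rw [(hloc x0).deriv_eq, deriv_add_const, deriv_comp_sub_const]
    exact df0 _
  have hper : ∀ x, f (x + L) = f x + L := by
    intro x
    show f0 (x + L - L * (round ((x + L) / L) : ℤ)) + L * (round ((x + L) / L) : ℤ) =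
      f0 (x - L * (round (x / L) : ℤ)) + L * (round (x / L) : ℤ) + L
    have e : (x + L) / L = x / L + 1 := by field_simp
    rw [e, round_add_one]
    push_cast
    have e2 : x + L - L * ((round (x / L) : ℤ) + 1 : ℝ) = x - L * (round (x / L) : ℤ) := by ring
    rw [e2]
    ring
  obtain ⟨E, hE, hEf⟩ := isd_of_deriv L hL0 f cf df hper
  have hwin : ∀ x, |x| < L - η → E x = f0 x := by
    intro x hx
    rw [hEf, hfeq x 0 (by simpa using hx)]
    simp
  refine ⟨E, hE, ?_, ?_, ?_, ?_⟩
  · intro x hx1 hx2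
    rcases lt_or_eq_of_le hx2 with h | h
    · rw [hwin x (by rw [abs_of_pos (by linarith)]; exact h)]
      exact hf0id x (by rw [abs_of_pos (by linarith)]; exact hx1)
    · have h3 : |x - L * (1 : ℤ)| < L - η := by
        rw [h]
        have : L - η - L * ((1 : ℤ) : ℝ) = -η := by push_cast; ring
        rw [this, abs_neg, abs_of_pos hη]
        linarith
      rw [hEf, hfeq x 1 h3, hf0id]
      · ring
      · rw [h]
        have : L - η - L * ((1 : ℤ) : ℝ) = -η := by push_cast; ring
        rw [this, abs_neg, abs_of_pos hη]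
  · rw [hwin 0 (by rw [abs_zero]; linarith), hf0neg 0 le_rfl, transport_g_nonpos (by simp)]
    simp
  · intro x hx1 hx2
    have hx3 : |x| < L - η := by rw [abs_of_neg hx2]; linarith
    rw [hwin x hx3, hf0neg x hx2.le]
    have p := transport_g_pos h1 s1 hone (x := -x) (by linarith)
    have q := transport_g_lt h1 hη s1 hN (x := -x) (by linarith) (by linarith)
    refine ⟨by linarith, by linarith, ?_⟩
    have r := transport_g_exp h1 s1 hone (x := -x) (by linarith)
    have e1 : -1 / -transport_g e₁ (-x) = 1 / transport_g e₁ (-x) := by rw [neg_div_neg_eq]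
    have e2 : -1 / x = 1 / (-x) := by rw [neg_div, ← div_neg]
    rw [e1, e2]
    exact r
  · intro x hx1 hx2
    have hx3 : |x| < L - η := by rw [abs_of_pos hx1]; linarith
    rw [hwin x hx3, hf0pos x hx1]
    exact ⟨transport_g_pos h2 s2 hone hx1, transport_g_lt h2 hη s2 hN hx1 hx2,
      transport_g_exp h2 s2 hone hx1⟩

end Pool.Agent.Helper339.CW
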