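import Mathlib
import Pool.Agent.Helper339.CW.Defs
import Pool.Agent.Helper339.CW.P_basics

set_option autoImplicit false

open scoped ContDiff Manifold
open MeasureTheory Set

namespace Pool.Agent.Helper339.CW


/-! ### TARGET: prove this. Prefix the names of all your auxiliary lemmas with small_schw_ -/

/-- the derivative of the path -/
noncomputable def small_schw_g (F : Equiv.Perm ℝ) (t x : ℝ) : ℝ :=
  1 - t + t * deriv (fun y => F y) x

/-- the domain -/
def small_schw_Om (F : Equiv.Perm ℝ) : Set (ℝ × ℝ × ℝ) :=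
  {p | 0 < small_schw_g F p.1 p.2.2 ∧ 0 < small_schw_g F p.2.1 p.2.2}

/-- the operator -/
noncomputable def small_schw_D (F : Equiv.Perm ℝ) (U : ℝ × ℝ × ℝ → ℝ) (p : ℝ × ℝ × ℝ) : ℝ :=
  fderiv ℝ U p (0, 0, 1) / small_schw_g F p.1 p.2.2

/-- the start -/
noncomputable def small_schw_U (F : Equiv.Perm ℝ) (p : ℝ × ℝ × ℝ) : ℝ :=
  Real.log (small_schw_g F p.2.1 p.2.2) - Real.log (small_schw_g F p.1 p.2.2)

/-- the iterates -/
noncomputable def small_schw_V (F : Equiv.Perm ℝ) : ℕ → ℝ × ℝ × ℝ → ℝ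
  | 0 => small_schw_U F
  | k + 1 => small_schw_D F (small_schw_V F k)

theorem small_schw_dcd (F : Equiv.Perm ℝ) (hF : IsD 1 F) :
    ContDiff ℝ ∞ (deriv (fun y => F y)) := by
  have h := hF.1.1
  have h2 : ContDiff ℝ (∞ + 1) (fun y => F y) := by
    simpa using h
  exact (contDiff_succ_iff_deriv.1 h2).2.2

theorem small_schw_g_cd (F : Equiv.Perm ℝ) (hF : IsD 1 F) :
    ContDiff ℝ ∞ (fun p : ℝ × ℝ => small_schw_g F p.1 p.2) := by
  have h := small_schw_dcd F hF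
  unfold small_schw_g
  exact (contDiff_const.sub contDiff_fst).add (contDiff_fst.mul (h.comp contDiff_snd))

theorem small_schw_g_pos (F : Equiv.Perm ℝ) (hF : IsD 1 F) {t : ℝ} (h0 : 0 ≤ t) (h1 : t ≤ 1)
    (x : ℝ) : 0 < small_schw_g F t x := by
  have h := sm_deriv_pos hF.1 x
  unfold small_schw_g
  rcases eq_or_lt_of_le h0 with h' | h'
  · rw [← h']; norm_num
  · have := mul_pos h' h
    linarith

theorem small_schw_deriv_per {f : ℝ → ℝ} {c : ℝ} (h : ∀ x, f (x + 1) = f x + c) (x : ℝ) :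
    deriv f (x + 1) = deriv f x := by
  have h1 : deriv (fun y => f (y + 1)) x = deriv f (x + 1) := deriv_comp_add_const f 1 x
  rw [← h1]
  have h2 : (fun y => f (y + 1)) = fun y => f y + c := funext h
  rw [h2, deriv_add_const]

theorem small_schw_g_per (F : Equiv.Perm ℝ) (hF : IsD 1 F) (t x : ℝ) :
    small_schw_g F t (x + 1) = small_schw_g F t x := by
  unfold small_schw_g
  rw [small_schw_deriv_per (f := fun y => F y) (c := 1) hF.2]

theorem small_schw_open (F : Equiv.Perm ℝ) (hF : IsD 1 F) : IsOpen (small_schw_Om F) := by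
  have hc := (small_schw_g_cd F hF).continuous
  have h0 : small_schw_Om F = {p : ℝ × ℝ × ℝ | 0 < small_schw_g F p.1 p.2.2} ∩
      {p : ℝ × ℝ × ℝ | 0 < small_schw_g F p.2.1 p.2.2} := rfl
  rw [h0]
  refine IsOpen.inter (isOpen_lt continuous_const ?_) (isOpen_lt continuous_const ?_)
  · exact hc.comp (continuous_fst.prodMk (continuous_snd.comp continuous_snd))
  · exact hc.comp ((continuous_fst.comp continuous_snd).prodMk (continuous_snd.comp continuous_snd))

theorem small_schw_g1 (F : Equiv.Perm ℝ) (hF : IsD 1 F) :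
    ContDiff ℝ ∞ (fun p : ℝ × ℝ × ℝ => small_schw_g F p.1 p.2.2) :=
  (small_schw_g_cd F hF).comp (contDiff_fst.prodMk (contDiff_snd.comp contDiff_snd))

theorem small_schw_g2 (F : Equiv.Perm ℝ) (hF : IsD 1 F) :
    ContDiff ℝ ∞ (fun p : ℝ × ℝ × ℝ => small_schw_g F p.2.1 p.2.2) :=
  (small_schw_g_cd F hF).comp
    ((contDiff_fst.comp contDiff_snd).prodMk (contDiff_snd.comp contDiff_snd))

theorem small_schw_path (F : Equiv.Perm ℝ) (hF : IsD 1 F) {U : ℝ × ℝ × ℝ → ℝ}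
    (hU : ContDiffOn ℝ ∞ U (small_schw_Om F)) {s t x : ℝ} (hp : (s, t, x) ∈ small_schw_Om F) :
    HasDerivAt (fun y => U (s, t, y)) (fderiv ℝ U (s, t, x) (0, 0, 1)) x := by
  have h1 : DifferentiableAt ℝ U (s, t, x) :=
    (hU.contDiffAt ((small_schw_open F hF).mem_nhds hp)).differentiableAt (by simp)
  have h2 : HasDerivAt (fun y : ℝ => ((s, t, y) : ℝ × ℝ × ℝ)) (0, 0, 1) x :=
    (hasDerivAt_const x s).prodMk ((hasDerivAt_const x t).prodMk (hasDerivAt_id x))
  exact h1.hasFDerivAt.comp_hasDerivAt x h2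

theorem small_schw_V_all (F : Equiv.Perm ℝ) (hF : IsD 1 F) (k : ℕ) :
    ContDiffOn ℝ ∞ (small_schw_V F k) (small_schw_Om F) ∧
    (∀ s x, (s, s, x) ∈ small_schw_Om F → small_schw_V F k (s, s, x) = 0) ∧
    (∀ s t x, small_schw_V F k (s, t, x + 1) = small_schw_V F k (s, t, x)) := by
  induction k with
  | zero =>
    refine ⟨?_, ?_, ?_⟩
    · refine ContDiffOn.sub ?_ ?_
      · exact (small_schw_g2 F hF).contDiffOn.log (fun p hp => hp.2.ne')
      · exact (small_schw_g1 F hF).contDiffOn.log (fun p hp => hp.1.ne')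
    · intro s x _
      show Real.log _ - Real.log _ = 0
      exact sub_self _
    · intro s t x
      show Real.log _ - Real.log _ = Real.log _ - Real.log _
      simp only [small_schw_g_per F hF]
  | succ k ih =>
    obtain ⟨h1, h2, h3⟩ := ih
    refine ⟨?_, ?_, ?_⟩
    · have h4 : ContDiffOn ℝ ∞ (fderiv ℝ (small_schw_V F k)) (small_schw_Om F) :=
        h1.fderiv_of_isOpen (small_schw_open F hF) (by simp)
      exact (h4.clm_apply contDiffOn_const).div (small_schw_g1 F hF).contDiffOn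
        (fun p hp => hp.1.ne')
    · intro s x hp
      have h4 := small_schw_path F hF h1 hp
      have h5 : HasDerivAt (fun y => small_schw_V F k (s, s, y)) 0 x := by
        have h6 : (fun y => small_schw_V F k (s, s, y)) =ᶠ[nhds x] fun _ => (0 : ℝ) := by
          have h7 : ContinuousAt (fun y : ℝ => ((s, s, y) : ℝ × ℝ × ℝ)) x := by fun_prop
          filter_upwards [h7.preimage_mem_nhds ((small_schw_open F hF).mem_nhds hp)] with y hy
          exact h2 s y hy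
        exact (hasDerivAt_const x (0 : ℝ)).congr_of_eventuallyEq h6
      show fderiv ℝ (small_schw_V F k) (s, s, x) (0, 0, 1) / _ = 0
      rw [h4.unique h5, zero_div]
    · intro s t x
      have h4 : (fun p => small_schw_V F k (p + (0, 0, 1))) = small_schw_V F k := by
        funext p
        obtain ⟨a, b, c⟩ := p
        have : ((a, b, c) + (0, 0, 1) : ℝ × ℝ × ℝ) = (a, b, c + 1) := by
          simp
        rw [this]
        exact h3 a b c
      have h5 := fderiv_comp_add_right (𝕜 := ℝ) (f := small_schw_V F k) (x := (s, t, x))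
        ((0, 0, 1) : ℝ × ℝ × ℝ)
      rw [h4] at h5
      have h6 : ((s, t, x) + (0, 0, 1) : ℝ × ℝ × ℝ) = (s, t, x + 1) := by simp
      rw [h6] at h5
      show fderiv ℝ (small_schw_V F k) (s, t, x + 1) (0, 0, 1) / small_schw_g F s (x + 1) =
        fderiv ℝ (small_schw_V F k) (s, t, x) (0, 0, 1) / small_schw_g F s x
      rw [← h5, small_schw_g_per F hF]

theorem small_schw_per_int {h : ℝ → ℝ} (hp : ∀ x, h (x + 1) = h x) (x : ℝ) :
    h (Int.fract x) = h x := by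
  have h1 : Function.Periodic h 1 := hp
  have h2 := h1.sub_zsmul_eq (x := x) ⌊x⌋
  rw [zsmul_one] at h2
  exact h2

theorem small_schw_unif (F : Equiv.Perm ℝ) (hF : IsD 1 F) (k : ℕ) (η : ℝ) (hη : 0 < η) :
    ∃ δ > 0, ∀ s t x : ℝ, 0 ≤ s → s ≤ 1 → 0 ≤ t → t ≤ 1 → |s - t| < δ →
      |small_schw_V F k (s, t, x)| ≤ η := by
  obtain ⟨h1, h2, h3⟩ := small_schw_V_all F hF k
  have hK : IsCompact ((Icc (0:ℝ) 1) ×ˢ (Icc (0:ℝ) 1) ×ˢ (Icc (0:ℝ) 1)) :=
    isCompact_Icc.prod (isCompact_Icc.prod isCompact_Icc)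
  have hsub : ((Icc (0:ℝ) 1) ×ˢ (Icc (0:ℝ) 1) ×ˢ (Icc (0:ℝ) 1)) ⊆ small_schw_Om F := by
    rintro ⟨s, t, x⟩ ⟨hs, ht, hx⟩
    exact ⟨small_schw_g_pos F hF hs.1 hs.2 x, small_schw_g_pos F hF ht.1 ht.2 x⟩
  have hc := hK.uniformContinuousOn_of_continuous (h1.continuousOn.mono hsub)
  rw [Metric.uniformContinuousOn_iff] at hc
  obtain ⟨δ, hδ, hc⟩ := hc η hη
  refine ⟨δ, hδ, ?_⟩
  intro s t x hs0 hs1 ht0 ht1 hst
  have hx : small_schw_V F k (s, t, Int.fract x) = small_schw_V F k (s, t, x) :=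
    small_schw_per_int (h := fun x => small_schw_V F k (s, t, x)) (h3 s t) x
  rw [← hx]
  have hm1 : ((s, t, Int.fract x) : ℝ × ℝ × ℝ) ∈ (Icc (0:ℝ) 1) ×ˢ (Icc (0:ℝ) 1) ×ˢ (Icc (0:ℝ) 1) :=
    ⟨⟨hs0, hs1⟩, ⟨ht0, ht1⟩, ⟨Int.fract_nonneg x, (Int.fract_lt_one x).le⟩⟩
  have hm2 : ((s, s, Int.fract x) : ℝ × ℝ × ℝ) ∈ (Icc (0:ℝ) 1) ×ˢ (Icc (0:ℝ) 1) ×ˢ (Icc (0:ℝ) 1) :=
    ⟨⟨hs0, hs1⟩, ⟨hs0, hs1⟩, ⟨Int.fract_nonneg x, (Int.fract_lt_one x).le⟩⟩
  have hd : dist ((s, t, Int.fract x) : ℝ × ℝ × ℝ) (s, s, Int.fract x) < δ := by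
    rw [Prod.dist_eq, Prod.dist_eq, dist_self, dist_self, Real.dist_eq]
    rw [abs_sub_comm] at hst
    simp [hst, hδ]
  have h4 := hc _ hm1 _ hm2 hd
  rw [h2 s _ (hsub hm2), Real.dist_eq, sub_zero] at h4
  exact h4.le

theorem small_schw_e (F : Equiv.Perm ℝ) (hF : IsD 1 F) (t : ℝ) (h0 : 0 ≤ t) (h1 : t ≤ 1) :
    ∃ e : Equiv.Perm ℝ, IsD 1 e ∧ ∀ x, e x = (1 - t) * x + t * F x := by
  have hd : ∀ x, HasDerivAt (fun x => (1 - t) * x + t * F x) (small_schw_g F t x) x := by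
    intro x
    have hf : HasDerivAt (fun y => F y) (deriv (fun y => F y) x) x :=
      ((hF.1.1.differentiable (by simp)) x).hasDerivAt
    have h2 := ((hasDerivAt_id x).const_mul (1 - t)).add (hf.const_mul t)
    have h3 : small_schw_g F t x = (1 - t) * 1 + t * deriv (fun y => F y) x := by
      unfold small_schw_g
      ring
    rw [h3]
    exact h2
  refine isd_of_deriv 1 one_pos (fun x => (1 - t) * x + t * F x) ?_ ?_ ?_
  · have := hF.1.1
    exact (contDiff_const.mul contDiff_id).add (contDiff_const.mul this)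
  · intro x
    rw [(hd x).deriv]
    exact small_schw_g_pos F hF h0 h1 x
  · intro x
    show (1 - t) * (x + 1) + t * F (x + 1) = (1 - t) * x + t * F x + 1
    rw [hF.2]; ring

theorem small_schw_e_der (F : Equiv.Perm ℝ) (hF : IsD 1 F) {t : ℝ} {e : Equiv.Perm ℝ}
    (he : ∀ x, e x = (1 - t) * x + t * F x) (x : ℝ) :
    HasDerivAt (fun y => e y) (small_schw_g F t x) x := by
  have h0 : (fun y => e y) = fun x => (1 - t) * x + t * F x := funext he
  rw [h0]
  have hf : HasDerivAt (fun y => F y) (deriv (fun y => F y) x) x :=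
    ((hF.1.1.differentiable (by simp)) x).hasDerivAt
  have h2 := ((hasDerivAt_id x).const_mul (1 - t)).add (hf.const_mul t)
  have h3 : small_schw_g F t x = (1 - t) * 1 + t * deriv (fun y => F y) x := by
    unfold small_schw_g
    ring
  rw [h3]
  exact h2

theorem small_schw_inv_der (F : Equiv.Perm ℝ) (hF : IsD 1 F) {t : ℝ} (h0 : 0 ≤ t) (h1 : t ≤ 1)
    {e : Equiv.Perm ℝ} (hD : IsD 1 e)
    (he : ∀ x, e x = (1 - t) * x + t * F x) (y : ℝ) :
    HasDerivAt (fun y => e⁻¹ y) (small_schw_g F t (e⁻¹ y))⁻¹ y := by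
  refine HasDerivAt.of_local_left_inverse (f := fun y => e y) ?_ ?_ ?_ ?_
  · exact hD.1.2.1.continuous.continuousAt
  · exact small_schw_e_der F hF he _
  · exact (small_schw_g_pos F hF h0 h1 _).ne'
  · exact Filter.Eventually.of_forall fun z => e.apply_symm_apply z

theorem small_schw_chain (F : Equiv.Perm ℝ) (hF : IsD 1 F) {s t : ℝ} (hs0 : 0 ≤ s) (hs1 : s ≤ 1)
    (ht0 : 0 ≤ t) (ht1 : t ≤ 1)
    {e : Equiv.Perm ℝ} (hD : IsD 1 e)
    (he : ∀ x, e x = (1 - s) * x + s * F x) (k : ℕ) (y : ℝ) :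
    HasDerivAt (fun y => small_schw_V F k (s, t, e⁻¹ y)) (small_schw_V F (k + 1) (s, t, e⁻¹ y)) y := by
  obtain ⟨h1, h2, h3⟩ := small_schw_V_all F hF k
  have hp : (s, t, e⁻¹ y) ∈ small_schw_Om F :=
    ⟨small_schw_g_pos F hF hs0 hs1 _, small_schw_g_pos F hF ht0 ht1 _⟩
  have h4 := small_schw_path F hF h1 hp
  have h5 := small_schw_inv_der F hF hs0 hs1 hD he y
  have h6 := HasDerivAt.comp y h4 h5
  have h7 : small_schw_V F (k + 1) (s, t, e⁻¹ y) =
      fderiv ℝ (small_schw_V F k) (s, t, e⁻¹ y) (0, 0, 1) * (small_schw_g F s (e⁻¹ y))⁻¹ := by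
    show fderiv ℝ (small_schw_V F k) (s, t, e⁻¹ y) (0, 0, 1) / small_schw_g F s (e⁻¹ y) = _
    rw [div_eq_mul_inv]
  rw [h7]
  exact h6

theorem small_schw_G (F : Equiv.Perm ℝ) (hF : IsD 1 F) {s t : ℝ} (hs0 : 0 ≤ s) (hs1 : s ≤ 1)
    (ht0 : 0 ≤ t) (ht1 : t ≤ 1)
    {e e' : Equiv.Perm ℝ} (hD : IsD 1 e)
    (he : ∀ x, e x = (1 - s) * x + s * F x)
    (he' : ∀ x, e' x = (1 - t) * x + t * F x) :
    schw (fun y => (e' * e⁻¹) y) = fun y => small_schw_V F 2 (s, t, e⁻¹ y) -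
      (small_schw_V F 1 (s, t, e⁻¹ y)) ^ 2 / 2 := by
  have h1 : ∀ y, HasDerivAt (fun y => (e' * e⁻¹) y)
      (Real.exp (small_schw_V F 0 (s, t, e⁻¹ y))) y := by
    intro y
    have h2 := HasDerivAt.comp y (small_schw_e_der F hF he' (e⁻¹ y))
      (small_schw_inv_der F hF hs0 hs1 hD he y)
    have h3 : Real.exp (small_schw_V F 0 (s, t, e⁻¹ y)) =
        small_schw_g F t (e⁻¹ y) * (small_schw_g F s (e⁻¹ y))⁻¹ := by
      show Real.exp (Real.log (small_schw_g F t (e⁻¹ y)) -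
        Real.log (small_schw_g F s (e⁻¹ y))) = _
      rw [Real.exp_sub, Real.exp_log (small_schw_g_pos F hF ht0 ht1 _),
        Real.exp_log (small_schw_g_pos F hF hs0 hs1 _), div_eq_mul_inv]
    rw [h3]
    exact h2
  have h2 : deriv (fun y => (e' * e⁻¹) y) =
      fun y => Real.exp (small_schw_V F 0 (s, t, e⁻¹ y)) := funext fun y => (h1 y).deriv
  have h3 : ∀ y, HasDerivAt (fun y => Real.exp (small_schw_V F 0 (s, t, e⁻¹ y)))
      (Real.exp (small_schw_V F 0 (s, t, e⁻¹ y)) * small_schw_V F 1 (s, t, e⁻¹ y)) y :=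
    fun y => (small_schw_chain F hF hs0 hs1 ht0 ht1 hD he 0 y).exp
  have h4 : deriv (deriv (fun y => (e' * e⁻¹) y)) =
      fun y => Real.exp (small_schw_V F 0 (s, t, e⁻¹ y)) * small_schw_V F 1 (s, t, e⁻¹ y) := by
    rw [h2]
    exact funext fun y => (h3 y).deriv
  have h5 : (fun y => deriv (deriv (fun y => (e' * e⁻¹) y)) y / deriv (fun y => (e' * e⁻¹) y) y) =
      fun y => small_schw_V F 1 (s, t, e⁻¹ y) := by
    funext y
    rw [h4, h2]
    exact mul_div_cancel_left₀ _ (Real.exp_pos _).ne'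
  funext y
  unfold schw
  rw [h5, congrFun h5 y, (small_schw_chain F hF hs0 hs1 ht0 ht1 hD he 1 y).deriv]

theorem small_schw_step (F : Equiv.Perm ℝ) (hF : IsD 1 F) (ε : ℝ) (hε : 0 < ε) :
    ∃ δ > 0, ∀ s t : ℝ, 0 ≤ s → s ≤ 1 → 0 ≤ t → t ≤ 1 → |s - t| < δ →
      ∀ e e' : Equiv.Perm ℝ, IsD 1 e → (∀ x, e x = (1 - s) * x + s * F x) →
        (∀ x, e' x = (1 - t) * x + t * F x) →
        ∀ x, |schw (fun y => (e' * e⁻¹) y) x| ≤ ε ∧
          |deriv (schw (fun y => (e' * e⁻¹) y)) x| ≤ ε ∧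
          |deriv (deriv (schw (fun y => (e' * e⁻¹) y))) x| ≤ ε := by
  set η := min 1 (ε / 3) with hη
  have hη0 : 0 < η := lt_min one_pos (by positivity)
  have hη1 : η ≤ 1 := min_le_left _ _
  have hη2 : η ≤ ε / 3 := min_le_right _ _
  obtain ⟨d1, hd1, H1⟩ := small_schw_unif F hF 1 η hη0
  obtain ⟨d2, hd2, H2⟩ := small_schw_unif F hF 2 η hη0
  obtain ⟨d3, hd3, H3⟩ := small_schw_unif F hF 3 η hη0
  obtain ⟨d4, hd4, H4⟩ := small_schw_unif F hF 4 η hη0
  refine ⟨min (min d1 d2) (min d3 d4), lt_min (lt_min hd1 hd2) (lt_min hd3 hd4), ?_⟩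
  intro s t hs0 hs1 ht0 ht1 hst e e' hD he he' x
  have hst1 : |s - t| < d1 := hst.trans_le ((min_le_left _ _).trans (min_le_left _ _))
  have hst2 : |s - t| < d2 := hst.trans_le ((min_le_left _ _).trans (min_le_right _ _))
  have hst3 : |s - t| < d3 := hst.trans_le ((min_le_right _ _).trans (min_le_left _ _))
  have hst4 : |s - t| < d4 := hst.trans_le ((min_le_right _ _).trans (min_le_right _ _))
  have b1 := H1 s t (e⁻¹ x) hs0 hs1 ht0 ht1 hst1
  have b2 := H2 s t (e⁻¹ x) hs0 hs1 ht0 ht1 hst2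
  have b3 := H3 s t (e⁻¹ x) hs0 hs1 ht0 ht1 hst3
  have b4 := H4 s t (e⁻¹ x) hs0 hs1 ht0 ht1 hst4
  have c1 := fun y => small_schw_chain F hF hs0 hs1 ht0 ht1 hD he 1 y
  have c2 := fun y => small_schw_chain F hF hs0 hs1 ht0 ht1 hD he 2 y
  have c3 := fun y => small_schw_chain F hF hs0 hs1 ht0 ht1 hD he 3 y
  rw [small_schw_G F hF hs0 hs1 ht0 ht1 hD he he']
  have k1 : deriv (fun y => small_schw_V F 2 (s, t, e⁻¹ y) -
      (small_schw_V F 1 (s, t, e⁻¹ y)) ^ 2 / 2) = fun y => small_schw_V F 3 (s, t, e⁻¹ y) -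
      small_schw_V F 1 (s, t, e⁻¹ y) * small_schw_V F 2 (s, t, e⁻¹ y) := by
    funext y
    have h := (c2 y).sub (((c1 y).pow 2).div_const 2)
    refine h.deriv.trans ?_
    simp only [Nat.cast_ofNat]
    ring
  have k2 : deriv (fun y => small_schw_V F 3 (s, t, e⁻¹ y) -
      small_schw_V F 1 (s, t, e⁻¹ y) * small_schw_V F 2 (s, t, e⁻¹ y)) =
      fun y => small_schw_V F 4 (s, t, e⁻¹ y) -
      (small_schw_V F 2 (s, t, e⁻¹ y) * small_schw_V F 2 (s, t, e⁻¹ y) +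
        small_schw_V F 1 (s, t, e⁻¹ y) * small_schw_V F 3 (s, t, e⁻¹ y)) := by
    funext y
    have h := (c3 y).sub ((c1 y).mul (c2 y))
    exact h.deriv
  rw [k1, k2]
  have m : ∀ a b : ℝ, |a| ≤ η → |b| ≤ η → |a * b| ≤ η := by
    intro a b ha hb
    rw [abs_mul]
    calc |a| * |b| ≤ η * 1 := mul_le_mul ha (hb.trans hη1) (abs_nonneg _) hη0.le
      _ = η := mul_one η
  refine ⟨?_, ?_, ?_⟩
  · have q := m _ _ b1 b1
    rw [abs_le] at *
    constructor <;> nlinarith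
  · have q := m _ _ b1 b2
    rw [abs_le] at *
    constructor <;> linarith
  · have q := m _ _ b2 b2
    have q' := m _ _ b1 b3
    rw [abs_le] at *
    constructor <;> linarith

/-- `G_1` is generated by elements with small Schwarzian. -/
theorem small_schw (ε : ℝ) (hε : 0 < ε) (F : Equiv.Perm ℝ) (hF : IsD 1 F) :
    F ∈ Subgroup.closure {G : Equiv.Perm ℝ | IsD 1 G ∧ ∀ x, |schw (fun y => G y) x| ≤ ε ∧
      |deriv (schw (fun y => G y)) x| ≤ ε ∧ |deriv (deriv (schw (fun y => G y))) x| ≤ ε} := by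
  obtain ⟨δ, hδ, H⟩ := small_schw_step F hF ε hε
  obtain ⟨n, hn⟩ := exists_nat_one_div_lt hδ
  have hn0 : (0:ℝ) < (n:ℝ) + 1 := by positivity
  have key : ∀ i : ℕ, i ≤ n + 1 → ∀ e : Equiv.Perm ℝ,
      (∀ x, e x = (1 - (i:ℝ) / (n + 1)) * x + (i:ℝ) / (n + 1) * F x) →
      e ∈ Subgroup.closure {G : Equiv.Perm ℝ | IsD 1 G ∧ ∀ x, |schw (fun y => G y) x| ≤ ε ∧
      |deriv (schw (fun y => G y)) x| ≤ ε ∧ |deriv (deriv (schw (fun y => G y))) x| ≤ ε} := by
    intro i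
    induction i with
    | zero =>
      intro _ e he
      have h1 : e = 1 := by
        ext x
        rw [he x]
        simp
      rw [h1]
      exact Subgroup.one_mem _
    | succ i ih =>
      intro hi e' he'
      have hi' : i ≤ n + 1 := by omega
      have a0 : 0 ≤ (i:ℝ) / (n + 1) := by positivity
      have a1 : (i:ℝ) / (n + 1) ≤ 1 := by
        rw [div_le_one hn0]
        exact_mod_cast hi'
      have b0 : 0 ≤ ((i + 1 : ℕ):ℝ) / (n + 1) := by positivity
      have b1 : ((i + 1 : ℕ):ℝ) / (n + 1) ≤ 1 := by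
        rw [div_le_one hn0]
        exact_mod_cast hi
      obtain ⟨e, hD, he⟩ := small_schw_e F hF _ a0 a1
      obtain ⟨e'', hD'', he''⟩ := small_schw_e F hF _ b0 b1
      have hee : e'' = e' := by
        ext x
        rw [he' x, he'' x]
      rw [hee] at hD''
      have hmem := ih hi' e he
      have hst : |(i:ℝ) / (n + 1) - ((i + 1 : ℕ):ℝ) / (n + 1)| < δ := by
        have h2 : (i:ℝ) / (n + 1) - ((i + 1 : ℕ):ℝ) / (n + 1) = -(1 / ((n:ℝ) + 1)) := by
          push_cast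
          field_simp
          ring
        rw [h2, abs_neg, abs_of_pos (by positivity)]
        exact hn
      have hG : e' * e⁻¹ ∈ Subgroup.closure {G : Equiv.Perm ℝ | IsD 1 G ∧
          ∀ x, |schw (fun y => G y) x| ≤ ε ∧
          |deriv (schw (fun y => G y)) x| ≤ ε ∧
          |deriv (deriv (schw (fun y => G y))) x| ≤ ε} := by
        apply Subgroup.subset_closure
        exact ⟨isd_mul hD'' (isd_inv hD), H _ _ a0 a1 b0 b1 hst e e' hD he he'⟩
      have h3 : e' = (e' * e⁻¹) * e := by group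
      rw [h3]
      exact Subgroup.mul_mem _ hG hmem
  refine key (n + 1) le_rfl F ?_
  intro x
  have h4 : ((n + 1 : ℕ):ℝ) / (n + 1) = 1 := by
    push_cast
    exact div_self hn0.ne'
  rw [h4]
  ring

end Pool.Agent.Helper339.CW
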