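import Mathlib
import Pool.Agent.Helper339.CW.Defs
import Pool.Agent.Helper339.CW.P_basics
import Pool.Agent.Helper339.CW.P_exists_fp
import Pool.Agent.Helper339.CW.P_fp_reg
import Pool.Agent.Helper339.CW.P_fp_conj
import Pool.Agent.Helper339.CW.P_small_schw

set_option autoImplicit false

open scoped ContDiff Manifold
open MeasureTheory Set

namespace Pool.Agent.Helper339.CW


/-! ### TARGET: prove this. Prefix the names of all your auxiliary lemmas with perfect_ -/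

theorem perfect_tr_add (c d : ℝ) : tr (c + d) = tr c * tr d := by
  ext x
  rw [Equiv.Perm.mul_apply, tr_apply, tr_apply, tr_apply]
  ring

theorem perfect_tr_zero : tr 0 = 1 := by
  ext x
  rw [tr_apply, Equiv.Perm.one_apply, add_zero]

theorem perfect_tr_neg (c : ℝ) : tr (-c) = (tr c)⁻¹ := by
  rw [eq_inv_iff_mul_eq_one, ← perfect_tr_add, neg_add_cancel, perfect_tr_zero]

theorem perfect_deriv_smooth {f : ℝ → ℝ} (hf : ContDiff ℝ ∞ f) : ContDiff ℝ ∞ (deriv f) :=
  (contDiff_infty_iff_deriv.1 hf).2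

theorem perfect_deriv_per {f : ℝ → ℝ} {c : ℝ} (hf : ∀ x, f (x + 1) = f x + c) (x : ℝ) :
    deriv f (x + 1) = deriv f x := by
  rw [← deriv_comp_add_const f 1 x]
  have : (fun y => f (y + 1)) = fun y => f y + c := funext hf
  rw [this, deriv_add_const]

theorem perfect_deriv_per' {f : ℝ → ℝ} (hf : ∀ x, f (x + 1) = f x) (x : ℝ) :
    deriv f (x + 1) = deriv f x :=
  perfect_deriv_per (c := 0) (fun y => by rw [hf y, add_zero]) x

theorem perfect_schw_smooth {G : Equiv.Perm ℝ} (hG : IsD 1 G) :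
    ContDiff ℝ ∞ (schw (fun x => G x)) := by
  have h1 : ContDiff ℝ ∞ (fun x => G x) := hG.1.1
  have h2 := perfect_deriv_smooth h1
  have h3 := perfect_deriv_smooth h2
  have h4 : ContDiff ℝ ∞ (fun y => deriv (deriv (fun x => G x)) y / deriv (fun x => G x) y) :=
    h3.div h2 (fun x => (sm_deriv_pos hG.1 x).ne')
  have h5 := perfect_deriv_smooth h4
  exact h5.sub ((h4.pow 2).div_const 2)

theorem perfect_schw_per {G : Equiv.Perm ℝ} (hG : IsD 1 G) (x : ℝ) :
    schw (fun x => G x) (x + 1) = schw (fun x => G x) x := by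
  have h1 : ∀ x, (fun x => G x) (x + 1) = (fun x => G x) x + 1 := hG.2
  have h2 := perfect_deriv_per h1
  have h3 := perfect_deriv_per' h2
  have h4 : ∀ y, (fun y => deriv (deriv (fun x => G x)) y / deriv (fun x => G x) y) (y + 1) =
      (fun y => deriv (deriv (fun x => G x)) y / deriv (fun x => G x) y) y := by
    intro y
    show deriv (deriv (fun x => G x)) (y + 1) / deriv (fun x => G x) (y + 1) =
      deriv (deriv (fun x => G x)) y / deriv (fun x => G x) y
    rw [h2, h3]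
  have h5 := perfect_deriv_per'
    (f := fun y => deriv (deriv (fun x => G x)) y / deriv (fun x => G x) y) h4
  unfold schw
  rw [h5, h2, h3]

theorem perfect_conj {g N : Equiv.Perm ℝ} (hg : IsD 1 g) (hN : N ∈ Comm1) :
    g * N * g⁻¹ ∈ Comm1 := by
  unfold Comm1 at hN ⊢
  induction hN using Subgroup.closure_induction with
  | mem x hx =>
    obtain ⟨a, b, ha, hb, rfl⟩ := hx
    apply Subgroup.subset_closure
    refine ⟨g * a * g⁻¹, g * b * g⁻¹, isd_mul (isd_mul hg ha) (isd_inv hg),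
      isd_mul (isd_mul hg hb) (isd_inv hg), ?_⟩
    group
  | one =>
    rw [mul_one, mul_inv_cancel]
    exact Subgroup.one_mem _
  | mul x y _ _ hx hy =>
    have : g * (x * y) * g⁻¹ = (g * x * g⁻¹) * (g * y * g⁻¹) := by group
    rw [this]
    exact Subgroup.mul_mem _ hx hy
  | inv x _ hx =>
    have : g * x⁻¹ * g⁻¹ = (g * x * g⁻¹)⁻¹ := by group
    rw [this]
    exact Subgroup.inv_mem _ hx

theorem perfect_gen {ε : ℝ} (hfp : ∀ S : ℝ → ℝ, ContDiff ℝ ∞ S → (∀ x, S (x + 1) = S x) →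
    (∀ x, |S x| ≤ ε) → (∀ x, |deriv S x| ≤ ε) → (∀ x, |deriv (deriv S) x| ≤ ε) →
    ∃ (w v ψ σ P : ℝ → ℝ) (m c : ℝ), FP S w v ψ σ P m c) (G : Equiv.Perm ℝ) (hG : IsD 1 G)
    (hsm : ∀ x, |schw (fun y => G y) x| ≤ ε ∧
      |deriv (schw (fun y => G y)) x| ≤ ε ∧ |deriv (deriv (schw (fun y => G y))) x| ≤ ε) :
    ∃ c : ℝ, ∃ N ∈ Comm1, G = tr c * N := by
  obtain ⟨w, v, ψ, σ, P, m, c, h⟩ := hfp (schw (fun x => G x)) (perfect_schw_smooth hG)
    (perfect_schw_per hG) (fun x => (hsm x).1) (fun x => (hsm x).2.1) (fun x => (hsm x).2.2)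
  have hw : ContDiff ℝ ∞ w :=
    fp_reg _ (perfect_schw_smooth hG) (perfect_schw_per hG) w v ψ σ P m c h
  have hv : ContDiff ℝ ∞ v := by
    rw [contDiff_infty_iff_deriv]
    refine ⟨fun x => (h.v_der x).differentiableAt, ?_⟩
    have : deriv v = w := funext (fun x => (h.v_der x).deriv)
    rw [this]
    exact hw
  have hdψ : deriv ψ = fun x => Real.exp (v x) := funext (fun x => (h.psi_der x).deriv)
  have hψ : ContDiff ℝ ∞ ψ := by
    rw [contDiff_infty_iff_deriv]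
    refine ⟨fun x => (h.psi_der x).differentiableAt, ?_⟩
    rw [hdψ]
    exact hv.exp
  obtain ⟨Ψ, hΨ, hΨ2⟩ := isd_of_deriv 1 one_pos ψ hψ
    (fun x => by rw [hdψ]; exact Real.exp_pos _) h.psi_per
  obtain ⟨r, hr⟩ := fp_conj G hG w v ψ σ P m c h hw
  have hGΨ : G * Ψ = tr r * Ψ * tr √2 := by
    ext x
    rw [Equiv.Perm.mul_apply, Equiv.Perm.mul_apply, Equiv.Perm.mul_apply, tr_apply, tr_apply,
      hΨ2, hΨ2]
    exact hr x
  refine ⟨r + √2, tr (-√2) * Ψ * (tr (-√2))⁻¹ * Ψ⁻¹, ?_, ?_⟩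
  · apply Subgroup.subset_closure
    exact ⟨tr (-√2), Ψ, isd_tr 1 _, hΨ, rfl⟩
  · have h1 : G = tr r * Ψ * tr √2 * Ψ⁻¹ := by
      rw [← hGΨ, mul_inv_cancel_right]
    rw [perfect_tr_add, perfect_tr_neg, inv_inv, h1]
    group

/-- `G_1` is the product of the translations and its commutator subgroup. -/
theorem perfect (F : Equiv.Perm ℝ) (hF : IsD 1 F) : ∃ c : ℝ, ∃ N ∈ Comm1, F = tr c * N := by
  obtain ⟨ε, hε, hfp⟩ := exists_fp
  have hmem := small_schw ε hε F hF
  clear hF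
  induction hmem using Subgroup.closure_induction with
  | mem x hx => exact perfect_gen hfp x hx.1 hx.2
  | one => exact ⟨0, 1, Subgroup.one_mem _, by rw [perfect_tr_zero, mul_one]⟩
  | mul x y _ _ hx hy =>
    obtain ⟨c, N, hN, rfl⟩ := hx
    obtain ⟨d, M, hM, rfl⟩ := hy
    refine ⟨c + d, (tr d)⁻¹ * N * (tr d)⁻¹⁻¹ * M,
      Subgroup.mul_mem _ (perfect_conj (isd_inv (isd_tr 1 d)) hN) hM, ?_⟩
    rw [perfect_tr_add]
    group
  | inv x _ hx =>
    obtain ⟨c, N, hN, rfl⟩ := hx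
    refine ⟨-c, tr c * N⁻¹ * (tr c)⁻¹,
      perfect_conj (isd_tr 1 c) (Subgroup.inv_mem _ hN), ?_⟩
    rw [perfect_tr_neg]
    group

end Pool.Agent.Helper339.CW
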