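import Mathlib
import Pool.Agent.Helper339.CW.Defs
import Pool.Agent.Helper339.CW.P_basics
import Pool.Agent.Helper339.CW.P_interp
import Pool.Agent.Helper339.CW.P_perfect
import Pool.Agent.Helper339.CW.P_comm_isup
import Pool.Agent.Helper339.CW.P_blocks

set_option autoImplicit false

open scoped ContDiff Manifold
open MeasureTheory Set

namespace Pool.Agent.Helper339.CW


/-! ### TARGET: prove this. Prefix the names of all your auxiliary lemmas with zone_ -/

theorem zone_st_bound : ∃ K : ℝ, 0 ≤ K ∧ ∀ x, |deriv Real.smoothTransition x| ≤ K := by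
  have hc : Continuous (deriv Real.smoothTransition) :=
    (Real.smoothTransition.contDiff (n := 1)).continuous_deriv_one
  obtain ⟨K, hK⟩ := (isCompact_Icc (a := (0 : ℝ)) (b := 1)).exists_bound_of_continuousOn
    hc.continuousOn
  have hK0 : 0 ≤ K := (norm_nonneg _).trans (hK 0 ⟨le_rfl, zero_le_one⟩)
  refine ⟨K, hK0, fun x => ?_⟩
  by_cases hx : x ∈ Icc (0 : ℝ) 1
  · exact hK x hx
  · have h0 : deriv Real.smoothTransition x = 0 := by
      by_cases h1 : x < 0
      · have e : Real.smoothTransition =ᶠ[nhds x] fun _ => 0 := by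
          filter_upwards [Iio_mem_nhds h1] with y hy
          exact Real.smoothTransition.zero_of_nonpos (le_of_lt hy)
        rw [e.deriv_eq]
        simp
      · have h2 : 1 < x := by
          by_contra h3
          exact hx ⟨not_lt.1 h1, not_lt.1 h3⟩
        have e : Real.smoothTransition =ᶠ[nhds x] fun _ => 1 := by
          filter_upwards [Ioi_mem_nhds h2] with y hy
          exact Real.smoothTransition.one_of_one_le (le_of_lt hy)
        rw [e.deriv_eq]
        simp
    rw [h0, abs_zero]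
    exact hK0

/-- the slow shift by `6` -/
theorem zone_g : ∃ L : ℝ, 0 < L ∧ ∀ N0 N2 : ℝ, ∃ g : Equiv.Perm ℝ, SM g ∧
    (∀ x, N0 + L ≤ x → x ≤ N2 → g x = x + 6) ∧ (∀ x, x ≤ N0 → g x = x) ∧
    (∀ x, N2 + L ≤ x → g x = x) := by
  obtain ⟨K, hK0, hK⟩ := zone_st_bound
  refine ⟨12 * K + 1, by positivity, fun N0 N2 => ?_⟩
  set L : ℝ := 12 * K + 1 with hL
  have hL0 : 0 < L := by positivity
  set f : ℝ → ℝ := fun x => x + 6 * (Real.smoothTransition ((x - N0) / L) *
    Real.smoothTransition ((N2 + L - x) / L)) with hf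
  have hst : ContDiff ℝ ∞ Real.smoothTransition := Real.smoothTransition.contDiff
  have hfc : ContDiff ℝ ∞ f := by
    have h1 : ContDiff ℝ ∞ (fun x : ℝ => Real.smoothTransition ((x - N0) / L)) :=
      hst.comp ((contDiff_id.sub contDiff_const).div_const L)
    have h2 : ContDiff ℝ ∞ (fun x : ℝ => Real.smoothTransition ((N2 + L - x) / L)) :=
      hst.comp ((contDiff_const.sub contDiff_id).div_const L)
    exact contDiff_id.add (contDiff_const.mul (h1.mul h2))
  have hsd : ∀ y, HasDerivAt Real.smoothTransition (deriv Real.smoothTransition y) y := fun y =>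
    ((Real.smoothTransition.contDiff (n := 1)).differentiable one_ne_zero y).hasDerivAt
  have hder : ∀ x, HasDerivAt f (1 + 6 * (deriv Real.smoothTransition ((x - N0) / L) * (1 / L) *
      Real.smoothTransition ((N2 + L - x) / L) + Real.smoothTransition ((x - N0) / L) *
        (deriv Real.smoothTransition ((N2 + L - x) / L) * (-1 / L)))) x := by
    intro x
    have h1 : HasDerivAt (fun x : ℝ => (x - N0) / L) (1 / L) x :=
      ((hasDerivAt_id x).sub_const N0).div_const L
    have h2 : HasDerivAt (fun x : ℝ => (N2 + L - x) / L) (-1 / L) x :=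
      ((hasDerivAt_id x).const_sub (N2 + L)).div_const L
    have h3 := (hsd ((x - N0) / L)).comp x h1
    have h4 := (hsd ((N2 + L - x) / L)).comp x h2
    exact (hasDerivAt_id x).add ((h3.mul h4).const_mul 6)
  have hpos : ∀ x, 0 < deriv f x := by
    intro x
    rw [(hder x).deriv]
    have a1 := abs_le.1 (hK ((x - N0) / L))
    have a2 := abs_le.1 (hK ((N2 + L - x) / L))
    have b1 := Real.smoothTransition.nonneg ((x - N0) / L)
    have b2 := Real.smoothTransition.nonneg ((N2 + L - x) / L)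
    have c1 := Real.smoothTransition.le_one ((x - N0) / L)
    have c2 := Real.smoothTransition.le_one ((N2 + L - x) / L)
    set d1 := deriv Real.smoothTransition ((x - N0) / L)
    set d2 := deriv Real.smoothTransition ((N2 + L - x) / L)
    set s1 := Real.smoothTransition ((x - N0) / L)
    set s2 := Real.smoothTransition ((N2 + L - x) / L)
    have e1 : -K ≤ d1 * s2 := by
      have := mul_le_mul_of_nonneg_right a1.1 b2
      nlinarith
    have e2 : s1 * d2 ≤ K := by
      have := mul_le_mul_of_nonneg_left a2.2 b1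
      nlinarith
    have e3 : 1 + 6 * (d1 * (1 / L) * s2 + s1 * (d2 * (-1 / L))) =
        (L + 6 * (d1 * s2 - s1 * d2)) / L := by
      field_simp
      ring
    rw [e3]
    apply div_pos _ hL0
    rw [hL]
    linarith
  have hlow : ∀ x, x ≤ f x := by
    intro x
    have b1 := Real.smoothTransition.nonneg ((x - N0) / L)
    have b2 := Real.smoothTransition.nonneg ((N2 + L - x) / L)
    have := mul_nonneg b1 b2
    simp only [hf]
    linarith
  have hup : ∀ x, f x ≤ x + 6 := by
    intro x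
    have b2 := Real.smoothTransition.nonneg ((N2 + L - x) / L)
    have c1 := Real.smoothTransition.le_one ((x - N0) / L)
    have c2 := Real.smoothTransition.le_one ((N2 + L - x) / L)
    have := mul_le_one₀ c1 b2 c2
    simp only [hf]
    linarith
  obtain ⟨g, hg, hgf⟩ := sm_of_deriv f hfc hpos
    (Filter.tendsto_atTop_mono hlow Filter.tendsto_id)
    (Filter.tendsto_atBot_mono hup (Filter.tendsto_atBot_add_const_right _ 6 Filter.tendsto_id))
  refine ⟨g, hg, fun x h1 h2 => ?_, fun x h1 => ?_, fun x h1 => ?_⟩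
  · rw [hgf]
    simp only [hf]
    rw [Real.smoothTransition.one_of_one_le, Real.smoothTransition.one_of_one_le]
    · ring
    · rw [le_div_iff₀ hL0]; linarith
    · rw [le_div_iff₀ hL0]; linarith
  · rw [hgf]
    simp only [hf]
    rw [Real.smoothTransition.zero_of_nonpos (x := (x - N0) / L)]
    · ring
    · exact div_nonpos_of_nonpos_of_nonneg (by linarith) hL0.le
  · rw [hgf]
    simp only [hf]
    rw [Real.smoothTransition.zero_of_nonpos (x := (N2 + L - x) / L)]
    · ring
    · exact div_nonpos_of_nonpos_of_nonneg (by linarith) hL0.le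

/-- the commutator with the slow shift -/
theorem zone_comm (Z g : Equiv.Perm ℝ) (s t : ℝ) (hst : s ≤ t) (hZ : SM Z) (hg : SM g)
    (hZs : SuppIn Z s t) (hg6 : ∀ x, s ≤ x → x ≤ t → g x = x + 6) :
    Z * g * Z⁻¹ * g⁻¹ = Z * tr 6 * Z⁻¹ * tr (-6) := by
  have hZs' : ∀ x, (x ≤ s ∨ t ≤ x) → Z⁻¹ x = x := by
    intro x hx
    rw [Equiv.Perm.inv_eq_iff_eq]
    exact (hZs x hx).symm
  have hZmono := hZ.2.2
  have hZimono := (sm_inv hZ).2.2
  have hgmono := hg.2.2
  have key : ∀ x, g (Z⁻¹ x) = tr 6 (Z⁻¹ (tr (-6) (g x))) := by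
    intro x
    rw [tr_apply, tr_apply]
    by_cases hx : s ≤ x ∧ x ≤ t
    · have h1 : Z⁻¹ s = s := hZs' s (Or.inl le_rfl)
      have h2 : Z⁻¹ t = t := hZs' t (Or.inr le_rfl)
      have h3 : s ≤ Z⁻¹ x := by
        have := hZimono.monotone hx.1
        rwa [h1] at this
      have h4 : Z⁻¹ x ≤ t := by
        have := hZimono.monotone hx.2
        rwa [h2] at this
      rw [hg6 _ h3 h4, hg6 x hx.1 hx.2]
      congr 2
      ring
    · have hx' : x ≤ s ∨ t ≤ x := by
        by_contra hcon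
        push Not at hcon
        exact hx ⟨hcon.1.le, hcon.2.le⟩
      rw [hZs' x hx']
      have h5 : g x + -6 ≤ s ∨ t ≤ g x + -6 := by
        rcases hx' with h | h
        · left
          have h6 := hgmono.monotone h
          rw [hg6 s le_rfl hst] at h6
          linarith
        · right
          have h6 := hgmono.monotone h
          rw [hg6 t hst le_rfl] at h6
          linarith
      rw [hZs' _ h5]
      ring
  have key2 : g * Z⁻¹ = tr 6 * Z⁻¹ * tr (-6) * g := by
    ext x
    exact key x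
  calc Z * g * Z⁻¹ * g⁻¹ = Z * (g * Z⁻¹) * g⁻¹ := by simp only [mul_assoc]
    _ = Z * (tr 6 * Z⁻¹ * tr (-6) * g) * g⁻¹ := by rw [key2]
    _ = Z * tr 6 * Z⁻¹ * tr (-6) := by simp only [mul_assoc, mul_inv_cancel, mul_one]

theorem zone_ainv (e : Equiv.Perm ℝ) (x : ℝ) : e (e⁻¹ x) = x := Equiv.apply_symm_apply e x

theorem zone_tr_inv (c : ℝ) : (tr c)⁻¹ = tr (-c) := by
  ext x
  rw [tr_inv_apply, tr_apply, sub_eq_add_neg]

theorem zone_tr_comm (c d : ℝ) : tr c * tr d = tr d * tr c := by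
  ext x
  rw [Equiv.Perm.mul_apply, Equiv.Perm.mul_apply, tr_apply, tr_apply, tr_apply, tr_apply]
  ring

/-- Zone lemma. -/
theorem zone (D : Equiv.Perm ℝ) (hD : IsD 1 D) (N0 : ℝ) :
    ∃ (c N1 : ℝ) (Z g k : Equiv.Perm ℝ), N0 < N1 ∧ SM Z ∧ SM g ∧ SM k ∧
      SuppIn Z N0 N1 ∧ SuppIn g N0 N1 ∧
      (∀ x, k ((Z * g * Z⁻¹ * g⁻¹) (x + 1)) = k x + 1) ∧ (∀ x ≤ N0, k x = D x) ∧
      (∀ x, N1 ≤ x → k x = x + c) := by
  obtain ⟨c, N, hN, hDN⟩ := perfect D hD
  have hNI : IsD 1 N := by
    have e : N = tr (-c) * D := by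
      rw [hDN, ← zone_tr_inv, inv_mul_cancel_left]
    rw [e]
    exact isd_mul (isd_tr 1 (-c)) hD
  have hNinv : N⁻¹ ∈ Comm1 := Comm1.inv_mem hN
  obtain ⟨n, Z0, k0, hZ0, hk0, hZ0s, hk0e, hk0l, hk0r⟩ := blocks N⁻¹ (comm_isup hNinv)
  obtain ⟨L, hL, hgex⟩ := zone_g
  obtain ⟨M, hM⟩ := exists_int_gt (N0 + L)
  obtain ⟨g, hg, hg6, hgl, hgr⟩ := hgex N0 ((M : ℝ) + 12 * n + 12)
  have hn0 : (0 : ℝ) ≤ n := Nat.cast_nonneg n
  set Z : Equiv.Perm ℝ := tr M * Z0 * tr (-M) with hZ
  have hZa : ∀ x, Z x = Z0 (x + -(M : ℝ)) + M := by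
    intro x
    rw [hZ, Equiv.Perm.mul_apply, Equiv.Perm.mul_apply, tr_apply, tr_apply]
  have hZsm : SM Z := sm_mul (sm_mul (sm_tr _) hZ0) (sm_tr _)
  have hZs : SuppIn Z M (M + 12 * n) := by
    intro x hx
    rw [hZa, hZ0s]
    · ring
    · rcases hx with h | h
      · left; linarith
      · right; linarith
  set k : Equiv.Perm ℝ := D * tr M * k0 * tr (-M) with hk
  have hka : ∀ x, k x = D (k0 (x + -(M : ℝ)) + M) := by
    intro x
    rw [hk, Equiv.Perm.mul_apply, Equiv.Perm.mul_apply, Equiv.Perm.mul_apply, tr_apply, tr_apply]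
  have hksm : SM k := sm_mul (sm_mul (sm_mul hD.1 (sm_tr _)) hk0) (sm_tr _)
  have hχ : Z * g * Z⁻¹ * g⁻¹ = Z * tr 6 * Z⁻¹ * tr (-6) := by
    refine zone_comm Z g M (M + 12 * n) (by linarith) hZsm hg hZs ?_
    intro x h1 h2
    exact hg6 x (by linarith) (by linarith)
  have hχ' : ∀ x, (Z * tr 6 * Z⁻¹ * tr (-6)) x =
      (Z0 * tr 6 * Z0⁻¹ * tr (-6)) (x + -(M : ℝ)) + M := by
    intro x
    have hZinv : ∀ y, Z⁻¹ y = Z0⁻¹ (y + -(M : ℝ)) + M := by
      intro y
      rw [Equiv.Perm.inv_eq_iff_eq, hZa]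
      rw [add_neg_cancel_right, zone_ainv]
      ring
    simp only [Equiv.Perm.mul_apply, tr_apply, hZinv, hZa]
    congr 2
    have e1 : x + -6 + -(M : ℝ) = x + -(M : ℝ) + -6 := by ring
    rw [e1]
    ring
  refine ⟨c, (M : ℝ) + 12 * n + 12 + L, Z, g, k, by linarith, hZsm, hg, hksm, ?_, ?_, ?_, ?_, ?_⟩
  · intro x hx
    refine hZs x ?_
    rcases hx with h | h
    · left; linarith
    · right; linarith
  · intro x hx
    rcases hx with h | h
    · exact hgl x h
    · exact hgr x h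
  · intro x
    rw [hχ, hχ', hka, hka]
    have e1 : x + 1 + -(M : ℝ) = (x + -(M : ℝ)) + 1 := by ring
    rw [add_neg_cancel_right, e1, hk0e]
    have e2 : k0 (x + -(M : ℝ)) + 1 + M = (k0 (x + -(M : ℝ)) + M) + 1 := by ring
    rw [e2, hD.2]
  · intro x hx
    rw [hka, hk0l _ (by linarith)]
    congr 1
    ring
  · intro x hx
    rw [hka, hk0r _ (by linarith)]
    have h1 := isd_add_int (isd_inv hNI) x (-M)
    have e1 : x + ((-M : ℤ) : ℝ) * 1 = x + -(M : ℝ) := by push_cast; ring
    rw [e1] at h1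
    rw [h1]
    have e2 : N⁻¹ x + ((-M : ℤ) : ℝ) * 1 + (M : ℝ) = N⁻¹ x := by push_cast; ring
    rw [e2, hDN, Equiv.Perm.mul_apply, tr_apply, zone_ainv]

end Pool.Agent.Helper339.CW
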