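import Mathlib
import Pool.Agent.Helper339.CW.Defs
import Pool.Agent.Helper339.CW.P_basics
import Pool.Agent.Helper339.CW.P_th_props
import Pool.Agent.Helper339.CW.P_zone
import Pool.Agent.Helper339.CW.P_h_zero
import Pool.Agent.Helper339.CW.P_end_data
import Pool.Agent.Helper339.CW.P_transport
import Pool.Agent.Helper339.CW.P_assemble_h

set_option autoImplicit false

open scoped ContDiff Manifold
open MeasureTheory Set

namespace Pool.Agent.Helper339.CW


/-! ### TARGET: prove this. Prefix the names of all your auxiliary lemmas with source_sink0_ -/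

/-- transported pair (bookkeeping predicate) -/
def source_sink0_T (L η r : ℝ) (e₁ e₂ E : Equiv.Perm ℝ) : Prop :=
  IsD L E ∧ (∀ x, r ≤ x → x ≤ L - r → E x = x) ∧ E 0 = 0 ∧
  (∀ x, -η < x → x < 0 → -η < E x ∧ E x < 0 ∧ Real.exp (-1 / E x) = e₁ (Real.exp (-1 / x))) ∧
  (∀ x, 0 < x → x < η → 0 < E x ∧ E x < η ∧ Real.exp (1 / E x) = e₂ (Real.exp (1 / x)))

theorem source_sink0_injpos {x y : ℝ} (hx : 0 < x) (hy : 0 < y)
    (h : Real.exp (1 / x) = Real.exp (1 / y)) : x = y := by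
  have h1 := Real.exp_injective h
  have h2 : x ≠ 0 := hx.ne'
  have h3 : y ≠ 0 := hy.ne'
  field_simp at h1
  linarith

theorem source_sink0_injneg {x y : ℝ} (hx : x < 0) (hy : y < 0)
    (h : Real.exp (-1 / x) = Real.exp (-1 / y)) : x = y := by
  have e1 : ∀ z : ℝ, -1 / z = 1 / (-z) := fun z => by rw [div_neg, neg_div]
  rw [e1, e1] at h
  have := source_sink0_injpos (x := -x) (y := -y) (by linarith) (by linarith) h
  linarith

theorem source_sink0_thneg (x : ℝ) (hx : x < 0) :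
    x < Th x ∧ Th x < 0 ∧ Real.exp (-1 / Th x) = Real.exp (-1 / x) + 1 := by
  have h := th_props.2.2.2.1 (-x) (by linarith)
  have h2 := th_props.2.2.2.2.1 x
  obtain ⟨a, b, c⟩ := h
  rw [h2] at a b c
  have e1 : ∀ z : ℝ, -1 / z = 1 / (-z) := fun z => by rw [div_neg, neg_div]
  refine ⟨by linarith, by linarith, ?_⟩
  rw [e1, e1]
  exact c

theorem source_sink0_fix (L η N0 N1 : ℝ) (hη : 0 < η)
    (hN : Real.exp (1 / η) < N0) (e₁ e₂ E : Equiv.Perm ℝ) (s1 : SuppIn e₁ N0 N1)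
    (s2 : SuppIn e₂ N0 N1) (hE : IsD L E) (hm : ∀ x, η ≤ x → x ≤ L - η → E x = x)
    (hl : ∀ x, -η < x → x < 0 → -η < E x ∧ E x < 0 ∧ Real.exp (-1 / E x) = e₁ (Real.exp (-1 / x)))
    (hr : ∀ x, 0 < x → x < η → 0 < E x ∧ E x < η ∧ Real.exp (1 / E x) = e₂ (Real.exp (1 / x))) :
    ∀ x, 1 / Real.log N0 ≤ x → x ≤ L - 1 / Real.log N0 → E x = x := by
  have hN0 : 0 < N0 := lt_trans (Real.exp_pos _) hN
  have hlog1 : 1 / η < Real.log N0 := by
    rw [Real.lt_log_iff_exp_lt hN0]; exact hN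
  have hlog : 0 < Real.log N0 := lt_trans (by positivity) hlog1
  have hinv : 0 < 1 / Real.log N0 := by positivity
  intro x h1 h2
  by_cases h3 : x < η
  · have hx : 0 < x := lt_of_lt_of_le hinv h1
    obtain ⟨a, b, c⟩ := hr x hx h3
    have h5 : Real.exp (1 / x) ≤ N0 := by
      have h6 : 1 / x ≤ Real.log N0 := (one_div_le hlog hx).1 h1
      calc Real.exp (1 / x) ≤ Real.exp (Real.log N0) := Real.exp_le_exp.2 h6
        _ = N0 := Real.exp_log hN0
    rw [s2 _ (Or.inl h5)] at c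
    exact source_sink0_injpos a hx c
  · by_cases h4 : L - η < x
    · have hx : x - L < 0 := by linarith
      obtain ⟨a, b, c⟩ := hl (x - L) (by linarith) hx
      have h5 : Real.exp (-1 / (x - L)) ≤ N0 := by
        have hx' : 0 < L - x := by linarith
        have h6 : 1 / (L - x) ≤ Real.log N0 := (one_div_le hlog hx').1 (by linarith)
        have h7 : -1 / (x - L) = 1 / (L - x) := by
          rw [show L - x = -(x - L) by ring, div_neg, neg_div]
        rw [h7]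
        calc Real.exp (1 / (L - x)) ≤ Real.exp (Real.log N0) := Real.exp_le_exp.2 h6
          _ = N0 := Real.exp_log hN0
      rw [s1 _ (Or.inl h5)] at c
      have h8 := source_sink0_injneg b hx c
      have h9 := hE.2 (x - L)
      rw [h8, sub_add_cancel] at h9
      exact h9
    · exact hm x (by linarith) (by linarith)

theorem source_sink0_Tinv (L η r : ℝ) (hr : r ≤ η) (hL : 2 * η < L)
    (e₁ e₂ E : Equiv.Perm ℝ) (hT : source_sink0_T L η r e₁ e₂ E) :
    source_sink0_T L η r e₁⁻¹ e₂⁻¹ E⁻¹ := by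
  obtain ⟨hD, hm, h0, hl, hrr⟩ := hT
  have hmono : StrictMono (fun x => E x) := hD.1.2.2
  have hE1 : E η = η := hm η hr (by linarith)
  have hE2 : E (-η) = -η := by
    have h1 := hD.2 (-η)
    have h2 := hm (-η + L) (by linarith) (by linarith)
    linarith
  refine ⟨isd_inv hD, ?_, ?_, ?_, ?_⟩
  · intro x a b
    rw [Equiv.Perm.inv_eq_iff_eq]
    exact (hm x a b).symm
  · rw [Equiv.Perm.inv_eq_iff_eq]
    exact h0.symm
  · intro x a b
    obtain ⟨y, hy⟩ : ∃ y, y = E⁻¹ x := ⟨_, rfl⟩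
    have hyx : E y = x := by rw [hy]; exact Equiv.apply_symm_apply E x
    have y1 : y < 0 := hmono.lt_iff_lt.1 (show E y < E 0 by rw [hyx, h0]; exact b)
    have y2 : -η < y := hmono.lt_iff_lt.1 (show E (-η) < E y by rw [hyx, hE2]; exact a)
    obtain ⟨_, _, c⟩ := hl y y2 y1
    rw [← hy]
    refine ⟨y2, y1, ?_⟩
    rw [hyx] at c
    rw [c]; exact (Equiv.symm_apply_apply _ _).symm
  · intro x a b
    obtain ⟨y, hy⟩ : ∃ y, y = E⁻¹ x := ⟨_, rfl⟩
    have hyx : E y = x := by rw [hy]; exact Equiv.apply_symm_apply E x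
    have y1 : 0 < y := hmono.lt_iff_lt.1 (show E 0 < E y by rw [hyx, h0]; exact a)
    have y2 : y < η := hmono.lt_iff_lt.1 (show E y < E η by rw [hyx, hE1]; exact b)
    obtain ⟨_, _, c⟩ := hrr y y1 y2
    rw [← hy]
    refine ⟨y1, y2, ?_⟩
    rw [hyx] at c
    rw [c]; exact (Equiv.symm_apply_apply _ _).symm

theorem source_sink0_Tmul (L η r : ℝ)
    (e₁ e₂ E f₁ f₂ F : Equiv.Perm ℝ) (hT : source_sink0_T L η r e₁ e₂ E)
    (hT' : source_sink0_T L η r f₁ f₂ F) :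
    source_sink0_T L η r (e₁ * f₁) (e₂ * f₂) (E * F) := by
  obtain ⟨hD, hm, h0, hl, hrr⟩ := hT
  obtain ⟨hD', hm', h0', hl', hrr'⟩ := hT'
  refine ⟨isd_mul hD hD', ?_, ?_, ?_, ?_⟩
  · intro x a b
    rw [Equiv.Perm.mul_apply, hm' x a b, hm x a b]
  · rw [Equiv.Perm.mul_apply, h0', h0]
  · intro x a b
    obtain ⟨a1, b1, c1⟩ := hl' x a b
    obtain ⟨a2, b2, c2⟩ := hl (F x) a1 b1
    rw [Equiv.Perm.mul_apply, Equiv.Perm.mul_apply]
    exact ⟨a2, b2, by rw [c2, c1]⟩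
  · intro x a b
    obtain ⟨a1, b1, c1⟩ := hrr' x a b
    obtain ⟨a2, b2, c2⟩ := hrr (F x) a1 b1
    rw [Equiv.Perm.mul_apply, Equiv.Perm.mul_apply]
    exact ⟨a2, b2, by rw [c2, c1]⟩

theorem source_sink0_suppmono {e : Equiv.Perm ℝ} {s t t' : ℝ} (h : SuppIn e s t) (ht : t ≤ t') :
    SuppIn e s t' := fun x hx => h x (hx.imp id (fun h' => ht.trans h'))

theorem source_sink0_final (L : ℝ) (A B : Equiv.Perm ℝ) (hA : IsD L A) (hB : IsD L B)
    (δ : ℝ)
    (hAk : ∀ x, |x| < δ → A x = Th x) (hBk : ∀ x, |x| < δ → B x = Th x)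
    (h0 : ℝ → ℝ) (hA0 : A 0 = 0) (hB0 : B 0 = 0)
    (hm : StrictMonoOn h0 (Ioo (-L) 0))
    (hc : ∀ x ∈ Ioo (-L) 0, h0 (A x) = B (h0 x))
    (η N0 : ℝ) (hη : 0 < η) (hηδ : η < δ) (hηL : 2 * η < L)
    (hN : Real.exp (1 / η) + 1 < N0)
    (y₁ y₂ : ℝ) (hy₁ : y₁ ∈ Ioo (-L) 0) (hy₂ : y₂ ∈ Ioo (-L) 0) (hy1 : -δ < h0 y₁)
    (hy2 : h0 y₂ + L < δ) (hyη1 : η < - y₁) (hyη2 : η < y₂ + L)
    (x₁ x₂ k₁ k₂ χ h : Equiv.Perm ℝ)
    (hT : source_sink0_T L η (1 / Real.log N0) x₁ x₂ χ)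
    (hk1 : ∀ x, k₁ (x₁ (x + 1)) = k₁ x + 1) (hk2 : ∀ x, k₂ (x₂ (x + 1)) = k₂ x + 1)
    (hh : IsD L h) (hh0 : h 0 = 0)
    (hmid : ∀ x, -L < x → x < 0 → (x ≤ -(1 / Real.log N0)) → (-L + 1 / Real.log N0 ≤ x) → h x = h0 x)
    (hlf : ∀ x, -η < x → x < 0 → h x < 0 ∧ Real.exp (-1 / h x) = k₁ (Real.exp (-1 / x)))
    (hrt : ∀ x, 0 < x → x < η → 0 < h x ∧ Real.exp (1 / h x) = k₂ (Real.exp (1 / x))) :
    ∀ x, h (χ (A x)) = B (h x) := by
  obtain ⟨hχ, hχm, hχ0, hχl, hχr⟩ := hT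
  have hN0 : 0 < N0 := lt_trans (by positivity) hN
  have hlog1 : 1 / η < Real.log N0 := by
    rw [Real.lt_log_iff_exp_lt hN0]; linarith
  have hlog : 0 < Real.log N0 := lt_trans (by positivity) hlog1
  have hinv : 0 < 1 / Real.log N0 := by positivity
  have hinvη : 1 / Real.log N0 < η := (one_div_lt hη hlog).1 hlog1
  have hthη := th_props.2.2.2.1 η hη
  have hThr : 1 / Real.log N0 ≤ Th η := by
    obtain ⟨a, b, c⟩ := hthη
    rw [one_div_le hlog a]
    rw [Real.le_log_iff_exp_le hN0, c]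
    exact hN.le
  have hAη : A η = Th η := hAk η (by rw [abs_of_pos hη]; exact hηδ)
  have hAη' : A (-η) = - Th η := by
    rw [hAk (-η) (by rw [abs_neg, abs_of_pos hη]; exact hηδ)]
    exact th_props.2.2.2.2.1 η
  have hmonoA : StrictMono (fun x => A x) := hA.1.2.2
  have hmonoh : StrictMono (fun x => h x) := hh.1.2.2
  -- values of h at the ends
  have hend1 : -δ < h (-η) := by
    rw [hmid (-η) (by linarith) (by linarith) (by linarith) (by linarith)]
    exact lt_trans hy1 (hm hy₁ ⟨by linarith, by linarith⟩ (by linarith))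
  have hend2 : h η < δ := by
    have h1 : h (η - L) = h0 (η - L) :=
      hmid (η - L) (by linarith) (by linarith) (by linarith) (by linarith)
    have h2 : h0 (η - L) < h0 y₂ := hm ⟨by linarith, by linarith⟩ hy₂ (by linarith)
    have h3 := hh.2 (η - L)
    rw [sub_add_cancel] at h3
    linarith
  -- the fundamental domain
  have key : ∀ x, -L + η ≤ x → x < η → h (χ (A x)) = B (h x) := by
    intro x hx1 hx2
    by_cases c1 : x ≤ -η
    · -- middle
      have a1 : A x ≤ -Th η := by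
        rw [← hAη']
        exact hmonoA.monotone c1
      have a2 : -L + Th η ≤ A x := by
        have h1 : A (-L + η) ≤ A x := hmonoA.monotone hx1
        have h2 := hA.2 (-L + η)
        rw [show -L + η + L = η by ring, hAη] at h2
        linarith
      have hxI : x ∈ Ioo (-L) 0 := ⟨by linarith, by linarith⟩
      have a3 : χ (A x) = A x := by
        have h1 := hχ.2 (A x)
        rw [hχm (A x + L) (by linarith) (by linarith)] at h1
        linarith
      rw [a3, hmid (A x) (by linarith [hthη.1]) (by linarith [hthη.1]) (by linarith) (by linarith),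
        hc x hxI, hmid x (by linarith) (by linarith) (by linarith) (by linarith)]
    · push Not at c1
      rcases lt_trichotomy x 0 with c2 | c2 | c2
      · -- left
        obtain ⟨t1, t2, t3⟩ := source_sink0_thneg x c2
        have hAx : A x = Th x := hAk x (by rw [abs_of_neg c2]; linarith)
        rw [← hAx] at t1 t2 t3
        obtain ⟨u1, u2, u3⟩ := hχl (A x) (by linarith) t2
        obtain ⟨v1, v2⟩ := hlf (χ (A x)) u1 u2
        obtain ⟨w1, w2⟩ := hlf x c1 c2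
        have hhx : -δ < h x := lt_trans hend1 (hmonoh c1)
        obtain ⟨q1, q2, q3⟩ := source_sink0_thneg (h x) w1
        have hBx : B (h x) = Th (h x) := hBk (h x) (by rw [abs_of_neg w1]; linarith)
        rw [← hBx] at q1 q2 q3
        apply source_sink0_injneg v1 q2
        rw [v2, u3, t3, hk1, q3, w2]
      · subst c2
        rw [hA0, hχ0, hh0, hB0]
      · -- right
        obtain ⟨t1, t2, t3⟩ := th_props.2.2.2.1 x c2
        have hAx : A x = Th x := hAk x (by rw [abs_of_pos c2]; linarith)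
        rw [← hAx] at t1 t2 t3
        obtain ⟨u1, u2, u3⟩ := hχr (A x) t1 (by linarith)
        obtain ⟨v1, v2⟩ := hrt (χ (A x)) u1 u2
        obtain ⟨w1, w2⟩ := hrt x c2 hx2
        have hhx : h x < δ := lt_trans (hmonoh hx2) hend2
        obtain ⟨q1, q2, q3⟩ := th_props.2.2.2.1 (h x) w1
        have hBx : B (h x) = Th (h x) := hBk (h x) (by rw [abs_of_pos w1]; linarith)
        rw [← hBx] at q1 q2 q3
        apply source_sink0_injpos v1 q1
        rw [v2, u3, t3, hk2, q3, w2]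
  have hL : 0 < L := by linarith
  intro x
  obtain ⟨n, hn⟩ : ∃ n : ℤ, n = ⌊(x + L - η) / L⌋ := ⟨_, rfl⟩
  have n1 : (n : ℝ) * L ≤ x + L - η := by
    have := Int.floor_le ((x + L - η) / L)
    rw [← hn] at this
    rwa [le_div_iff₀ hL] at this
  have n2 : x + L - η < ((n : ℝ) + 1) * L := by
    have := Int.lt_floor_add_one ((x + L - η) / L)
    rw [← hn] at this
    rwa [div_lt_iff₀ hL] at this
  have hk := key (x - n * L) (by linarith) (by linarith)
  have e1 : A x = A (x - n * L) + n * L := by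
    have := isd_add_int hA (x - n * L) n
    rwa [sub_add_cancel] at this
  have e2 : h x = h (x - n * L) + n * L := by
    have := isd_add_int hh (x - n * L) n
    rwa [sub_add_cancel] at this
  rw [e1, e2, isd_add_int hχ, isd_add_int hh, isd_add_int hB, hk]

/-- Conjugation of source-sink pairs up to one commutator supported near the sink (sinks at `0`). -/
theorem source_sink0 (L : ℝ) (A B : Equiv.Perm ℝ) (hA : IsD L A) (hB : IsD L B) (i j : ℝ)
    (hi : -L < i ∧ i < 0) (hj : -L < j ∧ j < 0)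
    (hA1 : ∀ x, i < x → x < 0 → x < A x) (hA2 : ∀ x, -L < x → x < i → A x < x)
    (hB1 : ∀ x, j < x → x < 0 → x < B x) (hB2 : ∀ x, -L < x → x < j → B x < x)
    (δ : ℝ) (hδ : 0 < δ)
    (hAs : ∀ x, |x - i| < δ → A x = i + 2 * (x - i)) (hBs : ∀ x, |x - j| < δ → B x = j + 2 * (x - j))
    (hAk : ∀ x, |x| < δ → A x = Th x) (hBk : ∀ x, |x| < δ → B x = Th x) (η : ℝ) (hη : 0 < η) :
    ∃ Z g h : Equiv.Perm ℝ, IsD L Z ∧ IsD L g ∧ IsD L h ∧
      (∀ x, η ≤ x → x ≤ L - η → Z x = x ∧ g x = x) ∧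
      ∀ x, h ((Z * g * Z⁻¹ * g⁻¹) (A x)) = B (h x) := by
  have hL : 0 < L := by linarith [hi.1, hi.2]
  have hTh0 : Th 0 = 0 := by
    have := th_props.2.2.2.2.1 0
    rw [neg_zero] at this
    linarith
  have hA0 : A 0 = 0 := by rw [hAk 0 (by simpa using hδ), hTh0]
  have hB0 : B 0 = 0 := by rw [hBk 0 (by simpa using hδ), hTh0]
  obtain ⟨h0, hs, hd, hm, him, hc⟩ := h_zero L A B hA hB i j hi hj hA0 hB0 hA1 hA2 hB1 hB2 δ hδ hAs hBs
  obtain ⟨D₁, η₁, hD₁, hη₁, hη₁L, hd1⟩ := end_left L hL A B hA hB δ hδ hAk hBk h0 hs hd hm him hc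
  obtain ⟨D₂, η₂, hD₂, hη₂, hη₂L, hd2⟩ := end_right L hL A B hA hB δ hδ hAk hBk h0 hs hd hm him hc
  have hμ : 0 < min δ L := lt_min hδ hL
  have hμ1 : min δ L ≤ δ := min_le_left _ _
  have hμ2 : min δ L ≤ L := min_le_right _ _
  obtain ⟨y₁, hy₁, hy₁'⟩ : -(min δ L / 2) ∈ h0 '' Ioo (-L) 0 := by
    rw [him]; constructor <;> linarith
  obtain ⟨y₂, hy₂, hy₂'⟩ : -L + min δ L / 2 ∈ h0 '' Ioo (-L) 0 := by
    rw [him]; constructor <;> linarith
  obtain ⟨η', hη', q1, q2, q3, q4, q5, q6, q7⟩ : ∃ η' : ℝ, 0 < η' ∧ η' < η ∧ η' < η₁ ∧ η' < η₂ ∧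
      η' < δ ∧ 2 * η' < L ∧ η' < -y₁ ∧ η' < y₂ + L := by
    have p1 : 0 < -y₁ := by linarith [hy₁.2]
    have p2 : 0 < y₂ + L := by linarith [hy₂.1]
    obtain ⟨M, hM⟩ : ∃ M, M = min (min (min η η₁) (min η₂ δ)) (min (L / 2) (min (-y₁) (y₂ + L))) :=
      ⟨_, rfl⟩
    have hM0 : 0 < M := by
      rw [hM]
      exact lt_min (lt_min (lt_min hη hη₁) (lt_min hη₂ hδ)) (lt_min (by linarith) (lt_min p1 p2))
    have m1 : M ≤ η := by rw [hM]; exact ((min_le_left _ _).trans (min_le_left _ _)).trans (min_le_left _ _)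
    have m2 : M ≤ η₁ := by rw [hM]; exact ((min_le_left _ _).trans (min_le_left _ _)).trans (min_le_right _ _)
    have m3 : M ≤ η₂ := by rw [hM]; exact ((min_le_left _ _).trans (min_le_right _ _)).trans (min_le_left _ _)
    have m4 : M ≤ δ := by rw [hM]; exact ((min_le_left _ _).trans (min_le_right _ _)).trans (min_le_right _ _)
    have m5 : M ≤ L / 2 := by rw [hM]; exact (min_le_right _ _).trans (min_le_left _ _)
    have m6 : M ≤ -y₁ := by rw [hM]; exact ((min_le_right _ _).trans (min_le_right _ _)).trans (min_le_left _ _)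
    have m7 : M ≤ y₂ + L := by rw [hM]; exact ((min_le_right _ _).trans (min_le_right _ _)).trans (min_le_right _ _)
    exact ⟨M / 2, by linarith, by linarith, by linarith, by linarith, by linarith, by linarith,
      by linarith, by linarith⟩
  obtain ⟨N0, hN0⟩ : ∃ N0 : ℝ, N0 = Real.exp (1 / η') + 3 := ⟨_, rfl⟩
  have hN : Real.exp (1 / η') < N0 := by linarith
  obtain ⟨c₁, M₁, Z₁, g₁, k₁, hM₁, hZ₁, hg₁, hk₁, sZ₁, sg₁, ek₁, ak₁, bk₁⟩ := zone D₁ hD₁ N0
  obtain ⟨c₂, M₂, Z₂, g₂, k₂, hM₂, hZ₂, hg₂, hk₂, sZ₂, sg₂, ek₂, ak₂, bk₂⟩ := zone D₂ hD₂ N0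
  obtain ⟨N1, hN1⟩ : ∃ N1 : ℝ, N1 = max M₁ M₂ := ⟨_, rfl⟩
  have l1 : M₁ ≤ N1 := by rw [hN1]; exact le_max_left _ _
  have l2 : M₂ ≤ N1 := by rw [hN1]; exact le_max_right _ _
  have hN01 : N0 < N1 := lt_of_lt_of_le hM₁ l1
  obtain ⟨Z, hZ, Zm, Z0, Zl, Zr⟩ := transport L η' hη' q5 N0 N1 hN hN01 Z₁ Z₂ hZ₁ hZ₂
    (source_sink0_suppmono sZ₁ l1) (source_sink0_suppmono sZ₂ l2)
  obtain ⟨g, hg, gm, g0, gl, gr⟩ := transport L η' hη' q5 N0 N1 hN hN01 g₁ g₂ hg₁ hg₂
    (source_sink0_suppmono sg₁ l1) (source_sink0_suppmono sg₂ l2)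
  obtain ⟨h, hh, hh0, hmid, hlf, hrt⟩ := assemble_h L h0 hs hd hm him D₁ D₂ k₁ k₂ η' N0 N1 c₁ c₂ hη' q5
    (fun x a b => hd1 x (by linarith) b) (fun x a b => hd2 x a (by linarith)) hk₁ hk₂ hN hN01 ak₁ ak₂
    (fun x hx => bk₁ x (l1.trans hx)) (fun x hx => bk₂ x (l2.trans hx))
  have hr : 1 / Real.log N0 ≤ η' := by
    have hN0p : 0 < N0 := lt_trans (Real.exp_pos _) hN
    have hlog1 : 1 / η' < Real.log N0 := by
      rw [Real.lt_log_iff_exp_lt hN0p]; exact hN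
    have hlog : 0 < Real.log N0 := lt_trans (by positivity) hlog1
    exact ((one_div_lt hη' hlog).1 hlog1).le
  have TZ : source_sink0_T L η' (1 / Real.log N0) Z₁ Z₂ Z :=
    ⟨hZ, source_sink0_fix L η' N0 N1 hη' hN Z₁ Z₂ Z (source_sink0_suppmono sZ₁ l1)
      (source_sink0_suppmono sZ₂ l2) hZ Zm Zl Zr, Z0, Zl, Zr⟩
  have Tg : source_sink0_T L η' (1 / Real.log N0) g₁ g₂ g :=
    ⟨hg, source_sink0_fix L η' N0 N1 hη' hN g₁ g₂ g (source_sink0_suppmono sg₁ l1)
      (source_sink0_suppmono sg₂ l2) hg gm gl gr, g0, gl, gr⟩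
  have Tχ := source_sink0_Tmul _ _ _ _ _ _ _ _ _ (source_sink0_Tmul _ _ _ _ _ _ _ _ _
    (source_sink0_Tmul _ _ _ _ _ _ _ _ _ TZ Tg) (source_sink0_Tinv _ _ _ hr q5 _ _ _ TZ))
    (source_sink0_Tinv _ _ _ hr q5 _ _ _ Tg)
  refine ⟨Z, g, h, hZ, hg, hh, fun x a b => ⟨Zm x (by linarith) (by linarith), gm x (by linarith) (by linarith)⟩, ?_⟩
  exact source_sink0_final L A B hA hB δ hAk hBk h0 hA0 hB0 hm hc η' N0 hη' q4 q5 (by linarith) y₁ y₂
    hy₁ hy₂ (by rw [hy₁']; linarith) (by rw [hy₂']; linarith) q6 q7 _ _ k₁ k₂ _ h Tχ ek₁ ek₂ hh hh0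
    hmid hlf hrt

end Pool.Agent.Helper339.CW
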