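import Mathlib
import Pool.Agent.Helper339.CW.Defs
import Pool.Agent.Helper339.CW.P_basics
import Pool.Agent.Helper339.CW.P_source_sink0

set_option autoImplicit false

open scoped ContDiff Manifold
open MeasureTheory Set

namespace Pool.Agent.Helper339.CW


/-! ### TARGET: prove this. Prefix the names of all your auxiliary lemmas with source_sink_ -/

/-- Conjugation of source-sink pairs up to one commutator supported near the sink. -/
theorem source_sink (L : ℝ) (A B : Equiv.Perm ℝ) (hA : IsD L A) (hB : IsD L B) (i1 i2 j1 j2 : ℝ)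
    (hi : i1 < i2 ∧ i2 < i1 + L) (hj : j1 < j2 ∧ j2 < j1 + L)
    (hA1 : ∀ x, i1 < x → x < i2 → x < A x) (hA2 : ∀ x, i2 < x → x < i1 + L → A x < x)
    (hB1 : ∀ x, j1 < x → x < j2 → x < B x) (hB2 : ∀ x, j2 < x → x < j1 + L → B x < x)
    (δ : ℝ) (hδ : 0 < δ)
    (hAs : ∀ x, |x - i1| < δ → A x = i1 + 2 * (x - i1)) (hAk : ∀ x, |x - i2| < δ → A x = i2 + Th (x - i2))
    (hBs : ∀ x, |x - j1| < δ → B x = j1 + 2 * (x - j1)) (hBk : ∀ x, |x - j2| < δ → B x = j2 + Th (x - j2))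
    (η : ℝ) (hη : 0 < η) :
    ∃ Z g h : Equiv.Perm ℝ, IsD L Z ∧ IsD L g ∧ IsD L h ∧
      (∀ x, i2 + η ≤ x → x ≤ i2 + L - η → Z x = x ∧ g x = x) ∧
      ∀ x, h ((Z * g * Z⁻¹ * g⁻¹) (A x)) = B (h x) := by
  have hA' : IsD L ((tr i2)⁻¹ * A * tr i2) := isd_mul (isd_mul (isd_inv (isd_tr L i2)) hA) (isd_tr L i2)
  have hB' : IsD L ((tr j2)⁻¹ * B * tr j2) := isd_mul (isd_mul (isd_inv (isd_tr L j2)) hB) (isd_tr L j2)
  have eA : ∀ x, ((tr i2)⁻¹ * A * tr i2) x = A (x + i2) - i2 := by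
    intro x
    rw [Equiv.Perm.mul_apply, Equiv.Perm.mul_apply, tr_apply, tr_inv_apply]
  have eB : ∀ x, ((tr j2)⁻¹ * B * tr j2) x = B (x + j2) - j2 := by
    intro x
    rw [Equiv.Perm.mul_apply, Equiv.Perm.mul_apply, tr_apply, tr_inv_apply]
  obtain ⟨Z', g', h', hZ, hg, hh, hsupp, hconj⟩ := source_sink0 L _ _ hA' hB' (i1 - i2) (j1 - j2)
    ⟨by linarith [hi.2], by linarith [hi.1]⟩ ⟨by linarith [hj.2], by linarith [hj.1]⟩
    (by
      intro x h1 h2
      rw [eA]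
      have := hA1 (x + i2) (by linarith) (by linarith)
      linarith)
    (by
      intro x h1 h2
      rw [eA]
      have h3 := hA2 (x + i2 + L) (by linarith) (by linarith)
      rw [hA.2] at h3
      linarith)
    (by
      intro x h1 h2
      rw [eB]
      have := hB1 (x + j2) (by linarith) (by linarith)
      linarith)
    (by
      intro x h1 h2
      rw [eB]
      have h3 := hB2 (x + j2 + L) (by linarith) (by linarith)
      rw [hB.2] at h3
      linarith)
    δ hδ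
    (by
      intro x hx
      rw [eA, hAs (x + i2) (by rwa [show x + i2 - i1 = x - (i1 - i2) by ring])]
      ring)
    (by
      intro x hx
      rw [eB, hBs (x + j2) (by rwa [show x + j2 - j1 = x - (j1 - j2) by ring])]
      ring)
    (by
      intro x hx
      rw [eA, hAk (x + i2) (by rwa [show x + i2 - i2 = x by ring])]
      rw [show x + i2 - i2 = x by ring]
      ring)
    (by
      intro x hx
      rw [eB, hBk (x + j2) (by rwa [show x + j2 - j2 = x by ring])]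
      rw [show x + j2 - j2 = x by ring]
      ring)
    η hη
  refine ⟨tr i2 * Z' * (tr i2)⁻¹, tr i2 * g' * (tr i2)⁻¹, tr j2 * h' * (tr i2)⁻¹,
    isd_mul (isd_mul (isd_tr L i2) hZ) (isd_inv (isd_tr L i2)),
    isd_mul (isd_mul (isd_tr L i2) hg) (isd_inv (isd_tr L i2)),
    isd_mul (isd_mul (isd_tr L j2) hh) (isd_inv (isd_tr L i2)), ?_, ?_⟩
  · intro x h1 h2
    obtain ⟨e1, e2⟩ := hsupp (x - i2) (by linarith) (by linarith)
    constructor
    · rw [Equiv.Perm.mul_apply, Equiv.Perm.mul_apply, tr_inv_apply, e1, tr_apply]; ring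
    · rw [Equiv.Perm.mul_apply, Equiv.Perm.mul_apply, tr_inv_apply, e2, tr_apply]; ring
  · intro x
    have h1 := congrArg (fun y => tr j2 y) (hconj ((tr i2)⁻¹ x))
    have e1 : tr i2 * Z' * (tr i2)⁻¹ * (tr i2 * g' * (tr i2)⁻¹) * (tr i2 * Z' * (tr i2)⁻¹)⁻¹ *
        (tr i2 * g' * (tr i2)⁻¹)⁻¹ = tr i2 * (Z' * g' * Z'⁻¹ * g'⁻¹) * (tr i2)⁻¹ := by
      group
    rw [e1]
    have q1 : ∀ (e : Equiv.Perm ℝ) (y : ℝ), e (e⁻¹ y) = y := fun e y => e.apply_symm_apply y
    have q2 : ∀ (e : Equiv.Perm ℝ) (y : ℝ), e⁻¹ (e y) = y := fun e y => e.symm_apply_apply y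
    simp only [Equiv.Perm.mul_apply, q1, q2] at h1 ⊢
    exact h1

end Pool.Agent.Helper339.CW
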