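import Mathlib
import Pool.Agent.Helper339.CW.Defs

set_option autoImplicit false

open scoped ContDiff Manifold
open MeasureTheory Set

namespace Pool.Agent.Helper339.CW


/-! ### TARGET: prove this. Prefix the names of all your auxiliary lemmas with glue_ -/

/-- Monotone gluing of two increasing functions, the lower one on the left. -/
theorem glue (a b : ℝ) (hab : a < b) (U : Set ℝ) (hU : IsOpen U) (hI : Icc a b ⊆ U) (f g : ℝ → ℝ)
    (hf : ContDiffOn ℝ ∞ f U) (hg : ContDiffOn ℝ ∞ g U)
    (hf' : ∀ x ∈ U, 0 < deriv f x) (hg' : ∀ x ∈ U, 0 < deriv g x) (hfg : ∀ x ∈ Icc a b, f x ≤ g x) :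
    ∃ h : ℝ → ℝ, ContDiffOn ℝ ∞ h U ∧ (∀ x ∈ U, 0 < deriv h x) ∧
      (∀ x, x ≤ a → h x = f x) ∧ (∀ x, b ≤ x → h x = g x) ∧
      (∀ x ∈ Icc a b, f x ≤ h x ∧ h x ≤ g x) := by
  have hba : 0 < b - a := by linarith
  let θ : ℝ → ℝ := fun x => Real.smoothTransition ((x - a) / (b - a))
  have hθc : ContDiff ℝ ∞ θ :=
    (Real.smoothTransition.contDiff (n := ⊤)).comp (by fun_prop)
  have hθ0 : ∀ x, x ≤ a → θ x = 0 := by
    intro x hx
    exact Real.smoothTransition.zero_of_nonpos (div_nonpos_of_nonpos_of_nonneg (by linarith) hba.le)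
  have hθ1 : ∀ x, b ≤ x → θ x = 1 := by
    intro x hx
    exact Real.smoothTransition.one_of_one_le ((one_le_div hba).2 (by linarith))
  have hθn : ∀ x, 0 ≤ θ x := fun x => Real.smoothTransition.nonneg _
  have hθl : ∀ x, θ x ≤ 1 := fun x => Real.smoothTransition.le_one _
  have hθm : Monotone θ := by
    intro x y hxy
    apply Real.smoothTransition.monotone
    gcongr
  have hθd : ∀ x, HasDerivAt θ (deriv θ x) x := fun x =>
    (hθc.differentiable (by simp)).differentiableAt.hasDerivAt
  have hθdn : ∀ x, 0 ≤ deriv θ x := fun x => hθm.deriv_nonneg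
  have hθd0 : ∀ x, x ∉ Icc a b → deriv θ x = 0 := by
    intro x hx
    rcases lt_or_ge x a with h | h
    · have he : θ =ᶠ[nhds x] fun _ => 0 := by
        filter_upwards [Iio_mem_nhds h] with y hy
        exact hθ0 y (le_of_lt hy)
      rw [he.deriv_eq]
      simp
    · have hb : b < x := by
        by_contra hb
        exact hx ⟨h, not_lt.1 hb⟩
      have he : θ =ᶠ[nhds x] fun _ => 1 := by
        filter_upwards [Ioi_mem_nhds hb] with y hy
        exact hθ1 y (le_of_lt hy)
      rw [he.deriv_eq]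
      simp
  refine ⟨fun x => (1 - θ x) * f x + θ x * g x, ?_, ?_, ?_, ?_, ?_⟩
  · exact ((contDiffOn_const.sub hθc.contDiffOn).mul hf).add (hθc.contDiffOn.mul hg)
  · intro x hx
    have hfd : HasDerivAt f (deriv f x) x :=
      ((hf.differentiableOn (by simp)).differentiableAt (hU.mem_nhds hx)).hasDerivAt
    have hgd : HasDerivAt g (deriv g x) x :=
      ((hg.differentiableOn (by simp)).differentiableAt (hU.mem_nhds hx)).hasDerivAt
    have hd : HasDerivAt (fun x => (1 - θ x) * f x + θ x * g x)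
        ((-(deriv θ x)) * f x + (1 - θ x) * deriv f x + (deriv θ x * g x + θ x * deriv g x)) x :=
      (((hθd x).const_sub 1).mul hfd).add ((hθd x).mul hgd)
    rw [hd.deriv]
    have h1 : 0 ≤ deriv θ x * (g x - f x) := by
      by_cases hxI : x ∈ Icc a b
      · exact mul_nonneg (hθdn x) (sub_nonneg.2 (hfg x hxI))
      · rw [hθd0 x hxI, zero_mul]
    have h2 : 0 < (1 - θ x) * deriv f x + θ x * deriv g x := by
      have hf0 := hf' x hx
      have hg0 := hg' x hx
      rcases (hθn x).eq_or_lt with h | h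
      · rw [← h]
        linarith
      · have h3 : 0 ≤ (1 - θ x) * deriv f x := mul_nonneg (sub_nonneg.2 (hθl x)) hf0.le
        have h4 : 0 < θ x * deriv g x := mul_pos h hg0
        linarith
    nlinarith
  · intro x hx
    show (1 - θ x) * f x + θ x * g x = f x
    rw [hθ0 x hx]
    ring
  · intro x hx
    show (1 - θ x) * f x + θ x * g x = g x
    rw [hθ1 x hx]
    ring
  · intro x hx
    have h1 := hfg x hx
    have h2 : 0 ≤ θ x * (g x - f x) := mul_nonneg (hθn x) (sub_nonneg.2 h1)
    have h3 : 0 ≤ (1 - θ x) * (g x - f x) :=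
      mul_nonneg (sub_nonneg.2 (hθl x)) (sub_nonneg.2 h1)
    constructor
    · show f x ≤ (1 - θ x) * f x + θ x * g x
      linarith
    · show (1 - θ x) * f x + θ x * g x ≤ g x
      linarith

end Pool.Agent.Helper339.CW
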