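import Mathlib
import Pool.Agent.Helper339.CW.Defs
import Pool.Agent.Helper339.CW.P_basics
import Pool.Agent.Helper339.CW.P_glue
import Pool.Agent.Helper339.CW.P_th_props

set_option autoImplicit false

open scoped ContDiff Manifold
open MeasureTheory Set

namespace Pool.Agent.Helper339.CW


/-! ### TARGET: prove this. Prefix the names of all your auxiliary lemmas with universal_B_ -/

theorem universal_B_aff (p q : ℝ) (hp : 0 < p) :
    ContDiff ℝ ∞ (fun y : ℝ => p * y + q) ∧ ∀ x, 0 < deriv (fun y : ℝ => p * y + q) x := by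
  refine ⟨by fun_prop, fun x => ?_⟩
  have h : HasDerivAt (fun y : ℝ => p * y + q) (p * 1) x :=
    ((hasDerivAt_id x).const_mul p).add_const q
  rw [h.deriv]
  linarith

theorem universal_B_th (p q : ℝ) :
    ContDiff ℝ ∞ (fun y : ℝ => p + Th (y - q)) ∧ ∀ x, 0 < deriv (fun y : ℝ => p + Th (y - q)) x := by
  obtain ⟨h1, h2, -⟩ := th_props
  refine ⟨contDiff_const.add (h1.comp (by fun_prop)), fun x => ?_⟩
  have hd : Differentiable ℝ Th := h1.differentiable (by simp)
  have h : HasDerivAt (fun y : ℝ => p + Th (y - q)) (deriv Th (x - q) * 1) x := by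
    have e := (hd (x - q)).hasDerivAt.comp x ((hasDerivAt_id x).sub_const q)
    exact e.const_add p
  rw [h.deriv, mul_one]
  exact h2 _

theorem universal_B_glue (a b : ℝ) (hab : a < b) (f g : ℝ → ℝ)
    (hf : ContDiff ℝ ∞ f ∧ ∀ x, 0 < deriv f x) (hg : ContDiff ℝ ∞ g ∧ ∀ x, 0 < deriv g x)
    (hfg : ∀ x, a ≤ x → x ≤ b → f x ≤ g x) :
    ∃ h : ℝ → ℝ, (ContDiff ℝ ∞ h ∧ ∀ x, 0 < deriv h x) ∧
      (∀ x, x ≤ a → h x = f x) ∧ (∀ x, b ≤ x → h x = g x) ∧
      (∀ x, a ≤ x → x ≤ b → f x ≤ h x ∧ h x ≤ g x) := by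
  obtain ⟨h, h1, h2, h3, h4, h5⟩ := glue a b hab univ isOpen_univ (subset_univ _) f g
    hf.1.contDiffOn hg.1.contDiffOn (fun x _ => hf.2 x) (fun x _ => hg.2 x)
    (fun x hx => hfg x hx.1 hx.2)
  exact ⟨h, ⟨contDiffOn_univ.1 h1, fun x => h2 x (mem_univ x)⟩, h3, h4, fun x ha hb => h5 x ⟨ha, hb⟩⟩

theorem universal_B_window (h : ℝ → ℝ) (hh : ContDiff ℝ ∞ h ∧ ∀ x, 0 < deriv h x)
    (h0 : ∀ x, x ≤ -24 → h x = 2 * x + 25) (h1 : ∀ x, 174.5 ≤ x → h x = 2 * x - 175) :
    ∃ B : Equiv.Perm ℝ, IsD 200 B ∧ ∀ x, -25.5 ≤ x → x ≤ 175.5 → B x = h x := by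
  let F : ℝ → ℝ := fun y => h (y - 200 * ⌊(y + 25) / 200⌋) + 200 * ⌊(y + 25) / 200⌋
  have key : ∀ (n : ℤ) (y : ℝ), -25.5 ≤ y - 200 * n → y - 200 * n ≤ 175.5 →
      F y = h (y - 200 * n) + 200 * n := by
    intro n y hy1 hy2
    show h (y - 200 * ⌊(y + 25) / 200⌋) + 200 * ⌊(y + 25) / 200⌋ = _
    by_cases c1 : y - 200 * n < -25
    · have hfl : ⌊(y + 25) / 200⌋ = n - 1 := by
        rw [Int.floor_eq_iff]
        push_cast
        constructor
        · rw [le_div_iff₀ (by norm_num)]; norm_num at hy1; linarith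
        · rw [div_lt_iff₀ (by norm_num)]; linarith
      rw [hfl]
      push_cast
      rw [h1 (y - 200 * ((n : ℝ) - 1)) (by norm_num at hy1 ⊢; linarith), h0 (y - 200 * n) (by linarith)]
      ring
    · by_cases c2 : 175 ≤ y - 200 * n
      · have hfl : ⌊(y + 25) / 200⌋ = n + 1 := by
          rw [Int.floor_eq_iff]
          push_cast
          constructor
          · rw [le_div_iff₀ (by norm_num)]; linarith
          · rw [div_lt_iff₀ (by norm_num)]; norm_num at hy2; linarith
        rw [hfl]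
        push_cast
        rw [h0 (y - 200 * ((n : ℝ) + 1)) (by norm_num at hy2; linarith),
          h1 (y - 200 * n) (by norm_num; linarith)]
        ring
      · have hfl : ⌊(y + 25) / 200⌋ = n := by
          rw [Int.floor_eq_iff]
          push Not at c1 c2
          constructor
          · rw [le_div_iff₀ (by norm_num)]; linarith
          · rw [div_lt_iff₀ (by norm_num)]; linarith
        rw [hfl]
  have hloc : ∀ y : ℝ, ∃ n : ℤ, F =ᶠ[nhds y] fun y => h (y - 200 * n) + 200 * n := by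
    intro y
    refine ⟨⌊(y + 25) / 200⌋, ?_⟩
    have f1 := Int.floor_le ((y + 25) / 200)
    have f2 := Int.lt_floor_add_one ((y + 25) / 200)
    rw [le_div_iff₀ (by norm_num)] at f1
    rw [div_lt_iff₀ (by norm_num)] at f2
    have hI : Ioo (y - 1 / 4) (y + 1 / 4) ∈ nhds y := Ioo_mem_nhds (by linarith) (by linarith)
    filter_upwards [hI] with z hz
    apply key
    · have := hz.1; norm_num; linarith
    · have := hz.2; norm_num; linarith
  have hsm : ContDiff ℝ ∞ F := by
    rw [contDiff_iff_contDiffAt]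
    intro y
    obtain ⟨n, hn⟩ := hloc y
    apply ContDiffAt.congr_of_eventuallyEq _ hn
    have e : ContDiff ℝ ∞ (fun y : ℝ => h (y - 200 * (n : ℝ)) + 200 * (n : ℝ)) :=
      (hh.1.comp (by fun_prop)).add contDiff_const
    exact e.contDiffAt
  have hdp : ∀ x, 0 < deriv F x := by
    intro y
    obtain ⟨n, hn⟩ := hloc y
    rw [hn.deriv_eq]
    have hd : Differentiable ℝ h := hh.1.differentiable (by simp)
    have e : HasDerivAt (fun y : ℝ => h (y - 200 * (n : ℝ)) + 200 * (n : ℝ))
        (deriv h (y - 200 * n) * 1) y := by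
      have e := (hd (y - 200 * n)).hasDerivAt.comp y ((hasDerivAt_id y).sub_const (200 * (n : ℝ)))
      exact e.add_const _
    rw [e.deriv, mul_one]
    exact hh.2 _
  have hper : ∀ x, F (x + 200) = F x + 200 := by
    intro x
    show h (x + 200 - 200 * ⌊(x + 200 + 25) / 200⌋) + 200 * ⌊(x + 200 + 25) / 200⌋ =
      h (x - 200 * ⌊(x + 25) / 200⌋) + 200 * ⌊(x + 25) / 200⌋ + 200
    have e : (x + 200 + 25) / 200 = (x + 25) / 200 + 1 := by ring
    rw [e, Int.floor_add_one]
    push_cast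
    have e2 : x + 200 - 200 * ((⌊(x + 25) / 200⌋ : ℝ) + 1) = x - 200 * (⌊(x + 25) / 200⌋ : ℝ) := by
      ring
    rw [e2]
    ring
  obtain ⟨B, hB, hBF⟩ := isd_of_deriv 200 (by norm_num) F hsm hdp hper
  refine ⟨B, hB, fun x hx1 hx2 => ?_⟩
  rw [hBF, key 0 x (by norm_num at hx1 ⊢; linarith) (by norm_num at hx2 ⊢; linarith)]
  simp

theorem universal_B_core : ∃ h : ℝ → ℝ, (ContDiff ℝ ∞ h ∧ ∀ x, 0 < deriv h x) ∧
    (∀ y, y ≤ -24 → h y = 2 * y + 25) ∧
    (∀ y, -24 ≤ y → y ≤ -21 → 2 * y + 25 ≤ h y ∧ h y ≤ y + 20) ∧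
    (∀ y, -21 ≤ y → y ≤ 28 → h y = y + 20) ∧
    (∀ y, 28 ≤ y → y ≤ 35 → y + 20 ≤ h y ∧ h y ≤ 2 * y - 1) ∧
    (∀ y, 35 ≤ y → y ≤ 41.25 → h y = 2 * y - 1) ∧
    (∀ y, 41.25 ≤ y → y ≤ 41.5 → 2 * y - 1 ≤ h y ∧ h y ≤ 84 + Th (y - 44)) ∧
    (∀ y, 41.5 ≤ y → y ≤ 54 → h y = 84 + Th (y - 44)) ∧
    (∀ y, 54 ≤ y → y ≤ 60 → 84 + Th (y - 44) ≤ h y ∧ h y ≤ 88 + Th (y - 88)) ∧
    (∀ y, 60 ≤ y → y ≤ 174.2 → h y = 88 + Th (y - 88)) ∧
    (∀ y, 174.2 ≤ y → y ≤ 174.5 → 88 + Th (y - 88) ≤ h y ∧ h y ≤ 2 * y - 175) ∧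
    (∀ y, 174.5 ≤ y → h y = 2 * y - 175) := by
  obtain ⟨-, -, hTh, -⟩ := th_props
  have hT : ∀ x, -1.45 < Th x ∧ Th x < 1.45 := fun x => abs_lt.1 (hTh x)
  obtain ⟨k1, a1, b1, c1, d1⟩ := universal_B_glue (-24) (-21) (by norm_num)
    (fun y => 2 * y + 25) (fun y => 1 * y + 20) (universal_B_aff 2 25 (by norm_num))
    (universal_B_aff 1 20 (by norm_num)) (fun x h1 h2 => by show 2 * x + 25 ≤ 1 * x + 20; linarith)
  obtain ⟨k2, a2, b2, c2, d2⟩ := universal_B_glue 28 35 (by norm_num)
    k1 (fun y => 2 * y + (-1)) a1 (universal_B_aff 2 (-1) (by norm_num))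
    (fun x h1 h2 => by rw [c1 x (by linarith)]; show 1 * x + 20 ≤ 2 * x + (-1); linarith)
  obtain ⟨k3, a3, b3, c3, d3⟩ := universal_B_glue 41.25 41.5 (by norm_num)
    k2 (fun y => 84 + Th (y - 44)) a2 (universal_B_th 84 44)
    (fun x h1 h2 => by
      rw [c2 x (by norm_num at h1 ⊢; linarith)]
      show 2 * x + (-1) ≤ 84 + Th (x - 44)
      have := (hT (x - 44)).1
      norm_num at h2 this ⊢
      linarith)
  obtain ⟨k4, a4, b4, c4, d4⟩ := universal_B_glue 54 60 (by norm_num)
    k3 (fun y => 88 + Th (y - 88)) a3 (universal_B_th 88 88)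
    (fun x h1 h2 => by
      rw [c3 x (by norm_num; linarith)]
      show 84 + Th (x - 44) ≤ 88 + Th (x - 88)
      have e1 := (hT (x - 44)).2
      have e2 := (hT (x - 88)).1
      norm_num at e1 e2
      linarith)
  obtain ⟨k5, a5, b5, c5, d5⟩ := universal_B_glue 174.2 174.5 (by norm_num)
    k4 (fun y => 2 * y + (-175)) a4 (universal_B_aff 2 (-175) (by norm_num))
    (fun x h1 h2 => by
      rw [c4 x (by norm_num at h1; linarith)]
      show 88 + Th (x - 88) ≤ 2 * x + (-175)
      have e2 := (hT (x - 88)).2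
      norm_num at e2 h1
      linarith)
  refine ⟨k5, a5, ?_, ?_, ?_, ?_, ?_, ?_, ?_, ?_, ?_, ?_, ?_⟩
  · intro y h
    rw [b5 y (by norm_num; linarith), b4 y (by linarith), b3 y (by norm_num; linarith),
      b2 y (by linarith), b1 y h]
  · intro y h h'
    rw [b5 y (by norm_num; linarith), b4 y (by linarith), b3 y (by norm_num; linarith),
      b2 y (by linarith)]
    have := d1 y h h'
    simpa using this
  · intro y h h'
    rw [b5 y (by norm_num; linarith), b4 y (by linarith), b3 y (by norm_num; linarith),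
      b2 y h', c1 y h]
    simp
  · intro y h h'
    rw [b5 y (by norm_num; linarith), b4 y (by linarith), b3 y (by norm_num; linarith)]
    have := d2 y h h'
    rw [c1 y (by linarith)] at this
    simpa [sub_eq_add_neg] using this
  · intro y h h'
    rw [b5 y (by norm_num at h' ⊢; linarith), b4 y (by norm_num at h'; linarith), b3 y h', c2 y h]
    simp [sub_eq_add_neg]
  · intro y h h'
    rw [b5 y (by norm_num at h' ⊢; linarith), b4 y (by norm_num at h'; linarith)]
    have := d3 y h h'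
    rw [c2 y (by norm_num at h; linarith)] at this
    simpa [sub_eq_add_neg] using this
  · intro y h h'
    rw [b5 y (by norm_num; linarith), b4 y h', c3 y h]
  · intro y h h'
    rw [b5 y (by norm_num; linarith)]
    have := d4 y h h'
    rw [c3 y (by norm_num; linarith)] at this
    exact this
  · intro y h h'
    rw [b5 y h', c4 y h]
  · intro y h h'
    have := d5 y h h'
    rw [c4 y (by norm_num at h; linarith)] at this
    simpa [sub_eq_add_neg] using this
  · intro y h
    rw [c5 y h]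
    simp [sub_eq_add_neg]

/-- The universal source-sink diffeomorphism. -/
theorem universal_B : ∃ B : Equiv.Perm ℝ, IsD 200 B ∧
    (∀ y, -25.5 ≤ y → y ≤ -24 → B y = 2 * y + 25) ∧
    (∀ y, -21 ≤ y → y ≤ 28 → B y = y + 20) ∧
    (∀ y, 35 ≤ y → y ≤ 41.25 → B y = 2 * y - 1) ∧
    (∀ y, 41.5 ≤ y → y ≤ 54 → B y = 84 + Th (y - 44)) ∧
    (∀ y, 60 ≤ y → y ≤ 174.2 → B y = 88 + Th (y - 88)) ∧
    (∀ y, -25 < y → y < 88 → y < B y) ∧ (∀ y, 88 < y → y < 175 → B y < y) ∧
    (∀ y, -25 ≤ y → y < 41 → B y < y + 40) ∧ (∀ y, 41 < y → y < 44 → y + 40 < B y) ∧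
    (∀ y, 44 < y → y ≤ 53 → B y < y + 40) ∧ (∀ y, 53 ≤ y → y ≤ 174 → B y < 93) := by
  obtain ⟨h, hh, q0, q1, q2, q3, q4, q5, q6, q7, q8, q9, q10⟩ := universal_B_core
  obtain ⟨-, -, hTh, hT0, hTneg, -⟩ := th_props
  have hT : ∀ x, -1.45 < Th x ∧ Th x < 1.45 := fun x => abs_lt.1 (hTh x)
  have hTn : ∀ x, x < 0 → x < Th x := by
    intro x hx
    have e := (hT0 (-x) (by linarith)).2.1
    rw [hTneg] at e
    linarith
  obtain ⟨B, hB, hBh⟩ := universal_B_window h hh q0 q10
  refine ⟨B, hB, ?_, ?_, ?_, ?_, ?_, ?_, ?_, ?_, ?_, ?_, ?_⟩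
  · intro y h1 h2
    rw [hBh y h1 (by norm_num; linarith)]
    exact q0 y h2
  · intro y h1 h2
    rw [hBh y (by norm_num; linarith) (by norm_num; linarith)]
    exact q2 y h1 h2
  · intro y h1 h2
    rw [hBh y (by norm_num; linarith) (by norm_num at h2 ⊢; linarith)]
    exact q4 y h1 h2
  · intro y h1 h2
    rw [hBh y (by norm_num at h1 ⊢; linarith) (by norm_num; linarith)]
    exact q6 y h1 h2
  · intro y h1 h2
    rw [hBh y (by norm_num; linarith) (by norm_num at h2 ⊢; linarith)]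
    exact q8 y h1 h2
  · intro y h1 h2
    rw [hBh y (by norm_num; linarith) (by norm_num; linarith)]
    rcases le_total y (-24) with t | t
    · rw [q0 y t]; linarith
    rcases le_total y (-21) with t2 | t2
    · linarith [(q1 y t t2).1]
    rcases le_total y 28 with t3 | t3
    · rw [q2 y t2 t3]; linarith
    rcases le_total y 35 with t4 | t4
    · linarith [(q3 y t3 t4).1]
    rcases le_total y 41.25 with t5 | t5
    · rw [q4 y t4 t5]; linarith
    rcases le_total y 41.5 with t6 | t6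
    · have := (q5 y t5 t6).1
      norm_num at t5
      linarith
    rcases le_total y 54 with t7 | t7
    · rw [q6 y t6 t7]
      have := (hT (y - 44)).1
      norm_num at this
      linarith
    rcases le_total y 60 with t8 | t8
    · have := (hT (y - 44)).1
      have e := (q7 y t7 t8).1
      norm_num at this
      linarith
    · rw [q8 y t8 (by norm_num; linarith)]
      linarith [hTn (y - 88) (by linarith)]
  · intro y h1 h2
    rw [hBh y (by norm_num; linarith) (by norm_num; linarith)]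
    rcases le_total y 174.2 with t | t
    · rw [q8 y (by linarith) t]
      linarith [(hT0 (y - 88) (by linarith)).2.1]
    rcases le_total y 174.5 with t2 | t2
    · linarith [(q9 y t t2).2]
    · rw [q10 y t2]; linarith
  · intro y h1 h2
    rw [hBh y (by norm_num; linarith) (by norm_num; linarith)]
    rcases le_total y (-24) with t | t
    · rw [q0 y t]; linarith
    rcases le_total y (-21) with t2 | t2
    · linarith [(q1 y t t2).2]
    rcases le_total y 28 with t3 | t3
    · rw [q2 y t2 t3]; linarith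
    rcases le_total y 35 with t4 | t4
    · linarith [(q3 y t3 t4).2]
    · rw [q4 y t4 (by norm_num; linarith)]; linarith
  · intro y h1 h2
    rw [hBh y (by norm_num; linarith) (by norm_num; linarith)]
    rcases le_total y 41.25 with t5 | t5
    · rw [q4 y (by linarith) t5]; linarith
    rcases le_total y 41.5 with t6 | t6
    · linarith [(q5 y t5 t6).1]
    · rw [q6 y t6 (by linarith)]
      linarith [hTn (y - 44) (by linarith)]
  · intro y h1 h2
    rw [hBh y (by norm_num; linarith) (by norm_num; linarith), q6 y (by norm_num; linarith)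
      (by linarith)]
    linarith [(hT0 (y - 44) (by linarith)).2.1]
  · intro y h1 h2
    rw [hBh y (by norm_num; linarith) (by norm_num; linarith)]
    rcases le_total y 54 with t7 | t7
    · rw [q6 y (by norm_num; linarith) t7]
      have := (hT (y - 44)).2
      norm_num at this
      linarith
    rcases le_total y 60 with t8 | t8
    · have := (hT (y - 88)).2
      have e := (q7 y t7 t8).2
      norm_num at this
      linarith
    · rw [q8 y t8 (by norm_num; linarith)]
      have := (hT (y - 88)).2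
      norm_num at this
      linarith

end Pool.Agent.Helper339.CW
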