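import Mathlib
import Pool.Agent.Helper339.CW.Defs
import Pool.Agent.Helper339.CW.P_basics
import Pool.Agent.Helper339.CW.P_th_props
import Pool.Agent.Helper339.CW.P_source_sink
import Pool.Agent.Helper339.CW.P_universal_B
import Pool.Agent.Helper339.CW.P_handle

set_option autoImplicit false

open scoped ContDiff Manifold
open MeasureTheory Set

namespace Pool.Agent.Helper339.CW


/-! ### TARGET: prove this. Prefix the names of all your auxiliary lemmas with generic_case_ -/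

/-- `e` is the identity outside `[s, t] + 200 ℤ`. -/
def generic_case_Sup (e : Equiv.Perm ℝ) (s t : ℝ) : Prop :=
  ∀ x, (∀ n : ℤ, ¬ (s ≤ x + n * 200 ∧ x + n * 200 ≤ t)) → e x = x

theorem generic_case_sup_fix {e : Equiv.Perm ℝ} (he : IsD 200 e) {s t : ℝ}
    (h : ∀ x, t ≤ x → x ≤ s + 200 → e x = x) : generic_case_Sup e s t := by
  intro x hx
  have h1 := Int.floor_le ((x - s) / 200)
  have h2 := Int.lt_floor_add_one ((x - s) / 200)
  obtain ⟨n, hn⟩ : ∃ n : ℤ, n = -⌊(x - s) / 200⌋ := ⟨_, rfl⟩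
  have hn' : (n : ℝ) = -(⌊(x - s) / 200⌋ : ℝ) := by rw [hn]; push_cast; ring
  have h3 : s ≤ x + n * 200 := by rw [hn']; linarith
  have h4 : x + n * 200 < s + 200 := by rw [hn']; linarith
  have h5 : t < x + n * 200 := by
    by_contra hc
    exact hx n ⟨h3, not_lt.1 hc⟩
  have h6 := h _ h5.le h4.le
  have h7 := isd_add_int he x n
  linarith

theorem generic_case_sup_mul {a b : Equiv.Perm ℝ} {s t : ℝ} (ha : generic_case_Sup a s t)
    (hb : generic_case_Sup b s t) : generic_case_Sup (a * b) s t := by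
  intro x hx
  rw [Equiv.Perm.mul_apply, hb x hx, ha x hx]

theorem generic_case_sup_inv {a : Equiv.Perm ℝ} {s t : ℝ} (ha : generic_case_Sup a s t) :
    generic_case_Sup a⁻¹ s t := by
  intro x hx
  rw [Equiv.Perm.inv_eq_iff_eq, ha x hx]

theorem generic_case_sup_tr {a : Equiv.Perm ℝ} {s t : ℝ} (ha : generic_case_Sup a s t) (c : ℝ) :
    generic_case_Sup (tr c * a * tr (-c)) (s + c) (t + c) := by
  intro x hx
  rw [Equiv.Perm.mul_apply, Equiv.Perm.mul_apply, tr_apply, tr_apply, ha]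
  · ring
  · intro n hn
    exact hx n ⟨by linarith [hn.1], by linarith [hn.2]⟩

theorem generic_case_comm {a b : Equiv.Perm ℝ} {s t s' t' : ℝ} (ha : generic_case_Sup a s t)
    (hb : generic_case_Sup b s' t') (h1 : t < s') (h2 : t' < s + 200) : Commute a b := by
  apply Equiv.Perm.Disjoint.commute
  intro x
  by_contra hc
  push Not at hc
  have hx1 : ∃ n : ℤ, s ≤ x + n * 200 ∧ x + n * 200 ≤ t := by
    by_contra h
    push Not at h
    exact hc.1 (ha x fun n hn => absurd hn.2 (not_le.2 (h n hn.1)))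
  have hx2 : ∃ n : ℤ, s' ≤ x + n * 200 ∧ x + n * 200 ≤ t' := by
    by_contra h
    push Not at h
    exact hc.2 (hb x fun n hn => absurd hn.2 (not_le.2 (h n hn.1)))
  obtain ⟨n, hn1, hn2⟩ := hx1
  obtain ⟨m, hm1, hm2⟩ := hx2
  have e1 : (0 : ℝ) < (m : ℝ) - n := by linarith
  have e2 : (m : ℝ) - n < 1 := by linarith
  have e3 : (0 : ℤ) < m - n := by exact_mod_cast e1
  have e4 : m - n < (1 : ℤ) := by exact_mod_cast e2
  omega

theorem generic_case_conj {A e : Equiv.Perm ℝ} (hA : IsD 200 A) {s t c : ℝ}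
    (hAc : ∀ x, s ≤ x → x ≤ t → A x = x + c) (he : generic_case_Sup e s t) :
    A * e * A⁻¹ = tr c * e * tr (-c) := by
  have hA' : ∀ x, (∃ n : ℤ, s ≤ x + n * 200 ∧ x + n * 200 ≤ t) → A x = x + c := by
    rintro x ⟨n, h1, h2⟩
    have h3 := hAc _ h1 h2
    have h4 := isd_add_int hA x n
    linarith
  have he' : ∀ x, ¬ (∃ n : ℤ, s ≤ x + n * 200 ∧ x + n * 200 ≤ t) → e x = x := by
    intro x hx
    apply he
    intro n hn
    exact hx ⟨n, hn⟩
  rw [mul_inv_eq_iff_eq_mul]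
  ext x
  simp only [Equiv.Perm.mul_apply, tr_apply]
  by_cases hx : ∃ n : ℤ, s ≤ x + n * 200 ∧ x + n * 200 ≤ t
  · have hex : ∃ n : ℤ, s ≤ e x + n * 200 ∧ e x + n * 200 ≤ t := by
      by_contra hc
      have h1 := he' _ hc
      have h2 : e x = x := e.injective h1
      rw [h2] at hc
      exact hc hx
    rw [hA' x hx, hA' _ hex]
    congr 2
    ring
  · rw [he' x hx, he']
    · ring
    · intro hc
      have h1 := hA' _ hc
      have h2 : A x + -c = x := A.injective (by rw [h1]; ring)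
      rw [h2] at hc
      exact hx hc

/-- the map `A = B F⁻¹` -/
theorem generic_case_A (F B : Equiv.Perm ℝ) (hF : IsD 200 F)
    (hn : ∀ y, -26 ≤ y → y ≤ 53 → F y = y + 40) (hB : IsD 200 B)
    (_b1 : ∀ y, -25.5 ≤ y → y ≤ -24 → B y = 2 * y + 25)
    (b2 : ∀ y, -21 ≤ y → y ≤ 28 → B y = y + 20)
    (b3 : ∀ y, 35 ≤ y → y ≤ 41.25 → B y = 2 * y - 1)
    (b4 : ∀ y, 41.5 ≤ y → y ≤ 54 → B y = 84 + Th (y - 44))
    (b7 : ∀ y, 88 < y → y < 175 → B y < y)
    (b8 : ∀ y, -25 ≤ y → y < 41 → B y < y + 40) (b9 : ∀ y, 41 < y → y < 44 → y + 40 < B y)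
    (b10 : ∀ y, 44 < y → y ≤ 53 → B y < y + 40) (b11 : ∀ y, 53 ≤ y → y ≤ 174 → B y < 93) :
    IsD 200 (B * F⁻¹) ∧
    (∀ u, 19 ≤ u → u ≤ 68 → (B * F⁻¹) u = u + (-20)) ∧
    (∀ u, 75 ≤ u → u ≤ 81.25 → (B * F⁻¹) u = 81 + 2 * (u - 81)) ∧
    (∀ u, 81.5 ≤ u → u ≤ 93 → (B * F⁻¹) u = 84 + Th (u - 84)) ∧
    (∀ u, 81 < u → u < 84 → u < (B * F⁻¹) u) ∧
    (∀ u, 84 < u → u < 81 + 200 → (B * F⁻¹) u < u) := by
  have hFi : ∀ u, 14 ≤ u → u ≤ 93 → F⁻¹ u = u - 40 := by
    intro u h1 h2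
    rw [Equiv.Perm.inv_eq_iff_eq, hn (u - 40) (by linarith) (by linarith)]
    ring
  have hA : ∀ u, 14 ≤ u → u ≤ 93 → (B * F⁻¹) u = B (u - 40) := by
    intro u h1 h2
    rw [Equiv.Perm.mul_apply, hFi u h1 h2]
  have hAD : IsD 200 (B * F⁻¹) := isd_mul hB (isd_inv hF)
  have hFm : StrictMono (fun x => F⁻¹ x) := (isd_inv hF).1.2.2
  refine ⟨hAD, ?_, ?_, ?_, ?_, ?_⟩
  · intro u h1 h2
    rw [hA u (by linarith) (by linarith), b2 _ (by linarith) (by linarith)]
    ring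
  · intro u h1 h2
    rw [hA u (by linarith) (by norm_num at h2; linarith), b3 _ (by linarith) (by linarith)]
    ring
  · intro u h1 h2
    rw [hA u (by norm_num at h1; linarith) (by linarith), b4 _ (by linarith) (by norm_num at *; linarith)]
    congr 2
    ring
  · intro u h1 h2
    rw [hA u (by linarith) (by linarith)]
    have := b9 (u - 40) (by linarith) (by linarith)
    linarith
  · intro u h1 h2
    rcases le_or_gt u 93 with h3 | h3
    · rw [hA u (by linarith) (by linarith)]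
      have := b10 (u - 40) (by linarith) (by linarith)
      linarith
    rcases le_or_gt u 214 with h4 | h4
    · have e1 : F⁻¹ 93 = 53 := by rw [hFi 93 (by norm_num) (by norm_num)]; norm_num
      have e2 : F⁻¹ 214 = 174 := by
        have h5 := (isd_inv hF).2 14
        rw [hFi 14 (by norm_num) (by norm_num)] at h5
        norm_num at h5
        exact h5
      have e3 : F⁻¹ 93 ≤ F⁻¹ u := hFm.monotone h3.le
      have e4 : F⁻¹ u ≤ F⁻¹ 214 := hFm.monotone h4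
      rw [Equiv.Perm.mul_apply]
      have := b11 (F⁻¹ u) (by linarith) (by linarith)
      linarith
    have e0 : (B * F⁻¹) u = (B * F⁻¹) (u - 200) + 200 := by
      have := hAD.2 (u - 200)
      rw [← this]
      congr 1
      ring
    rw [e0, hA (u - 200) (by linarith) (by linarith)]
    rcases lt_or_ge u 215 with h5 | h5
    · have e1 : B (u - 40) = B (u - 200 - 40) + 200 := by
        rw [← hB.2 (u - 200 - 40)]
        congr 1
        ring
      have e2 := b7 (u - 40) (by linarith) (by linarith)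
      linarith
    · have := b8 (u - 200 - 40) (by linarith) (by linarith)
      linarith

/-- The generic case, in normal form. -/
theorem generic_case (F : Equiv.Perm ℝ) (hF : IsD 200 F) (hn : ∀ y, -26 ≤ y → y ≤ 53 → F y = y + 40) :
    ∃ X H : Equiv.Perm ℝ, IsD 200 X ∧ IsD 200 H ∧ F = X * H * X⁻¹ * H⁻¹ := by
  obtain ⟨B, hB, b1, b2, b3, b4, b5, b6, b7, b8, b9, b10, b11⟩ := universal_B
  obtain ⟨hAD, a1, a2, a3, a4, a5⟩ := generic_case_A F B hF hn hB b1 b2 b3 b4 b7 b8 b9 b10 b11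
  obtain ⟨A, hAeq⟩ : ∃ A : Equiv.Perm ℝ, A = B * F⁻¹ := ⟨_, rfl⟩
  rw [← hAeq] at hAD a1 a2 a3 a4 a5
  have hBA : B = A * F := by rw [hAeq]; group
  obtain ⟨Z, g, h, hZ, hg, hh, hfix, hconj⟩ := source_sink 200 A B hAD hB 81 84 (-25) 88
    ⟨by norm_num, by norm_num⟩ ⟨by norm_num, by norm_num⟩ a4 a5 b6
    (fun x h1 h2 => b7 x h1 (by linarith)) 0.2 (by norm_num)
    (fun x hx => by
      rw [abs_lt] at hx
      exact a2 x (by linarith [hx.1]) (by linarith [hx.2]))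
    (fun x hx => by
      rw [abs_lt] at hx
      exact a3 x (by linarith [hx.1]) (by linarith [hx.2]))
    (fun x hx => by
      rw [abs_lt] at hx
      rw [b1 x (by linarith [hx.1]) (by linarith [hx.2])]
      ring)
    (fun x hx => by
      rw [abs_lt] at hx
      exact b5 x (by linarith [hx.1]) (by linarith [hx.2])) (1/2) (by norm_num)
  obtain ⟨-, -, -, -, -, hT⟩ := th_props
  have hBm : StrictMono (fun x => B x) := hB.1.2.2
  -- the conjugating map
  obtain ⟨E, hE⟩ : ∃ E : Equiv.Perm ℝ, E = B * tr 40 := ⟨_, rfl⟩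
  have hED : IsD 200 E := by rw [hE]; exact isd_mul hB (isd_tr 200 40)
  have hErange : ∀ x, 5 ≤ x → x ≤ 0 + 200 → 84 + 1/2 ≤ E x ∧ E x ≤ 84 + 200 - 1/2 := by
    intro x h1 h2
    rw [hE, Equiv.Perm.mul_apply, tr_apply]
    have e1 : B 45 = 84 + Th 1 := by
      rw [b4 45 (by norm_num) (by norm_num)]; norm_num
    have e2 : B 240 = 279 := by
      have := hB.2 40
      rw [b3 40 (by norm_num) (by norm_num)] at this
      norm_num at this
      exact this
    have e3 : B 45 ≤ B (x + 40) := hBm.monotone (by linarith)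
    have e4 : B (x + 40) ≤ B 240 := hBm.monotone (by linarith)
    constructor <;> linarith
  have hsup0 : ∀ k : Equiv.Perm ℝ, IsD 200 k →
      (∀ x, 84 + 1/2 ≤ x → x ≤ 84 + 200 - 1/2 → k x = x) →
      generic_case_Sup (E⁻¹ * k * E) 0 5 := by
    intro k hk hkf
    apply generic_case_sup_fix (isd_mul (isd_mul (isd_inv hED) hk) hED)
    intro x h1 h2
    obtain ⟨h3, h4⟩ := hErange x h1 h2
    rw [Equiv.Perm.mul_apply, Equiv.Perm.mul_apply, hkf _ h3 h4, Equiv.Perm.inv_eq_iff_eq]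
  obtain ⟨a₀, ha₀⟩ : ∃ a : Equiv.Perm ℝ, a = E⁻¹ * Z⁻¹ * E := ⟨_, rfl⟩
  obtain ⟨b₀, hb₀⟩ : ∃ b : Equiv.Perm ℝ, b = E⁻¹ * g * E := ⟨_, rfl⟩
  have hZi : ∀ x, 84 + 1/2 ≤ x → x ≤ 84 + 200 - 1/2 → Z⁻¹ x = x := by
    intro x h1 h2
    rw [Equiv.Perm.inv_eq_iff_eq, (hfix x h1 h2).1]
  have sa0 : generic_case_Sup a₀ 0 5 := by
    rw [ha₀]; exact hsup0 _ (isd_inv hZ) hZi
  have sb0 : generic_case_Sup b₀ 0 5 := by
    rw [hb₀]; exact hsup0 _ hg (fun x h1 h2 => (hfix x h1 h2).2)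
  have Da0 : IsD 200 a₀ := by rw [ha₀]; exact isd_mul (isd_mul (isd_inv hED) (isd_inv hZ)) hED
  have Db0 : IsD 200 b₀ := by rw [hb₀]; exact isd_mul (isd_mul (isd_inv hED) hg) hED
  obtain ⟨a₁, ha₁⟩ : ∃ a : Equiv.Perm ℝ, a = tr 20 * a₀ * tr (-20) := ⟨_, rfl⟩
  obtain ⟨b₁, hb₁⟩ : ∃ b : Equiv.Perm ℝ, b = tr 20 * b₀ * tr (-20) := ⟨_, rfl⟩
  obtain ⟨a₂, ha₂⟩ : ∃ a : Equiv.Perm ℝ, a = tr 40 * a₀ * tr (-40) := ⟨_, rfl⟩
  obtain ⟨b₂, hb₂⟩ : ∃ b : Equiv.Perm ℝ, b = tr 40 * b₀ * tr (-40) := ⟨_, rfl⟩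
  have sa1 : generic_case_Sup a₁ (0 + 20) (5 + 20) := by
    rw [ha₁]; exact generic_case_sup_tr sa0 20
  have sb1 : generic_case_Sup b₁ (0 + 20) (5 + 20) := by
    rw [hb₁]; exact generic_case_sup_tr sb0 20
  have sa2 : generic_case_Sup a₂ (0 + 40) (5 + 40) := by
    rw [ha₂]; exact generic_case_sup_tr sa0 40
  have sb2 : generic_case_Sup b₂ (0 + 40) (5 + 40) := by
    rw [hb₂]; exact generic_case_sup_tr sb0 40
  have Da1 : IsD 200 a₁ := by rw [ha₁]; exact isd_mul (isd_mul (isd_tr _ _) Da0) (isd_tr _ _)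
  have Db1 : IsD 200 b₁ := by rw [hb₁]; exact isd_mul (isd_mul (isd_tr _ _) Db0) (isd_tr _ _)
  have Da2 : IsD 200 a₂ := by rw [ha₂]; exact isd_mul (isd_mul (isd_tr _ _) Da0) (isd_tr _ _)
  have Db2 : IsD 200 b₂ := by rw [hb₂]; exact isd_mul (isd_mul (isd_tr _ _) Db0) (isd_tr _ _)
  obtain ⟨χ, hχ⟩ : ∃ χ : Equiv.Perm ℝ, χ = Z * g * Z⁻¹ * g⁻¹ := ⟨_, rfl⟩
  have Dχ : IsD 200 χ := by
    rw [hχ]; exact isd_mul (isd_mul (isd_mul hZ hg) (isd_inv hZ)) (isd_inv hg)
  have sZ : generic_case_Sup Z (84 - 1/2) (84 + 1/2) :=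
    generic_case_sup_fix hZ (fun x h1 h2 => (hfix x h1 (by linarith)).1)
  have sg : generic_case_Sup g (84 - 1/2) (84 + 1/2) :=
    generic_case_sup_fix hg (fun x h1 h2 => (hfix x h1 (by linarith)).2)
  have sχ : generic_case_Sup χ (84 - 1/2) (84 + 1/2) := by
    rw [hχ]
    exact generic_case_sup_mul (generic_case_sup_mul (generic_case_sup_mul sZ sg)
      (generic_case_sup_inv sZ)) (generic_case_sup_inv sg)
  -- conjugation relations
  have up : ∀ k : Equiv.Perm ℝ, tr 20 * (tr 20 * k * tr (-20)) * tr (-20) = tr 40 * k * tr (-40) := by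
    intro k
    ext x
    simp only [Equiv.Perm.mul_apply, tr_apply]
    rw [show x + -20 + -20 = x + -40 by ring]
    ring
  have down1 : ∀ k : Equiv.Perm ℝ, tr (-20) * (tr 20 * k * tr (-20)) * tr (-(-20)) = k := by
    intro k
    ext x
    simp only [Equiv.Perm.mul_apply, tr_apply]
    rw [show x + -(-20) + -20 = x by ring]
    ring
  have down2 : ∀ k : Equiv.Perm ℝ,
      tr (-20) * (tr 40 * k * tr (-40)) * tr (-(-20)) = tr 20 * k * tr (-20) := by
    intro k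
    ext x
    simp only [Equiv.Perm.mul_apply, tr_apply]
    rw [show x + -(-20) + -40 = x + -20 by ring]
    ring
  have a1' : ∀ x, (0 + 20 : ℝ) ≤ x → x ≤ 5 + 20 → A x = x + (-20) :=
    fun x h1 h2 => a1 x (by linarith) (by linarith)
  have a1'' : ∀ x, (0 + 40 : ℝ) ≤ x → x ≤ 5 + 40 → A x = x + (-20) :=
    fun x h1 h2 => a1 x (by linarith) (by linarith)
  have b2' : ∀ x, (0 : ℝ) ≤ x → x ≤ 5 → B x = x + 20 :=
    fun x h1 h2 => b2 x (by linarith) (by linarith)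
  have b2'' : ∀ x, (0 + 20 : ℝ) ≤ x → x ≤ 5 + 20 → B x = x + 20 :=
    fun x h1 h2 => b2 x (by linarith) (by linarith)
  have rA1 : A * a₁ * A⁻¹ = a₀ := by
    rw [generic_case_conj hAD a1' sa1, ha₁, down1]
  have rA2 : A * a₂ * A⁻¹ = a₁ := by
    rw [generic_case_conj hAD a1'' sa2, ha₂, down2, ha₁]
  have rA3 : A * b₁ * A⁻¹ = b₀ := by
    rw [generic_case_conj hAD a1' sb1, hb₁, down1]
  have rA4 : A * b₂ * A⁻¹ = b₁ := by
    rw [generic_case_conj hAD a1'' sb2, hb₂, down2, hb₁]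
  have rB1 : B * a₀ * B⁻¹ = a₁ := by
    rw [generic_case_conj hB b2' sa0, ha₁]
  have rB2 : B * a₁ * B⁻¹ = a₂ := by
    rw [generic_case_conj hB b2'' sa1, ha₁, up, ha₂]
  have rB3 : B * b₀ * B⁻¹ = b₁ := by
    rw [generic_case_conj hB b2' sb0, hb₁]
  have rB4 : B * b₁ * B⁻¹ = b₂ := by
    rw [generic_case_conj hB b2'' sb1, hb₁, up, hb₂]
  have htr : (tr (-40) : Equiv.Perm ℝ) = (tr 40)⁻¹ := by
    ext x
    rw [tr_inv_apply, tr_apply]; ring
  have hBb2 : B * b₂ * B⁻¹ = g := by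
    rw [hb₂, hb₀, htr, hE]
    group
  have hBa2 : B * a₂ * B⁻¹ = Z⁻¹ := by
    rw [ha₂, ha₀, htr, hE]
    group
  have hχ' : χ * (B * (b₂ * a₂⁻¹ * b₂⁻¹ * a₂) * B⁻¹) = 1 := by
    have e1 : B * (b₂ * a₂⁻¹ * b₂⁻¹ * a₂) * B⁻¹ =
        (B * b₂ * B⁻¹) * (B * a₂ * B⁻¹)⁻¹ * (B * b₂ * B⁻¹)⁻¹ * (B * a₂ * B⁻¹) := by group
    rw [e1, hBb2, hBa2, hχ]
    group
  have hhh : h * (χ * A) * h⁻¹ = B := by
    rw [mul_inv_eq_iff_eq_mul]
    ext x
    rw [hχ]
    exact hconj x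
  obtain ⟨X, H, hX, hH, hFXH⟩ := handle A B F χ a₀ a₁ a₂ b₀ b₁ b₂ h hBA rA1 rA2 rA3 rA4 rB1 rB2 rB3 rB4
    (generic_case_comm sa0 sa1 (by norm_num) (by norm_num))
    (generic_case_comm sa0 sa2 (by norm_num) (by norm_num))
    (generic_case_comm sa1 sa2 (by norm_num) (by norm_num))
    (generic_case_comm sb0 sb1 (by norm_num) (by norm_num))
    (generic_case_comm sb0 sb2 (by norm_num) (by norm_num))
    (generic_case_comm sb1 sb2 (by norm_num) (by norm_num))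
    (generic_case_comm sa0 sb1 (by norm_num) (by norm_num))
    (generic_case_comm sa0 sb2 (by norm_num) (by norm_num))
    (generic_case_comm sb0 sa1 (by norm_num) (by norm_num)).symm
    (generic_case_comm sa1 sb2 (by norm_num) (by norm_num))
    (generic_case_comm sb0 sa2 (by norm_num) (by norm_num)).symm
    (generic_case_comm sb1 sa2 (by norm_num) (by norm_num)).symm
    (generic_case_comm sa0 sχ (by norm_num) (by norm_num)).symm
    (generic_case_comm sa1 sχ (by norm_num) (by norm_num)).symm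
    (generic_case_comm sa2 sχ (by norm_num) (by norm_num)).symm
    (generic_case_comm sb0 sχ (by norm_num) (by norm_num)).symm
    (generic_case_comm sb1 sχ (by norm_num) (by norm_num)).symm
    (generic_case_comm sb2 sχ (by norm_num) (by norm_num)).symm
    hχ' hhh
  refine ⟨X, H, ?_, ?_, hFXH⟩
  · rw [hX]
    exact isd_inv (isd_mul (isd_mul (isd_mul (isd_mul Da0 (isd_mul (isd_inv Da1) (isd_inv Db1))) Db2)
      Dχ) hAD)
  · rw [hH]
    exact isd_mul (isd_mul (isd_mul (isd_mul Da0 (isd_mul (isd_mul (isd_inv Da1) (isd_inv Db1)) Da1))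
      (isd_mul (isd_mul (isd_mul Db2 (isd_inv Da2)) (isd_inv Db2)) Da2)) hh)
      (isd_inv (isd_mul (isd_inv Da1) Db2))

end Pool.Agent.Helper339.CW
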