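import Mathlib
import Pool.Agent.Helper339.CW.Defs
import Pool.Agent.Helper339.CW.P_basics

set_option autoImplicit false

open scoped ContDiff Manifold
open MeasureTheory Set

namespace Pool.Agent.Helper339.CW


/-! ### TARGET: prove this. Prefix the names of all your auxiliary lemmas with invol_conj_ -/

/-- Lifts of fixed point free involutions are conjugate to the half turn. -/
theorem invol_conj (F : Equiv.Perm ℝ) (hF : IsD 1 F) (h : ∀ x, F (F x) = x + 1) :
    ∃ φ : Equiv.Perm ℝ, IsD 1 φ ∧ ∀ x, φ (F x) = φ x + 1 / 2 := by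
  have hsm : ContDiff ℝ ∞ (fun x => F x) := hF.1.1
  have hdiff : Differentiable ℝ (fun x => F x) := hsm.differentiable (by simp)
  have hf : ContDiff ℝ ∞ (fun x : ℝ => (x + F x - 1 / 2) / 2) :=
    ((contDiff_id.add hsm).sub contDiff_const).div_const 2
  have hd : ∀ x, 0 < deriv (fun x : ℝ => (x + F x - 1 / 2) / 2) x := by
    intro x
    have h1 : HasDerivAt (fun x : ℝ => F x) (deriv (fun y => F y) x) x := (hdiff x).hasDerivAt
    have h2 : HasDerivAt (fun x : ℝ => (x + F x - 1 / 2) / 2)
        ((1 + deriv (fun y => F y) x) / 2) x :=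
      (((hasDerivAt_id x).add h1).sub_const (1 / 2)).div_const 2
    rw [h2.deriv]
    have := sm_deriv_pos hF.1 x
    positivity
  obtain ⟨e, he, hx⟩ := isd_of_deriv 1 one_pos (fun x : ℝ => (x + F x - 1 / 2) / 2) hf hd (by
    intro x
    have := hF.2 x
    simp only [this]
    ring)
  refine ⟨e, he, fun x => ?_⟩
  rw [hx, hx, h x]
  ring

end Pool.Agent.Helper339.CW
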