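import Mathlib
import Pool.Agent.Helper339.CW.Defs
import Pool.Agent.Helper339.CW.P_basics

set_option autoImplicit false

open scoped ContDiff Manifold
open MeasureTheory Set

namespace Pool.Agent.Helper339.CW


/-! ### TARGET: prove this. Prefix the names of all your auxiliary lemmas with mobius_ -/

/-- the point of the circle -/
noncomputable def mobius_e (x : ℝ) : ℂ := Complex.exp (((2 * Real.pi * x : ℝ) : ℂ) * Complex.I)

theorem mobius_e_norm (x : ℝ) : ‖mobius_e x‖ = 1 := Complex.norm_exp_ofReal_mul_I _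

theorem mobius_e_conj (x : ℝ) : mobius_e x * (starRingEnd ℂ) (mobius_e x) = 1 := by
  rw [Complex.mul_conj, Complex.normSq_eq_norm_sq, mobius_e_norm]
  norm_num

theorem mobius_e_eq {x y : ℝ} (h : mobius_e x = mobius_e y) : ∃ n : ℤ, x = y + n := by
  unfold mobius_e at h
  rw [Complex.exp_eq_exp_iff_exists_int] at h
  obtain ⟨n, hn⟩ := h
  refine ⟨n, ?_⟩
  have h1 : (((2 * Real.pi * x : ℝ) : ℂ)) * Complex.I =
      (((2 * Real.pi * (y + n) : ℝ) : ℂ)) * Complex.I := by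
    rw [hn]
    push_cast
    ring
  have h2 := mul_right_cancel₀ Complex.I_ne_zero h1
  have h3 : 2 * Real.pi * x = 2 * Real.pi * (y + n) := by exact_mod_cast h2
  have h4 : (2 * Real.pi) ≠ 0 := by positivity
  exact mul_left_cancel₀ h4 h3

theorem mobius_e_add_int (x : ℝ) (n : ℤ) : mobius_e (x + n) = mobius_e x := by
  unfold mobius_e
  rw [Complex.exp_eq_exp_iff_exists_int]
  refine ⟨n, ?_⟩
  push_cast
  ring

theorem mobius_e_deriv (x : ℝ) :
    HasDerivAt mobius_e (mobius_e x * (((2 * Real.pi : ℝ) : ℂ) * Complex.I)) x := by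
  have h1 : HasDerivAt (fun x : ℝ => 2 * Real.pi * x) (2 * Real.pi) x := by
    simpa using (hasDerivAt_id x).const_mul (2 * Real.pi)
  have h2 := (h1.ofReal_comp).mul_const Complex.I
  exact h2.cexp

theorem mobius_e_smooth : ContDiff ℝ ∞ mobius_e := by
  unfold mobius_e
  refine ContDiff.cexp ?_
  exact (Complex.ofRealCLM.contDiff.comp (contDiff_const.mul contDiff_id)).mul contDiff_const

theorem mobius_slit (ζ : ℂ) (hζ : ‖ζ‖ < 1) (x : ℝ) : 1 + ζ * mobius_e x ∈ Complex.slitPlane := by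
  apply Complex.mem_slitPlane_of_norm_lt_one
  rw [norm_mul, mobius_e_norm, mul_one]
  exact hζ

theorem mobius_re (w : ℂ) (hw : ‖w‖ < 1) : (w / (1 + w)).re < 1 / 2 := by
  have h1 : w.re ^ 2 + w.im ^ 2 < 1 := by
    have h2 : Complex.normSq w = ‖w‖ ^ 2 := Complex.normSq_eq_norm_sq w
    rw [Complex.normSq_apply] at h2
    nlinarith [norm_nonneg w]
  have h3 : 0 < (1 + w.re) * (1 + w.re) + w.im * w.im := by nlinarith
  rw [Complex.div_re, Complex.normSq_apply]
  simp only [Complex.add_re, Complex.one_re, Complex.add_im, Complex.one_im, zero_add]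
  rw [← add_div, div_lt_iff₀ h3]
  nlinarith

theorem mobius_arg (w : ℂ) (hw : w ≠ 0) :
    Complex.exp (-(2 * (Complex.arg w : ℂ) * Complex.I)) * w = (starRingEnd ℂ) w := by
  have h1 := Complex.norm_mul_exp_arg_mul_I w
  have h2 : (starRingEnd ℂ) w = (‖w‖ : ℂ) * Complex.exp (-((Complex.arg w : ℂ) * Complex.I)) := by
    conv_lhs => rw [← h1]
    rw [map_mul, Complex.conj_ofReal, ← Complex.exp_conj, map_mul, Complex.conj_ofReal,
      Complex.conj_I]
    ring_nf
  rw [h2]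
  conv_lhs => rw [← h1]
  rw [mul_left_comm, ← Complex.exp_add, ]
  congr 2
  rw [h1]
  ring

/-- the lift -/
noncomputable def mobius_F (ζ : ℂ) (x : ℝ) : ℝ :=
  x - (1 / Real.pi) * (Complex.log (1 + ζ * mobius_e x)).im

theorem mobius_F_smooth (ζ : ℂ) (hζ : ‖ζ‖ < 1) : ContDiff ℝ ∞ (mobius_F ζ) := by
  rw [contDiff_iff_contDiffAt]
  intro x
  have h1 : ContDiffAt ℝ ∞ (fun x => 1 + ζ * mobius_e x) x :=
    (contDiff_const.add (contDiff_const.mul mobius_e_smooth)).contDiffAt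
  have h2 : ContDiffAt ℝ ∞ Complex.log (1 + ζ * mobius_e x) :=
    (Complex.contDiffAt_log (mobius_slit ζ hζ x)).restrict_scalars ℝ
  have h3 : ContDiffAt ℝ ∞ (Complex.log ∘ (fun x => 1 + ζ * mobius_e x)) x :=
    ContDiffAt.comp x h2 h1
  have h4 : ContDiffAt ℝ ∞ (Complex.imCLM ∘ (Complex.log ∘ (fun x => 1 + ζ * mobius_e x))) x :=
    ContDiffAt.comp x Complex.imCLM.contDiff.contDiffAt h3
  exact contDiffAt_id.sub (contDiffAt_const.mul h4)

theorem mobius_F_deriv (ζ : ℂ) (hζ : ‖ζ‖ < 1) (x : ℝ) : 0 < deriv (mobius_F ζ) x := by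
  have hpi : (0 : ℝ) < Real.pi := Real.pi_pos
  have h1 : HasDerivAt (fun x => 1 + ζ * mobius_e x)
      (ζ * (mobius_e x * (((2 * Real.pi : ℝ) : ℂ) * Complex.I))) x :=
    ((mobius_e_deriv x).const_mul ζ).const_add 1
  have h2 := h1.clog_real (mobius_slit ζ hζ x)
  have h3 := Complex.imCLM.hasFDerivAt.comp_hasDerivAt x h2
  have h4 := (hasDerivAt_id x).sub (h3.const_mul (1 / Real.pi))
  have h5 : deriv (mobius_F ζ) x =
      1 - 1 / Real.pi * (ζ * (mobius_e x * (((2 * Real.pi : ℝ) : ℂ) * Complex.I)) /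
        (1 + ζ * mobius_e x)).im := h4.deriv
  rw [h5]
  have h6 : ζ * (mobius_e x * (((2 * Real.pi : ℝ) : ℂ) * Complex.I)) / (1 + ζ * mobius_e x) =
      ((2 * Real.pi : ℝ) : ℂ) * ((ζ * mobius_e x / (1 + ζ * mobius_e x)) * Complex.I) := by
    ring
  rw [h6, Complex.im_ofReal_mul, Complex.mul_I_im]
  have h7 := mobius_re (ζ * mobius_e x) (by rw [norm_mul, mobius_e_norm, mul_one]; exact hζ)
  have h8 : 1 / Real.pi * (2 * Real.pi * (ζ * mobius_e x / (1 + ζ * mobius_e x)).re) =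
      2 * (ζ * mobius_e x / (1 + ζ * mobius_e x)).re := by
    field_simp
  rw [h8]
  linarith

theorem mobius_F_per (ζ : ℂ) (x : ℝ) : mobius_F ζ (x + 1) = mobius_F ζ x + 1 := by
  unfold mobius_F
  have h := mobius_e_add_int x 1
  rw [Int.cast_one] at h
  rw [h]
  ring

theorem mobius_lift (ζ : ℂ) (hζ : ‖ζ‖ < 1) : ∃ e : Equiv.Perm ℝ, IsD 1 e ∧
    ∀ x, mobius_e (e x) * (1 + ζ * mobius_e x) = mobius_e x + (starRingEnd ℂ) ζ := by
  have hpi : (0 : ℝ) < Real.pi := Real.pi_pos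
  obtain ⟨e, he, hex⟩ := isd_of_deriv 1 one_pos (mobius_F ζ) (mobius_F_smooth ζ hζ)
    (mobius_F_deriv ζ hζ) (mobius_F_per ζ)
  refine ⟨e, he, fun x => ?_⟩
  have hne : 1 + ζ * mobius_e x ≠ 0 := Complex.slitPlane_ne_zero (mobius_slit ζ hζ x)
  have h1 : mobius_e (e x) = mobius_e x *
      Complex.exp (-(2 * (Complex.arg (1 + ζ * mobius_e x) : ℂ) * Complex.I)) := by
    rw [hex x, mobius_F, Complex.log_im]
    generalize Complex.arg (1 + ζ * mobius_e x) = t
    unfold mobius_e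
    rw [← Complex.exp_add]
    congr 1
    have : (Real.pi : ℂ) ≠ 0 := by exact_mod_cast hpi.ne'
    push_cast
    field_simp
    ring
  rw [h1, mul_assoc, mobius_arg _ hne, map_add, map_one, map_mul, mul_add, mul_one]
  have h2 := mobius_e_conj x
  linear_combination (starRingEnd ℂ) ζ * h2

theorem mobius_alg (a w z z1 z3 z4 : ℂ) (ha : a ^ 2 = 3 / 5)
    (E1 : z1 * (1 + a * w) = w + a) (E2 : z * (1 + Complex.I / 2 * z1) = z1 - Complex.I / 2)
    (E3 : z3 * (1 + Complex.I / 2 * w) = w - Complex.I / 2) (E4 : z4 * (1 + a * z3) = z3 + a)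
    (h1 : 1 + a * w ≠ 0) (h2 : 1 + Complex.I / 2 * z1 ≠ 0) :
    z4 * ((a + Complex.I / 2) * z - 1) = z - (a - Complex.I / 2) := by
  have hI : Complex.I ^ 2 = -1 := Complex.I_sq
  have hne : (a + Complex.I / 2) * w + (1 + Complex.I / 2 * a) ≠ 0 := by
    have : (a + Complex.I / 2) * w + (1 + Complex.I / 2 * a) =
        (1 + a * w) * (1 + Complex.I / 2 * z1) := by
      linear_combination (-Complex.I / 2) * E1
    rw [this]
    exact mul_ne_zero h1 h2
  have F1 : z * ((a + Complex.I / 2) * w + (1 + Complex.I / 2 * a)) =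
      (1 - Complex.I / 2 * a) * w + (a - Complex.I / 2) := by
    linear_combination (1 + a * w) * E2 + (1 - z * Complex.I / 2) * E1
  have F2 : z4 * ((a + Complex.I / 2) * w + (1 - Complex.I / 2 * a)) =
      (1 + Complex.I / 2 * a) * w + (a - Complex.I / 2) := by
    linear_combination (1 + Complex.I / 2 * w) * E4 + (1 - z4 * a) * E3
  refine mul_right_cancel₀ hne ?_
  have G1 : ((a + Complex.I / 2) * z - 1) * ((a + Complex.I / 2) * w + (1 + Complex.I / 2 * a)) =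
      -(Complex.I / 2 * a) * ((a + Complex.I / 2) * w + (1 - Complex.I / 2 * a)) := by
    have : ((a + Complex.I / 2) * z - 1) * ((a + Complex.I / 2) * w + (1 + Complex.I / 2 * a)) =
      (a + Complex.I / 2) * ((1 - Complex.I / 2 * a) * w + (a - Complex.I / 2)) -
        ((a + Complex.I / 2) * w + (1 + Complex.I / 2 * a)) := by
      linear_combination (a + Complex.I / 2) * F1
    rw [this]
    linear_combination (5 / 4 : ℂ) * ha + (-1 / 4 - a ^ 2 / 4) * hI
  have G2 : (z - (a - Complex.I / 2)) * ((a + Complex.I / 2) * w + (1 + Complex.I / 2 * a)) =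
      -(Complex.I / 2 * a) * ((1 + Complex.I / 2 * a) * w + (a - Complex.I / 2)) := by
    have : (z - (a - Complex.I / 2)) * ((a + Complex.I / 2) * w + (1 + Complex.I / 2 * a)) =
      (1 - Complex.I / 2 * a) * w + (a - Complex.I / 2) -
        (a - Complex.I / 2) * ((a + Complex.I / 2) * w + (1 + Complex.I / 2 * a)) := by
      linear_combination F1
    rw [this]
    linear_combination (-5 / 4 * w : ℂ) * ha + (1 / 4 + a ^ 2 / 4) * w * hI
  rw [mul_assoc, G1, G2]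
  linear_combination (-(Complex.I / 2 * a)) * F2

theorem mobius_inv (c z z4 z5 : ℂ) (hc : c * (starRingEnd ℂ) c ≠ 1)
    (h1 : z4 * (c * z - 1) = z - (starRingEnd ℂ) c) (h2 : z5 * (c * z4 - 1) = z4 - (starRingEnd ℂ) c)
    (hz : c * z - 1 ≠ 0) : z5 = z := by
  have h3 : 1 - c * (starRingEnd ℂ) c ≠ 0 := sub_ne_zero.2 (Ne.symm hc)
  refine mul_right_cancel₀ h3 ?_
  have e1 : (c * z4 - 1) * (c * z - 1) = 1 - c * (starRingEnd ℂ) c := by
    linear_combination c * h1
  have e2 : (z4 - (starRingEnd ℂ) c) * (c * z - 1) = z * (1 - c * (starRingEnd ℂ) c) := by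
    linear_combination h1
  rw [← e1, ← mul_assoc, h2, e2, e1]

/-- A commutator which is a fixed point free involution of the circle. -/
theorem mobius : ∃ (X H : Equiv.Perm ℝ) (m : ℤ), IsD 1 X ∧ IsD 1 H ∧
    ∀ x, (X * H * X⁻¹ * H⁻¹) ((X * H * X⁻¹ * H⁻¹) x) = x + (2 * m + 1) := by
  have ha0 : (Real.sqrt (3 / 5)) ^ 2 = 3 / 5 := Real.sq_sqrt (by norm_num)
  have han : 0 ≤ Real.sqrt (3 / 5) := Real.sqrt_nonneg _
  set a : ℝ := Real.sqrt (3 / 5) with hadef
  have ha1 : a < 1 := by nlinarith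
  have hanorm : ‖(a : ℂ)‖ < 1 := by
    rw [Complex.norm_real, Real.norm_of_nonneg han]
    exact ha1
  have hInorm : ‖Complex.I / 2‖ < 1 := by
    rw [norm_div, Complex.norm_I]
    norm_num
  obtain ⟨X, hX, hXe⟩ := mobius_lift a hanorm
  obtain ⟨H, hH, hHe⟩ := mobius_lift (Complex.I / 2) hInorm
  have haC : (a : ℂ) ^ 2 = 3 / 5 := by
    have : ((a ^ 2 : ℝ) : ℂ) = ((3 / 5 : ℝ) : ℂ) := by rw [ha0]
    push_cast at this
    exact this
  have hc1 : (starRingEnd ℂ) (a : ℂ) = a := Complex.conj_ofReal a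
  have hc2 : (starRingEnd ℂ) (Complex.I / 2) = -(Complex.I / 2) := by
    rw [map_div₀, Complex.conj_I, map_ofNat]
    ring
  have hc3 : (starRingEnd ℂ) ((a : ℂ) + Complex.I / 2) = a - Complex.I / 2 := by
    rw [map_add, hc1, hc2]
    ring
  have hcc : ((a : ℂ) + Complex.I / 2) * (starRingEnd ℂ) ((a : ℂ) + Complex.I / 2) = 17 / 20 := by
    rw [hc3]
    linear_combination haC - 1 / 4 * Complex.I_sq
  have hcnorm : ‖(a : ℂ) + Complex.I / 2‖ < 1 := by
    have h1 : (((‖(a : ℂ) + Complex.I / 2‖) ^ 2 : ℝ) : ℂ) = ((17 / 20 : ℝ) : ℂ) := by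
      rw [← Complex.normSq_eq_norm_sq, ← Complex.mul_conj, hcc]
      norm_num
    have h2 : ‖(a : ℂ) + Complex.I / 2‖ ^ 2 = 17 / 20 := by exact_mod_cast h1
    nlinarith [norm_nonneg ((a : ℂ) + Complex.I / 2)]
  have hne : ∀ (c z : ℂ), ‖c‖ < 1 → ‖z‖ = 1 → 1 + c * z ≠ 0 := by
    intro c z hc hz h
    have h1 : c * z = -1 := by linear_combination h
    have h2 : ‖c * z‖ = 1 := by rw [h1, norm_neg, norm_one]
    rw [norm_mul, hz, mul_one] at h2
    linarith
  set N : Equiv.Perm ℝ := X * H * X⁻¹ * H⁻¹ with hN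
  have hNe : ∀ x, mobius_e (N x) * (((a : ℂ) + Complex.I / 2) * mobius_e x - 1) =
      mobius_e x - (starRingEnd ℂ) ((a : ℂ) + Complex.I / 2) := by
    intro x
    rw [hc3]
    have e1 := hXe (X⁻¹ (H⁻¹ x))
    have e2 := hHe (H⁻¹ x)
    have e3 := hHe (X⁻¹ (H⁻¹ x))
    have e4 := hXe (H (X⁻¹ (H⁻¹ x)))
    have i1 : ∀ y, X (X⁻¹ y) = y := fun y => X.apply_symm_apply y
    have i2 : ∀ y, H (H⁻¹ y) = y := fun y => H.apply_symm_apply y
    rw [i1, hc1] at e1
    rw [i2, hc2] at e2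
    rw [hc2] at e3
    rw [hc1] at e4
    exact mobius_alg a (mobius_e (X⁻¹ (H⁻¹ x))) (mobius_e x) (mobius_e (H⁻¹ x))
      (mobius_e (H (X⁻¹ (H⁻¹ x)))) (mobius_e (N x)) haC e1 (by rw [e2]; ring) (by rw [e3]; ring) e4
      (hne _ _ hanorm (mobius_e_norm _)) (hne _ _ hInorm (mobius_e_norm _))
  have hcz : ∀ x, ((a : ℂ) + Complex.I / 2) * mobius_e x - 1 ≠ 0 := by
    intro x h
    have := hne (-((a : ℂ) + Complex.I / 2)) (mobius_e x) (by rw [norm_neg]; exact hcnorm)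
      (mobius_e_norm x)
    apply this
    linear_combination -h
  have hNN : ∀ x, ∃ n : ℤ, N (N x) = x + n := by
    intro x
    apply mobius_e_eq
    exact mobius_inv ((a : ℂ) + Complex.I / 2) (mobius_e x) (mobius_e (N x)) (mobius_e (N (N x)))
      (by rw [hcc]; norm_num) (hNe x) (hNe (N x)) (hcz x)
  have hNfix : ∀ (x : ℝ) (n : ℤ), N x ≠ x + n := by
    intro x n hx
    have h1 := hNe x
    rw [hx, mobius_e_add_int] at h1
    have h2 := mobius_e_conj x
    have h3 : ((a : ℂ) + Complex.I / 2) * mobius_e x +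
        (starRingEnd ℂ) (((a : ℂ) + Complex.I / 2) * mobius_e x) = 2 := by
      rw [map_mul]
      linear_combination (starRingEnd ℂ) (mobius_e x) * h1 +
        (2 - ((a : ℂ) + Complex.I / 2) * mobius_e x) * h2
    have h4 := congrArg Complex.re h3
    rw [Complex.add_re, Complex.conj_re] at h4
    have h5 := Complex.re_le_norm (((a : ℂ) + Complex.I / 2) * mobius_e x)
    rw [norm_mul, mobius_e_norm, mul_one] at h5
    have h6 : (2 : ℂ).re = 2 := rfl
    rw [h6] at h4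
    linarith
  have hNI : IsD 1 N := isd_mul (isd_mul (isd_mul hX hH) (isd_inv hX)) (isd_inv hH)
  have hcont : Continuous (fun x => N x - x) := hNI.1.1.continuous.sub continuous_id
  have hk : ∀ x, (⌊N 0 - 0⌋ : ℝ) < N x - x ∧ N x - x < ⌊N 0 - 0⌋ + 1 := by
    have h1 : (⌊N 0 - 0⌋ : ℝ) < N 0 - 0 := by
      refine lt_of_le_of_ne (Int.floor_le _) ?_
      intro h
      exact hNfix 0 ⌊N 0 - 0⌋ (by rw [h]; ring)
    have h2 : N 0 - 0 < ⌊N 0 - 0⌋ + 1 := Int.lt_floor_add_one _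
    intro x
    constructor
    · by_contra hcon
      push Not at hcon
      obtain ⟨y, hy⟩ := mem_range_of_exists_le_of_exists_ge hcont ⟨x, hcon⟩ ⟨0, h1.le⟩
      exact hNfix y ⌊N 0 - 0⌋ (by rw [← hy]; ring)
    · by_contra hcon
      push Not at hcon
      obtain ⟨y, hy⟩ := mem_range_of_exists_le_of_exists_ge hcont ⟨0, h2.le⟩ ⟨x, hcon⟩
      exact hNfix y (⌊N 0 - 0⌋ + 1) (by push_cast; rw [← hy]; ring)
  refine ⟨X, H, ⌊N 0 - 0⌋, hX, hH, fun x => ?_⟩
  obtain ⟨n, hn⟩ := hNN x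
  have h1 := hk x
  have h2 := hk (N x)
  rw [hn] at h2
  have h3 : ((2 * ⌊N 0 - 0⌋ : ℤ) : ℝ) < (n : ℝ) := by push_cast; linarith
  have h4 : (n : ℝ) < ((2 * ⌊N 0 - 0⌋ + 2 : ℤ) : ℝ) := by push_cast; linarith
  have h5 : 2 * ⌊N 0 - 0⌋ < n := by exact_mod_cast h3
  have h6 : n < 2 * ⌊N 0 - 0⌋ + 2 := by exact_mod_cast h4
  have h7 : n = 2 * ⌊N 0 - 0⌋ + 1 := by omega
  rw [hn, h7]
  push_cast
  ring

end Pool.Agent.Helper339.CW
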