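import Mathlib
import Pool.Agent.Helper339.CW.Defs
import Pool.Agent.Helper339.CW.P_basics
import Pool.Agent.Helper339.CW.P_interp

set_option autoImplicit false

open scoped ContDiff Manifold
open MeasureTheory Set

namespace Pool.Agent.Helper339.CW


/-! ### TARGET: prove this. Prefix the names of all your auxiliary lemmas with normal_form_ -/

theorem normal_form_congr {f g : ℝ → ℝ} {x : ℝ} (h : ContDiffAt ℝ ∞ f x ∧ 0 < deriv f x)
    (hfg : g =ᶠ[nhds x] f) : ContDiffAt ℝ ∞ g x ∧ 0 < deriv g x := by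
  refine ⟨h.1.congr_of_eventuallyEq hfg, ?_⟩
  rw [hfg.deriv_eq]
  exact h.2

theorem normal_form_pt {f : ℝ → ℝ} {s t : ℝ} (hf : ContDiffOn ℝ ∞ f (Ioo s t))
    (hd : ∀ x ∈ Ioo s t, 0 < deriv f x) :
    ∀ x ∈ Ioo s t, ContDiffAt ℝ ∞ f x ∧ 0 < deriv f x :=
  fun x hx => ⟨hf.contDiffAt (Ioo_mem_nhds hx.1 hx.2), hd x hx⟩

theorem normal_form_comp {f g : ℝ → ℝ} {x : ℝ} (c : ℝ)
    (hf : ContDiffAt ℝ ∞ f (g x) ∧ 0 < deriv f (g x))
    (hg : ContDiffAt ℝ ∞ g x ∧ 0 < deriv g x) :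
    ContDiffAt ℝ ∞ (fun y => f (g y) + c) x ∧ 0 < deriv (fun y => f (g y) + c) x := by
  constructor
  · exact (hf.1.comp x hg.1).add contDiffAt_const
  · have h1 : HasDerivAt f (deriv f (g x)) (g x) :=
      (hf.1.differentiableAt (by simp)).hasDerivAt
    have h2 : HasDerivAt g (deriv g x) x := (hg.1.differentiableAt (by simp)).hasDerivAt
    have h3 : HasDerivAt (fun y => f (g y) + c) (deriv f (g x) * deriv g x) x :=
      (h1.comp x h2).add_const c
    rw [h3.deriv]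
    exact mul_pos hf.2 hg.2

/-- periodic extension -/
theorem normal_form_PE (Y₀ : ℝ → ℝ) (p η L : ℝ) (hη : 0 < η) (hη1 : η ≤ 1)
    (h : ∀ x ∈ Ioo (p - η) (p + 1 + η), ContDiffAt ℝ ∞ Y₀ x ∧ 0 < deriv Y₀ x)
    (hp : ∀ x ∈ Ioo (p - η) (p + η), Y₀ (x + 1) = Y₀ x + L) :
    ∃ Y : ℝ → ℝ, ContDiff ℝ ∞ Y ∧ (∀ x, 0 < deriv Y x) ∧ (∀ x, Y (x + 1) = Y x + L) ∧
      ∀ x ∈ Ioo (p - η) (p + 1 + η), Y x = Y₀ x := by
  obtain ⟨Y, hY⟩ : ∃ Y : ℝ → ℝ, ∀ x, Y x = Y₀ (x - ⌊x - p⌋) + L * ⌊x - p⌋ := ⟨_, fun _ => rfl⟩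
  have hper : ∀ x, Y (x + 1) = Y x + L := by
    intro x
    have h1 : ⌊x + 1 - p⌋ = ⌊x - p⌋ + 1 := by
      rw [show x + 1 - p = (x - p) + 1 by ring, Int.floor_add_one]
    rw [hY, hY, h1]
    push_cast
    rw [show x + 1 - ((⌊x - p⌋ : ℝ) + 1) = x - (⌊x - p⌋ : ℝ) by ring]
    ring
  have heq : ∀ x ∈ Ioo (p - η) (p + 1 + η), Y x = Y₀ x := by
    intro x hx
    rw [hY]
    rcases lt_or_ge x p with h1 | h1
    · have h2 : ⌊x - p⌋ = -1 := by
        rw [Int.floor_eq_iff]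
        push_cast
        constructor <;> linarith [hx.1]
      rw [h2]
      push_cast
      have h3 := hp x ⟨hx.1, by linarith⟩
      rw [show x - (-1 : ℝ) = x + 1 by ring, h3]
      ring
    · rcases lt_or_ge x (p + 1) with h4 | h4
      · have h2 : ⌊x - p⌋ = 0 := by
          rw [Int.floor_eq_iff]
          push_cast
          constructor <;> linarith
        rw [h2]
        simp
      · have h2 : ⌊x - p⌋ = 1 := by
          rw [Int.floor_eq_iff]
          push_cast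
          constructor <;> linarith [hx.2]
        rw [h2]
        push_cast
        have h3 := hp (x - 1) ⟨by linarith, by linarith [hx.2]⟩
        rw [show x - 1 + 1 = x by ring] at h3
        rw [h3]
        ring
  have hloc : ∀ x ∈ Ioo (p - η) (p + 1 + η), ContDiffAt ℝ ∞ Y x ∧ 0 < deriv Y x := by
    intro x hx
    refine normal_form_congr (h x hx) ?_
    filter_upwards [Ioo_mem_nhds hx.1 hx.2] with y hy
    exact heq y hy
  have hint : ∀ (n : ℤ) (x : ℝ), Y (x + n) = Y x + L * n := by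
    intro n x
    have h1 : ⌊x + n - p⌋ = ⌊x - p⌋ + n := by
      rw [show x + n - p = (x - p) + n by ring, Int.floor_add_intCast]
    rw [hY, hY, h1]
    push_cast
    rw [show x + (n : ℝ) - ((⌊x - p⌋ : ℝ) + n) = x - (⌊x - p⌋ : ℝ) by ring]
    ring
  have hall : ∀ x, ContDiffAt ℝ ∞ Y x ∧ 0 < deriv Y x := by
    intro x
    have h1 : x - (⌊x - p⌋ : ℝ) ∈ Ioo (p - η) (p + 1 + η) := by
      have h2 := Int.floor_le (x - p)
      have h3 := Int.lt_floor_add_one (x - p)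
      constructor <;> linarith
    have h2 : Y = fun y => Y (y - (⌊x - p⌋ : ℝ)) + L * (⌊x - p⌋ : ℝ) := by
      funext y
      have h3 := hint ⌊x - p⌋ (y - (⌊x - p⌋ : ℝ))
      rw [sub_add_cancel] at h3
      exact h3
    rw [h2]
    refine normal_form_comp (f := Y) (g := fun y => y - (⌊x - p⌋ : ℝ)) _ (hloc _ h1) ⟨?_, ?_⟩
    · exact contDiffAt_id.sub contDiffAt_const
    · have h4 : HasDerivAt (fun y : ℝ => y - (⌊x - p⌋ : ℝ)) 1 x := (hasDerivAt_id x).sub_const _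
      rw [h4.deriv]
      exact one_pos
  exact ⟨Y, contDiff_iff_contDiffAt.mpr fun x => (hall x).1, fun x => (hall x).2, hper, heq⟩

theorem normal_form_scale (Y : ℝ → ℝ) (hY : ContDiff ℝ ∞ Y) (hd : ∀ x, 0 < deriv Y x)
    (hp : ∀ x, Y (x + 1) = Y x + 200) : ∃ e : Equiv.Perm ℝ, SM e ∧ ∀ x, e x = Y x := by
  obtain ⟨e, he, hex⟩ := isd_of_deriv 1 one_pos (fun x => Y x / 200) (hY.div_const _)
    (fun x => by
      rw [deriv_div_const]
      exact div_pos (hd x) (by norm_num))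
    (fun x => by
      show Y (x + 1) / 200 = Y x / 200 + 1
      rw [hp x]
      ring)
  have hs : SM (Equiv.mulLeft₀ (200 : ℝ) (by norm_num)) := by
    refine ⟨?_, ?_, ?_⟩
    · show ContDiff ℝ ∞ fun x : ℝ => (200 : ℝ) * x
      exact contDiff_const.mul contDiff_id
    · show ContDiff ℝ ∞ fun x : ℝ => (200 : ℝ)⁻¹ * x
      exact contDiff_const.mul contDiff_id
    · intro x y hxy
      show (200 : ℝ) * x < 200 * y
      linarith
  refine ⟨_, sm_mul hs he.1, fun x => ?_⟩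
  show (200 : ℝ) * e x = Y x
  rw [hex x]
  ring

/-- Normal form. -/
theorem normal_form (F : Equiv.Perm ℝ) (hF : IsD 1 F) (x0 : ℝ) (h1 : x0 < F x0)
    (h3 : F (F x0) < x0 + 1) :
    ∃ Y : Equiv.Perm ℝ, SM Y ∧ (∀ x, Y (x + 1) = Y x + 200) ∧
      ∀ y, -26 ≤ y → y ≤ 53 → Y (F (Y⁻¹ y)) = y + 40 := by
  have hFs := hF.1
  have hmono : StrictMono (fun x => F x) := hFs.2.2
  have hFc : Continuous (fun x => F x) := hFs.1.continuous
  have hlt : ∀ x y : ℝ, x < y → F x < F y := fun x y h => hmono h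
  have hle : ∀ x y : ℝ, x ≤ y → F x ≤ F y := fun x y h => hmono.monotone h
  have hFi : ∀ x : ℝ, F⁻¹ (F x) = x := fun x => by simp
  have hFi' : ∀ x : ℝ, F (F⁻¹ x) = x := fun x => by simp
  have hilt : ∀ x y : ℝ, x < y → F⁻¹ x < F⁻¹ y := fun x y h => (sm_inv hFs).2.2 h
  have hPinv : ∀ x : ℝ, ContDiffAt ℝ ∞ (fun y => F⁻¹ y) x ∧ 0 < deriv (fun y => F⁻¹ y) x :=
    fun x => ⟨hFs.2.1.contDiffAt, sm_deriv_pos (sm_inv hFs) x⟩
  -- choice of the scale
  obtain ⟨e, he0, he1, he2⟩ : ∃ e : ℝ, 0 < e ∧ x0 + 13.2 * e < F (x0 - 26.2 * e) ∧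
      F (F (x0 + 13.2 * e)) < x0 + 1 - 26.2 * e := by
    have t1 : Filter.Tendsto (fun e : ℝ => F (x0 - 26.2 * e) - (x0 + 13.2 * e)) (nhds 0)
        (nhds (F (x0 - 26.2 * 0) - (x0 + 13.2 * 0))) := by
      have : Continuous (fun e : ℝ => F (x0 - 26.2 * e) - (x0 + 13.2 * e)) :=
        (hFc.comp (by fun_prop : Continuous fun e : ℝ => x0 - 26.2 * e)).sub (by fun_prop)
      exact this.tendsto 0
    have t2 : Filter.Tendsto (fun e : ℝ => (x0 + 1 - 26.2 * e) - F (F (x0 + 13.2 * e))) (nhds 0)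
        (nhds ((x0 + 1 - 26.2 * 0) - F (F (x0 + 13.2 * 0)))) := by
      have : Continuous (fun e : ℝ => (x0 + 1 - 26.2 * e) - F (F (x0 + 13.2 * e))) :=
        (by fun_prop : Continuous fun e : ℝ => x0 + 1 - 26.2 * e).sub
          (hFc.comp (hFc.comp (by fun_prop : Continuous fun e : ℝ => x0 + 13.2 * e)))
      exact this.tendsto 0
    have p1 : (0 : ℝ) < F (x0 - 26.2 * 0) - (x0 + 13.2 * 0) := by
      simp only [mul_zero, sub_zero, add_zero]
      linarith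
    have p2 : (0 : ℝ) < (x0 + 1 - 26.2 * 0) - F (F (x0 + 13.2 * 0)) := by
      simp only [mul_zero, sub_zero, add_zero]
      linarith
    have e1 := (t1.eventually (lt_mem_nhds p1)).and (t2.eventually (lt_mem_nhds p2))
    have e2 : ∀ᶠ e : ℝ in nhdsWithin 0 (Ioi 0), (0 < F (x0 - 26.2 * e) - (x0 + 13.2 * e) ∧
        0 < (x0 + 1 - 26.2 * e) - F (F (x0 + 13.2 * e))) := nhdsWithin_le_nhds e1
    obtain ⟨e, ⟨h5, h6⟩, h7⟩ := (e2.and self_mem_nhdsWithin).exists
    exact ⟨e, h7, by linarith, by linarith⟩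
  -- consequences
  have g1 : x0 + 13.2 * e < F x0 := he1.trans (hlt _ _ (by linarith))
  have g2 : F x0 < F (F (x0 - 26.2 * e)) := hlt _ _ (by linarith)
  have g3 : F x0 < F (x0 + 13.2 * e) := hlt _ _ (by linarith)
  have g4 : F (x0 + 13.2 * e) < F (F (x0 + 13.2 * e)) := hlt _ _ (by linarith)
  have g5 : F (x0 - 26.2 * e) < F x0 := hlt _ _ (by linarith)
  -- the linear function
  obtain ⟨y1, hy1⟩ : ∃ y1 : ℝ → ℝ, ∀ x, y1 x = (x - x0) / e := ⟨_, fun _ => rfl⟩
  have hPy1 : ∀ x, ContDiffAt ℝ ∞ y1 x ∧ 0 < deriv y1 x := by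
    intro x
    have h5 : y1 = fun x => (x - x0) / e := funext hy1
    rw [h5]
    constructor
    · exact (contDiffAt_id.sub contDiffAt_const).div_const _
    · have h6 : HasDerivAt (fun x : ℝ => (x - x0) / e) (1 / e) x :=
        ((hasDerivAt_id x).sub_const _).div_const _
      rw [h6.deriv]
      positivity
  have hPg : ∀ x, ContDiffAt ℝ ∞ (fun y => y1 (F⁻¹ y) + 40) x ∧
      0 < deriv (fun y => y1 (F⁻¹ y) + 40) x :=
    fun x => normal_form_comp 40 (hPy1 _) (hPinv x)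
  -- first interpolation
  obtain ⟨h₁, δ', hδ0, _, hδab, hh₁c, hh₁d, hh₁f, hh₁g⟩ := interp (x0 + 13.2 * e)
    (F (x0 - 26.2 * e)) 10 he1 (by norm_num) y1 (fun y => y1 (F⁻¹ y) + 40)
    (fun x _ => (hPy1 x).1.contDiffWithinAt) (fun x _ => (hPy1 x).2)
    (fun x _ => (hPg x).1.contDiffWithinAt) (fun x _ => (hPg x).2)
    (by
      show y1 (x0 + 13.2 * e) < y1 (F⁻¹ (F (x0 - 26.2 * e))) + 40
      rw [hFi, hy1, hy1]
      have h5 : (x0 + 13.2 * e - x0) / e = 13.2 := by field_simp; ring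
      have h6 : (x0 - 26.2 * e - x0) / e = -26.2 := by field_simp; ring
      rw [h5, h6]
      norm_num)
  have hPh₁ := normal_form_pt hh₁c hh₁d
  -- gluing
  obtain ⟨Y₁, hY₁⟩ : ∃ Y₁ : ℝ → ℝ, ∀ x, Y₁ x = if x < F x0 then h₁ x else h₁ (F⁻¹ x) + 40 :=
    ⟨_, fun _ => rfl⟩
  have hY₁a : ∀ x, x < F x0 → Y₁ x = h₁ x := fun x hx => by rw [hY₁, if_pos hx]
  have hY₁b : ∀ x, F x0 ≤ x → Y₁ x = h₁ (F⁻¹ x) + 40 := fun x hx => by
    rw [hY₁, if_neg (not_lt.mpr hx)]
  -- overlap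
  have hov : ∀ x, F (x0 - 26.2 * e) ≤ x → x ≤ F (x0 + 13.2 * e) → h₁ x = h₁ (F⁻¹ x) + 40 := by
    intro x hx1 hx2
    have h5 : F⁻¹ x ≤ x0 + 13.2 * e := by
      by_contra hcon
      have := hlt _ _ (not_le.mp hcon)
      rw [hFi'] at this
      linarith
    have h6 : x0 - 26.2 * e ≤ F⁻¹ x := by
      by_contra hcon
      have := hlt _ _ (not_le.mp hcon)
      rw [hFi'] at this
      linarith
    have h7 := hh₁g x ⟨by linarith, by linarith⟩
    have h8 := hh₁f (F⁻¹ x) ⟨by linarith, by linarith⟩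
    rw [h7, h8]
  have hPY₁ : ∀ x ∈ Ioo (x0 - 9) (x0 + 10), ContDiffAt ℝ ∞ Y₁ x ∧ 0 < deriv Y₁ x := by
    intro x hx
    rcases lt_or_ge x (F x0) with h5 | h5
    · refine normal_form_congr (hPh₁ x ⟨by linarith [hx.1], by linarith⟩) ?_
      filter_upwards [Iio_mem_nhds h5] with y hy
      exact hY₁a y hy
    · have h6 : F⁻¹ x < x0 + 10 := by
        by_contra hcon
        have h7 := hle _ _ (not_lt.mp hcon)
        rw [hFi'] at h7
        have h8 := isd_add_int hF x0 10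
        norm_num at h8
        linarith [hx.2]
      have h7 : x0 ≤ F⁻¹ x := by
        by_contra hcon
        have h7 := hlt _ _ (not_le.mp hcon)
        rw [hFi'] at h7
        linarith
      refine normal_form_congr (normal_form_comp (f := h₁) (g := fun y => F⁻¹ y) 40
        (hPh₁ (F⁻¹ x) ⟨by linarith, by linarith⟩) (hPinv x)) ?_
      have h8 : F (x0 - 26.2 * e) < x := by linarith
      filter_upwards [Ioi_mem_nhds h8] with y hy
      rcases lt_or_ge y (F x0) with h9 | h9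
      · rw [hY₁a y h9]
        exact hov y (le_of_lt hy) (by linarith)
      · exact hY₁b y h9
  -- second interpolation
  have hY₁a₂ : Y₁ (F (F (x0 + 13.2 * e))) = 93.2 := by
    rw [hY₁b _ (by linarith), hFi, hov _ (by linarith) le_rfl, hFi,
      hh₁f _ ⟨by linarith, by linarith⟩, hy1]
    have h5 : (x0 + 13.2 * e - x0) / e = 13.2 := by field_simp; ring
    rw [h5]
    norm_num
  have hPg₂ : ∀ x, ContDiffAt ℝ ∞ (fun y => y1 (y - 1) + 200) x ∧
      0 < deriv (fun y => y1 (y - 1) + 200) x := by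
    intro x
    refine normal_form_comp (f := y1) (g := fun y => y - 1) 200 (hPy1 _) ⟨?_, ?_⟩
    · exact contDiffAt_id.sub contDiffAt_const
    · have h4 : HasDerivAt (fun y : ℝ => y - 1) 1 x := (hasDerivAt_id x).sub_const _
      rw [h4.deriv]
      exact one_pos
  have g6 : x0 < F (F (x0 + 13.2 * e)) := by linarith
  obtain ⟨Y₂, δ₂, hδ₂0, _, hδ₂ab, hY₂c, hY₂d, hY₂f, hY₂g⟩ := interp (F (F (x0 + 13.2 * e)))
    (x0 + 1 - 26.2 * e) 3 he2 (by norm_num) Y₁ (fun y => y1 (y - 1) + 200)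
    (fun x hx => (hPY₁ x ⟨by linarith [hx.1], by linarith [hx.2]⟩).1.contDiffWithinAt)
    (fun x hx => (hPY₁ x ⟨by linarith [hx.1], by linarith [hx.2]⟩).2)
    (fun x _ => (hPg₂ x).1.contDiffWithinAt) (fun x _ => (hPg₂ x).2)
    (by
      rw [hY₁a₂]
      show (93.2 : ℝ) < y1 (x0 + 1 - 26.2 * e - 1) + 200
      rw [hy1]
      have h6 : (x0 + 1 - 26.2 * e - 1 - x0) / e = -26.2 := by field_simp; ring
      rw [h6]
      norm_num)
  have hPY₂ := normal_form_pt hY₂c hY₂d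
  have hY₂lo : ∀ x, x0 - 1 ≤ x → x ≤ F (F (x0 + 13.2 * e)) → Y₂ x = Y₁ x := by
    intro x hx1 hx2
    exact hY₂f x ⟨by linarith, by linarith⟩
  have hY₁lo : ∀ x, x0 - 1 ≤ x → x ≤ x0 + 13.2 * e → Y₁ x = y1 x := by
    intro x hx1 hx2
    rw [hY₁a x (by linarith), hh₁f x ⟨by linarith, by linarith⟩]
  -- periodic extension
  obtain ⟨Y, hYc, hYd, hYp, hYe⟩ := normal_form_PE Y₂ (x0 - 10 * e) (16.1 * e) 200 (by positivity)
    (by linarith)
    (fun x hx => hPY₂ x ⟨by linarith [hx.1], by linarith [hx.2]⟩)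
    (by
      intro x hx
      have h5 : Y₂ x = y1 x := by
        rw [hY₂lo x (by linarith [hx.1]) (by linarith [hx.2]),
          hY₁lo x (by linarith [hx.1]) (by linarith [hx.2])]
      have h6 : Y₂ (x + 1) = y1 x + 200 := by
        rw [hY₂g (x + 1) ⟨by linarith [hx.1], by linarith [hx.2]⟩]
        show y1 (x + 1 - 1) + 200 = y1 x + 200
        rw [add_sub_cancel_right]
      rw [h5, h6])
  obtain ⟨E, hE, hEY⟩ := normal_form_scale Y hYc hYd hYp
  refine ⟨E, hE, fun x => by rw [hEY, hEY, hYp], ?_⟩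
  intro y hy1' hy2
  -- values of `E`
  have hEv : ∀ x, x0 - 26 * e ≤ x → x ≤ F (F (x0 + 13.2 * e)) → E x = Y₁ x := by
    intro x hx1 hx2
    rw [hEY, hYe x ⟨by linarith, by linarith⟩, hY₂lo x (by linarith) hx2]
  have hEmono : StrictMono (fun x => E x) := hE.2.2
  set x := E⁻¹ y with hx
  have hExy : E x = y := by rw [hx]; simp
  have hx1 : x0 - 26 * e ≤ x := by
    by_contra hcon
    have h5 : E x < E (x0 - 26 * e) := hEmono (not_le.mp hcon)
    rw [hExy, hEv _ le_rfl (by linarith), hY₁lo _ (by linarith) (by linarith), hy1] at h5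
    have h6 : (x0 - 26 * e - x0) / e = -26 := by field_simp; ring
    rw [h6] at h5
    linarith
  have g7 : F x0 < F (x0 + 13 * e) := hlt _ _ (by linarith)
  have g8 : F (x0 + 13 * e) < F (x0 + 13.2 * e) := hlt _ _ (by linarith)
  have hx2 : x ≤ F (x0 + 13 * e) := by
    by_contra hcon
    have h5 : E (F (x0 + 13 * e)) < E x := hEmono (not_le.mp hcon)
    rw [hExy, hEv _ (by linarith) (by linarith), hY₁b _ g7.le, hFi,
      hh₁f _ ⟨by linarith, by linarith⟩, hy1] at h5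
    have h6 : (x0 + 13 * e - x0) / e = 13 := by field_simp; ring
    rw [h6] at h5
    linarith
  have hFx1 : F (x0 - 26.2 * e) < F x := hlt _ _ (by linarith)
  have hFx2 : F x ≤ F (F (x0 + 13.2 * e)) := hle _ _ (by linarith)
  rw [hEv (F x) (by linarith) hFx2, ← hExy, hEv x hx1 (by linarith)]
  rcases lt_or_ge x (F x0) with h5 | h5
  · rw [hY₁a x h5]
    rcases lt_or_ge (F x) (F x0) with h6 | h6
    · rw [hY₁a _ h6, hov _ hFx1.le (by linarith), hFi]
    · rw [hY₁b _ h6, hFi]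
  · have h6 : F x0 ≤ F x := hle _ _ (by linarith)
    rw [hY₁b _ h6, hFi, hY₁b x h5, hov x (by linarith) (by linarith)]

end Pool.Agent.Helper339.CW
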