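import Mathlib
import Pool.Agent.Helper339.CW.Defs
import Pool.Agent.Helper339.CW.P_basics
import Pool.Agent.Helper339.CW.P_normal_form
import Pool.Agent.Helper339.CW.P_generic_case
import Pool.Agent.Helper339.CW.P_case_split
import Pool.Agent.Helper339.CW.P_invol_conj
import Pool.Agent.Helper339.CW.P_mobius

set_option autoImplicit false

open scoped ContDiff Manifold
open MeasureTheory Set

namespace Pool.Agent.Helper339.CW


/-! ### TARGET: prove this. Prefix the names of all your auxiliary lemmas with main_line_ -/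

theorem main_line_inv_shift {Y : Equiv.Perm ℝ} (hY : ∀ x, Y (x + 1) = Y x + 200) (y : ℝ) :
    Y⁻¹ (y + 200) = Y⁻¹ y + 1 := by
  have h0 : ∀ z, Y (Y⁻¹ z) = z := fun z => Y.apply_symm_apply z
  apply Y.injective
  rw [h0, hY, h0]

theorem main_line_conj {Z X : Equiv.Perm ℝ} (hZ : IsD 1 Z) (hX : IsD 1 X) :
    IsD 1 (Z * X * Z⁻¹) := isd_mul (isd_mul hZ hX) (isd_inv hZ)

theorem main_line_comm {X H : Equiv.Perm ℝ} (hX : IsD 1 X) (hH : IsD 1 H) :
    IsD 1 (X * H * X⁻¹ * H⁻¹) := isd_mul (isd_mul (isd_mul hX hH) (isd_inv hX)) (isd_inv hH)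

theorem main_line_int {Z : Equiv.Perm ℝ} (hZ : IsD 1 Z) (x : ℝ) (n : ℤ) : Z (x + n) = Z x + n := by
  have h := isd_add_int hZ x n
  rw [mul_one] at h
  exact h

theorem main_line_generic (G : Equiv.Perm ℝ) (hG : IsD 1 G) (x0 : ℝ) (h1 : x0 < G x0)
    (h3 : G (G x0) < x0 + 1) :
    ∃ X H : Equiv.Perm ℝ, IsD 1 X ∧ IsD 1 H ∧ G = X * H * X⁻¹ * H⁻¹ := by
  obtain ⟨Y, hYs, hYp, hYn⟩ := normal_form G hG x0 h1 h3
  have hYi := main_line_inv_shift hYp
  have hF' : IsD 200 (Y * G * Y⁻¹) := by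
    refine ⟨sm_mul (sm_mul hYs hG.1) (sm_inv hYs), ?_⟩
    intro y
    simp only [Equiv.Perm.mul_apply]
    rw [hYi, hG.2, hYp]
  obtain ⟨X, H, hX, hH, hXH⟩ := generic_case (Y * G * Y⁻¹) hF' (by
    intro y hy1 hy2
    simp only [Equiv.Perm.mul_apply]
    exact hYn y hy1 hy2)
  have hback : ∀ Z : Equiv.Perm ℝ, IsD 200 Z → IsD 1 (Y⁻¹ * Z * Y) := by
    intro Z hZ
    refine ⟨sm_mul (sm_mul (sm_inv hYs) hZ.1) hYs, ?_⟩
    intro x
    simp only [Equiv.Perm.mul_apply]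
    rw [hYp, hZ.2, hYi]
  refine ⟨Y⁻¹ * X * Y, Y⁻¹ * H * Y, hback X hX, hback H hH, ?_⟩
  have e1 : G = Y⁻¹ * (Y * G * Y⁻¹) * Y := by group
  rw [e1, hXH]
  group

/-- Main theorem on the line. -/
theorem main_line (F : Equiv.Perm ℝ) (hF : IsD 1 F) : ∃ (X H : Equiv.Perm ℝ) (m : ℤ), IsD 1 X ∧ IsD 1 H ∧
    ∀ x, F x = (X * H * X⁻¹ * H⁻¹) x + m := by
  rcases case_split F hF with ⟨m, hm⟩ | ⟨m, x0, h1, h2⟩ | ⟨m, x0, h1, h2⟩ | ⟨m, hm⟩
  · refine ⟨1, 1, m, isd_one 1, isd_one 1, ?_⟩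
    intro x
    rw [hm x]
    simp
  · have hG : IsD 1 (tr m * F) := isd_mul (isd_tr 1 m) hF
    have hGa : ∀ x, (tr m * F) x = F x + m := fun x => by
      rw [Equiv.Perm.mul_apply, tr_apply]
    obtain ⟨X, H, hX, hH, hXH⟩ := main_line_generic (tr m * F) hG x0 (by rw [hGa]; exact h1)
      (by rw [hGa, hGa]; exact h2)
    refine ⟨X, H, -m, hX, hH, ?_⟩
    intro x
    rw [← hXH, hGa]
    push_cast
    ring
  · have hG : IsD 1 (tr m * F⁻¹) := isd_mul (isd_tr 1 m) (isd_inv hF)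
    have hGa : ∀ x, (tr m * F⁻¹) x = F⁻¹ x + m := fun x => by
      rw [Equiv.Perm.mul_apply, tr_apply]
    obtain ⟨X, H, hX, hH, hXH⟩ := main_line_generic (tr m * F⁻¹) hG x0 (by rw [hGa]; exact h1)
      (by rw [hGa, hGa]; exact h2)
    refine ⟨H, X, m, hH, hX, ?_⟩
    intro x
    have e1 : F = (H * X * H⁻¹ * X⁻¹) * tr m := by
      have e2 : (H * X * H⁻¹ * X⁻¹) = (X * H * X⁻¹ * H⁻¹)⁻¹ := by group
      rw [e2, ← hXH]
      group
    have e3 : F x = (H * X * H⁻¹ * X⁻¹) (x + m) := by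
      conv_lhs => rw [e1]
      rw [Equiv.Perm.mul_apply, tr_apply]
    rw [e3, main_line_int (main_line_comm hH hX)]
  · have hG : IsD 1 (tr m * F) := isd_mul (isd_tr 1 m) hF
    have hGa : ∀ x, (tr m * F) x = F x + m := fun x => by
      rw [Equiv.Perm.mul_apply, tr_apply]
    obtain ⟨φ, hφ, hφG⟩ := invol_conj (tr m * F) hG (by
      intro x
      rw [hGa, hGa]
      exact hm x)
    obtain ⟨X, H, m', hX, hH, hN⟩ := mobius
    set N : Equiv.Perm ℝ := X * H * X⁻¹ * H⁻¹ with hNdef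
    have hND : IsD 1 N := main_line_comm hX hH
    have hN'D : IsD 1 (tr (-(m' : ℝ)) * N) := isd_mul (isd_tr 1 _) hND
    have hN'a : ∀ x, (tr (-(m' : ℝ)) * N) x = N x + -(m' : ℝ) := fun x => by
      rw [Equiv.Perm.mul_apply, tr_apply]
    obtain ⟨φ', hφ', hφN⟩ := invol_conj (tr (-(m' : ℝ)) * N) hN'D (by
      intro x
      rw [hN'a, hN'a]
      have h1 := main_line_int hND (N x) (-m')
      push_cast at h1
      rw [h1, hN x]
      ring)
    have hφG' : φ * (tr m * F) = tr (1 / 2) * φ := by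
      apply Equiv.ext
      intro x
      rw [Equiv.Perm.mul_apply, Equiv.Perm.mul_apply, tr_apply]
      exact hφG x
    have hφN' : φ' * (tr (-(m' : ℝ)) * N) = tr (1 / 2) * φ' := by
      apply Equiv.ext
      intro x
      rw [Equiv.Perm.mul_apply, Equiv.Perm.mul_apply, tr_apply]
      exact hφN x
    have hZ : IsD 1 (φ⁻¹ * φ') := isd_mul (isd_inv hφ) hφ'
    set Z : Equiv.Perm ℝ := φ⁻¹ * φ' with hZdef
    have e1 : tr m * F = Z * (tr (-(m' : ℝ)) * N) * Z⁻¹ := by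
      have e2 : tr m * F = φ⁻¹ * tr (1 / 2) * φ := by
        rw [mul_assoc φ⁻¹, ← hφG']
        group
      have e3 : (tr (1 / 2) : Equiv.Perm ℝ) = φ' * (tr (-(m' : ℝ)) * N) * φ'⁻¹ := by
        rw [hφN']
        group
      rw [e2, e3, hZdef]
      group
    refine ⟨Z * X * Z⁻¹, Z * H * Z⁻¹, -m' - m, main_line_conj hZ hX, main_line_conj hZ hH, ?_⟩
    intro x
    have e4 : (Z * X * Z⁻¹) * (Z * H * Z⁻¹) * (Z * X * Z⁻¹)⁻¹ * (Z * H * Z⁻¹)⁻¹ = Z * N * Z⁻¹ := by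
      rw [hNdef]
      group
    rw [e4]
    have e5 : (tr m * F) x = (Z * N * Z⁻¹) x + -(m' : ℝ) := by
      rw [e1]
      simp only [Equiv.Perm.mul_apply, tr_apply]
      have h1 := main_line_int hZ (N (Z⁻¹ x)) (-m')
      push_cast at h1
      exact h1
    rw [hGa] at e5
    have e6 : ((-m' - m : ℤ) : ℝ) = -(m' : ℝ) - m := by push_cast; ring
    rw [e6]
    linarith

end Pool.Agent.Helper339.CW
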